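import Pool.Agent.CG3.SelQ

/-!
Freeness of the action of the rational group on the cells, and the equivariant section.
-/

set_option autoImplicit false

noncomputable section

namespace Pool.Agent.CG3.Sel

open Matrix

/-- An equivariant map to the group from a set on which the action is free. -/
theorem exists_sec {H Q : Type} [Group H] [MulAction H Q] (Q₀ : Set Q)
    (h1 : ∀ (γ : H), ∀ q ∈ Q₀, γ • q ∈ Q₀) (hfree : ∀ (γ : H), ∀ q ∈ Q₀, γ • q = q → γ = 1) :
    ∃ s : Q → H, ∀ (γ : H), ∀ q ∈ Q₀, s (γ • q) = γ * s q := by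
  have hex : ∀ q : Q, ∃ γ : H, γ • (Quotient.out (s := MulAction.orbitRel H Q)
      (Quotient.mk (MulAction.orbitRel H Q) q)) = q := by
    intro q
    have h2 : (MulAction.orbitRel H Q).r (Quotient.out (s := MulAction.orbitRel H Q)
        (Quotient.mk (MulAction.orbitRel H Q) q)) q := Quotient.mk_out (s := MulAction.orbitRel H Q) q
    have h3 := (MulAction.orbitRel H Q).symm h2
    obtain ⟨γ, hγ⟩ := h3
    exact ⟨γ, hγ⟩
  choose s hs using hex
  refine ⟨s, ?_⟩
  intro γ q hq
  have h2 : Quotient.mk (MulAction.orbitRel H Q) (γ • q) = Quotient.mk (MulAction.orbitRel H Q) q :=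
    Quotient.sound (s := MulAction.orbitRel H Q) ⟨γ, rfl⟩
  have h3 := hs (γ • q)
  rw [h2] at h3
  have h4 := hs q
  set o := Quotient.out (s := MulAction.orbitRel H Q) (Quotient.mk (MulAction.orbitRel H Q) q)
    with ho
  have h5 : ((s (γ • q))⁻¹ * (γ * s q)) • o = o := by
    rw [mul_smul, mul_smul, h4, inv_smul_eq_iff]
    exact h3.symm
  have ho' : o ∈ Q₀ := by
    have : o = (s q)⁻¹ • q := by
      rw [eq_inv_smul_iff]
      exact h4
    rw [this]
    exact h1 _ _ hq
  have h6 := hfree _ o ho' h5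
  exact (inv_mul_eq_one.1 h6)

theorem smul_ray_mat (h : G) (v : Fin 3 → ℤ) (i j : Fin 3) :
    (h • ray v).mat i j = (h.1 *ᵥ fun a => (v a : ℚ)) i * (h.1 *ᵥ fun a => (v a : ℚ)) j := by
  rw [smul_mat]
  simp only [Matrix.mul_apply, Matrix.transpose_apply, ray_mat, Matrix.mulVec, dotProduct,
    Finset.sum_mul, Finset.mul_sum]
  refine Finset.sum_congr rfl fun a _ => Finset.sum_congr rfl fun b _ => ?_
  ring

theorem fix_vec {δ : G} {h : G} {v : Fin 3 → ℤ} (hfix : δ • h • ray v = h • ray v) :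
    δ.1 *ᵥ (h.1 *ᵥ fun a => (v a : ℚ)) = (h.1 *ᵥ fun a => (v a : ℚ)) ∨
      δ.1 *ᵥ (h.1 *ᵥ fun a => (v a : ℚ)) = -(h.1 *ᵥ fun a => (v a : ℚ)) := by
  set w := (h.1 *ᵥ fun a => (v a : ℚ)) with hw
  set u := δ.1 *ᵥ w with hu
  have h1 : ∀ i j, u i * u j = w i * w j := by
    intro i j
    have h2 := congrArg (fun M : V => M.mat i j) hfix
    rw [smul_smul, smul_ray_mat, smul_ray_mat, Units.val_mul, ← Matrix.mulVec_mulVec] at h2
    exact h2
  by_cases h0 : w = 0
  · left
    rw [hu, h0, Matrix.mulVec_zero]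
  · have : ∃ k, w k ≠ 0 := by
      by_contra h
      push Not at h
      exact h0 (funext h)
    obtain ⟨k, hk⟩ := this
    have h3 := h1 k k
    have h4 : (u k - w k) * (u k + w k) = 0 := by linear_combination h3
    rcases mul_eq_zero.1 h4 with h5 | h5
    · left
      have h6 : u k = w k := by linarith
      funext i
      have h7 := h1 i k
      rw [h6] at h7
      exact mul_right_cancel₀ hk h7
    · right
      have h6 : u k = - w k := by linarith
      funext i
      have h7 := h1 i k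
      rw [h6] at h7
      have h8 : (u i + w i) * w k = 0 := by linear_combination -h7
      rcases mul_eq_zero.1 h8 with h9 | h9
      · rw [Pi.neg_apply]; linarith
      · exact absurd h9 hk

theorem sq_eq_one_of_fix {δ : G} {y : Pt} {R : Finset V} (hc : cx y R)
    (hfix : ∀ M ∈ R, δ • M = M) : δ ^ 2 = 1 := by
  obtain ⟨h, -, ⟨g, hg⟩, hs⟩ := hc
  apply Units.ext
  rw [Units.val_pow_eq_pow_val, Units.val_one]
  have hsp : Spn R := by
    have := hs.smul h
    rwa [ac_symm, ← mp_ac_mul, mul_inv_cancel, mp_ac_one] at this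
  set A : Matrix (Fin 3) (Fin 3) ℚ := (δ.1 : Matrix (Fin 3) (Fin 3) ℚ) ^ 2 - 1 with hA
  have key : ∀ i, (fun j => A i j) = 0 := by
    intro i
    apply hsp
    intro M hM
    have h1 : M = h • ((h⁻¹ : G) • M) := by rw [smul_inv_smul]
    have h2 : (h⁻¹ : G) • M ∈ fr g := by
      apply hg
      rw [mem_mp, ac_symm, ac_symm, inv_inv, ac_apply, smul_inv_smul]
      exact hM
    obtain ⟨s, hs'⟩ := mem_fr.1 h2
    rw [gE] at hs'
    have h3 : M = h • ray (g.1 *ᵥ r s) := by rw [h1, ← hs']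
    have h4 := hfix M hM
    rw [h3] at h4
    have h5 := fix_vec h4
    set w := (h.1 *ᵥ fun a => (((g.1 *ᵥ r s) a : ℤ) : ℚ)) with hw
    have h6 : (δ.1 ^ 2) *ᵥ w = w := by
      rw [pow_two, ← Matrix.mulVec_mulVec]
      rcases h5 with h5 | h5
      · rw [h5, h5]
      · rw [h5, Matrix.mulVec_neg, h5, neg_neg]
    have h7 : ∑ j, A i j * w j = 0 := by
      have h8 : (A *ᵥ w) i = 0 := by
        rw [hA, Matrix.sub_mulVec, h6, Matrix.one_mulVec, sub_self]
        rfl
      exact h8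
    rw [h3, qv_eq]
    simp only [smul_ray_mat]
    have h9 : ∑ a, ∑ b, A i a * A i b * (w a * w b) =
        (∑ j, A i j * w j) * (∑ j, A i j * w j) := by
      rw [Finset.sum_mul_sum]
      refine Finset.sum_congr rfl fun a _ => Finset.sum_congr rfl fun b _ => ?_
      ring
    rw [h9, h7, zero_mul]
  have h1 : A = 0 := by
    ext i j
    exact congrFun (key i) j
  exact sub_eq_zero.1 h1

theorem free {p : P} {S : Finset P} {L : Level p S} (hTF : L.TorsionFree) {γ : G} {y : Pt}
    {R : Finset V} (hc : cx y R) (hR : mp (ac γ) R = R) (hg : y.2⁻¹ * diag γ * y.2 ∈ L.Kf) :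
    γ = 1 := by
  have h1 : ∀ M ∈ R, γ • M ∈ R := by
    intro M hM
    rw [← hR, mem_mp, ac_symm, ac_apply, inv_smul_smul]
    exact hM
  let f : R → R := fun M => ⟨γ • M.1, h1 _ M.2⟩
  have hf : Function.Injective f := by
    intro M N hMN
    apply Subtype.ext
    exact MulAction.injective γ (congrArg Subtype.val hMN)
  have hb : Function.Bijective f := hf.bijective_of_finite
  set π := Equiv.ofBijective f hb with hπ
  have h2 : ∀ (n : ℕ) (M : R), ((π ^ n) M).1 = γ ^ n • M.1 := by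
    intro n
    induction n with
    | zero => intro M; simp
    | succ n ih =>
      intro M
      rw [pow_succ, Equiv.Perm.mul_apply, ih, pow_succ, mul_smul]
      rfl
  have h3 : ∀ M ∈ R, γ ^ (orderOf π) • M = M := by
    intro M hM
    have := h2 (orderOf π) ⟨M, hM⟩
    rw [pow_orderOf_eq_one] at this
    exact this.symm
  have h4 := sq_eq_one_of_fix hc h3
  rw [← pow_mul] at h4
  refine hTF y.2 γ (orderOf π * 2) ?_ hg h4
  have := orderOf_pos π
  positivity

/-- Points modulo the level, with a set of rays. -/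
def Qt {p : P} {S : Finset P} (L : Level p S) : Type := ℤˣ × (GA ⧸ L.Kf) × Finset V

instance {p : P} {S : Finset P} (L : Level p S) : MulAction G (Qt L) where
  smul γ q := (sgn γ * q.1, diag γ • q.2.1, mp (ac γ) q.2.2)
  one_smul q := by
    change (sgn 1 * q.1, diag 1 • q.2.1, mp (ac 1) q.2.2) = q
    rw [map_one, map_one, one_mul, one_smul, mp_ac_one]
    rfl
  mul_smul γ δ q := by
    change (sgn (γ * δ) * q.1, diag (γ * δ) • q.2.1, mp (ac (γ * δ)) q.2.2) =
      (sgn γ * (sgn δ * q.1), diag γ • diag δ • q.2.1, mp (ac γ) (mp (ac δ) q.2.2))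
    rw [map_mul, map_mul, mul_assoc, mul_smul, mp_ac_mul]

/-- The class of a point with a set of rays. -/
def qt {p : P} {S : Finset P} (L : Level p S) (y : Pt) (R : Finset V) : Qt L :=
  (y.1, (y.2 : GA ⧸ L.Kf), R)

theorem smul_qt {p : P} {S : Finset P} (L : Level p S) (γ : G) (y : Pt) (R : Finset V) :
    γ • qt L y R = qt L (γ • y) (mp (ac γ) R) := rfl

theorem exists_section {p : P} {S : Finset P} {L : Level p S} (hTF : L.TorsionFree) :
    ∃ s : Qt L → G, ∀ (γ : G) (y : Pt) (R : Finset V), cx y R →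
      s (qt L (γ • y) (mp (ac γ) R)) = γ * s (qt L y R) := by
  have a1 : ∀ (γ : G), ∀ q ∈ {q : Qt L | ∃ y R, cx y R ∧ q = qt L y R},
      γ • q ∈ {q : Qt L | ∃ y R, cx y R ∧ q = qt L y R} := by
    rintro γ q ⟨y, R, hc, rfl⟩
    refine ⟨γ • y, mp (ac γ) R, ?_, smul_qt L γ y R⟩
    rw [cx_smul]
    change cx y (mp (ac γ).symm (mp (ac γ) R))
    rw [mp_symm_mp]
    exact hc
  have a2 : ∀ (γ : G), ∀ q ∈ {q : Qt L | ∃ y R, cx y R ∧ q = qt L y R}, γ • q = q → γ = 1 := by
    rintro γ q ⟨y, R, hc, rfl⟩ hq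
    rw [smul_qt] at hq
    have h1 : mp (ac γ) R = R := congrArg (fun q : Qt L => q.2.2) hq
    have h2 : ((γ • y).2 : GA ⧸ L.Kf) = (y.2 : GA ⧸ L.Kf) := congrArg (fun q : Qt L => q.2.1) hq
    refine free hTF hc h1 ?_
    have h3 := QuotientGroup.eq.1 h2.symm
    rw [smul_pt] at h3
    rw [mul_assoc]
    exact h3
  obtain ⟨s, hs⟩ := exists_sec (H := G) {q : Qt L | ∃ y R, cx y R ∧ q = qt L y R} a1 a2
  refine ⟨s, fun γ y R hc => ?_⟩
  rw [← smul_qt]
  exact hs γ _ ⟨y, R, hc, rfl⟩

end Pool.Agent.CG3.Sel
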