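import Mathlib

/-!
# E3: Nakayama type lemmas for finite modules with the action of an algebra
-/

noncomputable section

namespace Pool.Agent.CG3

variable {O : Type} [CommRing O]

namespace NakAux

open Polynomial

/-- If `f x` maps `M` into `ϖ M`, there is a monic polynomial with the other coefficients in
`(ϖ)` which annihilates `f x`. -/
theorem exists_poly {T M : Type} [CommRing T] [Algebra O T] [AddCommGroup M]
    [Module O M] [Module.Finite O M] (f : T →ₐ[O] Module.End O M) (ϖ : O) (x : T)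
    (hx : ∀ z : M, ∃ z' : M, f x z = ϖ • z') :
    ∃ P : O[X], P.Monic ∧ (∀ k, k < P.natDegree → P.coeff k ∈ Ideal.span {ϖ}) ∧
      f (aeval x P) = 0 := by
  have hr : LinearMap.range (f x) ≤ Ideal.span {ϖ} • (⊤ : Submodule O M) := by
    rintro _ ⟨z, rfl⟩
    obtain ⟨z', hz'⟩ := hx z
    rw [hz']
    exact Submodule.smul_mem_smul (Ideal.mem_span_singleton_self ϖ) trivial
  obtain ⟨P, hP, -, hc, ha⟩ :=
    LinearMap.exists_monic_and_natDegree_eq_and_coeff_mem_pow_and_aeval_eq_zero O (f x) _ hr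
  refine ⟨P, hP, ?_, ?_⟩
  · intro k hk
    have h1 := hc k
    exact Ideal.pow_le_self (by omega) h1
  · rw [← Polynomial.aeval_algHom_apply]
    exact ha

end NakAux

/-- **E3'** `Nakayama.lean` -/
theorem mem_of_support [IsLocalRing O] {T M : Type} [CommRing T] [Algebra O T] [AddCommGroup M]
    [Module O M] [Module.Finite O M] (f : T →ₐ[O] Module.End O M) (ϖ : O)
    (hϖ : ϖ ∈ IsLocalRing.maximalIdeal O) (m : Ideal T) [m.IsMaximal]
    (h : algebraMap O T ϖ ∉ m) :
    ∃ t : T, t ∉ m ∧ ∀ z : M, f t z = 0 := by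
  obtain ⟨y, w, hw, hy⟩ := Ideal.IsMaximal.exists_inv (I := m) ‹_› h
  -- `y * ϖ + w = 1`
  set x : T := y * algebraMap O T ϖ with hxdef
  obtain ⟨P, hP, hc, ha⟩ := NakAux.exists_poly f ϖ x (fun z => ⟨f y z, by
    rw [hxdef, mul_comm, map_mul, Module.End.mul_apply, AlgHom.commutes,
      Module.algebraMap_end_apply]⟩)
  refine ⟨Polynomial.aeval x P, ?_, fun z => by rw [ha]; rfl⟩
  intro hmem
  -- modulo `m`, `x = 1`
  have h1 : Ideal.Quotient.mk m x = 1 := by
    have : x = 1 - w := by rw [← hy]; ring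
    rw [this, map_sub, map_one, Ideal.Quotient.eq_zero_iff_mem.2 hw, sub_zero]
  have h2 : Ideal.Quotient.mk m (Polynomial.aeval x P) =
      Ideal.Quotient.mk m (algebraMap O T (P.eval 1)) := by
    have h3 : Ideal.Quotient.mk m (Polynomial.aeval x P) =
        Polynomial.aeval (Ideal.Quotient.mkₐ O m x) P := by
      rw [Polynomial.aeval_algHom_apply]
      rfl
    have h4 : (Ideal.Quotient.mkₐ O m) x = algebraMap O (T ⧸ m) 1 := by
      rw [map_one]; exact h1
    rw [h3, h4, Polynomial.aeval_algebraMap_apply]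
    simp only [Polynomial.coe_aeval_eq_eval]
    rfl
  have h5 : IsUnit (P.eval 1) := by
    have h6 : P.eval 1 - 1 ∈ IsLocalRing.maximalIdeal O := by
      have h7 : P.eval 1 = ∑ k ∈ Finset.range P.natDegree, P.coeff k + 1 := by
        rw [Polynomial.eval_eq_sum_range, Finset.sum_range_succ]
        simp [hP.coeff_natDegree]
      rw [h7, add_sub_cancel_right]
      refine Ideal.sum_mem _ fun k hk => ?_
      exact (Ideal.span_singleton_le_iff_mem _).2 hϖ (hc k (Finset.mem_range.1 hk))
    by_contra hnu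
    have h8 : P.eval 1 ∈ IsLocalRing.maximalIdeal O := (IsLocalRing.mem_maximalIdeal _).2 hnu
    have h9 : (1 : O) ∈ IsLocalRing.maximalIdeal O := by
      have := Ideal.sub_mem _ h8 h6
      simpa using this
    exact (Ideal.ne_top_iff_one _).1 (IsLocalRing.maximalIdeal.isMaximal O).ne_top h9
  have h10 : algebraMap O T (P.eval 1) ∈ m := by
    rw [← Ideal.Quotient.eq_zero_iff_mem, ← h2, Ideal.Quotient.eq_zero_iff_mem]
    exact hmem
  exact Ideal.IsMaximal.ne_top ‹_› (Ideal.eq_top_of_isUnit_mem m h10 (h5.map _))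

/-- **E3** `Nakayama.lean` -/
theorem nakayama_loc [IsLocalRing O] {T M : Type} [CommRing T] [Algebra O T] [AddCommGroup M]
    [Module O M] [Module.Finite O M] (f : T →ₐ[O] Module.End O M) (ϖ : O)
    (hϖ : ϖ ∈ IsLocalRing.maximalIdeal O) (m : Ideal T) [m.IsMaximal]
    (h : ∀ z : M, ∃ t : T, t ∉ m ∧ ∃ z' : M, f t z = ϖ • z') :
    ∃ t : T, t ∉ m ∧ ∀ z : M, f t z = 0 := by
  by_cases hm : algebraMap O T ϖ ∈ m
  swap
  · exact mem_of_support f ϖ hϖ m hm
  have hprime : m.IsPrime := Ideal.IsMaximal.isPrime ‹_›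
  -- one element for all of `M`
  have key : ∃ t : T, t ∉ m ∧ ∀ z : M, ∃ z' : M, f t z = ϖ • z' := by
    obtain ⟨s, hs⟩ := (Module.Finite.fg_top : (⊤ : Submodule O M).FG)
    choose t ht z' hz' using h
    refine ⟨∏ a ∈ s, t a, ?_, ?_⟩
    · intro hmem
      obtain ⟨a, -, ha⟩ := (Ideal.IsPrime.prod_mem_iff (hp := hprime)).1 hmem
      exact ht a ha
    · intro z
      have hz : z ∈ Submodule.span O (s : Set M) := by rw [hs]; trivial
      induction hz using Submodule.span_induction with
      | mem a ha =>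
        have ha' : a ∈ s := ha
        classical
        rw [← Finset.mul_prod_erase s t ha', mul_comm, map_mul, Module.End.mul_apply, hz' a,
          map_smul]
        exact ⟨_, rfl⟩
      | zero => exact ⟨0, by simp⟩
      | add a b _ _ ha hb =>
        obtain ⟨a', ha'⟩ := ha
        obtain ⟨b', hb'⟩ := hb
        exact ⟨a' + b', by rw [map_add, ha', hb', smul_add]⟩
      | smul c a _ ha =>
        obtain ⟨a', ha'⟩ := ha
        exact ⟨c • a', by rw [map_smul, ha', smul_comm]⟩
  obtain ⟨x, hxm, hx⟩ := key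
  obtain ⟨P, hP, hc, ha⟩ := NakAux.exists_poly f ϖ x hx
  refine ⟨Polynomial.aeval x P, ?_, fun z => by rw [ha]; rfl⟩
  intro hmem
  apply hxm
  have h1 : Polynomial.aeval x P = ∑ k ∈ Finset.range P.natDegree,
      algebraMap O T (P.coeff k) * x ^ k + x ^ P.natDegree := by
    rw [Polynomial.aeval_eq_sum_range, Finset.sum_range_succ]
    simp only [Algebra.smul_def, hP.coeff_natDegree, map_one, one_mul]
  have h2 : ∑ k ∈ Finset.range P.natDegree, algebraMap O T (P.coeff k) * x ^ k ∈ m := by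
    refine Ideal.sum_mem _ fun k hk => Ideal.mul_mem_right _ _ ?_
    obtain ⟨c, hc'⟩ := Ideal.mem_span_singleton'.1 (hc k (Finset.mem_range.1 hk))
    rw [← hc', map_mul]
    exact Ideal.mul_mem_left _ _ hm
  have h3 : x ^ P.natDegree ∈ m := by
    have := Ideal.sub_mem _ hmem h2
    rwa [h1, add_sub_cancel_left] at this
  exact hprime.mem_of_pow_mem _ h3

end Pool.Agent.CG3
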