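import Mathlib

/-!
Homological algebra: dimension shifting and acyclic modules of functions.
-/

set_option autoImplicit false

namespace Pool.Agent.CG3.Sel

open CategoryTheory

/-- Dimension shifting. -/
theorem shift {k G : Type} [CommRing k] [Group G] {X₁ X₂ X₃ : Rep.{0} k G} (f : X₁ ⟶ X₂)
    (g : X₂ ⟶ X₃) (hf : Function.Injective f.hom) (hg : Function.Surjective g.hom)
    (hfg : ∀ a, g.hom (f.hom a) = 0) (hex : ∀ b, g.hom b = 0 → ∃ a, f.hom a = b) (n : ℕ)
    (h2 : Subsingleton (groupCohomology X₂ (n + 1))) (h3 : Subsingleton (groupCohomology X₃ n)) :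
    Subsingleton (groupCohomology X₁ (n + 1)) := by
  have h0 : f ≫ g = 0 := by
    apply Rep.hom_ext
    apply Representation.IntertwiningMap.ext
    apply LinearMap.ext
    intro a
    exact hfg a
  have hex' : (ShortComplex.mk f g h0).Exact := by
    rw [← ShortComplex.exact_map_iff_of_faithful _ (forget₂ (Rep k G) (ModuleCat k)),
      ShortComplex.moduleCat_exact_iff]
    intro b hb
    exact hex b hb
  have hS : (ShortComplex.mk f g h0).ShortExact :=
    { exact := hex', mono_f := (Rep.mono_iff_injective _).2 hf,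
      epi_g := (Rep.epi_iff_surjective _).2 hg }
  have h4 := groupCohomology.mapShortComplex₁_exact hS (i := n) (j := n + 1) rfl
  rw [ShortComplex.moduleCat_exact_iff] at h4
  constructor
  intro a b
  have key : ∀ a : groupCohomology X₁ (n + 1), a = 0 := by
    intro a
    obtain ⟨c, hc⟩ := h4 a (Subsingleton.elim (α := groupCohomology X₂ (n + 1)) _ _)
    rw [← hc]
    have h5 : c = 0 := Subsingleton.elim (α := groupCohomology X₃ n) _ _
    rw [h5]
    exact map_zero _
  rw [key a, key b]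

/-- Vanishing of cohomology in terms of cochains. -/
theorem van_of {k G : Type} [CommRing k] [Group G] (A : Rep.{0} k G) (n : ℕ)
    (h : ∀ z : (Fin (n + 1) → G) → A, inhomogeneousCochains.d A (n + 1) z = 0 →
      ∃ y : (Fin n → G) → A, inhomogeneousCochains.d A n y = z) :
    Subsingleton (groupCohomology A (n + 1)) := by
  have h1 : (groupCohomology.inhomogeneousCochains A).ExactAt (n + 1) := by
    rw [HomologicalComplex.exactAt_iff' _ n (n + 1) (n + 2) (by simp) (by simp),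
      ShortComplex.moduleCat_exact_iff]
    intro z hz
    have hz' : ((groupCohomology.inhomogeneousCochains A).d (n + 1) (n + 2)) z = 0 := hz
    rw [groupCohomology.inhomogeneousCochains.d_def] at hz'
    obtain ⟨y, hy⟩ := h z hz'
    refine ⟨y, ?_⟩
    have : ((groupCohomology.inhomogeneousCochains A).d n (n + 1)) y = z := by
      rw [groupCohomology.inhomogeneousCochains.d_def]
      exact hy
    exact this
  exact ModuleCat.subsingleton_of_isZero h1.isZero_homology

/-! ### Acyclic modules of functions -/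

section acyclic

variable {k G Y W : Type} [CommRing k] [Group G] [MulAction G Y] [AddCommGroup W] [Module k W]

/-- The representation on an invariant space of functions. -/
def fRep (E : Submodule k (Y → W)) (hE : ∀ (γ : G), ∀ φ ∈ E, (fun y => φ (γ⁻¹ • y)) ∈ E) :
    Representation k G E where
  toFun γ :=
    { toFun := fun φ => ⟨fun y => φ.1 (γ⁻¹ • y), hE γ _ φ.2⟩
      map_add' := fun _ _ => rfl
      map_smul' := fun _ _ => rfl }
  map_one' := by
    apply LinearMap.ext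
    intro f
    apply Subtype.ext
    funext y
    simp
  map_mul' a b := by
    apply LinearMap.ext
    intro f
    apply Subtype.ext
    funext y
    simp [mul_smul]

theorem fRep_apply (E : Submodule k (Y → W))
    (hE : ∀ (γ : G), ∀ φ ∈ E, (fun y => φ (γ⁻¹ • y)) ∈ E) (γ : G) (φ : E) (y : Y) :
    (fRep E hE γ φ).1 y = φ.1 (γ⁻¹ • y) := rfl

theorem contract_zero {n : ℕ} (a : G) (g : Fin (n + 1) → G) :
    Fin.contractNth 0 (· * ·) (Fin.cons a g : Fin (n + 2) → G) =
      (Fin.cons (a * g 0) (Fin.tail g) : Fin (n + 1) → G) := by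
  funext i
  refine Fin.cases ?_ (fun i => ?_) i
  · simp [Fin.contractNth]
  · simp [Fin.contractNth, Fin.tail]

theorem contract_succ {n : ℕ} (a : G) (g : Fin (n + 1) → G) (j : Fin (n + 1)) :
    Fin.contractNth j.succ (· * ·) (Fin.cons a g : Fin (n + 2) → G) =
      (Fin.cons a (Fin.contractNth j (· * ·) g) : Fin (n + 1) → G) := by
  funext i
  refine Fin.cases ?_ (fun i => ?_) i
  · simp [Fin.contractNth]
  · simp only [Fin.contractNth, Fin.val_succ, Fin.cons_succ, add_lt_add_iff_right,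
      ← Fin.succ_castSucc, add_left_inj]

theorem acyc (E : Submodule k (Y → W)) (hE : ∀ (γ : G), ∀ φ ∈ E, (fun y => φ (γ⁻¹ • y)) ∈ E)
    (Y₀ : Set Y) (hsupp : ∀ φ ∈ E, ∀ y ∉ Y₀, φ y = 0)
    (s : Y → G) (hs : ∀ (γ : G), ∀ y ∈ Y₀, s (γ • y) = γ * s y)
    (hglue : ∀ F : G → (Y → W), (∀ γ, F γ ∈ E) → (fun y => F (s y) y) ∈ E) (n : ℕ) :
    Subsingleton (groupCohomology (Rep.of (fRep E hE)) (n + 1)) := by
  apply van_of
  intro z hz
  have hmem : ∀ g : Fin n → G, (fun x => (z (Fin.cons (s x)⁻¹ g)).1 ((s x)⁻¹ • x)) ∈ E := by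
    intro g
    exact hglue (fun γ x => (z (Fin.cons γ⁻¹ g)).1 (γ⁻¹ • x)) fun γ => hE γ _ (z _).2
  refine ⟨fun g => ⟨_, hmem g⟩, ?_⟩
  funext g
  apply Subtype.ext
  funext x
  by_cases hx : x ∈ Y₀
  swap
  · rw [hsupp _ (Subtype.prop _) x hx, hsupp _ (Subtype.prop _) x hx]
  have h1 := congrArg (fun q : E => q.1 ((s x)⁻¹ • x)) (congrFun hz (Fin.cons (s x)⁻¹ g))
  rw [inhomogeneousCochains.d_hom_apply] at h1 ⊢
  rw [Fin.sum_univ_succ, contract_zero] at h1
  simp only [contract_succ, Fin.cons_zero, Fin.cons_succ] at h1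
  have e1 : ∀ (a b : E) (y : Y), (a + b).1 y = a.1 y + b.1 y := fun _ _ _ => rfl
  have e2 : ∀ (c : k) (a : E) (y : Y), (c • a).1 y = c • a.1 y := fun _ _ _ => rfl
  have e3 : ∀ {ι : Type} (T : Finset ι) (a : ι → E) (y : Y),
      (∑ j ∈ T, a j).1 y = ∑ j ∈ T, (a j).1 y := by
    intro ι T a y
    rw [Submodule.coe_sum, Finset.sum_apply]
  rw [e1, e1, e3, e2] at h1
  rw [e1, e3]
  simp only [e2] at h1 ⊢
  rw [fRep_apply, inv_inv, smul_inv_smul] at h1
  rw [fRep_apply]
  have e4 : s ((g 0)⁻¹ • x) = (g 0)⁻¹ * s x := hs _ x hx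
  have e5 : (s ((g 0)⁻¹ • x))⁻¹ • (g 0)⁻¹ • x = (s x)⁻¹ • x := by
    rw [e4, smul_smul]
    congr 1
    group
  have e6 : (s ((g 0)⁻¹ • x))⁻¹ = (s x)⁻¹ * g 0 := by
    rw [e4]
    group
  have e7 : ((z (Fin.cons (s ((g 0)⁻¹ • x))⁻¹ fun i => g i.succ)).1
      ((s ((g 0)⁻¹ • x))⁻¹ • (g 0)⁻¹ • x)) =
      (z (Fin.cons ((s x)⁻¹ * g 0) (Fin.tail g))).1 ((s x)⁻¹ • x) := by
    rw [e5, e6]
    rfl
  have e8 : ∀ j : Fin (n + 1), ((-1 : k)) ^ ((j.succ : Fin (n + 2)).val + 1) =
      - (-1) ^ ((j : ℕ) + 1) := by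
    intro j
    rw [Fin.val_succ, pow_succ]
    ring
  simp only [e8, neg_smul, Finset.sum_neg_distrib] at h1
  have h2 : (z fun i => g i).1 x + (-(z (Fin.cons ((s x)⁻¹ * g 0) (Fin.tail g))).1 ((s x)⁻¹ • x) +
      -∑ j : Fin (n + 1), (-1 : k) ^ ((j : ℕ) + 1) •
        (z (Fin.cons (s x)⁻¹ (j.contractNth (· * ·) g))).1 ((s x)⁻¹ • x)) = 0 := by
    have h3 : ((-1 : k)) ^ (((0 : Fin (n + 2)) : ℕ) + 1) = -1 := by simp
    rw [h3, neg_smul, one_smul] at h1
    exact h1
  change (z (Fin.cons (s ((g 0)⁻¹ • x))⁻¹ fun i => g i.succ)).1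
      ((s ((g 0)⁻¹ • x))⁻¹ • (g 0)⁻¹ • x) + _ = _
  rw [e7]
  have h4 := eq_neg_of_add_eq_zero_left h2
  change _ = (z fun i => g i).1 x
  rw [h4]
  abel

end acyclic

end Pool.Agent.CG3.Sel
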