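import Pool.Agent.CG3.GalZeta3

namespace Pool.Agent.CG3.GalAux

open scoped ENNReal nonZeroDivisors
open Filter Topology NumberField IsDedekindDomain UniqueFactorizationMonoid

set_option linter.unusedSectionVars false

lemma wt_anti {s t : ℝ} (h : s ≤ t) {n : ℕ} (hn : 1 ≤ n) : wt t n ≤ wt s n := by
  unfold wt
  refine ENNReal.ofReal_le_ofReal ?_
  exact Real.rpow_le_rpow_of_exponent_le (by exact_mod_cast hn) (by linarith)

lemma Zf_comp_le {α β : Type*} (i : α → β) (hi : Function.Injective i) (w : β → ℝ≥0∞) :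
    Zf (fun a => w (i a)) ≤ Zf w := by
  unfold Zf
  have h1 : ∀ f : α →₀ ℕ, (f.prod fun a n => w (i a) ^ n) =
      (Finsupp.mapDomain i f).prod fun b n => w b ^ n := by
    intro f
    rw [Finsupp.prod_mapDomain_index_inj hi]
  simp_rw [h1]
  exact ENNReal.tsum_comp_le_tsum_of_injective (Finsupp.mapDomain_injective hi) _

lemma one_le_Zf {α : Type*} (w : α → ℝ≥0∞) : 1 ≤ Zf w := by
  unfold Zf
  refine le_trans ?_ (ENNReal.le_tsum 0)
  simp

/-- If (almost) all primes of degree one of `E` gave `r ≥ 2` primes of the same norm in `F`, the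
zeta function of `F` would have a pole of order at least two. -/
theorem zeta_contra {E F : Type*} [Field E] [NumberField E] [Field F] [NumberField F]
    (r : ℕ) (hr : 2 ≤ r) (T : Finset ℕ)
    (i : ↥((Bad E T)ᶜ) × Fin r → HeightOneSpectrum (𝓞 F)) (hi : Function.Injective i)
    (hn : ∀ x, Ideal.absNorm (i x).asIdeal = Ideal.absNorm x.1.1.asIdeal) : False := by
  classical
  obtain ⟨c, C, hc, hC, hE⟩ := ZK_bounds E
  obtain ⟨c', C', hc', hC', hF⟩ := ZK_bounds F
  -- the constant part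
  set β : ℝ≥0∞ := Zf (fun v : Bad E T => ENNReal.ofReal
    ((Ideal.absNorm v.1.asIdeal : ℝ) ^ (-1 : ℝ))) with hβ
  have hβtop : β ≠ ⊤ := by
    refine Zf_ne_top _ (fun v => by positivity) (fun v => ?_) (summable_bad E T)
    rw [Real.rpow_neg_one, one_div]
    have := two_le_absNorm E v.1
    exact inv_anti₀ (by norm_num) (by exact_mod_cast this)
  have hβ1 : 1 ≤ β := one_le_Zf _
  obtain ⟨b, hb0, hb⟩ : ∃ b : ℝ, 0 ≤ b ∧ β = ENNReal.ofReal b :=
    ⟨β.toReal, ENNReal.toReal_nonneg, (ENNReal.ofReal_toReal hβtop).symm⟩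
  have hmain : ∀ᶠ s : ℝ in 𝓝[>] 1, c ^ 2 * (1 / (s - 1)) ≤ b ^ 2 * C' := by
    filter_upwards [hE, hF, self_mem_nhdsWithin] with s hEs hFs hs1
    have hs : (1 : ℝ) < s := hs1
    have hs0 : 0 < s - 1 := sub_pos.2 hs
    set a : ℝ≥0∞ := Zf (fun v : ↥((Bad E T)ᶜ) => wt s (Ideal.absNorm v.1.asIdeal)) with ha
    have h1 : ZK E s ≤ a * β := by
      have h2 : ZK E s = Zf (fun v : Bad E T => wt s (Ideal.absNorm v.1.asIdeal)) * a := by
        rw [ha, ← Zf_sum, ZK, ← Zf_equiv (Equiv.Set.sumCompl (Bad E T))]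
        congr 1
        funext x
        rcases x with x | x
        · simp
        · simp
      rw [h2, mul_comm]
      refine mul_le_mul_right ?_ _
      refine Zf_mono fun v => ?_
      exact wt_anti hs.le (by have := two_le_absNorm E v.1; omega)
    have h3 : a ^ r ≤ ZK F s := by
      rw [ha, ← Zf_prod_fin]
      have h4 : (fun x : ↥((Bad E T)ᶜ) × Fin r => wt s (Ideal.absNorm x.1.1.asIdeal)) =
          fun x => (fun v : HeightOneSpectrum (𝓞 F) => wt s (Ideal.absNorm v.asIdeal)) (i x) := by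
        funext x
        exact congrArg (wt s) (hn x).symm
      rw [h4]
      exact Zf_comp_le i hi _
    have ha1 : 1 ≤ a := one_le_Zf _
    have h5 : a ^ 2 ≤ ENNReal.ofReal (C' / (s - 1)) :=
      le_trans (pow_le_pow_right₀ ha1 hr) (h3.trans hFs.2)
    have h6 : ENNReal.ofReal (c / (s - 1)) ^ 2 ≤ ENNReal.ofReal (b ^ 2 * (C' / (s - 1))) := by
      calc ENNReal.ofReal (c / (s - 1)) ^ 2 ≤ (a * β) ^ 2 :=
            pow_le_pow_left' (hEs.1.trans h1) 2
        _ = β ^ 2 * a ^ 2 := by rw [mul_pow, mul_comm]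
        _ ≤ β ^ 2 * ENNReal.ofReal (C' / (s - 1)) := mul_le_mul_right h5 _
        _ = _ := by
          rw [hb, ← ENNReal.ofReal_pow hb0, ← ENNReal.ofReal_mul (by positivity)]
    rw [← ENNReal.ofReal_pow (by positivity),
      ENNReal.ofReal_le_ofReal_iff (by positivity)] at h6
    have h7 : (c / (s - 1)) ^ 2 = c ^ 2 * (1 / (s - 1)) * (1 / (s - 1)) := by
      field_simp
    have h8 : b ^ 2 * (C' / (s - 1)) = b ^ 2 * C' * (1 / (s - 1)) := by
      field_simp
    rw [h7, h8] at h6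
    exact le_of_mul_le_mul_right h6 (by positivity)
  have hlim : Tendsto (fun s : ℝ => c ^ 2 * (1 / (s - 1))) (𝓝[>] 1) atTop := by
    refine Tendsto.const_mul_atTop (by positivity) ?_
    simp_rw [one_div]
    refine tendsto_inv_nhdsGT_zero.comp ?_
    rw [tendsto_nhdsWithin_iff]
    constructor
    · have : Tendsto (fun s : ℝ => s - 1) (𝓝 1) (𝓝 (1 - 1)) := tendsto_id.sub_const 1
      rw [sub_self] at this
      exact this.mono_left nhdsWithin_le_nhds
    · filter_upwards [self_mem_nhdsWithin] with s hs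
      have hs' : (1 : ℝ) < s := hs
      exact Set.mem_Ioi.2 (sub_pos.2 hs')
  have h9 := hlim.eventually (eventually_gt_atTop (b ^ 2 * C'))
  obtain ⟨s, hs1, hs2⟩ := (hmain.and h9).exists
  exact absurd hs1 (not_le.2 hs2)

end Pool.Agent.CG3.GalAux
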