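import Pool.Agent.CG3.Hecke

/-!
# Auxiliary definitions: principal congruence subgroups, `SL₃(ℤ)` in `GL₃(ℚ)`
-/

noncomputable section

namespace Pool.Agent.CG3

open Matrix

theorem val_le_one_of_mem_GZ {q : P} {k : GQ q} (hk : k ∈ GZ q) (i j : Fin 3) :
    ‖(k : Matrix (Fin 3) (Fin 3) ℚ_[(q : ℕ)]) i j‖ ≤ 1 := ((mem_GZ_iff q k).1 hk).1 i j

/-- A product of a matrix with entries of norm at most `c` and an integral matrix has entries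
of norm at most `c`. -/
theorem norm_mul_entry_le {q : P} {c : ℝ} (hc : 0 ≤ c)
    {A B : Matrix (Fin 3) (Fin 3) ℚ_[(q : ℕ)]}
    (hA : ∀ i j, ‖A i j‖ ≤ c) (hB : ∀ i j, ‖B i j‖ ≤ 1) (i j : Fin 3) :
    ‖(A * B) i j‖ ≤ c := by
  rw [Matrix.mul_apply]
  refine IsUltrametricDist.norm_sum_le_of_forall_le_of_nonneg hc ?_
  intro l _
  rw [norm_mul]
  calc ‖A i l‖ * ‖B l j‖ ≤ c * 1 := mul_le_mul (hA i l) (hB l j) (norm_nonneg _) hc
    _ = c := mul_one c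

theorem norm_mul_entry_le' {q : P} {c : ℝ} (hc : 0 ≤ c)
    {A B : Matrix (Fin 3) (Fin 3) ℚ_[(q : ℕ)]}
    (hA : ∀ i j, ‖A i j‖ ≤ 1) (hB : ∀ i j, ‖B i j‖ ≤ c) (i j : Fin 3) :
    ‖(A * B) i j‖ ≤ c := by
  rw [Matrix.mul_apply]
  refine IsUltrametricDist.norm_sum_le_of_forall_le_of_nonneg hc ?_
  intro l _
  rw [norm_mul]
  calc ‖A i l‖ * ‖B l j‖ ≤ 1 * c := mul_le_mul (hA i l) (hB l j) (norm_nonneg _) zero_le_one
    _ = c := one_mul c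

/-- The principal congruence subgroup of level `N` of `GL₃(ℤ_q)`. -/
def GZN (q : P) (N : ℕ) : Subgroup (GQ q) where
  carrier := {k | k ∈ GZ q ∧ ∀ i j, ‖((k : Matrix (Fin 3) (Fin 3) ℚ_[(q : ℕ)]) - 1) i j‖
    ≤ ‖(N : ℚ_[(q : ℕ)])‖}
  mul_mem' := by
    rintro a b ⟨ha, ha'⟩ ⟨hb, hb'⟩
    refine ⟨(GZ q).mul_mem ha hb, ?_⟩
    intro i j
    have h1 : ((a * b : GQ q) : Matrix (Fin 3) (Fin 3) ℚ_[(q : ℕ)]) - 1 =
        ((a : Matrix (Fin 3) (Fin 3) ℚ_[(q : ℕ)]) - 1) * (b : Matrix (Fin 3) (Fin 3) _)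
        + ((b : Matrix (Fin 3) (Fin 3) ℚ_[(q : ℕ)]) - 1) := by
      rw [Units.val_mul]; noncomm_ring
    rw [h1, Matrix.add_apply]
    refine (IsUltrametricDist.norm_add_le_max _ _).trans (max_le ?_ (hb' i j))
    exact norm_mul_entry_le (norm_nonneg _) ha' (val_le_one_of_mem_GZ hb) i j
  one_mem' := by
    refine ⟨(GZ q).one_mem, ?_⟩
    intro i j
    simp
  inv_mem' := by
    rintro a ⟨ha, ha'⟩
    refine ⟨(GZ q).inv_mem ha, ?_⟩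
    intro i j
    have h1 : ((a⁻¹ : GQ q) : Matrix (Fin 3) (Fin 3) ℚ_[(q : ℕ)]) - 1 =
        -(((a⁻¹ : GQ q) : Matrix (Fin 3) (Fin 3) _) *
          ((a : Matrix (Fin 3) (Fin 3) ℚ_[(q : ℕ)]) - 1)) := by
      rw [mul_sub, mul_one, ← Units.val_mul, inv_mul_cancel, Units.val_one]
      abel
    rw [h1, Matrix.neg_apply, norm_neg]
    exact norm_mul_entry_le' (norm_nonneg _)
      (val_le_one_of_mem_GZ ((GZ q).inv_mem ha)) ha' i j

theorem GZN_le (q : P) (N : ℕ) : GZN q N ≤ GZ q := fun _ h => h.1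

theorem GZN_conj {q : P} {N : ℕ} {k u : GQ q} (hk : k ∈ GZN q N) (hu : u ∈ GZ q) :
    u⁻¹ * k * u ∈ GZN q N := by
  refine ⟨(GZ q).mul_mem ((GZ q).mul_mem ((GZ q).inv_mem hu) hk.1) hu, ?_⟩
  intro i j
  have h1 : ((u⁻¹ * k * u : GQ q) : Matrix (Fin 3) (Fin 3) ℚ_[(q : ℕ)]) - 1 =
      ((u⁻¹ : GQ q) : Matrix (Fin 3) (Fin 3) _) *
        (((k : Matrix (Fin 3) (Fin 3) ℚ_[(q : ℕ)]) - 1) *
        (u : Matrix (Fin 3) (Fin 3) _)) := by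
    have h2 : ((u⁻¹ : GQ q) : Matrix (Fin 3) (Fin 3) ℚ_[(q : ℕ)]) *
        (u : Matrix (Fin 3) (Fin 3) _) = 1 := by
      rw [← Units.val_mul, inv_mul_cancel, Units.val_one]
    rw [Units.val_mul, Units.val_mul, sub_mul, one_mul, mul_sub, h2, mul_assoc]
  rw [h1]
  exact norm_mul_entry_le' (norm_nonneg _) (val_le_one_of_mem_GZ ((GZ q).inv_mem hu))
    (fun i j => norm_mul_entry_le (norm_nonneg _) hk.2 (val_le_one_of_mem_GZ hu) i j) i j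

theorem GZN_eq_GZ {q : P} {N : ℕ} (h : ¬ (q : ℕ) ∣ N) : GZN q N = GZ q := by
  apply le_antisymm (GZN_le q N)
  intro k hk
  refine ⟨hk, ?_⟩
  have h1 : ‖(N : ℚ_[(q : ℕ)])‖ = 1 :=
    Padic.norm_natCast_eq_one_iff.2 ((Nat.Prime.coprime_iff_not_dvd q.2).2 h)
  intro i j
  rw [h1, Matrix.sub_apply, sub_eq_add_neg]
  refine (IsUltrametricDist.norm_add_le_max _ _).trans (max_le (val_le_one_of_mem_GZ hk i j) ?_)
  rw [norm_neg]
  by_cases hij : i = j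
  · subst hij; simp
  · simp [hij]

theorem GZN_anti {q : P} {M N : ℕ} (h : M ∣ N) : GZN q N ≤ GZN q M := by
  rintro k ⟨hk, hk'⟩
  refine ⟨hk, fun i j => (hk' i j).trans ?_⟩
  obtain ⟨d, rfl⟩ := h
  rw [Nat.cast_mul, norm_mul]
  have h1 : ‖(d : ℚ_[(q : ℕ)])‖ ≤ 1 := by
    have := Padic.norm_int_le_one (p := (q : ℕ)) (d : ℤ)
    simpa using this
  calc ‖(M : ℚ_[(q : ℕ)])‖ * ‖(d : ℚ_[(q : ℕ)])‖ ≤ ‖(M : ℚ_[(q : ℕ)])‖ * 1 :=
        mul_le_mul_of_nonneg_left h1 (norm_nonneg _)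
    _ = _ := mul_one _

/-- The group `GL₃(Ẑ)`. -/
def KZ : Subgroup GA where
  carrier := {k | ∀ q, k.1 q ∈ GZ q}
  mul_mem' ha hb q := (GZ q).mul_mem (ha q) (hb q)
  one_mem' q := (GZ q).one_mem
  inv_mem' ha q := (GZ q).inv_mem (ha q)

/-- The principal congruence subgroup of level `N` of `GL₃(Ẑ)`. -/
def KN (N : ℕ) : Subgroup GA where
  carrier := {k | ∀ q, k.1 q ∈ GZN q N}
  mul_mem' ha hb q := (GZN q N).mul_mem (ha q) (hb q)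
  one_mem' q := (GZN q N).one_mem
  inv_mem' ha q := (GZN q N).inv_mem (ha q)

theorem mem_KZ {k : GA} : k ∈ KZ ↔ ∀ q, k.1 q ∈ GZ q := Iff.rfl

theorem mem_KN {N : ℕ} {k : GA} : k ∈ KN N ↔ ∀ q, k.1 q ∈ GZN q N := Iff.rfl

theorem KN_le_KZ (N : ℕ) : KN N ≤ KZ := fun _ h q => (h q).1

theorem KN_conj {N : ℕ} {k u : GA} (hk : k ∈ KN N) (hu : u ∈ KZ) :
    u⁻¹ * k * u ∈ KN N := fun q => GZN_conj (hk q) (hu q)

theorem KN_anti {M N : ℕ} (h : M ∣ N) : KN N ≤ KN M := fun _ hk q => GZN_anti h (hk q)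

/-- The group `SL₃(ℤ)`. -/
abbrev SLZ := SpecialLinearGroup (Fin 3) ℤ

/-- The embedding `SL₃(ℤ) → GL₃(ℚ)`. -/
def toG : SLZ →* G :=
  (SpecialLinearGroup.toGL).comp (SpecialLinearGroup.map (n := Fin 3) (Int.castRingHom ℚ))

theorem toG_apply (A : SLZ) (i j : Fin 3) :
    (toG A : Matrix (Fin 3) (Fin 3) ℚ) i j = (((A : Matrix (Fin 3) (Fin 3) ℤ) i j : ℤ) : ℚ) := rfl

theorem sgn_toG (A : SLZ) : sgn (toG A) = 1 := by
  have h : (toG A : Matrix (Fin 3) (Fin 3) ℚ).det = 1 := by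
    exact (SpecialLinearGroup.map (n := Fin 3) (Int.castRingHom ℚ) A).2
  change (if 0 < (toG A : Matrix (Fin 3) (Fin 3) ℚ).det then (1 : ℤˣ) else -1) = 1
  rw [h, if_pos one_pos]

/-- The principal congruence subgroup `Γ₃(N)` of `SL₃(ℤ)`. -/
def Gam (N : ℕ) : Subgroup SLZ := (SpecialLinearGroup.map (n := Fin 3) (Int.castRingHom (ZMod N))).ker

theorem mem_Gam_iff {N : ℕ} {A : SLZ} :
    A ∈ Gam N ↔ ∀ i j, (N : ℤ) ∣ ((A : Matrix (Fin 3) (Fin 3) ℤ) - 1) i j := by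
  have key : ∀ i j, ((N : ℤ) ∣ ((A : Matrix (Fin 3) (Fin 3) ℤ) - 1) i j ↔
      (((A : Matrix (Fin 3) (Fin 3) ℤ) i j : ℤ) : ZMod N)
        = (1 : Matrix (Fin 3) (Fin 3) (ZMod N)) i j) := by
    intro i j
    rw [← ZMod.intCast_zmod_eq_zero_iff_dvd, Matrix.sub_apply, Int.cast_sub, sub_eq_zero]
    have : (((1 : Matrix (Fin 3) (Fin 3) ℤ) i j : ℤ) : ZMod N)
        = (1 : Matrix (Fin 3) (Fin 3) (ZMod N)) i j := by
      simp only [Matrix.one_apply]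
      split_ifs <;> simp
    rw [this]
  rw [Gam, MonoidHom.mem_ker]
  constructor
  · intro h i j
    rw [key]
    exact congrFun (congrFun (congrArg Subtype.val h) i) j
  · intro h
    apply Subtype.ext
    ext i j
    exact (key i j).1 (h i j)

/-- The value `3, 3, 1, 1` of the degree of the Hecke operator `T_(ℓ,j)` modulo `ℓ - 1`. -/
def degN (j : Fin 4) : ℕ := ![3, 3, 1, 1] j

end Pool.Agent.CG3
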