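import Pool.Agent.CG3.CSP2
import Pool.Agent.CG3.Defs2

/-!
Congruence subgroup property of `SL_3(ℤ)`, part 3: `Γ_3(m)` is the normal closure of the elementary
matrices `e_ij(m)`, and the consequence for homomorphisms to groups of exponent `p`.
-/

set_option autoImplicit false

namespace Pool.Agent.CG3.CSP

open Matrix

/-- Making two entries coprime. -/
theorem exists_coprime_add {y w z : ℤ} (hz : z ≠ 0) (α β δ : ℤ)
    (h : α * y + β * w + δ * z = 1) : ∃ s, IsCoprime (y + s * w) z := by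
  by_cases hw : w = 0
  · subst hw
    refine ⟨0, α, δ, ?_⟩
    linear_combination h
  have hg0 : (Int.gcd y w : ℤ) ≠ 0 := by
    rw [Ne, Int.natCast_eq_zero, Int.gcd_eq_zero_iff]
    exact fun h => hw h.2
  obtain ⟨y₁, hy₁⟩ := Int.gcd_dvd_left y w
  obtain ⟨w₁, hw₁⟩ := Int.gcd_dvd_right y w
  set g : ℤ := (Int.gcd y w : ℤ) with hg
  have hcop : IsCoprime y₁ w₁ := by
    have h1 : (g : ℤ) = y * Int.gcdA y w + w * Int.gcdB y w := Int.gcd_eq_gcd_ab y w
    refine ⟨Int.gcdA y w, Int.gcdB y w, ?_⟩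
    apply mul_left_cancel₀ hg0
    have h2 : g * (Int.gcdA y w * y₁ + Int.gcdB y w * w₁) =
        (g * y₁) * Int.gcdA y w + (g * w₁) * Int.gcdB y w := by ring
    rw [h2, ← hy₁, ← hw₁, ← h1, mul_one]
  have hw₁0 : w₁ ≠ 0 := by
    rintro rfl
    exact hw (by rw [hw₁, mul_zero])
  have h1 : w₁.natAbs ≠ 0 := by simpa using hw₁0
  have h2 : IsCoprime y₁ (w₁.natAbs : ℤ) := by
    rcases Int.natAbs_eq w₁ with h3 | h3
    · rwa [← h3]
    · rw [h3] at hcop
      exact (IsCoprime.neg_right_iff _ _).1 hcop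
  obtain ⟨P, hPz, hP, hpr⟩ := Nat.forall_exists_prime_gt_and_zmodEq z.natAbs h1 h2
  have h3 : w₁ ∣ (P : ℤ) - y₁ := by
    rw [← Int.natAbs_dvd]
    exact hpr.symm.dvd
  obtain ⟨s, hs⟩ := h3
  refine ⟨s, ?_⟩
  have h4 : y + s * w = g * P := by
    have : (P : ℤ) = y₁ + w₁ * s := by linarith
    rw [this, hy₁, hw₁]
    ring
  rw [h4]
  refine IsCoprime.mul_left ?_ ?_
  · refine ⟨α * y₁ + β * w₁, δ, ?_⟩
    linear_combination h - α * hy₁ - β * hw₁
  · refine (Prime.coprime_iff_not_dvd (Nat.prime_iff_prime_int.1 hP)).2 ?_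
    intro hd
    have h5 : P ∣ z.natAbs := Int.natCast_dvd.1 hd
    have h6 := Nat.le_of_dvd (Int.natAbs_pos.2 hz) h5
    omega

theorem e12_Gam (N : ℕ) : e12 (N : ℤ) ∈ Gam N := by
  rw [mem_Gam_iff]
  intro i j
  fin_cases i <;> fin_cases j <;> simp [e12]
theorem e13_Gam (N : ℕ) : e13 (N : ℤ) ∈ Gam N := by
  rw [mem_Gam_iff]
  intro i j
  fin_cases i <;> fin_cases j <;> simp [e13]
theorem e21_Gam (N : ℕ) : e21 (N : ℤ) ∈ Gam N := by
  rw [mem_Gam_iff]
  intro i j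
  fin_cases i <;> fin_cases j <;> simp [e21]
theorem e23_Gam (N : ℕ) : e23 (N : ℤ) ∈ Gam N := by
  rw [mem_Gam_iff]
  intro i j
  fin_cases i <;> fin_cases j <;> simp [e23]
theorem e31_Gam (N : ℕ) : e31 (N : ℤ) ∈ Gam N := by
  rw [mem_Gam_iff]
  intro i j
  fin_cases i <;> fin_cases j <;> simp [e31]
theorem e32_Gam (N : ℕ) : e32 (N : ℤ) ∈ Gam N := by
  rw [mem_Gam_iff]
  intro i j
  fin_cases i <;> fin_cases j <;> simp [e32]

instance Gam_normal (N : ℕ) : (Gam N).Normal := by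
  unfold Gam
  infer_instance

theorem EE_le (N : ℕ) : EE (N : ℤ) ≤ Gam N := by
  refine Subgroup.normalClosure_le_normal ?_
  intro x hx
  simp only [Set.mem_insert_iff, Set.mem_singleton_iff] at hx
  rcases hx with rfl | rfl | rfl | rfl | rfl | rfl
  · exact e12_Gam N
  · exact e13_Gam N
  · exact e21_Gam N
  · exact e23_Gam N
  · exact e31_Gam N
  · exact e32_Gam N

/-- Elements of `Γ_3(m)` with last row `(0, 0, 1)`. -/
theorem mem_EE_of_row {N : ℕ} {g : G3} (hg : g ∈ Gam N) (h0 : g.1 2 0 = 0) (h1 : g.1 2 1 = 0)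
    (h2 : g.1 2 2 = 1) : g ∈ EE (N : ℤ) := by
  have hm := mem_Gam_iff.1 hg
  have m00 := hm 0 0
  have m01 := hm 0 1
  have m02 := hm 0 2
  have m10 := hm 1 0
  have m11 := hm 1 1
  have m12 := hm 1 2
  simp only [Matrix.sub_apply, Matrix.one_apply_eq, Matrix.one_apply_ne (show (0 : Fin 3) ≠ 1 by decide),
    Matrix.one_apply_ne (show (0 : Fin 3) ≠ 2 by decide),
    Matrix.one_apply_ne (show (1 : Fin 3) ≠ 0 by decide),
    Matrix.one_apply_ne (show (1 : Fin 3) ≠ 2 by decide), sub_zero] at m00 m01 m02 m10 m11 m12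
  have hdet := g.2
  rw [det_fin_three, h0, h1, h2] at hdet
  have hd : g.1 0 0 * g.1 1 1 - g.1 0 1 * g.1 1 0 = 1 := by linear_combination hdet
  have key : e13 (-(g.1 0 2)) * (e23 (-(g.1 1 2)) * g) =
      blk12 (g.1 0 0) (g.1 0 1) (g.1 1 0) (g.1 1 1) hd := by
    apply ext9; intro i j; simp only [mul9]
    fin_cases i <;> fin_cases j <;> simp [blk12, e13, e23, h0, h1, h2]
  have hgood : Good (N : ℤ) (g.1 0 0) (g.1 0 1) :=
    ⟨m00, m01, ⟨g.1 1 1, -(g.1 1 0), by linarith⟩⟩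
  have hcong : Cong (N : ℤ) (g.1 0 0) (g.1 0 1) (g.1 1 0) (g.1 1 1) := ⟨m00, m01, m10, m11⟩
  have h3 := S_eq hd hcong
  rw [S_eq_one hgood, ← key] at h3
  have h4 := mem_of_pr h3.symm
  rw [Subgroup.mul_mem_cancel_left _ (e13_mem m02.neg_right),
    Subgroup.mul_mem_cancel_left _ (e23_mem m12.neg_right)] at h4
  exact h4

/-- **Mennicke**: `Γ_3(N)` is the normal closure of the elementary matrices `e_ij(N)`. -/
theorem Gam_le {N : ℕ} (hN : 2 ≤ N) : Gam N ≤ EE (N : ℤ) := by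
  intro g hg
  have hm := mem_Gam_iff.1 hg
  have m20 := hm 2 0
  have m21 := hm 2 1
  have m22 := hm 2 2
  simp only [Matrix.sub_apply, Matrix.one_apply_eq,
    Matrix.one_apply_ne (show (2 : Fin 3) ≠ 0 by decide),
    Matrix.one_apply_ne (show (2 : Fin 3) ≠ 1 by decide), sub_zero] at m20 m21 m22
  have hz0 : g.1 2 2 ≠ 0 := by
    intro hx
    rw [hx, zero_sub, dvd_neg] at m22
    have := Int.natCast_dvd.1 m22
    simp at this
    omega
  have hdet := g.2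
  rw [det_fin_three] at hdet
  obtain ⟨k, hk⟩ := m22
  -- unimodularity of the last row, with the factor `N` inserted
  set x := g.1 2 0 with hx
  set y := g.1 2 1 with hy
  set z := g.1 2 2 with hz
  have hu : ∃ α β δ : ℤ, α * y + β * ((N : ℤ) * x) + δ * z = 1 := by
    -- `1 = A x + B y + C z` and `1 = z - N k`
    refine ⟨-(g.1 0 0 * g.1 1 2) + g.1 0 2 * g.1 1 0,
      -(k * (g.1 0 1 * g.1 1 2 - g.1 0 2 * g.1 1 1)),
      g.1 0 0 * g.1 1 1 - g.1 0 1 * g.1 1 0 + (g.1 0 1 * g.1 1 2 - g.1 0 2 * g.1 1 1) * x, ?_⟩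
    linear_combination hdet + (g.1 0 1 * g.1 1 2 - g.1 0 2 * g.1 1 1) * x * hk
  obtain ⟨α, β, δ, hαβ⟩ := hu
  obtain ⟨s, hs⟩ := exists_coprime_add hz0 α β δ hαβ
  obtain ⟨a, b, hab⟩ := hs
  have hmd : (N : ℤ) ∣ 1 - z - x := by
    have h1 : (N : ℤ) ∣ z - 1 := ⟨k, hk⟩
    have h2 := dvd_add h1 m20
    have := h2.neg_right
    rwa [show -(z - 1 + x) = 1 - z - x by ring] at this
  -- the modified matrix
  let t1 := e12 (s * (N : ℤ))
  let t2 := e21 (a * (1 - z - x))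
  let t3 := e31 (b * (1 - z - x))
  let t4 := e31 (z - 1)
  let t5 := e32 (-(y + s * (N * x)))
  have ht1 : t1 ∈ EE (N : ℤ) := e12_mem (Dvd.intro_left _ rfl)
  have ht2 : t2 ∈ EE (N : ℤ) := e21_mem (Dvd.dvd.mul_left hmd _)
  have ht3 : t3 ∈ EE (N : ℤ) := e31_mem (Dvd.dvd.mul_left hmd _)
  have ht4 : t4 ∈ EE (N : ℤ) := e31_mem ⟨k, hk⟩
  have ht5 : t5 ∈ EE (N : ℤ) := by
    refine e32_mem (Dvd.dvd.neg_right ?_)
    exact dvd_add m21 (Dvd.dvd.mul_left (Dvd.intro _ rfl) _)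
  have hinv : (e13 1)⁻¹ = e13 (-1) := by
    rw [inv_eq_iff_mul_eq_one, ← e13_add]
    simp [e13_zero]
  have ht6 : e13 1 * (t4 * t5) * e13 (-1) ∈ EE (N : ℤ) := by
    rw [← hinv]
    exact Subgroup.Normal.conj_mem inferInstance _ (mul_mem ht4 ht5) _
  let T := t1 * (t2 * (t3 * (e13 1 * (t4 * t5) * e13 (-1))))
  have hT : T ∈ EE (N : ℤ) := mul_mem ht1 (mul_mem ht2 (mul_mem ht3 ht6))
  rw [← Subgroup.mul_mem_cancel_right _ hT]
  have e : g * T = g * t1 * t2 * t3 * e13 1 * t4 * t5 * e13 (-1) := by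
    simp only [T, mul_assoc]
  -- rows after each step
  have r1 : ∀ j, (g * t1).1 2 j = ![x, y + s * (N * x), z] j := by
    intro j
    rw [mul9]
    fin_cases j <;> simp [t1, e12, ← hx, ← hy, ← hz] <;> ring
  have r2 : ∀ j, (g * t1 * t2).1 2 j =
      ![x + (y + s * (N * x)) * (a * (1 - z - x)), y + s * (N * x), z] j := by
    intro j
    rw [mul9, r1, r1, r1]
    fin_cases j <;> simp [t2, e21]
  have r3 : ∀ j, (g * t1 * t2 * t3).1 2 j = ![1 - z, y + s * (N * x), z] j := by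
    intro j
    rw [mul9, r2, r2, r2]
    fin_cases j <;> simp [t3, e31]
    linear_combination (1 - z - x) * hab
  have r4 : ∀ j, (g * t1 * t2 * t3 * e13 1).1 2 j = ![1 - z, y + s * (N * x), 1] j := by
    intro j
    rw [mul9, r3, r3, r3]
    fin_cases j <;> simp [e13]
  have r5 : ∀ j, (g * t1 * t2 * t3 * e13 1 * t4).1 2 j = ![0, y + s * (N * x), 1] j := by
    intro j
    rw [mul9, r4, r4, r4]
    fin_cases j <;> simp [t4, e31]
  have r6 : ∀ j, (g * t1 * t2 * t3 * e13 1 * t4 * t5).1 2 j = ![0, 0, 1] j := by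
    intro j
    rw [mul9, r5, r5, r5]
    fin_cases j <;> simp [t5, e32]
  have r7 : ∀ j, (g * t1 * t2 * t3 * e13 1 * t4 * t5 * e13 (-1)).1 2 j = ![0, 0, 1] j := by
    intro j
    rw [mul9, r6, r6, r6]
    fin_cases j <;> simp [e13]
  refine mem_EE_of_row ((Gam N).mul_mem hg (EE_le N hT)) ?_ ?_ ?_
  · rw [e, r7]; rfl
  · rw [e, r7]; rfl
  · rw [e, r7]; rfl

end Pool.Agent.CG3.CSP

namespace Pool.Agent.CG3

open CSP

/-- **A**: homomorphisms from `Γ₃(N)`, `p ∣ N`, to abelian groups of exponent `p` are trivial on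
`Γ₃(N²)`. -/
theorem csp_lite {p N : ℕ} (hp : p.Prime) (hN : 0 < N) (hpN : p ∣ N) {A : Type} [CommGroup A]
    (hA : ∀ a : A, a ^ p = 1) (φ : Gam N →* A) (g : SLZ) (hg : g ∈ Gam (N ^ 2))
    (hg' : g ∈ Gam N) : φ ⟨g, hg'⟩ = 1 := by
  have hN2 : 2 ≤ N := hp.two_le.trans (Nat.le_of_dvd hN hpN)
  have hN4 : 2 ≤ N ^ 2 := by nlinarith
  have h1 : g ∈ EE ((N ^ 2 : ℕ) : ℤ) := Gam_le hN4 hg
  have hAN : ∀ a : A, a ^ N = 1 := by
    obtain ⟨k, rfl⟩ := hpN
    intro a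
    rw [pow_mul, hA, one_pow]
  -- the kernel of `φ` as a subgroup of `SL_3(ℤ)`
  let K : Subgroup SLZ := φ.ker.map (Gam N).subtype
  have hconj : ∀ (e : ℤ → SLZ), e 0 = 1 → (∀ s t, e (s + t) = e s * e t) → e (N : ℤ) ∈ Gam N →
      ∀ c : SLZ, c * e ((N ^ 2 : ℕ) : ℤ) * c⁻¹ ∈ K := by
    intro e h0 hadd hmem c
    have h2 : e ((N ^ 2 : ℕ) : ℤ) = e (N : ℤ) ^ N := by
      have := fam_zpow e h0 hadd (N : ℤ) (N : ℤ)
      rw [zpow_natCast] at this
      rw [← this]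
      congr 1
      push_cast
      ring
    have h3 : c * e (N : ℤ) * c⁻¹ ∈ Gam N := Subgroup.Normal.conj_mem inferInstance _ hmem c
    rw [h2, ← conj_pow]
    refine ⟨(⟨_, h3⟩ : Gam N) ^ N, ?_, rfl⟩
    show φ (⟨_, h3⟩ ^ N) = 1
    rw [map_pow, hAN]
  have hle : EE ((N ^ 2 : ℕ) : ℤ) ≤ K := by
    unfold EE Subgroup.normalClosure
    rw [Subgroup.closure_le]
    intro x hx
    rw [Group.mem_conjugatesOfSet_iff] at hx
    obtain ⟨y, hy, hyx⟩ := hx
    rw [isConj_iff] at hyx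
    obtain ⟨c, rfl⟩ := hyx
    simp only [Set.mem_insert_iff, Set.mem_singleton_iff] at hy
    rcases hy with rfl | rfl | rfl | rfl | rfl | rfl
    · exact hconj e12 e12_zero e12_add (e12_Gam N) c
    · exact hconj e13 e13_zero e13_add (e13_Gam N) c
    · exact hconj e21 e21_zero e21_add (e21_Gam N) c
    · exact hconj e23 e23_zero e23_add (e23_Gam N) c
    · exact hconj e31 e31_zero e31_add (e31_Gam N) c
    · exact hconj e32 e32_zero e32_add (e32_Gam N) c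
  obtain ⟨y, hy, hyg⟩ := hle h1
  have : y = ⟨g, hg'⟩ := Subtype.ext hyg
  rw [← this]
  exact hy

end Pool.Agent.CG3
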