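import Mathlib

/-!
Congruence subgroup property of `SL_3(ℤ)`, part 1: elementary matrices, blocks and the Mennicke
symbol modulo the relative elementary subgroup.
-/

set_option autoImplicit false

namespace Pool.Agent.CG3.CSP

open Matrix

/-- `SL_3(ℤ)`. -/
abbrev G3 : Type := SpecialLinearGroup (Fin 3) ℤ

/-! ### Elementary matrices -/

/-- Elementary matrices. -/
def e12 (t : ℤ) : G3 := ⟨!![1, t, 0; 0, 1, 0; 0, 0, 1], by simp [det_fin_three]⟩
/-- Elementary matrices. -/
def e13 (t : ℤ) : G3 := ⟨!![1, 0, t; 0, 1, 0; 0, 0, 1], by simp [det_fin_three]⟩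
/-- Elementary matrices. -/
def e21 (t : ℤ) : G3 := ⟨!![1, 0, 0; t, 1, 0; 0, 0, 1], by simp [det_fin_three]⟩
/-- Elementary matrices. -/
def e23 (t : ℤ) : G3 := ⟨!![1, 0, 0; 0, 1, t; 0, 0, 1], by simp [det_fin_three]⟩
/-- Elementary matrices. -/
def e31 (t : ℤ) : G3 := ⟨!![1, 0, 0; 0, 1, 0; t, 0, 1], by simp [det_fin_three]⟩
/-- Elementary matrices. -/
def e32 (t : ℤ) : G3 := ⟨!![1, 0, 0; 0, 1, 0; 0, t, 1], by simp [det_fin_three]⟩

/-- Diagonal blocks. -/
def blk12 (a b c d : ℤ) (h : a * d - b * c = 1) : G3 :=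
  ⟨!![a, b, 0; c, d, 0; 0, 0, 1], by simp [det_fin_three]; linarith⟩
/-- Diagonal blocks. -/
def blk13 (a b c d : ℤ) (h : a * d - b * c = 1) : G3 :=
  ⟨!![a, 0, b; 0, 1, 0; c, 0, d], by simp [det_fin_three]; linarith⟩
/-- Diagonal blocks. -/
def blk23 (a b c d : ℤ) (h : a * d - b * c = 1) : G3 :=
  ⟨!![1, 0, 0; 0, a, b; 0, c, d], by simp [det_fin_three]; linarith⟩

/-- The signed transposition of the coordinates `2, 3`. -/
def w23 : G3 := ⟨!![1, 0, 0; 0, 0, -1; 0, 1, 0], by simp [det_fin_three]⟩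
/-- The signed transposition of the coordinates `1, 2`. -/
def w12 : G3 := ⟨!![0, -1, 0; 1, 0, 0; 0, 0, 1], by simp [det_fin_three]⟩

/-- A proof of equality in `SL_3(ℤ)` by entries. -/
theorem ext9 {A B : G3} (h : ∀ i j, A.1 i j = B.1 i j) : A = B :=
  Subtype.ext (Matrix.ext h)

theorem mul9 (A B : G3) (i j : Fin 3) :
    (A * B).1 i j = A.1 i 0 * B.1 0 j + A.1 i 1 * B.1 1 j + A.1 i 2 * B.1 2 j := by
  show (A.1 * B.1) i j = _
  rw [Matrix.mul_apply, Fin.sum_univ_three]

theorem one9 (i j : Fin 3) : (1 : G3).1 i j = (1 : Matrix (Fin 3) (Fin 3) ℤ) i j := rfl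

theorem e12_add (s t : ℤ) : e12 (s + t) = e12 s * e12 t := by
  apply ext9; intro i j; simp only [mul9, one9]
  fin_cases i <;> fin_cases j <;> simp [e12, add_comm]
theorem e13_add (s t : ℤ) : e13 (s + t) = e13 s * e13 t := by
  apply ext9; intro i j; simp only [mul9, one9]
  fin_cases i <;> fin_cases j <;> simp [e13, add_comm]
theorem e21_add (s t : ℤ) : e21 (s + t) = e21 s * e21 t := by
  apply ext9; intro i j; simp only [mul9, one9]
  fin_cases i <;> fin_cases j <;> simp [e21, add_comm]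
theorem e23_add (s t : ℤ) : e23 (s + t) = e23 s * e23 t := by
  apply ext9; intro i j; simp only [mul9, one9]
  fin_cases i <;> fin_cases j <;> simp [e23, add_comm]
theorem e31_add (s t : ℤ) : e31 (s + t) = e31 s * e31 t := by
  apply ext9; intro i j; simp only [mul9, one9]
  fin_cases i <;> fin_cases j <;> simp [e31, add_comm]
theorem e32_add (s t : ℤ) : e32 (s + t) = e32 s * e32 t := by
  apply ext9; intro i j; simp only [mul9, one9]
  fin_cases i <;> fin_cases j <;> simp [e32, add_comm]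

theorem e12_zero : e12 0 = 1 := by
  apply ext9; intro i j; simp only [mul9, one9]
  fin_cases i <;> fin_cases j <;> simp [e12]
theorem e13_zero : e13 0 = 1 := by
  apply ext9; intro i j; simp only [mul9, one9]
  fin_cases i <;> fin_cases j <;> simp [e13]
theorem e21_zero : e21 0 = 1 := by
  apply ext9; intro i j; simp only [mul9, one9]
  fin_cases i <;> fin_cases j <;> simp [e21]
theorem e23_zero : e23 0 = 1 := by
  apply ext9; intro i j; simp only [mul9, one9]
  fin_cases i <;> fin_cases j <;> simp [e23]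
theorem e31_zero : e31 0 = 1 := by
  apply ext9; intro i j; simp only [mul9, one9]
  fin_cases i <;> fin_cases j <;> simp [e31]
theorem e32_zero : e32 0 = 1 := by
  apply ext9; intro i j; simp only [mul9, one9]
  fin_cases i <;> fin_cases j <;> simp [e32]

/-- An additive family of elements of a group. -/
theorem fam_zpow {H : Type} [Group H] (e : ℤ → H) (h0 : e 0 = 1)
    (h : ∀ s t, e (s + t) = e s * e t) (m k : ℤ) : e (m * k) = e m ^ k := by
  induction k using Int.induction_on with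
  | zero => simp [h0]
  | succ k ih => rw [mul_add, mul_one, h, ih, _root_.zpow_add_one]
  | pred k ih =>
    have h1 := h (m * (-(k : ℤ) - 1)) m
    have h2 : m * (-(k : ℤ) - 1) + m = m * (-(k : ℤ)) := by ring
    rw [h2, ih] at h1
    rw [_root_.zpow_sub_one, h1, mul_inv_cancel_right]

/-! ### The relative elementary subgroup -/

/-- The normal closure of the elementary matrices `e_ij(m)`. -/
def EE (m : ℤ) : Subgroup G3 :=
  Subgroup.normalClosure {e12 m, e13 m, e21 m, e23 m, e31 m, e32 m}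

instance (m : ℤ) : (EE m).Normal := Subgroup.normalClosure_normal

theorem mem_EE {m : ℤ} (e : ℤ → G3) (h0 : e 0 = 1) (h : ∀ s t, e (s + t) = e s * e t)
    (hm : e m ∈ EE m) {t : ℤ} (ht : m ∣ t) : e t ∈ EE m := by
  obtain ⟨k, rfl⟩ := ht
  rw [fam_zpow e h0 h]
  exact Subgroup.zpow_mem _ hm k

theorem e12_mem {m t : ℤ} (ht : m ∣ t) : e12 t ∈ EE m :=
  mem_EE e12 e12_zero e12_add (Subgroup.subset_normalClosure (by simp)) ht
theorem e13_mem {m t : ℤ} (ht : m ∣ t) : e13 t ∈ EE m :=
  mem_EE e13 e13_zero e13_add (Subgroup.subset_normalClosure (by simp)) ht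
theorem e21_mem {m t : ℤ} (ht : m ∣ t) : e21 t ∈ EE m :=
  mem_EE e21 e21_zero e21_add (Subgroup.subset_normalClosure (by simp)) ht
theorem e23_mem {m t : ℤ} (ht : m ∣ t) : e23 t ∈ EE m :=
  mem_EE e23 e23_zero e23_add (Subgroup.subset_normalClosure (by simp)) ht
theorem e31_mem {m t : ℤ} (ht : m ∣ t) : e31 t ∈ EE m :=
  mem_EE e31 e31_zero e31_add (Subgroup.subset_normalClosure (by simp)) ht
theorem e32_mem {m t : ℤ} (ht : m ∣ t) : e32 t ∈ EE m :=
  mem_EE e32 e32_zero e32_add (Subgroup.subset_normalClosure (by simp)) ht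

/-- The quotient by the relative elementary subgroup. -/
abbrev QQ (m : ℤ) : Type := G3 ⧸ EE m

/-- The projection. -/
def pr (m : ℤ) : G3 →* QQ m := QuotientGroup.mk' (EE m)

theorem pr_eq_one {m : ℤ} {x : G3} (h : x ∈ EE m) : pr m x = 1 :=
  (QuotientGroup.eq_one_iff x).2 h

theorem mem_of_pr {m : ℤ} {x : G3} (h : pr m x = 1) : x ∈ EE m :=
  (QuotientGroup.eq_one_iff x).1 h

/-! ### Blocks commute with elementary matrices modulo `EE m` -/

theorem id_comm13 (a b c d t : ℤ) (h : a * d - b * c = 1) :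
    blk12 a b c d h * e13 t = e13 (t * a) * e23 (t * c) * blk12 a b c d h := by
  apply ext9; intro i j; simp only [mul9, one9]
  fin_cases i <;> fin_cases j <;>
    simp [blk12, e13, e23] <;> ring

theorem id_comm23 (a b c d t : ℤ) (h : a * d - b * c = 1) :
    blk12 a b c d h * e23 t = e13 (t * b) * e23 (t * d) * blk12 a b c d h := by
  apply ext9; intro i j; simp only [mul9, one9]
  fin_cases i <;> fin_cases j <;>
    simp [blk12, e13, e23] <;> ring

theorem id_comm31 (a b c d t : ℤ) (h : a * d - b * c = 1) :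
    e31 t * blk12 a b c d h = blk12 a b c d h * (e31 (t * a) * e32 (t * b)) := by
  apply ext9; intro i j; simp only [mul9, one9]
  fin_cases i <;> fin_cases j <;>
    simp [blk12, e31, e32]

theorem id_comm32 (a b c d t : ℤ) (h : a * d - b * c = 1) :
    e32 t * blk12 a b c d h = blk12 a b c d h * (e31 (t * c) * e32 (t * d)) := by
  apply ext9; intro i j; simp only [mul9, one9]
  fin_cases i <;> fin_cases j <;>
    simp [blk12, e31, e32]

theorem id_e12 (t : ℤ) : e12 t = e13 t * e32 1 * e13 (-t) * e32 (-1) := by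
  apply ext9; intro i j; simp only [mul9, one9]
  fin_cases i <;> fin_cases j <;>
    simp [e12, e13, e32]

theorem id_e21 (t : ℤ) : e21 t = e23 t * e31 1 * e23 (-t) * e31 (-1) := by
  apply ext9; intro i j; simp only [mul9, one9]
  fin_cases i <;> fin_cases j <;>
    simp [e21, e23, e31]

theorem id_w23 : w23 = e23 (-1) * e32 1 * e23 (-1) := by
  apply ext9; intro i j; simp only [mul9, one9]
  fin_cases i <;> fin_cases j <;>
    simp [w23, e23, e32]

theorem id_w12 : w12 = e12 (-1) * e21 1 * e12 (-1) := by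
  apply ext9; intro i j; simp only [mul9, one9]
  fin_cases i <;> fin_cases j <;>
    simp [w12, e12, e21]

/-- The congruence conditions for a block. -/
structure Cong (m a b c d : ℤ) : Prop where
  a : m ∣ a - 1
  b : m ∣ b
  c : m ∣ c
  d : m ∣ d - 1

theorem pr_e13 {m s t : ℤ} (h : m ∣ s - t) : pr m (e13 s) = pr m (e13 t) := by
  have : s = (s - t) + t := by ring
  rw [this, e13_add, map_mul, pr_eq_one (e13_mem h), one_mul]

theorem pr_e23 {m s t : ℤ} (h : m ∣ s - t) : pr m (e23 s) = pr m (e23 t) := by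
  have : s = (s - t) + t := by ring
  rw [this, e23_add, map_mul, pr_eq_one (e23_mem h), one_mul]

theorem pr_e31 {m s t : ℤ} (h : m ∣ s - t) : pr m (e31 s) = pr m (e31 t) := by
  have : s = (s - t) + t := by ring
  rw [this, e31_add, map_mul, pr_eq_one (e31_mem h), one_mul]

theorem pr_e32 {m s t : ℤ} (h : m ∣ s - t) : pr m (e32 s) = pr m (e32 t) := by
  have : s = (s - t) + t := by ring
  rw [this, e32_add, map_mul, pr_eq_one (e32_mem h), one_mul]

/-- The subgroup of elements which commute with the block modulo `EE m`. -/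
def Cz (m : ℤ) (x : G3) : Subgroup G3 :=
  (Subgroup.centralizer {pr m x}).comap (pr m)

theorem mem_Cz {m : ℤ} {x y : G3} : y ∈ Cz m x ↔ pr m x * pr m y = pr m y * pr m x := by
  unfold Cz
  rw [Subgroup.mem_comap, Subgroup.mem_centralizer_iff]
  simp

section Comm

variable {m a b c d : ℤ} (h : a * d - b * c = 1) (hc : Cong m a b c d)

include hc

theorem e13_Cz (t : ℤ) : e13 t ∈ Cz m (blk12 a b c d h) := by
  rw [mem_Cz, ← map_mul, id_comm13, map_mul, map_mul,
    pr_eq_one (e23_mem (Dvd.dvd.mul_left hc.c t)), mul_one,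
    pr_e13 (s := t * a) (t := t) (by
      have := Dvd.dvd.mul_left hc.a t
      rwa [mul_sub, mul_one] at this)]

theorem e23_Cz (t : ℤ) : e23 t ∈ Cz m (blk12 a b c d h) := by
  rw [mem_Cz, ← map_mul, id_comm23, map_mul, map_mul,
    pr_eq_one (e13_mem (Dvd.dvd.mul_left hc.b t)), one_mul,
    pr_e23 (s := t * d) (t := t) (by
      have := Dvd.dvd.mul_left hc.d t
      rwa [mul_sub, mul_one] at this)]

theorem e31_Cz (t : ℤ) : e31 t ∈ Cz m (blk12 a b c d h) := by
  rw [mem_Cz, ← map_mul, ← map_mul (pr m) (e31 t), id_comm31, map_mul, map_mul, map_mul,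
    pr_eq_one (e32_mem (Dvd.dvd.mul_left hc.b t)), mul_one,
    pr_e31 (s := t * a) (t := t) (by
      have := Dvd.dvd.mul_left hc.a t
      rwa [mul_sub, mul_one] at this)]

theorem e32_Cz (t : ℤ) : e32 t ∈ Cz m (blk12 a b c d h) := by
  rw [mem_Cz, ← map_mul, ← map_mul (pr m) (e32 t), id_comm32, map_mul, map_mul, map_mul,
    pr_eq_one (e31_mem (Dvd.dvd.mul_left hc.c t)), one_mul,
    pr_e32 (s := t * d) (t := t) (by
      have := Dvd.dvd.mul_left hc.d t
      rwa [mul_sub, mul_one] at this)]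

theorem e12_Cz (t : ℤ) : e12 t ∈ Cz m (blk12 a b c d h) := by
  rw [id_e12]
  exact mul_mem (mul_mem (mul_mem (e13_Cz h hc _) (e32_Cz h hc _)) (e13_Cz h hc _))
    (e32_Cz h hc _)

theorem e21_Cz (t : ℤ) : e21 t ∈ Cz m (blk12 a b c d h) := by
  rw [id_e21]
  exact mul_mem (mul_mem (mul_mem (e23_Cz h hc _) (e31_Cz h hc _)) (e23_Cz h hc _))
    (e31_Cz h hc _)

theorem w23_Cz : w23 ∈ Cz m (blk12 a b c d h) := by
  rw [id_w23]
  exact mul_mem (mul_mem (e23_Cz h hc _) (e32_Cz h hc _)) (e23_Cz h hc _)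

theorem w12_Cz : w12 ∈ Cz m (blk12 a b c d h) := by
  rw [id_w12]
  exact mul_mem (mul_mem (e12_Cz h hc _) (e21_Cz h hc _)) (e12_Cz h hc _)

theorem pr_blk13 : pr m (blk13 a b c d h) = pr m (blk12 a b c d h) := by
  have h1 : w23 * blk12 a b c d h = blk13 a b c d h * w23 := by
    apply ext9; intro i j; simp only [mul9, one9]
    fin_cases i <;> fin_cases j <;>
      simp [w23, blk12, blk13]
  have h2 := mem_Cz.1 (w23_Cz h hc)
  have h3 := congrArg (pr m) h1
  rw [map_mul, map_mul, ← h2] at h3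
  exact (mul_right_cancel h3).symm

theorem pr_blk23 : pr m (blk23 a b c d h) = pr m (blk12 a b c d h) := by
  have h1 : (w12 * w23) * blk12 a b c d h = blk23 a b c d h * (w12 * w23) := by
    apply ext9; intro i j; simp only [mul9, one9]
    fin_cases i <;> fin_cases j <;>
      simp [w23, w12, blk12, blk23]
  have h2 := mem_Cz.1 (mul_mem (w12_Cz h hc) (w23_Cz h hc))
  have h3 := congrArg (pr m) h1
  rw [map_mul, map_mul _ (blk23 a b c d h), ← h2] at h3
  exact (mul_right_cancel h3).symm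

end Comm

/-- The class of a block only depends on its first row. -/
theorem pr_row {m a b c d c' d' : ℤ} (h : a * d - b * c = 1) (h' : a * d' - b * c' = 1)
    (hc : m ∣ c) (hc' : m ∣ c') : pr m (blk12 a b c d h) = pr m (blk12 a b c' d' h') := by
  have h1 : blk12 a b c d h = e21 (c * d' - d * c') * blk12 a b c' d' h' := by
    have e1 : (c * d' - d * c') * a + c' = c := by
      have : (c * d' - d * c') * a = c * (a * d') - c' * (a * d) := by ring
      rw [this, show a * d' = 1 + b * c' by linarith, show a * d = 1 + b * c by linarith]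
      ring
    have e2 : (c * d' - d * c') * b + d' = d := by
      have : (c * d' - d * c') * b = d' * (b * c) - d * (b * c') := by ring
      rw [this, show b * c = a * d - 1 by linarith, show b * c' = a * d' - 1 by linarith]
      ring
    apply ext9; intro i j; simp only [mul9, one9]
    fin_cases i <;> fin_cases j <;>
      simp [e21, blk12, e1, e2]
  rw [h1, map_mul, pr_eq_one (e21_mem ?_), one_mul]
  exact dvd_sub (Dvd.dvd.mul_right hc d') (Dvd.dvd.mul_left hc' d)

/-- The product formula for blocks. -/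
theorem pr_mul {m a b₁ c₁ d₁ b₂ c₂ d₂ : ℤ} (h₁ : a * d₁ - b₁ * c₁ = 1)
    (h₂ : a * d₂ - b₂ * c₂ = 1) (k₁ : Cong m a b₁ c₁ d₁) (k₂ : Cong m a b₂ c₂ d₂)
    (h₃ : a * (d₂ - b₂ * c₂ * d₁) - (b₁ * b₂) * (-(c₁ * c₂)) = 1) :
    pr m (blk12 a b₁ c₁ d₁ h₁) * pr m (blk12 a b₂ c₂ d₂ h₂) =
      pr m (blk12 a (b₁ * b₂) (-(c₁ * c₂)) (d₂ - b₂ * c₂ * d₁) h₃) := by
  have k₃ : Cong m a (b₁ * b₂) (-(c₁ * c₂)) (d₂ - b₂ * c₂ * d₁) := by
    refine ⟨k₁.a, Dvd.dvd.mul_right k₁.b _, (Dvd.dvd.mul_right k₁.c _).neg_right, ?_⟩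
    have : d₂ - b₂ * c₂ * d₁ - 1 = (d₂ - 1) - b₂ * (c₂ * d₁) := by ring
    rw [this]
    exact dvd_sub k₂.d (Dvd.dvd.mul_right k₂.b _)
  have h4 : e32 (-c₂) * (blk12 a b₁ c₁ d₁ h₁ * blk23 a b₂ c₂ d₂ h₂) * e12 (-b₁) * e21 (-c₁) *
      e23 (-(d₁ * b₂)) = blk13 a (b₁ * b₂) (-(c₁ * c₂)) (d₂ - b₂ * c₂ * d₁) h₃ := by
    have e1 : d₁ * a - c₁ * b₁ = 1 := by linarith
    apply ext9; intro i j; simp only [mul9, one9]
    fin_cases i <;> fin_cases j <;>
      simp [e12, e21, e23, e32, blk12, blk13, blk23] <;>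
      first
        | (ring; done)
        | (left; ring; done)
        | (linear_combination e1)
        | (linear_combination (c₂) * e1)
        | (linear_combination (-c₂) * e1)
        | (linear_combination (c₁) * e1)
        | (linear_combination (-c₁) * e1)
        | (linear_combination (d₁ * b₂) * e1)
        | (linear_combination (-(d₁ * b₂)) * e1)
        | (linear_combination (c₁ * c₂) * e1)
        | (linear_combination (-(c₁ * c₂)) * e1)
        | (linear_combination (c₂ * (d₁ * b₂)) * e1)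
        | (linear_combination (-(c₂ * (d₁ * b₂))) * e1)
  have h5 := congrArg (pr m) h4
  rw [map_mul, map_mul, map_mul, map_mul, map_mul, pr_blk23 h₂ k₂, pr_blk13 h₃ k₃,
    pr_eq_one (e32_mem k₂.c.neg_right), pr_eq_one (e12_mem k₁.b.neg_right),
    pr_eq_one (e21_mem k₁.c.neg_right),
    pr_eq_one (e23_mem (Dvd.dvd.mul_left k₂.b d₁).neg_right)] at h5
  simpa using h5

end Pool.Agent.CG3.CSP
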