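import Pool.Agent.CG3.CSP1

/-!
Congruence subgroup property of `SL_3(ℤ)`, part 2: the Mennicke symbol is trivial.
-/

set_option autoImplicit false

namespace Pool.Agent.CG3.CSP

open Matrix

/-- Admissible first rows. -/
structure Good (m a b : ℤ) : Prop where
  ha : m ∣ a - 1
  hb : m ∣ b
  cop : IsCoprime a b

theorem Good.cop_m {m a b : ℤ} (h : Good m a b) : IsCoprime m a := by
  obtain ⟨k, hk⟩ := h.ha
  exact ⟨-k, 1, by linarith [mul_comm m k]⟩

theorem exists_cd {m a b : ℤ} (h : Good m a b) :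
    ∃ c d, a * d - b * c = 1 ∧ Cong m a b c d := by
  obtain ⟨u, v, huv⟩ := h.cop
  -- `u * a + v * b = 1`
  refine ⟨-v * (1 - a), u + v * b, by linear_combination huv, h.ha, h.hb, ?_, ?_⟩
  · refine Dvd.dvd.mul_left ?_ _
    have := h.ha.neg_right
    rwa [neg_sub] at this
  · have h1 : u + v * b - 1 = u * (1 - a) := by linear_combination huv
    rw [h1]
    refine Dvd.dvd.mul_left ?_ _
    have := h.ha.neg_right
    rwa [neg_sub] at this

open Classical in
/-- The Mennicke symbol. -/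
noncomputable def S (m a b : ℤ) : QQ m :=
  if h : Good m a b then
    pr m (blk12 a b (exists_cd h).choose (exists_cd h).choose_spec.choose
      (exists_cd h).choose_spec.choose_spec.1)
  else 1

theorem S_eq {m a b c d : ℤ} (h : a * d - b * c = 1) (k : Cong m a b c d) :
    S m a b = pr m (blk12 a b c d h) := by
  have hg : Good m a b := ⟨k.a, k.b, ⟨d, -c, by linarith⟩⟩
  unfold S
  rw [dif_pos hg]
  exact pr_row _ _ (exists_cd hg).choose_spec.choose_spec.2.c k.c

theorem S_add_b {m a b t : ℤ} (h : Good m a b) (ht : m ∣ t) :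
    S m a (b + t * a) = S m a b := by
  obtain ⟨c, d, hd, k⟩ := exists_cd h
  have hd' : a * (d + t * c) - (b + t * a) * c = 1 := by linear_combination hd
  have k' : Cong m a (b + t * a) c (d + t * c) := by
    refine ⟨k.a, dvd_add k.b (Dvd.dvd.mul_right ht a), k.c, ?_⟩
    have : d + t * c - 1 = (d - 1) + t * c := by ring
    rw [this]
    exact dvd_add k.d (Dvd.dvd.mul_right ht c)
  rw [S_eq hd k, S_eq hd' k']
  have h1 : blk12 a (b + t * a) c (d + t * c) hd' = blk12 a b c d hd * e12 t := by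
    apply ext9; intro i j; simp only [mul9]
    fin_cases i <;> fin_cases j <;> simp [blk12, e12] <;> ring
  rw [h1, map_mul, pr_eq_one (e12_mem ht), mul_one]

theorem S_add_a {m a b : ℤ} (h : Good m a b) (t : ℤ) :
    S m (a + t * b) b = S m a b := by
  obtain ⟨c, d, hd, k⟩ := exists_cd h
  have hd' : (a + t * b) * (d - t * b) - b * (c + t * d - t * (a + t * b)) = 1 := by
    linear_combination hd
  have k' : Cong m (a + t * b) b (c + t * d - t * (a + t * b)) (d - t * b) := by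
    refine ⟨?_, k.b, ?_, ?_⟩
    · have : a + t * b - 1 = (a - 1) + t * b := by ring
      rw [this]
      exact dvd_add k.a (Dvd.dvd.mul_left k.b t)
    · have : c + t * d - t * (a + t * b) = c + t * (d - 1) - t * (a - 1) - t * t * b := by ring
      rw [this]
      exact dvd_sub (dvd_sub (dvd_add k.c (Dvd.dvd.mul_left k.d t)) (Dvd.dvd.mul_left k.a t))
        (Dvd.dvd.mul_left k.b _)
    · have : d - t * b - 1 = (d - 1) - t * b := by ring
      rw [this]
      exact dvd_sub k.d (Dvd.dvd.mul_left k.b t)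
  rw [S_eq hd k, S_eq hd' k']
  have h1 : e21 t * blk12 (a + t * b) b (c + t * d - t * (a + t * b)) (d - t * b) hd' =
      blk12 a b c d hd * e21 t := by
    apply ext9; intro i j; simp only [mul9]
    fin_cases i <;> fin_cases j <;> simp [blk12, e21] <;> ring
  have h2 := congrArg (pr m) h1
  rw [map_mul, map_mul _ (blk12 a b c d hd), mem_Cz.1 (e21_Cz hd k t)] at h2
  exact mul_left_cancel h2

theorem Good.mul {m a b₁ b₂ : ℤ} (h₁ : Good m a b₁) (h₂ : Good m a b₂) : Good m a (b₁ * b₂) :=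
  ⟨h₁.ha, Dvd.dvd.mul_right h₁.hb _, h₁.cop.mul_right h₂.cop⟩

theorem S_mul {m a b₁ b₂ : ℤ} (h₁ : Good m a b₁) (h₂ : Good m a b₂) :
    S m a (b₁ * b₂) = S m a b₁ * S m a b₂ := by
  obtain ⟨c₁, d₁, e₁, k₁⟩ := exists_cd h₁
  obtain ⟨c₂, d₂, e₂, k₂⟩ := exists_cd h₂
  have h₃ : a * (d₂ - b₂ * c₂ * d₁) - (b₁ * b₂) * (-(c₁ * c₂)) = 1 := by
    linear_combination e₂ - b₂ * c₂ * e₁
  have k₃ : Cong m a (b₁ * b₂) (-(c₁ * c₂)) (d₂ - b₂ * c₂ * d₁) := by
    refine ⟨k₁.a, Dvd.dvd.mul_right k₁.b _, (Dvd.dvd.mul_right k₁.c _).neg_right, ?_⟩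
    have : d₂ - b₂ * c₂ * d₁ - 1 = (d₂ - 1) - b₂ * (c₂ * d₁) := by ring
    rw [this]
    exact dvd_sub k₂.d (Dvd.dvd.mul_right k₂.b _)
  rw [S_eq e₁ k₁, S_eq e₂ k₂, S_eq h₃ k₃, pr_mul e₁ e₂ k₁ k₂ h₃]

theorem S_one_left {m b : ℤ} (hb : m ∣ b) : S m 1 b = 1 := by
  have hg : Good m 1 0 := ⟨by simp, by simp, isCoprime_one_left⟩
  have h0 : S m 1 0 = 1 := by
    rw [S_eq (a := 1) (b := 0) (c := 0) (d := 1) (by ring)
      ⟨by simp, by simp, by simp, by simp⟩]
    have : blk12 1 0 0 1 (by ring) = 1 := by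
      apply ext9; intro i j; simp only [one9]
      fin_cases i <;> fin_cases j <;> simp [blk12]
    rw [this, map_one]
  have := S_add_b hg hb
  rw [h0] at this
  simpa using this

theorem S_congr {m a b b' : ℤ} (h : Good m a b) (h' : Good m a b') (hd : a ∣ b' - b) :
    S m a b' = S m a b := by
  obtain ⟨t, ht⟩ := hd
  have h1 : b' = b + t * a := by linarith [mul_comm a t]
  have h2 : m ∣ t := by
    have h3 : m ∣ a * t := by
      rw [← ht]
      exact dvd_sub h'.hb h.hb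
    exact h.cop_m.dvd_of_dvd_mul_left h3
  rw [h1]
  exact S_add_b h h2

theorem S_one_sub {m a : ℤ} (h : m ∣ a - 1) : Good m a (1 - a) ∧ S m a (1 - a) = 1 := by
  have hb : m ∣ 1 - a := by
    have := h.neg_right
    rwa [neg_sub] at this
  have hg : Good m a (1 - a) := ⟨h, hb, ⟨1, 1, by ring⟩⟩
  refine ⟨hg, ?_⟩
  have := S_add_a hg 1
  rw [← this, show a + 1 * (1 - a) = 1 by ring]
  exact S_one_left hb

theorem S_sub_one {m a : ℤ} (h : m ∣ a - 1) : Good m a (a - 1) ∧ S m a (a - 1) = 1 := by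
  have hg : Good m a (a - 1) := ⟨h, h, ⟨1, -1, by ring⟩⟩
  refine ⟨hg, ?_⟩
  have := S_add_a hg (-1)
  rw [← this, show a + -1 * (a - 1) = 1 by ring]
  exact S_one_left h

theorem Good.pow {m a b : ℤ} (h : Good m a b) (k : ℕ) : Good m a (b ^ (k + 1)) :=
  ⟨h.ha, dvd_pow h.hb (by omega), h.cop.pow_right⟩

theorem S_pow {m a b : ℤ} (h : Good m a b) (k : ℕ) :
    S m a (b ^ (k + 1)) = S m a b ^ (k + 1) := by
  induction k with
  | zero => simp
  | succ k ih => rw [_root_.pow_succ b, S_mul (h.pow k) h, ih, ← _root_.pow_succ]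

theorem S_pow' {m a b : ℤ} (h : Good m a b) {k : ℕ} (hk : 0 < k) :
    S m a (b ^ k) = S m a b ^ k := by
  obtain ⟨k, rfl⟩ : ∃ j, k = j + 1 := ⟨k - 1, by omega⟩
  exact S_pow h k

theorem cast_ne_zero {p : ℕ} [Fact p.Prime] {a b : ℤ} (ha : a.natAbs = p) (h : IsCoprime a b) :
    (b : ZMod p) ≠ 0 := by
  intro h0
  rw [ZMod.intCast_zmod_eq_zero_iff_dvd] at h0
  have h1 : (p : ℤ) ∣ a := by
    rw [← ha]
    exact Int.natAbs_dvd.2 dvd_rfl
  have h2 := h.isUnit_of_dvd' h1 h0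
  have hp : p.Prime := Fact.out
  exact (Nat.prime_iff_prime_int.1 hp).not_isUnit h2

theorem dvd_of_cast {p : ℕ} {a : ℤ} (ha : a.natAbs = p) {x : ℤ} (h : (x : ZMod p) = 0) :
    a ∣ x := by
  rw [ZMod.intCast_zmod_eq_zero_iff_dvd] at h
  rw [← Int.natAbs_dvd, ha]
  exact h

theorem cast_self' {p : ℕ} {a : ℤ} (ha : a.natAbs = p) : (a : ZMod p) = 0 := by
  rw [ZMod.intCast_zmod_eq_zero_iff_dvd, ← ha]
  exact Int.natAbs_dvd.2 dvd_rfl

theorem S_pow_sub_one {p : ℕ} [Fact p.Prime] {m a b : ℤ} (ha : a.natAbs = p) (h : Good m a b) :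
    S m a b ^ (p - 1) = 1 := by
  have hp : p.Prime := Fact.out
  have hp1 : 0 < p - 1 := by have := hp.two_le; omega
  obtain ⟨hg, h1⟩ := S_one_sub h.ha
  rw [← S_pow' h hp1, ← h1]
  refine S_congr hg ?_ ?_
  · obtain ⟨k, hk⟩ : ∃ k, p - 1 = k + 1 := ⟨p - 2, by omega⟩
    rw [hk]
    exact h.pow k
  · refine dvd_of_cast ha ?_
    push_cast
    rw [ZMod.pow_card_sub_one_eq_one (cast_ne_zero ha h.cop), cast_self' ha]
    ring

theorem S_pow_half {p : ℕ} [Fact p.Prime] (hp2 : 3 ≤ p) {m a b : ℤ} (ha : a.natAbs = p)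
    (h : Good m a b) : S m a b ^ (p / 2) = 1 := by
  have hp1 : 0 < p / 2 := by omega
  obtain ⟨k, hk⟩ : ∃ k, p / 2 = k + 1 := ⟨p / 2 - 1, by omega⟩
  have hgk : Good m a (b ^ (p / 2)) := by
    rw [hk]
    exact h.pow k
  rcases ZMod.pow_div_two_eq_neg_one_or_one p (cast_ne_zero ha h.cop) with h3 | h3
  · obtain ⟨hg, h1⟩ := S_one_sub h.ha
    rw [← S_pow' h hp1, ← h1]
    refine S_congr hg hgk (dvd_of_cast ha ?_)
    push_cast
    rw [h3, cast_self' ha]
    ring
  · obtain ⟨hg, h1⟩ := S_sub_one h.ha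
    rw [← S_pow' h hp1, ← h1]
    refine S_congr hg hgk (dvd_of_cast ha ?_)
    push_cast
    rw [h3, cast_self' ha]
    ring

/-- Dirichlet's theorem in the form used below. -/
theorem exists_prime {r q : ℤ} (hq : q ≠ 0) (h : IsCoprime r q) :
    ∃ p : ℕ, p.Prime ∧ q ∣ (p : ℤ) - r := by
  have h1 : q.natAbs ≠ 0 := by simpa using hq
  have h2 : IsCoprime r (q.natAbs : ℤ) := by
    rcases Int.natAbs_eq q with h3 | h3
    · rwa [← h3]
    · rw [h3] at h
      exact (IsCoprime.neg_right_iff _ _).1 h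
  obtain ⟨p, _, hp, hpr⟩ := Nat.forall_exists_prime_gt_and_zmodEq 0 h1 h2
  refine ⟨p, hp, ?_⟩
  rw [← Int.natAbs_dvd]
  exact hpr.symm.dvd

theorem S_eq_one_of_pow {m a b : ℤ} (h : Good m a b) (hb : b ≠ 0) {l : ℕ} (hl : l.Prime)
    (hl2 : l ≠ 2) (hpow : S m a b ^ l = 1) : S m a b = 1 := by
  have hlp : Prime (l : ℤ) := Nat.prime_iff_prime_int.1 hl
  have hl2' : ¬ (l : ℤ) ∣ 2 := by
    intro hx
    have : l ∣ 2 := by exact_mod_cast hx
    exact hl2 ((Nat.prime_dvd_prime_iff_eq hl Nat.prime_two).1 this)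
  -- a prime `p ≡ ± a` modulo `b` with `l` not dividing `p - 1`
  have key : ∃ (p : ℕ) (a' : ℤ), p.Prime ∧ a'.natAbs = p ∧ b ∣ a' - a ∧ ¬ (l : ℤ) ∣ (p : ℤ) - 1 := by
    by_cases hlb : (l : ℤ) ∣ b
    · by_cases hla : (l : ℤ) ∣ a - 1
      · obtain ⟨p, hp, hpr⟩ := exists_prime hb (r := -a) h.cop.neg_left
        refine ⟨p, -p, hp, by simp, ?_, ?_⟩
        · have := hpr.neg_right
          have e : -((p : ℤ) - -a) = -(p : ℤ) - a := by ring
          rwa [e] at this
        · intro hx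
          have h1 := (hlb.trans hpr)
          have h2 : (l : ℤ) ∣ ((p : ℤ) - -a) - ((p : ℤ) - 1) - (a - 1) :=
            dvd_sub (dvd_sub h1 hx) hla
          have e : ((p : ℤ) - -a) - ((p : ℤ) - 1) - (a - 1) = 2 := by ring
          rw [e] at h2
          exact hl2' h2
      · obtain ⟨p, hp, hpr⟩ := exists_prime hb (r := a) h.cop
        refine ⟨p, p, hp, by simp, hpr, ?_⟩
        intro hx
        have h1 := (hlb.trans hpr)
        have h2 : (l : ℤ) ∣ ((p : ℤ) - 1) - ((p : ℤ) - a) := dvd_sub hx h1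
        have e : ((p : ℤ) - 1) - ((p : ℤ) - a) = a - 1 := by ring
        rw [e] at h2
        exact hla h2
    · have hc : IsCoprime (l : ℤ) b := (Prime.coprime_iff_not_dvd hlp).2 hlb
      obtain ⟨u, v, huv⟩ := hc
      -- `u * l + v * b = 1`
      set r := a + (2 - a) * v * b with hr
      have hrl : (l : ℤ) ∣ r - 2 := by
        refine ⟨(a - 2) * u, ?_⟩
        rw [hr]
        linear_combination (2 - a) * huv
      have hrb : IsCoprime r b := by
        rw [hr]
        exact IsCoprime.add_mul_right_left h.cop _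
      have hrl' : IsCoprime r (l : ℤ) := by
        refine ((Prime.coprime_iff_not_dvd hlp).2 ?_).symm
        intro hx
        have := dvd_sub hx hrl
        rw [show r - (r - 2) = 2 by ring] at this
        exact hl2' this
      have hbl : b * (l : ℤ) ≠ 0 := mul_ne_zero hb (by exact_mod_cast hl.ne_zero)
      obtain ⟨p, hp, hpr⟩ := exists_prime hbl (hrb.mul_right hrl')
      refine ⟨p, p, hp, by simp, ?_, ?_⟩
      · have h1 : b ∣ (p : ℤ) - r := (Dvd.intro _ rfl).trans hpr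
        have h2 : b ∣ r - a := ⟨(2 - a) * v, by rw [hr]; ring⟩
        have := dvd_add h1 h2
        rwa [show (p : ℤ) - r + (r - a) = p - a by ring] at this
      · intro hx
        have h1 : (l : ℤ) ∣ (p : ℤ) - r := (Dvd.intro_left _ rfl).trans hpr
        have h2 : (l : ℤ) ∣ ((p : ℤ) - r) + (r - 2) - ((p : ℤ) - 1) :=
          dvd_sub (dvd_add h1 hrl) hx
        rw [show ((p : ℤ) - r) + (r - 2) - ((p : ℤ) - 1) = -1 by ring] at h2
        exact hlp.not_isUnit (isUnit_of_dvd_unit h2 (by simp))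
  obtain ⟨p, a', hp, hap, hba, hlp'⟩ := key
  obtain ⟨t, ht⟩ := hba
  have e1 : a' = a + t * b := by linarith [mul_comm b t]
  have e2 : S m a' b = S m a b := by
    rw [e1]
    exact S_add_a h t
  have hg' : Good m a' b := by
    refine ⟨?_, h.hb, ?_⟩
    · rw [e1, show a + t * b - 1 = (a - 1) + t * b by ring]
      exact dvd_add h.ha (Dvd.dvd.mul_left h.hb t)
    · rw [e1]
      exact IsCoprime.add_mul_right_left h.cop _
  have : Fact p.Prime := ⟨hp⟩
  have h3 := S_pow_sub_one hap hg'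
  rw [e2] at h3
  have h4 : Nat.Coprime l (p - 1) := by
    rw [Nat.Prime.coprime_iff_not_dvd hl]
    intro hx
    apply hlp'
    have : ((p - 1 : ℕ) : ℤ) = (p : ℤ) - 1 := by
      have := hp.one_lt
      push_cast [Nat.cast_sub this.le]
      ring
    rw [← this]
    exact_mod_cast hx
  have h5 := orderOf_dvd_of_pow_eq_one hpow
  have h6 := orderOf_dvd_of_pow_eq_one h3
  have h7 : orderOf (S m a b) ∣ 1 := by
    have := Nat.dvd_gcd h5 h6
    rwa [h4] at this
  exact orderOf_eq_one_iff.1 (Nat.dvd_one.1 h7)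

theorem S_eq_one_odd {m a b : ℤ} (h : Good m a b) (ha : Odd a) (hb4 : (4 : ℤ) ∣ b) (hb : b ≠ 0) :
    S m a b = 1 := by
  -- the sign
  have hs : ∃ ε : ℤ, (ε = 1 ∨ ε = -1) ∧ (4 : ℤ) ∣ ε * a - 3 := by
    obtain ⟨j, hj⟩ := ha
    rcases Int.even_or_odd' j with ⟨i, hi | hi⟩
    · refine ⟨-1, Or.inr rfl, ⟨-i - 1, ?_⟩⟩
      rw [hj, hi]
      ring
    · refine ⟨1, Or.inl rfl, ⟨i, ?_⟩⟩
      rw [hj, hi]
      ring
  obtain ⟨ε, hε, h4⟩ := hs
  have hεε : ε * ε = 1 := by rcases hε with rfl | rfl <;> ring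
  have hcop : IsCoprime (ε * a) b := by
    rcases hε with rfl | rfl
    · simpa using h.cop
    · rw [neg_one_mul]
      exact h.cop.neg_left
  obtain ⟨p, hp, hpr⟩ := exists_prime hb hcop
  have hp4 : (4 : ℤ) ∣ (p : ℤ) - 3 := by
    have := dvd_add (hb4.trans hpr) h4
    rwa [show (p : ℤ) - ε * a + (ε * a - 3) = p - 3 by ring] at this
  have hp3 : p % 4 = 3 := by omega
  have hp3' : 3 ≤ p := by omega
  obtain ⟨t, ht⟩ := hpr
  have e1 : ε * (p : ℤ) = a + (ε * t) * b := by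
    have : (p : ℤ) = ε * a + b * t := by linarith
    rw [this]
    linear_combination a * hεε
  have hap : (ε * (p : ℤ)).natAbs = p := by
    rcases hε with rfl | rfl <;> simp
  have hg' : Good m (ε * (p : ℤ)) b := by
    refine ⟨?_, h.hb, ?_⟩
    · rw [e1, show a + (ε * t) * b - 1 = (a - 1) + (ε * t) * b by ring]
      exact dvd_add h.ha (Dvd.dvd.mul_left h.hb _)
    · rw [e1]
      exact IsCoprime.add_mul_right_left h.cop _
  have e2 : S m (ε * (p : ℤ)) b = S m a b := by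
    rw [e1]
    exact S_add_a h _
  have : Fact p.Prime := ⟨hp⟩
  have h5 := S_pow_half hp3' hap hg'
  rw [e2] at h5
  by_contra hne
  have h6 := orderOf_dvd_of_pow_eq_one h5
  have h7 : orderOf (S m a b) ≠ 1 := fun hx => hne (orderOf_eq_one_iff.1 hx)
  obtain ⟨l, hl, hlo⟩ := Nat.exists_prime_and_dvd h7
  have hl2 : l ≠ 2 := by
    rintro rfl
    have := hlo.trans h6
    omega
  have hpos : 0 < orderOf (S m a b) := Nat.pos_of_dvd_of_pos h6 (by omega)
  obtain ⟨k, hk⟩ := hlo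
  have hk0 : 0 < k := by
    rcases Nat.eq_zero_or_pos k with h8 | h8
    · rw [h8, mul_zero] at hk
      omega
    · exact h8
  have h8 : S m a (b ^ k) ^ l = 1 := by
    rw [S_pow' h hk0, ← pow_mul, mul_comm k l, ← hk]
    exact pow_orderOf_eq_one _
  have hgk : Good m a (b ^ k) := by
    obtain ⟨j, rfl⟩ : ∃ j, k = j + 1 := ⟨k - 1, by omega⟩
    exact h.pow j
  have h9 := S_eq_one_of_pow hgk (pow_ne_zero _ hb) hl hl2 h8
  rw [S_pow' h hk0] at h9
  have h10 := Nat.le_of_dvd hk0 (orderOf_dvd_of_pow_eq_one h9)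
  rw [hk] at h10
  have := hl.two_le
  nlinarith

theorem S_eq_one_of_ne {m a b : ℤ} (h : Good m a b) (ha : Odd a) (ha1 : a ≠ 1) (hb : b ≠ 0) :
    S m a b = 1 := by
  have h1 : IsCoprime a ((1 - a) ^ 2) := by
    refine IsCoprime.pow_right ⟨1, 1, by ring⟩
  have hg : Good m a (b * (1 - a) ^ 2) := ⟨h.ha, Dvd.dvd.mul_right h.hb _, h.cop.mul_right h1⟩
  have e : S m a (b * (1 - a) ^ 2) = S m a b := by
    refine S_congr h hg ⟨b * (a - 2), by ring⟩
  rw [← e]
  refine S_eq_one_odd hg ha ?_ ?_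
  · obtain ⟨j, hj⟩ := ha
    refine ⟨b * j ^ 2, ?_⟩
    rw [hj]
    ring
  · refine mul_ne_zero hb (pow_ne_zero _ ?_)
    intro hx
    exact ha1 (by linarith)

/-- The Mennicke symbol is trivial. -/
theorem S_eq_one {m a b : ℤ} (h : Good m a b) : S m a b = 1 := by
  by_cases ha1 : a = 1
  · rw [ha1]
    exact S_one_left h.hb
  -- `b ≠ 0` without loss of generality
  have hm : m ≠ 0 := by
    rintro rfl
    have := h.ha
    rw [zero_dvd_iff] at this
    exact ha1 (by linarith)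
  have main : ∀ b : ℤ, Good m a b → b ≠ 0 → S m a b = 1 := by
    intro b h hb
    rcases Int.even_or_odd a with hev | hodd
    · have hbo : Odd b := by
        rw [← Int.not_even_iff_odd]
        intro hbe
        have := h.cop.isUnit_of_dvd' hev.two_dvd hbe.two_dvd
        rw [Int.isUnit_iff] at this
        omega
      have hg' : Good m (a + 1 * b) b := by
        refine ⟨?_, h.hb, IsCoprime.add_mul_right_left h.cop _⟩
        rw [show a + 1 * b - 1 = (a - 1) + b by ring]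
        exact dvd_add h.ha h.hb
      rw [← S_add_a h 1]
      by_cases h1 : a + 1 * b = 1
      · rw [h1]
        exact S_one_left h.hb
      · refine S_eq_one_of_ne hg' ?_ h1 hb
        rw [one_mul]
        exact hev.add_odd hbo
    · exact S_eq_one_of_ne h hodd ha1 hb
  by_cases hb : b = 0
  · subst hb
    have ha0 : a ≠ 0 := by
      rintro rfl
      obtain ⟨u, v, huv⟩ := h.cop
      simp at huv
    have hg' : Good m a (0 + m * a) := by
      refine ⟨h.ha, by simp, ?_⟩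
      exact IsCoprime.add_mul_right_right h.cop _
    rw [← S_add_b h (dvd_refl m)]
    exact main _ hg' (by simp [hm, ha0])
  · exact main b h hb

end Pool.Agent.CG3.CSP
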