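import Mathlib

/-!
Abstract Mennicke symbols over the integers with values in a commutative group of exponent p
are trivial (helper38, for MP_34be05_nt, group A).

A symbol `s a b` is given on pairs with `a = 1 mod q`, `b = 0 mod q`, `a`, `b` coprime, with the
two translation rules and multiplicativity in `b`.  Moving `a` to minus a prime `r` with
`r = -a mod b` (Dirichlet) makes the order `r - 1 = -2 mod q` of the unit group of `Z/r` almost
prime to `p`.
-/

namespace Pool.Agent.CG3.CSP

/-- The data of a Mennicke symbol of level `q` over the integers. -/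
structure IsMennicke {A : Type*} [CommGroup A] (q : ℤ) (s : ℤ → ℤ → A) : Prop where
  one_zero : s 1 0 = 1
  add_left : ∀ a b t : ℤ, q ∣ a - 1 → q ∣ b → IsCoprime a b → s (a + t * b) b = s a b
  add_right : ∀ a b t : ℤ, q ∣ a - 1 → q ∣ b → IsCoprime a b → s a (b + t * q * a) = s a b
  mul_right : ∀ a b c : ℤ, q ∣ a - 1 → q ∣ b → q ∣ c → IsCoprime a b → IsCoprime a c →
    s a (b * c) = s a b * s a c

namespace IsMennicke

variable {A : Type*} [CommGroup A] {q : ℤ} {s : ℤ → ℤ → A}

lemma one_left (h : IsMennicke q s) {b : ℤ} (hb : q ∣ b) : s 1 b = 1 := by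
  obtain ⟨t, rfl⟩ := hb
  have := h.add_right 1 0 t (by simp) (by simp) (isCoprime_one_left)
  rw [h.one_zero] at this
  rw [← this]
  congr 1
  ring

lemma coprime_q {a : ℤ} (ha : q ∣ a - 1) : IsCoprime a q := by
  obtain ⟨t, ht⟩ := ha
  exact ⟨1, -t, by linear_combination ht⟩

lemma at_q (h : IsMennicke q s) {a : ℤ} (ha : q ∣ a - 1) : s a q = 1 := by
  obtain ⟨t, ht⟩ := ha
  have := h.add_left 1 q t (by simp) (dvd_refl _) isCoprime_one_left
  rw [h.one_left (dvd_refl _)] at this
  rw [← this]
  congr 1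
  linear_combination ht

lemma at_neg_q (h : IsMennicke q s) {a : ℤ} (ha : q ∣ a - 1) : s a (-q) = 1 := by
  obtain ⟨t, ht⟩ := ha
  have hq : q ∣ -q := by simp
  have := h.add_left 1 (-q) (-t) (by simp) hq isCoprime_one_left
  rw [h.one_left hq] at this
  rw [← this]
  congr 1
  linear_combination ht

/-- The character `b ↦ s a (q b)`. -/
lemma chi_mul (h : IsMennicke q s) {a b c : ℤ} (ha : q ∣ a - 1) (hb : IsCoprime a b)
    (hc : IsCoprime a c) : s a (q * (b * c)) = s a (q * b) * s a (q * c) := by
  have hq := coprime_q ha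
  have hqb : IsCoprime a (q * b) := hq.mul_right hb
  have hqc : IsCoprime a (q * c) := hq.mul_right hc
  have hqbc : IsCoprime a (q * (b * c)) := hq.mul_right (hb.mul_right hc)
  have h1 := h.mul_right a (q * b) (q * c) ha (dvd_mul_right _ _) (dvd_mul_right _ _) hqb hqc
  have h2 := h.mul_right a (q * (b * c)) q ha (dvd_mul_right _ _) (dvd_refl _) hqbc hq
  rw [h.at_q ha, mul_one] at h2
  rw [← h1, ← h2]
  congr 1
  ring

lemma chi_congr (h : IsMennicke q s) {a b c : ℤ} (ha : q ∣ a - 1) (hb : IsCoprime a b)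
    (hbc : a ∣ c - b) : s a (q * c) = s a (q * b) := by
  obtain ⟨t, ht⟩ := hbc
  have hq := coprime_q ha
  have := h.add_right a (q * b) t ha (dvd_mul_right _ _) (hq.mul_right hb)
  rw [← this]
  congr 1
  linear_combination q * ht

lemma chi_pow (h : IsMennicke q s) {a b : ℤ} (ha : q ∣ a - 1) (hb : IsCoprime a b) (n : ℕ) :
    s a (q * b ^ n) = s a (q * b) ^ n := by
  induction n with
  | zero => simpa using h.at_q ha
  | succ n ih => rw [pow_succ, pow_succ, h.chi_mul ha hb.pow_right hb, ih]

end IsMennicke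

open IsMennicke

lemma eq_one_of_pow_eq_one_of_coprime {A : Type*} [CommGroup A] {x : A} {m n : ℕ}
    (hm : x ^ m = 1) (hn : x ^ n = 1) (h : Nat.Coprime m n) : x = 1 := by
  have h1 : orderOf x ∣ m := orderOf_dvd_of_pow_eq_one hm
  have h2 : orderOf x ∣ n := orderOf_dvd_of_pow_eq_one hn
  have h3 : orderOf x ∣ 1 := by
    rw [← h]
    exact Nat.dvd_gcd h1 h2
  rw [← orderOf_eq_one_iff]
  exact Nat.dvd_one.mp h3

/-- Mennicke symbols over `Z` with values in a commutative group of exponent `p` are trivial, if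
`p` divides the level (and 4 divides it when `p = 2`). -/
theorem mennicke_trivial {A : Type*} [CommGroup A] {p : ℕ} (hp : p.Prime)
    (hA : ∀ x : A, x ^ p = 1) {q : ℤ} (hpq : (p : ℤ) ∣ q) (h4 : p = 2 → (4 : ℤ) ∣ q)
    {s : ℤ → ℤ → A} (h : IsMennicke q s) {a b : ℤ} (ha : q ∣ a - 1) (hb : q ∣ b)
    (hab : IsCoprime a b) : s a b = 1 := by
  by_cases hb0 : b = 0
  · subst hb0
    have hu : IsUnit a := by simpa using isCoprime_zero_right.mp hab
    rcases Int.isUnit_iff.mp hu with rfl | rfl
    · exact h.one_zero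
    · exfalso
      by_cases hp2 : p = 2
      · have h5 : (4 : ℤ) ∣ (-1 - 1) := (h4 hp2).trans ha
        norm_num at h5
      · have h5 : (p : ℤ) ∣ (-1 - 1) := hpq.trans ha
        have h6 : (p : ℤ) ∣ 2 := by
          have : ((-1 : ℤ) - 1) = -2 := by norm_num
          rw [this] at h5
          exact (dvd_neg).mp h5
        have h7 : p ∣ 2 := by exact_mod_cast h6
        exact hp2 ((Nat.prime_dvd_prime_iff_eq hp Nat.prime_two).mp h7)
  · -- a prime `r = -a` modulo `b`
    have hbn : b.natAbs ≠ 0 := Int.natAbs_ne_zero.mpr hb0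
    have hcop : IsCoprime (-a) (b.natAbs : ℤ) := by
      have : IsCoprime (-a) b := hab.neg_left
      rcases Int.natAbs_eq b with h1 | h1
      · rw [← h1]; exact this
      · have h2 : (b.natAbs : ℤ) = -b := by omega
        rw [h2]; exact this.neg_right
    obtain ⟨r, hr2, hr, hra⟩ :=
      Nat.forall_exists_prime_gt_and_zmodEq (b.natAbs + 2) (q := b.natAbs) (a := -a) hbn hcop
    have hdvd : b ∣ a + r := by
      have h1 : (b.natAbs : ℤ) ∣ ((r : ℤ) - (-a)) := hra.symm.dvd
      have h2 : b ∣ (r : ℤ) - (-a) := (Int.natAbs_dvd).mp h1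
      have h3 : a + r = (r : ℤ) - (-a) := by ring
      rw [h3]
      exact h2
    obtain ⟨t, ht⟩ := hdvd
    have hra' : (-(r : ℤ)) = a + (-t) * b := by linear_combination -ht
    have hs : s a b = s (-(r : ℤ)) b := by
      rw [hra', h.add_left a b (-t) ha hb hab]
    have har : q ∣ -(r : ℤ) - 1 := by
      rw [hra']
      have : a + -t * b - 1 = (a - 1) + (-t) * b := by ring
      rw [this]
      exact dvd_add ha (Dvd.dvd.mul_left hb _)
    obtain ⟨c, rfl⟩ := hb
    have hcopr : IsCoprime (-(r : ℤ)) (q * c) := by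
      rw [hra']
      obtain ⟨u, v, huv⟩ := hab
      exact ⟨u, v + u * t, by linear_combination huv⟩
    have hc : IsCoprime (-(r : ℤ)) c := IsCoprime.of_mul_right_right hcopr
    rw [hs]
    have hcr : IsCoprime c (r : ℤ) := by simpa using hc.symm.neg_right
    have : Fact r.Prime := ⟨hr⟩
    by_cases hp2 : p = 2
    · subst hp2
      -- r = 3 mod 4
      have h4r : (4 : ℤ) ∣ -(r : ℤ) - 1 := (h4 rfl).trans har
      obtain ⟨m, hm⟩ : ∃ m : ℕ, r = 4 * m + 3 := ⟨(r - 3) / 4, by omega⟩
      have hodd : ((r - 1) / 2) = 2 * m + 1 := by omega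
      have hne : (c : ZMod r) ≠ 0 := by
        intro h0
        rw [ZMod.intCast_zmod_eq_zero_iff_dvd] at h0
        have h1 : IsUnit (r : ℤ) := hcr.isUnit_of_dvd' h0 (dvd_refl _)
        have h2 := Int.isUnit_iff.mp h1
        have := hr.two_le
        omega
      have hE : (c : ZMod r) ^ (2 * m + 1) = 1 ∨ (c : ZMod r) ^ (2 * m + 1) = -1 := by
        have := ZMod.pow_div_two_eq_neg_one_or_one r hne
        have h3 : r / 2 = 2 * m + 1 := by omega
        rwa [h3] at this
      have hpw : s (-(r : ℤ)) (q * c) ^ (2 * m + 1) = 1 := by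
        rw [← h.chi_pow har hc]
        rcases hE with hE | hE
        · have h1 : (r : ℤ) ∣ c ^ (2 * m + 1) - 1 := by
            rw [← ZMod.intCast_zmod_eq_zero_iff_dvd]
            push_cast
            rw [hE, sub_self]
          rw [h.chi_congr har (b := 1) isCoprime_one_right (by simpa using h1), mul_one,
            h.at_q har]
        · have h1 : (r : ℤ) ∣ c ^ (2 * m + 1) - (-1) := by
            rw [← ZMod.intCast_zmod_eq_zero_iff_dvd]
            push_cast
            rw [hE, sub_self]
          rw [h.chi_congr har (b := -1) isCoprime_one_right.neg_right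
            (by simpa using h1), mul_neg_one, h.at_neg_q har]
      refine eq_one_of_pow_eq_one_of_coprime hpw (hA _) ?_
      exact Nat.coprime_two_right.mpr ⟨m, rfl⟩
    · have hpr : ¬ p ∣ r - 1 := by
        intro hd
        have h1 : (p : ℤ) ∣ -(r : ℤ) - 1 := hpq.trans har
        have h2 : (p : ℤ) ∣ ((r - 1 : ℕ) : ℤ) := by exact_mod_cast hd
        have h3 : ((r - 1 : ℕ) : ℤ) = (r : ℤ) - 1 := by
          have := hr.one_lt
          push_cast [Nat.cast_sub this.le]
          ring
        rw [h3] at h2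
        have h4 : (p : ℤ) ∣ 2 := by
          have h5 := dvd_add h1 h2
          have h6 : (-(r : ℤ) - 1) + ((r : ℤ) - 1) = -2 := by ring
          rw [h6] at h5
          exact dvd_neg.mp h5
        have h7 : p ∣ 2 := by exact_mod_cast h4
        exact hp2 ((Nat.prime_dvd_prime_iff_eq hp Nat.prime_two).mp h7)
      have hF : c ^ (r - 1) ≡ 1 [ZMOD r] := Int.ModEq.pow_card_sub_one_eq_one hr hcr
      have hpw : s (-(r : ℤ)) (q * c) ^ (r - 1) = 1 := by
        rw [← h.chi_pow har hc]
        have h1 : (r : ℤ) ∣ c ^ (r - 1) - 1 := hF.symm.dvd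
        rw [h.chi_congr har (b := 1) isCoprime_one_right (by simpa using h1), mul_one,
          h.at_q har]
      exact eq_one_of_pow_eq_one_of_coprime hpw (hA _)
        (((Nat.Prime.coprime_iff_not_dvd hp).mpr hpr).symm)

end Pool.Agent.CG3.CSP
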