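import Pool.Agent.CG3.Defs2

/-!
# C12 : the Cartan decomposition and transposition
-/

noncomputable section

namespace Pool.Agent.CG3

open Matrix

namespace Cartan

/-- Smith normal form of a matrix with non-zero determinant over a principal ideal domain. -/
theorem smith {R : Type*} [CommRing R] [IsDomain R] [IsPrincipalIdealRing R]
    (A : Matrix (Fin 3) (Fin 3) R) (hA : A.det ≠ 0) :
    ∃ (U V : GL (Fin 3) R) (a : Fin 3 → R),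
      A = (U : Matrix (Fin 3) (Fin 3) R) * Matrix.diagonal a * (V : Matrix (Fin 3) (Fin 3) R) := by
  have hinj : Function.Injective A.mulVecLin := by
    rw [← LinearMap.ker_eq_bot, LinearMap.ker_eq_bot']
    intro v hv
    by_contra hne
    exact hA ((Matrix.exists_mulVec_eq_zero_iff (M := A)).1 ⟨v, hne, hv⟩)
  let e : (Fin 3 → R) ≃ₗ[R] (LinearMap.range A.mulVecLin) := LinearEquiv.ofInjective _ hinj
  have hrank : Module.finrank R (LinearMap.range A.mulVecLin) = Module.finrank R (Fin 3 → R) :=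
    (LinearEquiv.finrank_eq e).symm
  obtain ⟨b', a, ab', hab⟩ := Submodule.exists_smith_normal_form_of_rank_eq
    (Pi.basisFun R (Fin 3)) hrank
  let b0 : Module.Basis (Fin 3) R (LinearMap.range A.mulVecLin) := (Pi.basisFun R (Fin 3)).map e
  let U : GL (Fin 3) R := ⟨(Pi.basisFun R (Fin 3)).toMatrix b', b'.toMatrix (Pi.basisFun R (Fin 3)),
    Module.Basis.toMatrix_mul_toMatrix_flip _ _, Module.Basis.toMatrix_mul_toMatrix_flip _ _⟩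
  let V : GL (Fin 3) R := ⟨ab'.toMatrix b0, b0.toMatrix ab',
    Module.Basis.toMatrix_mul_toMatrix_flip _ _, Module.Basis.toMatrix_mul_toMatrix_flip _ _⟩
  refine ⟨U, V, a, ?_⟩
  ext i j
  have h1 : (b0 j : Fin 3 → R) = fun i => A i j := by
    have : (b0 j : Fin 3 → R) = A.mulVecLin (Pi.basisFun R (Fin 3) j) := by
      simp [b0, e, LinearEquiv.ofInjective_apply]
    rw [this]
    funext i
    simp
  have h2 : b0 j = ∑ k, (ab'.toMatrix b0) k j • ab' k := by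
    have := ab'.sum_repr (b0 j)
    rw [← this]
    rfl
  have h3 : (b0 j : Fin 3 → R) = ∑ k, (ab'.toMatrix b0) k j • (a k • b' k) := by
    rw [h2]
    simp only [AddSubmonoidClass.coe_finsetSum, Submodule.coe_smul, hab]
  have h4 := congrFun (h1.symm.trans h3) i
  rw [h4]
  simp only [Finset.sum_apply, Pi.smul_apply, smul_eq_mul]
  rw [Matrix.mul_apply]
  apply Finset.sum_congr rfl
  intro k _
  rw [Matrix.mul_diagonal]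
  have hU : (U : Matrix (Fin 3) (Fin 3) R) i k = b' k i := by
    have h5 : (U : Matrix (Fin 3) (Fin 3) R) i k = (Pi.basisFun R (Fin 3)).repr (b' k) i := rfl
    rw [h5, Pi.basisFun_repr]
  have hV : (V : Matrix (Fin 3) (Fin 3) R) k j = ab'.toMatrix b0 k j := rfl
  rw [hU, hV]
  ring

/-- The transposed element of `GL₃`. -/
def tr {R : Type*} [CommRing R] (U : GL (Fin 3) R) : GL (Fin 3) R :=
  ⟨(U : Matrix (Fin 3) (Fin 3) R)ᵀ, ((U⁻¹ : GL (Fin 3) R) : Matrix (Fin 3) (Fin 3) R)ᵀ, by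
    rw [← Matrix.transpose_mul, ← Units.val_mul, inv_mul_cancel, Units.val_one,
      Matrix.transpose_one], by
    rw [← Matrix.transpose_mul, ← Units.val_mul, mul_inv_cancel, Units.val_one,
      Matrix.transpose_one]⟩

@[simp] theorem coe_tr {R : Type*} [CommRing R] (U : GL (Fin 3) R) :
    ((tr U : GL (Fin 3) R) : Matrix (Fin 3) (Fin 3) R) = (U : Matrix (Fin 3) (Fin 3) R)ᵀ := rfl

theorem tr_mul {R : Type*} [CommRing R] (U V : GL (Fin 3) R) : tr (U * V) = tr V * tr U := by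
  apply Units.ext
  simp [Units.val_mul, Matrix.transpose_mul]

theorem tr_tr {R : Type*} [CommRing R] (U : GL (Fin 3) R) : tr (tr U) = U := by
  apply Units.ext
  simp

theorem tr_one {R : Type*} [CommRing R] : tr (1 : GL (Fin 3) R) = 1 := by
  apply Units.ext
  simp

theorem tr_inv {R : Type*} [CommRing R] (U : GL (Fin 3) R) : tr U⁻¹ = (tr U)⁻¹ := by
  rw [eq_inv_iff_mul_eq_one, ← tr_mul, mul_inv_cancel, tr_one]

theorem tr_mem_GZ {ℓ : P} {k : GQ ℓ} (hk : k ∈ GZ ℓ) : tr k ∈ GZ ℓ := by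
  rw [mem_GZ_iff] at hk ⊢
  refine ⟨fun i j => ?_, fun i j => ?_⟩
  · simpa using hk.1 j i
  · rw [← tr_inv]
    simpa using hk.2 j i

/-- The Cartan decomposition. -/
theorem cartan (ℓ : P) (h : GQ ℓ) : ∃ k₁ ∈ GZ ℓ, ∃ k₂ ∈ GZ ℓ, ∃ d : GQ ℓ, tr d = d ∧
    h = k₁ * d * k₂ := by
  -- scale `h` to be integral
  obtain ⟨n, hn⟩ : ∃ n : ℕ, ∀ i j, ‖((ℓ : ℕ) : ℚ_[(ℓ : ℕ)]) ^ n *
      (h : Matrix (Fin 3) (Fin 3) ℚ_[(ℓ : ℕ)]) i j‖ ≤ 1 := by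
    have hlt : ‖((ℓ : ℕ) : ℚ_[(ℓ : ℕ)])‖ < 1 := Padic.norm_p_lt_one
    have h1 : ∀ i j, ∃ n : ℕ, ‖((ℓ : ℕ) : ℚ_[(ℓ : ℕ)])‖ ^ n *
        ‖(h : Matrix (Fin 3) (Fin 3) ℚ_[(ℓ : ℕ)]) i j‖ ≤ 1 := by
      intro i j
      have h2 : Filter.Tendsto (fun n : ℕ => ‖((ℓ : ℕ) : ℚ_[(ℓ : ℕ)])‖ ^ n *
          ‖(h : Matrix (Fin 3) (Fin 3) ℚ_[(ℓ : ℕ)]) i j‖) Filter.atTop (nhds 0) := by
        have := (tendsto_pow_atTop_nhds_zero_of_lt_one (norm_nonneg _) hlt).mul_const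
          ‖(h : Matrix (Fin 3) (Fin 3) ℚ_[(ℓ : ℕ)]) i j‖
        rwa [zero_mul] at this
      exact ((h2.eventually_lt_const zero_lt_one).exists).imp fun n hn => hn.le
    choose m hm using h1
    refine ⟨∑ i, ∑ j, m i j, fun i j => ?_⟩
    rw [norm_mul, norm_pow]
    refine le_trans ?_ (hm i j)
    refine mul_le_mul_of_nonneg_right ?_ (norm_nonneg _)
    refine pow_le_pow_of_le_one (norm_nonneg _) hlt.le ?_
    calc m i j ≤ ∑ j, m i j := Finset.single_le_sum (f := fun j => m i j)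
          (fun _ _ => Nat.zero_le _) (Finset.mem_univ j)
      _ ≤ ∑ i, ∑ j, m i j := Finset.single_le_sum (f := fun i => ∑ j, m i j)
          (fun _ _ => Nat.zero_le _) (Finset.mem_univ i)
  set c : ℚ_[(ℓ : ℕ)] := ((ℓ : ℕ) : ℚ_[(ℓ : ℕ)]) ^ n with hc
  have hc0 : c ≠ 0 := pow_ne_zero _ (by exact_mod_cast ℓ.2.ne_zero)
  let A : Matrix (Fin 3) (Fin 3) ℤ_[(ℓ : ℕ)] := fun i j => ⟨_, hn i j⟩
  have hA : A.map (algebraMap ℤ_[(ℓ : ℕ)] ℚ_[(ℓ : ℕ)]) = c • (h : Matrix (Fin 3) (Fin 3) _) := by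
    ext i j; rfl
  have hdet : A.det ≠ 0 := by
    intro h0
    have h1 : (A.map (algebraMap ℤ_[(ℓ : ℕ)] ℚ_[(ℓ : ℕ)])).det = 0 := by
      have h2 := RingHom.map_det (algebraMap ℤ_[(ℓ : ℕ)] ℚ_[(ℓ : ℕ)]) A
      rw [h0, map_zero] at h2
      exact h2.symm
    rw [hA, Matrix.det_smul] at h1
    have h2 : (h : Matrix (Fin 3) (Fin 3) ℚ_[(ℓ : ℕ)]).det ≠ 0 :=
      (h.isUnit.map (Matrix.detMonoidHom (R := ℚ_[(ℓ : ℕ)]) (n := Fin 3))).ne_zero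
    exact (mul_ne_zero (pow_ne_zero _ hc0) h2) h1
  obtain ⟨U, V, a, hUV⟩ := smith A hdet
  let k₁ : GQ ℓ := GeneralLinearGroup.map (algebraMap ℤ_[(ℓ : ℕ)] ℚ_[(ℓ : ℕ)]) U
  let k₂ : GQ ℓ := GeneralLinearGroup.map (algebraMap ℤ_[(ℓ : ℕ)] ℚ_[(ℓ : ℕ)]) V
  have hk₁ : k₁ ∈ GZ ℓ := ⟨U, rfl⟩
  have hk₂ : k₂ ∈ GZ ℓ := ⟨V, rfl⟩
  refine ⟨k₁, hk₁, k₂, hk₂, k₁⁻¹ * h * k₂⁻¹, ?_, by group⟩
  -- the middle factor is diagonal
  have h5 : c • (h : Matrix (Fin 3) (Fin 3) ℚ_[(ℓ : ℕ)]) =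
      (k₁ : Matrix (Fin 3) (Fin 3) ℚ_[(ℓ : ℕ)]) *
        Matrix.diagonal (fun i => ((a i : ℤ_[(ℓ : ℕ)]) : ℚ_[(ℓ : ℕ)])) *
        (k₂ : Matrix (Fin 3) (Fin 3) ℚ_[(ℓ : ℕ)]) := by
    rw [← hA, hUV, Matrix.map_mul, Matrix.map_mul, Matrix.diagonal_map (map_zero _)]
    rfl
  have h6 : ((k₁⁻¹ * h * k₂⁻¹ : GQ ℓ) : Matrix (Fin 3) (Fin 3) ℚ_[(ℓ : ℕ)]) =
      c⁻¹ • Matrix.diagonal (fun i => ((a i : ℤ_[(ℓ : ℕ)]) : ℚ_[(ℓ : ℕ)])) := by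
    have h7 : (h : Matrix (Fin 3) (Fin 3) ℚ_[(ℓ : ℕ)]) =
      c⁻¹ • ((k₁ : Matrix (Fin 3) (Fin 3) ℚ_[(ℓ : ℕ)]) *
        Matrix.diagonal (fun i => ((a i : ℤ_[(ℓ : ℕ)]) : ℚ_[(ℓ : ℕ)])) *
        (k₂ : Matrix (Fin 3) (Fin 3) ℚ_[(ℓ : ℕ)])) := by
      rw [← h5, smul_smul, inv_mul_cancel₀ hc0, one_smul]
    have h8 : ((k₁⁻¹ : GQ ℓ) : Matrix (Fin 3) (Fin 3) ℚ_[(ℓ : ℕ)]) *
        (k₁ : Matrix (Fin 3) (Fin 3) ℚ_[(ℓ : ℕ)]) = 1 := by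
      rw [← Units.val_mul, inv_mul_cancel, Units.val_one]
    have h9 : (k₂ : Matrix (Fin 3) (Fin 3) ℚ_[(ℓ : ℕ)]) *
        ((k₂⁻¹ : GQ ℓ) : Matrix (Fin 3) (Fin 3) ℚ_[(ℓ : ℕ)]) = 1 := by
      rw [← Units.val_mul, mul_inv_cancel, Units.val_one]
    rw [Units.val_mul, Units.val_mul, h7]
    rw [Matrix.mul_smul, Matrix.smul_mul]
    congr 1
    calc _ = (((k₁⁻¹ : GQ ℓ) : Matrix (Fin 3) (Fin 3) ℚ_[(ℓ : ℕ)]) *
        (k₁ : Matrix (Fin 3) (Fin 3) ℚ_[(ℓ : ℕ)])) *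
        Matrix.diagonal (fun i => ((a i : ℤ_[(ℓ : ℕ)]) : ℚ_[(ℓ : ℕ)])) *
        ((k₂ : Matrix (Fin 3) (Fin 3) ℚ_[(ℓ : ℕ)]) *
        ((k₂⁻¹ : GQ ℓ) : Matrix (Fin 3) (Fin 3) ℚ_[(ℓ : ℕ)])) := by
          simp only [Matrix.mul_assoc]
      _ = _ := by rw [h8, h9, one_mul, mul_one]
  apply Units.ext
  rw [coe_tr, h6]
  rw [Matrix.transpose_smul, Matrix.diagonal_transpose]

theorem exists_tr (ℓ : P) (h : GQ ℓ) : ∃ k₁ ∈ GZ ℓ, ∃ k₂ ∈ GZ ℓ, tr h = k₁ * h * k₂ := by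
  obtain ⟨k₁, h₁, k₂, h₂, d, hd, rfl⟩ := cartan ℓ h
  refine ⟨tr k₂ * k₁⁻¹, (GZ ℓ).mul_mem (tr_mem_GZ h₂) ((GZ ℓ).inv_mem h₁),
    k₂⁻¹ * tr k₁, (GZ ℓ).mul_mem ((GZ ℓ).inv_mem h₂) (tr_mem_GZ h₁), ?_⟩
  rw [tr_mul, tr_mul, hd]
  group

end Cartan

/-- **C12**: every element of `GL₃(ℚ_ℓ)` is a product `k₁ d k₂` with `k₁`, `k₂` in `GL₃(ℤ_ℓ)` and
`d` diagonal; hence the transposed matrix is in the same double coset. -/
theorem cartan_transpose (ℓ : P) (h h' : GQ ℓ)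
    (hh : (h' : Matrix (Fin 3) (Fin 3) ℚ_[(ℓ : ℕ)]) = (h : Matrix (Fin 3) (Fin 3) _)ᵀ) :
    ∃ k₁ ∈ GZ ℓ, ∃ k₂ ∈ GZ ℓ, h' = k₁ * h * k₂ := by
  have h1 : h' = Cartan.tr h := Units.ext hh
  rw [h1]
  exact Cartan.exists_tr ℓ h

end Pool.Agent.CG3
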