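import Pool.Agent.CG3.Defs2

/-!
# Class number one for `GL₃(ℚ)`
-/

noncomputable section

namespace Pool.Agent.CG3

open Matrix

namespace ClassOne

/-- an integral matrix whose determinant is a unit lies in `GL₃(ℤ_q)` -/
theorem mem_GZ_of_det {q : P} {k : GQ q}
    (h1 : ∀ i j, ‖(k : Matrix (Fin 3) (Fin 3) ℚ_[(q : ℕ)]) i j‖ ≤ 1)
    (h2 : ‖(k : Matrix (Fin 3) (Fin 3) ℚ_[(q : ℕ)]).det‖ = 1) : k ∈ GZ q := by
  let A : Matrix (Fin 3) (Fin 3) ℤ_[(q : ℕ)] := fun i j => ⟨_, h1 i j⟩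
  have hA : A.map (algebraMap ℤ_[(q : ℕ)] ℚ_[(q : ℕ)]) = (k : Matrix (Fin 3) (Fin 3) _) := by
    ext i j; rfl
  have hdet : algebraMap ℤ_[(q : ℕ)] ℚ_[(q : ℕ)] A.det =
      (k : Matrix (Fin 3) (Fin 3) ℚ_[(q : ℕ)]).det := by
    rw [← hA]
    exact RingHom.map_det _ _
  have hu : IsUnit A.det := by
    rw [PadicInt.isUnit_iff, PadicInt.norm_def]
    rw [← hdet] at h2
    exact h2
  refine ⟨GeneralLinearGroup.mk'' A hu, ?_⟩
  apply Units.ext
  exact hA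

/-- a combination of the rows divisible by `q` -/
theorem exists_comb {q : P} (h : Matrix (Fin 3) (Fin 3) ℚ_[(q : ℕ)]) (h1 : ∀ i j, ‖h i j‖ ≤ 1)
    (h2 : ‖h.det‖ < 1) :
    ∃ (i : Fin 3) (c : Fin 3 → ℤ), c i = 1 ∧
      ∀ j, ‖∑ l, ((c l : ℤ) : ℚ_[(q : ℕ)]) * h l j‖ ≤ ‖((q : ℕ) : ℚ_[(q : ℕ)])‖ := by
  classical
  let A : Matrix (Fin 3) (Fin 3) ℤ_[(q : ℕ)] := fun i j => ⟨_, h1 i j⟩
  have hA : A.map (algebraMap ℤ_[(q : ℕ)] ℚ_[(q : ℕ)]) = h := by
    ext i j; rfl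
  have hdet : algebraMap ℤ_[(q : ℕ)] ℚ_[(q : ℕ)] A.det = h.det := by
    rw [← hA]
    exact RingHom.map_det _ _
  have hker : ∀ x : ℤ_[(q : ℕ)], PadicInt.toZMod x = 0 ↔ ‖x‖ < 1 := by
    intro x
    rw [← RingHom.mem_ker, PadicInt.ker_toZMod, IsLocalRing.mem_maximalIdeal,
      PadicInt.mem_nonunits]
  have hd0 : (A.map (PadicInt.toZMod (p := (q : ℕ)))).det = 0 := by
    have h3 : PadicInt.toZMod A.det = 0 := by
      rw [hker, PadicInt.norm_def]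
      rw [← hdet] at h2
      exact h2
    rw [← h3]
    exact (RingHom.map_det _ _).symm
  obtain ⟨v, hv0, hv⟩ := Matrix.exists_vecMul_eq_zero_iff.2 hd0
  obtain ⟨i, hi⟩ := Function.ne_iff.1 hv0
  have hi' : v i ≠ 0 := hi
  refine ⟨i, fun l => if l = i then 1 else (((v i)⁻¹ * v l).val : ℤ), if_pos rfl, ?_⟩
  intro j
  set c : Fin 3 → ℤ := fun l => if l = i then 1 else (((v i)⁻¹ * v l).val : ℤ) with hc
  have hcz : ∀ l, ((c l : ℤ) : ZMod (q : ℕ)) = (v i)⁻¹ * v l := by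
    intro l
    by_cases hl : l = i
    · rw [hc]
      simp only
      rw [if_pos hl, hl, inv_mul_cancel₀ hi', Int.cast_one]
    · rw [hc]
      simp only
      rw [if_neg hl, Int.cast_natCast, ZMod.natCast_zmod_val]
  set s : ℤ_[(q : ℕ)] := ∑ l, ((c l : ℤ) : ℤ_[(q : ℕ)]) * A l j with hs
  have hs0 : PadicInt.toZMod s = 0 := by
    rw [hs, map_sum]
    have h4 : ∀ l, PadicInt.toZMod (((c l : ℤ) : ℤ_[(q : ℕ)]) * A l j) =
        (v i)⁻¹ * (v l * (A.map (PadicInt.toZMod (p := (q : ℕ)))) l j) := by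
      intro l
      rw [map_mul, map_intCast, hcz, Matrix.map_apply, mul_assoc]
    rw [Finset.sum_congr rfl fun l _ => h4 l, ← Finset.mul_sum]
    have h5 := congrFun hv j
    rw [Matrix.vecMul, dotProduct] at h5
    rw [h5]
    exact mul_zero _
  obtain ⟨w, hw⟩ := (PadicInt.norm_lt_one_iff_dvd s).1 ((hker s).1 hs0)
  have hsc : (s : ℚ_[(q : ℕ)]) = ∑ l, ((c l : ℤ) : ℚ_[(q : ℕ)]) * h l j := by
    rw [hs, PadicInt.coe_sum]
    refine Finset.sum_congr rfl fun l _ => ?_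
    rw [PadicInt.coe_mul, PadicInt.coe_intCast]
  rw [← hsc, hw, PadicInt.coe_mul, norm_mul, PadicInt.coe_natCast]
  calc ‖((q : ℕ) : ℚ_[(q : ℕ)])‖ * ‖(w : ℚ_[(q : ℕ)])‖ ≤ ‖((q : ℕ) : ℚ_[(q : ℕ)])‖ * 1 :=
        mul_le_mul_of_nonneg_left w.2 (norm_nonneg _)
    _ = _ := mul_one _

/-- the elementary step -/
theorem exists_step {q : P} (h : GQ q)
    (h1 : ∀ i j, ‖(h : Matrix (Fin 3) (Fin 3) ℚ_[(q : ℕ)]) i j‖ ≤ 1)
    (h2 : ‖(h : Matrix (Fin 3) (Fin 3) ℚ_[(q : ℕ)]).det‖ < 1) :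
    ∃ E : G, (∀ r : P, r ≠ q → loc r E ∈ GZ r) ∧
      (∀ i j, ‖((loc q E * h : GQ q) : Matrix (Fin 3) (Fin 3) ℚ_[(q : ℕ)]) i j‖ ≤ 1) ∧
      ‖((loc q E * h : GQ q) : Matrix (Fin 3) (Fin 3) ℚ_[(q : ℕ)]).det‖ =
        (q : ℕ) * ‖(h : Matrix (Fin 3) (Fin 3) ℚ_[(q : ℕ)]).det‖ := by
  obtain ⟨i, c, hci, hc⟩ := exists_comb (h : Matrix (Fin 3) (Fin 3) ℚ_[(q : ℕ)]) h1 h2
  have hq0 : ((q : ℕ) : ℚ) ≠ 0 := by exact_mod_cast q.2.ne_zero
  set M : Matrix (Fin 3) (Fin 3) ℚ :=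
    Matrix.of fun a b => if a = i then (c b : ℚ) / (q : ℕ) else if a = b then 1 else 0 with hM
  have hMdet : M.det = 1 / (q : ℕ) := by
    have h3 : ∀ b, M i b = (c b : ℚ) / (q : ℕ) := fun b => by
      rw [hM]; simp
    have h4 : ∀ a b, a ≠ i → M a b = if a = b then 1 else 0 := fun a b hab => by
      rw [hM]; simp [hab]
    rw [Matrix.det_fin_three]
    fin_cases i
    · rw [h4 1 1 (by decide), h4 1 0 (by decide), h4 1 2 (by decide), h4 2 0 (by decide),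
        h4 2 1 (by decide), h4 2 2 (by decide)]
      have := h3 0
      simp only [Fin.mk_zero] at this hci
      rw [this, hci]
      simp
    · rw [h4 0 0 (by decide), h4 0 1 (by decide), h4 0 2 (by decide), h4 2 0 (by decide),
        h4 2 1 (by decide), h4 2 2 (by decide)]
      have := h3 1
      simp only [Fin.mk_one] at this hci
      rw [this, hci]
      simp
    · rw [h4 0 0 (by decide), h4 0 1 (by decide), h4 0 2 (by decide), h4 1 0 (by decide),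
        h4 1 1 (by decide), h4 1 2 (by decide)]
      have := h3 2
      simp only [Fin.reduceFinMk] at this hci
      rw [this, hci]
      simp
  have hM0 : M.det ≠ 0 := by
    rw [hMdet]
    exact one_div_ne_zero hq0
  set E : G := GeneralLinearGroup.mkOfDetNeZero M hM0 with hE
  have hEM : (E : Matrix (Fin 3) (Fin 3) ℚ) = M := rfl
  have hlocdet : ∀ r : P, (loc r E : Matrix (Fin 3) (Fin 3) ℚ_[(r : ℕ)]).det =
      (((1 / (q : ℕ) : ℚ)) : ℚ_[(r : ℕ)]) := by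
    intro r
    rw [← hMdet, ← hEM]
    exact (RingHom.map_det (algebraMap ℚ ℚ_[(r : ℕ)]) (E : Matrix (Fin 3) (Fin 3) ℚ)).symm
  refine ⟨E, ?_, ?_, ?_⟩
  · intro r hr
    have hqr : ‖((q : ℕ) : ℚ_[(r : ℕ)])‖ = 1 := by
      rw [Padic.norm_natCast_eq_one_iff]
      exact (Nat.coprime_primes r.2 q.2).2 fun h => hr (Subtype.ext h)
    refine mem_GZ_of_det ?_ ?_
    · intro a b
      rw [loc_apply, hEM, hM, Matrix.of_apply]
      split_ifs with hai hab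
      · push_cast
        rw [norm_div, hqr, div_one]
        exact Padic.norm_int_le_one _
      · simp
      · simp
    · rw [hlocdet]
      push_cast
      rw [norm_div, hqr, norm_one, div_one]
  · intro a b
    rw [Units.val_mul, Matrix.mul_apply]
    by_cases hai : a = i
    · have h3 : ∑ l, (loc q E : Matrix (Fin 3) (Fin 3) ℚ_[(q : ℕ)]) a l *
          (h : Matrix (Fin 3) (Fin 3) ℚ_[(q : ℕ)]) l b =
          (∑ l, ((c l : ℤ) : ℚ_[(q : ℕ)]) * (h : Matrix (Fin 3) (Fin 3) ℚ_[(q : ℕ)]) l b) /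
            ((q : ℕ) : ℚ_[(q : ℕ)]) := by
        rw [Finset.sum_div]
        refine Finset.sum_congr rfl fun l _ => ?_
        rw [loc_apply, hEM, hM, Matrix.of_apply, if_pos hai]
        push_cast
        ring
      have hq0' : ((q : ℕ) : ℚ_[(q : ℕ)]) ≠ 0 := by exact_mod_cast q.2.ne_zero
      rw [h3, norm_div, div_le_one (norm_pos_iff.2 hq0')]
      exact hc b
    · have h3 : ∑ l, (loc q E : Matrix (Fin 3) (Fin 3) ℚ_[(q : ℕ)]) a l *
          (h : Matrix (Fin 3) (Fin 3) ℚ_[(q : ℕ)]) l b =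
          (h : Matrix (Fin 3) (Fin 3) ℚ_[(q : ℕ)]) a b := by
        rw [Finset.sum_eq_single a]
        · rw [loc_apply, hEM, hM, Matrix.of_apply, if_neg hai, if_pos rfl]
          simp
        · intro l _ hl
          rw [loc_apply, hEM, hM, Matrix.of_apply, if_neg hai, if_neg (Ne.symm hl)]
          simp
        · intro h; exact absurd (Finset.mem_univ _) h
      rw [h3]
      exact h1 a b
  · rw [Units.val_mul, Matrix.det_mul, norm_mul, hlocdet]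
    congr 1
    push_cast
    rw [norm_div, norm_one, Padic.norm_p]
    simp

theorem local_int {q : P} (m : ℕ) : ∀ h : GQ q,
    (∀ i j, ‖(h : Matrix (Fin 3) (Fin 3) ℚ_[(q : ℕ)]) i j‖ ≤ 1) →
    ‖(h : Matrix (Fin 3) (Fin 3) ℚ_[(q : ℕ)]).det‖ = ((q : ℕ) : ℝ) ^ (-(m : ℤ)) →
    ∃ γ : G, (∀ r : P, r ≠ q → loc r γ ∈ GZ r) ∧ (loc q γ)⁻¹ * h ∈ GZ q := by
  have hq1 : (1 : ℝ) < ((q : ℕ) : ℝ) := by exact_mod_cast q.2.one_lt
  have hq0 : ((q : ℕ) : ℝ) ≠ 0 := by positivity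
  induction m with
  | zero =>
    intro h h1 h2
    refine ⟨1, fun r _ => ?_, ?_⟩
    · rw [map_one]; exact (GZ r).one_mem
    · rw [map_one, inv_one, one_mul]
      refine mem_GZ_of_det h1 ?_
      rw [h2]
      simp
  | succ m ih =>
    intro h h1 h2
    have hlt : ‖(h : Matrix (Fin 3) (Fin 3) ℚ_[(q : ℕ)]).det‖ < 1 := by
      rw [h2]
      exact zpow_lt_one_of_neg₀ hq1 (by push_cast; omega)
    obtain ⟨E, hE1, hE2, hE3⟩ := exists_step h h1 hlt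
    obtain ⟨γ, hγ1, hγ2⟩ := ih (loc q E * h) hE2 (by
      rw [hE3, h2]
      have : (-((m + 1 : ℕ) : ℤ)) = -(m : ℤ) - 1 := by push_cast; ring
      rw [this, zpow_sub_one₀ hq0]
      field_simp)
    refine ⟨E⁻¹ * γ, ?_, ?_⟩
    · intro r hr
      rw [map_mul, map_inv]
      exact (GZ r).mul_mem ((GZ r).inv_mem (hE1 r hr)) (hγ1 r hr)
    · have : (loc q (E⁻¹ * γ))⁻¹ * h = (loc q γ)⁻¹ * (loc q E * h) := by
        rw [map_mul, map_inv, _root_.mul_inv_rev, inv_inv, mul_assoc]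
      rw [this]
      exact hγ2

theorem local_gen {q : P} (h : GQ q) :
    ∃ γ : G, (∀ r : P, r ≠ q → loc r γ ∈ GZ r) ∧ (loc q γ)⁻¹ * h ∈ GZ q := by
  have hq1 : (1 : ℝ) < ((q : ℕ) : ℝ) := by exact_mod_cast q.2.one_lt
  have hq0 : ((q : ℕ) : ℝ) ≠ 0 := by positivity
  have hqQ : ((q : ℕ) : ℚ) ≠ 0 := by exact_mod_cast q.2.ne_zero
  obtain ⟨n, hn⟩ := pow_unbounded_of_one_lt
    (∑ i, ∑ j, ‖(h : Matrix (Fin 3) (Fin 3) ℚ_[(q : ℕ)]) i j‖) hq1
  have hn' : ∀ i j, ‖(h : Matrix (Fin 3) (Fin 3) ℚ_[(q : ℕ)]) i j‖ ≤ ((q : ℕ) : ℝ) ^ n := by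
    intro i j
    refine le_trans ?_ hn.le
    calc ‖(h : Matrix (Fin 3) (Fin 3) ℚ_[(q : ℕ)]) i j‖
        ≤ ∑ j, ‖(h : Matrix (Fin 3) (Fin 3) ℚ_[(q : ℕ)]) i j‖ :=
          Finset.single_le_sum (f := fun j => ‖(h : Matrix (Fin 3) (Fin 3) ℚ_[(q : ℕ)]) i j‖)
            (fun _ _ => norm_nonneg _) (Finset.mem_univ j)
      _ ≤ _ := Finset.single_le_sum
            (f := fun i => ∑ j, ‖(h : Matrix (Fin 3) (Fin 3) ℚ_[(q : ℕ)]) i j‖)
            (fun _ _ => Finset.sum_nonneg fun _ _ => norm_nonneg _) (Finset.mem_univ i)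
  set M : Matrix (Fin 3) (Fin 3) ℚ := Matrix.diagonal fun _ => ((q : ℕ) : ℚ) ^ n with hM
  have hMdet : M.det = (((q : ℕ) : ℚ) ^ n) ^ 3 := by
    rw [hM, Matrix.det_diagonal]
    simp
  have hM0 : M.det ≠ 0 := by
    rw [hMdet]
    positivity
  set s : G := GeneralLinearGroup.mkOfDetNeZero M hM0 with hs
  have hsM : (s : Matrix (Fin 3) (Fin 3) ℚ) = M := rfl
  have hsloc : ∀ r : P, (loc r s : Matrix (Fin 3) (Fin 3) ℚ_[(r : ℕ)]) =
      Matrix.diagonal fun _ => ((q : ℕ) : ℚ_[(r : ℕ)]) ^ n := by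
    intro r
    ext i j
    rw [loc_apply, hsM, hM]
    by_cases hij : i = j
    · subst hij
      simp
    · simp [Matrix.diagonal_apply_ne _ hij]
  have hs1 : ∀ r : P, r ≠ q → loc r s ∈ GZ r := by
    intro r hr
    have hqr : ‖((q : ℕ) : ℚ_[(r : ℕ)])‖ = 1 := by
      rw [Padic.norm_natCast_eq_one_iff]
      exact (Nat.coprime_primes r.2 q.2).2 fun h => hr (Subtype.ext h)
    refine mem_GZ_of_det ?_ ?_
    · intro a b
      rw [hsloc]
      by_cases hab : a = b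
      · subst hab
        rw [Matrix.diagonal_apply_eq, norm_pow, hqr, one_pow]
      · rw [Matrix.diagonal_apply_ne _ hab, norm_zero]
        exact zero_le_one
    · rw [hsloc, Matrix.det_diagonal]
      simp [hqr]
  have hint : ∀ i j, ‖((loc q s * h : GQ q) : Matrix (Fin 3) (Fin 3) ℚ_[(q : ℕ)]) i j‖ ≤ 1 := by
    intro i j
    rw [Units.val_mul, hsloc, Matrix.diagonal_mul, norm_mul, norm_pow, Padic.norm_p]
    calc ((q : ℕ) : ℝ)⁻¹ ^ n * ‖(h : Matrix (Fin 3) (Fin 3) ℚ_[(q : ℕ)]) i j‖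
        ≤ ((q : ℕ) : ℝ)⁻¹ ^ n * ((q : ℕ) : ℝ) ^ n :=
          mul_le_mul_of_nonneg_left (hn' i j) (by positivity)
      _ = 1 := by rw [← mul_pow, inv_mul_cancel₀ hq0, one_pow]
  -- the norm of the determinant
  have hdet0 : ((loc q s * h : GQ q) : Matrix (Fin 3) (Fin 3) ℚ_[(q : ℕ)]).det ≠ 0 := by
    have := ((loc q s * h : GQ q).isUnit.map
      (Matrix.detMonoidHom (R := ℚ_[(q : ℕ)]) (n := Fin 3)))
    exact this.ne_zero
  have hdet1 : ‖((loc q s * h : GQ q) : Matrix (Fin 3) (Fin 3) ℚ_[(q : ℕ)]).det‖ ≤ 1 := by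
    let A : Matrix (Fin 3) (Fin 3) ℤ_[(q : ℕ)] := fun i j => ⟨_, hint i j⟩
    have hA : A.map (algebraMap ℤ_[(q : ℕ)] ℚ_[(q : ℕ)]) =
        ((loc q s * h : GQ q) : Matrix (Fin 3) (Fin 3) _) := by
      ext i j; rfl
    have hdet : algebraMap ℤ_[(q : ℕ)] ℚ_[(q : ℕ)] A.det =
        ((loc q s * h : GQ q) : Matrix (Fin 3) (Fin 3) ℚ_[(q : ℕ)]).det := by
      rw [← hA]
      exact RingHom.map_det _ _
    rw [← hdet]
    exact A.det.2
  obtain ⟨m, hm⟩ : ∃ m : ℕ, ‖((loc q s * h : GQ q) :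
      Matrix (Fin 3) (Fin 3) ℚ_[(q : ℕ)]).det‖ = ((q : ℕ) : ℝ) ^ (-(m : ℤ)) := by
    rw [Padic.norm_eq_zpow_neg_valuation hdet0]
    have hv : 0 ≤ ((loc q s * h : GQ q) :
      Matrix (Fin 3) (Fin 3) ℚ_[(q : ℕ)]).det.valuation := by
      by_contra hneg
      push Not at hneg
      rw [Padic.norm_eq_zpow_neg_valuation hdet0] at hdet1
      have : 1 < ((q : ℕ) : ℝ) ^ (-((loc q s * h : GQ q) :
        Matrix (Fin 3) (Fin 3) ℚ_[(q : ℕ)]).det.valuation) :=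
        one_lt_zpow₀ hq1 (by omega)
      linarith
    refine ⟨(((loc q s * h : GQ q) :
      Matrix (Fin 3) (Fin 3) ℚ_[(q : ℕ)]).det.valuation).toNat, ?_⟩
    rw [Int.toNat_of_nonneg hv]
  obtain ⟨γ, hγ1, hγ2⟩ := local_int m _ hint hm
  refine ⟨s⁻¹ * γ, ?_, ?_⟩
  · intro r hr
    rw [map_mul, map_inv]
    exact (GZ r).mul_mem ((GZ r).inv_mem (hs1 r hr)) (hγ1 r hr)
  · have : (loc q (s⁻¹ * γ))⁻¹ * h = (loc q γ)⁻¹ * (loc q s * h) := by
      rw [map_mul, map_inv, _root_.mul_inv_rev, inv_inv, mul_assoc]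
    rw [this]
    exact hγ2

theorem global (T : Finset P) : ∀ g : GA, (∀ q : P, q ∉ T → g.1 q ∈ GZ q) →
    ∃ γ : G, (diag γ)⁻¹ * g ∈ KZ := by
  classical
  induction T using Finset.induction_on with
  | empty =>
    intro g hg
    refine ⟨1, ?_⟩
    rw [map_one, inv_one, one_mul]
    exact fun q => hg q (Finset.notMem_empty q)
  | insert q T _ ih =>
    intro g hg
    obtain ⟨γ, hγ1, hγ2⟩ := local_gen (g.1 q)
    obtain ⟨δ, hδ⟩ := ih ((diag γ)⁻¹ * g) (by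
      intro r hr
      have h1 : ((diag γ)⁻¹ * g).1 r = (loc r γ)⁻¹ * g.1 r := rfl
      rw [h1]
      by_cases hrq : r = q
      · subst hrq
        exact hγ2
      · refine (GZ r).mul_mem ((GZ r).inv_mem (hγ1 r hrq)) (hg r ?_)
        simp [hrq, hr])
    refine ⟨γ * δ, ?_⟩
    rw [map_mul, _root_.mul_inv_rev, mul_assoc]
    exact hδ

/-- the matrix `diag(-1,1,1)` -/
theorem exists_neg : ∃ ε : G, diag ε ∈ KZ ∧ sgn ε = -1 := by
  set M : Matrix (Fin 3) (Fin 3) ℚ := Matrix.diagonal ![-1, 1, 1] with hM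
  have hMdet : M.det = -1 := by
    rw [hM, Matrix.det_diagonal]
    simp [Fin.prod_univ_three]
  have hM0 : M.det ≠ 0 := by
    rw [hMdet]; norm_num
  set s : G := GeneralLinearGroup.mkOfDetNeZero M hM0 with hs
  have hsM : (s : Matrix (Fin 3) (Fin 3) ℚ) = M := rfl
  refine ⟨s, ?_, ?_⟩
  · intro q
    rw [diag_apply]
    refine mem_GZ_of_det ?_ ?_
    · intro i j
      rw [loc_apply, hsM, hM]
      by_cases hij : i = j
      · subst hij
        rw [Matrix.diagonal_apply_eq]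
        fin_cases i <;> simp
      · rw [Matrix.diagonal_apply_ne _ hij]
        simp
    · have h1 : (loc q s : Matrix (Fin 3) (Fin 3) ℚ_[(q : ℕ)]).det =
          ((M.det : ℚ) : ℚ_[(q : ℕ)]) :=
        (RingHom.map_det (algebraMap ℚ ℚ_[(q : ℕ)]) (s : Matrix (Fin 3) (Fin 3) ℚ)).symm
      rw [h1, hMdet]
      simp
  · change (if 0 < (s : Matrix (Fin 3) (Fin 3) ℚ).det then (1 : ℤˣ) else -1) = -1
    rw [hsM, hMdet, if_neg (by norm_num)]

end ClassOne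

open ClassOne

/-- **C1** (class number one and strong approximation at infinity) -/
theorem class_one (x : ℤˣ) (g : GA) : ∃ (γ : G) (u : GA), u ∈ KZ ∧ sgn γ = x ∧
    g = diag γ * u := by
  obtain ⟨γ, hγ⟩ := global (g.2.toFinset) g (by
    intro q hq
    by_contra hcon
    exact hq ((Set.Finite.mem_toFinset g.2).2 hcon))
  by_cases hx : sgn γ = x
  · exact ⟨γ, (diag γ)⁻¹ * g, hγ, hx, by rw [mul_inv_cancel_left]⟩
  · obtain ⟨ε, hε1, hε2⟩ := exists_neg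
    refine ⟨γ * ε, (diag ε)⁻¹ * ((diag γ)⁻¹ * g), KZ.mul_mem (KZ.inv_mem hε1) hγ, ?_, ?_⟩
    · rw [map_mul, hε2]
      rcases Int.units_eq_one_or (sgn γ) with h1 | h1 <;>
        rcases Int.units_eq_one_or x with h2 | h2 <;> rw [h1, h2] at hx ⊢ <;>
        first
          | exact absurd rfl hx
          | rfl
    · rw [map_mul]
      group

end Pool.Agent.CG3
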