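import Pool.Agent.CG3.CohMapDefs

/-!
# E2: exactness of the cohomology in the coefficients
-/

noncomputable section

namespace Pool.Agent.CG3

open CategoryTheory

variable {p : P} {S : Finset P}
variable {O : Type} [CommRing O]

namespace CohExactAux

variable (L : Level p S) {W W' : Type} [AddCommGroup W] [Module O W] [AddCommGroup W']
    [Module O W'] (σ : Representation O (L.K p) W) (σ' : Representation O (L.K p) W')

theorem formsMap_apply (φ : W →ₗ[O] W') (hφ : ∀ k w, φ (σ k w) = σ' k (φ w)) (f : Forms L σ)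
    (y : ℤˣ × GA) : ((formsMap L σ σ' φ hφ).hom f : Forms L σ').1 y = φ (f.1 y) := rfl

/-- The component at `p` of an element of `K_f`. -/
def pcomp (k : L.Kf) : L.K p := ⟨k.1.1 p, k.2 p⟩

theorem pcomp_mul (k k' : L.Kf) : pcomp L (k * k') = pcomp L k * pcomp L k' := rfl

/-- `g = r(g) k(g)` where `r(g)` is the chosen representative of `g K_f`. -/
theorem out_mem (g : GA) : (Quotient.out (g : GA ⧸ L.Kf))⁻¹ * g ∈ L.Kf := by
  apply QuotientGroup.eq.1
  exact Quotient.out_eq' _

theorem formsMap_surjective (φ : W →ₗ[O] W') (hφ : ∀ k w, φ (σ k w) = σ' k (φ w))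
    (hs : Function.Surjective φ) (f' : Forms L σ') :
    ∃ f : Forms L σ, ∀ y, φ (f.1 y) = f'.1 y := by
  choose w hw using fun y : ℤˣ × GA => hs (f'.1 y)
  refine ⟨⟨fun y => σ (pcomp L ⟨_, out_mem L y.2⟩)⁻¹
    (w (y.1, Quotient.out (y.2 : GA ⧸ L.Kf))), ?_⟩, ?_⟩
  · intro x g k
    have h1 : ((g * k.1 : GA) : GA ⧸ L.Kf) = (g : GA ⧸ L.Kf) := by
      apply QuotientGroup.eq.2
      rw [mul_inv_rev, mul_assoc, inv_mul_cancel, mul_one]
      exact L.Kf.inv_mem k.2
    have h2 : (pcomp L ⟨_, out_mem L (g * k.1)⟩) = pcomp L ⟨_, out_mem L g⟩ * pcomp L k := by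
      rw [← pcomp_mul]
      apply congrArg
      apply Subtype.ext
      change (Quotient.out ((g * k.1 : GA) : GA ⧸ L.Kf))⁻¹ * (g * k.1)
        = (Quotient.out (g : GA ⧸ L.Kf))⁻¹ * g * k.1
      rw [h1, mul_assoc]
    change σ (pcomp L ⟨_, out_mem L (g * k.1)⟩)⁻¹
        (w (x, Quotient.out ((g * k.1 : GA) : GA ⧸ L.Kf)))
      = σ (pcomp L k)⁻¹ (σ (pcomp L ⟨_, out_mem L g⟩)⁻¹ (w (x, Quotient.out (g : GA ⧸ L.Kf))))
    rw [h2, h1, mul_inv_rev, map_mul, Module.End.mul_apply]
  · rintro ⟨x, g⟩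
    change φ (σ (pcomp L ⟨_, out_mem L g⟩)⁻¹ (w (x, Quotient.out (g : GA ⧸ L.Kf)))) = f'.1 (x, g)
    rw [hφ, hw]
    have h3 := f'.2 x (Quotient.out (g : GA ⧸ L.Kf)) ⟨_, out_mem L g⟩
    have h4 : Quotient.out (g : GA ⧸ L.Kf) * ((Quotient.out (g : GA ⧸ L.Kf))⁻¹ * g) = g := by
      rw [mul_inv_cancel_left]
    change f'.1 (x, Quotient.out (g : GA ⧸ L.Kf) * ((Quotient.out (g : GA ⧸ L.Kf))⁻¹ * g)) = _ at h3
    rw [h4] at h3
    exact h3.symm

end CohExactAux

open CohExactAux in
/-- The short exact sequence of coefficient modules attached to a short exact sequence of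
representations. -/
theorem formsMap_shortExact (L : Level p S) {W' W W'' : Type} [AddCommGroup W] [Module O W]
    [AddCommGroup W'] [Module O W'] [AddCommGroup W''] [Module O W'']
    (σ' : Representation O (L.K p) W') (σ : Representation O (L.K p) W)
    (σ'' : Representation O (L.K p) W'')
    (ι : W' →ₗ[O] W) (hι : ∀ k w, ι (σ' k w) = σ k (ι w)) (hinj : Function.Injective ι)
    (π : W →ₗ[O] W'') (hπ : ∀ k w, π (σ k w) = σ'' k (π w)) (hsurj : Function.Surjective π)
    (hex : LinearMap.range ι = LinearMap.ker π) :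
    ∃ h0 : formsMap L σ' σ ι hι ≫ formsMap L σ σ'' π hπ = 0,
      (ShortComplex.mk (formsMap L σ' σ ι hι) (formsMap L σ σ'' π hπ) h0).ShortExact := by
  have h0 : formsMap L σ' σ ι hι ≫ formsMap L σ σ'' π hπ = 0 := by
    apply Rep.hom_ext
    apply Representation.IntertwiningMap.ext
    apply LinearMap.ext
    intro f
    apply Subtype.ext
    funext y
    change π (ι (f.1 y)) = 0
    have : ι (f.1 y) ∈ LinearMap.ker π := hex ▸ LinearMap.mem_range_self ι _
    exact this
  refine ⟨h0, ?_⟩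
  have hex' : (ShortComplex.mk (formsMap L σ' σ ι hι) (formsMap L σ σ'' π hπ) h0).Exact := by
    rw [← ShortComplex.exact_map_iff_of_faithful _ (forget₂ (Rep O G) (ModuleCat O)),
      ShortComplex.moduleCat_exact_iff]
    intro f hf
    have hf' : ∀ y, π ((f : Forms L σ).1 y) = 0 := by
      intro y
      have := congrArg (fun a : Forms L σ'' => a.1 y) hf
      exact this
    have hr : ∀ y, ∃ w, ι w = (f : Forms L σ).1 y := by
      intro y
      have : (f : Forms L σ).1 y ∈ LinearMap.ker π := hf' y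
      rw [← hex] at this
      exact this
    choose f' hf'' using hr
    refine ⟨(⟨f', ?_⟩ : Forms L σ'), ?_⟩
    · intro x g k
      apply hinj
      rw [hι, hf'', hf'']
      exact (f : Forms L σ).2 x g k
    · apply Subtype.ext
      funext y
      exact hf'' y
  refine { exact := hex', mono_f := (Rep.mono_iff_injective _).2 ?_,
           epi_g := (Rep.epi_iff_surjective _).2 ?_ }
  · intro f f' hff
    apply Subtype.ext
    funext y
    apply hinj
    exact congrArg (fun a : Forms L σ => a.1 y) hff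
  · intro f''
    obtain ⟨f, hf⟩ := formsMap_surjective L σ σ'' π hπ hsurj f''
    exact ⟨f, Subtype.ext (funext hf)⟩

/-- **E2** `CohExact.lean` -/
theorem cohMap_exact (L : Level p S) {W' W W'' : Type} [AddCommGroup W] [Module O W]
    [AddCommGroup W'] [Module O W'] [AddCommGroup W''] [Module O W'']
    (σ' : Representation O (L.K p) W') (σ : Representation O (L.K p) W)
    (σ'' : Representation O (L.K p) W'')
    (ι : W' →ₗ[O] W) (hι : ∀ k w, ι (σ' k w) = σ k (ι w)) (hinj : Function.Injective ι)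
    (π : W →ₗ[O] W'') (hπ : ∀ k w, π (σ k w) = σ'' k (π w)) (hsurj : Function.Surjective π)
    (hex : LinearMap.range ι = LinearMap.ker π) (i : ℕ) (z : groupCohomology (coeff L σ) i)
    (hz : cohMap L σ σ'' π hπ i z = 0) :
    ∃ z' : groupCohomology (coeff L σ') i, cohMap L σ' σ ι hι i z' = z := by
  obtain ⟨h0, hS⟩ := formsMap_shortExact L σ' σ σ'' ι hι hinj π hπ hsurj hex
  have h1 := groupCohomology.mapShortComplex₂_exact hS i
  rw [ShortComplex.moduleCat_exact_iff] at h1
  exact h1 z hz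

end Pool.Agent.CG3
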