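import Pool.Agent.CG3.HeckeComm

/-!
# The Hecke algebra acting on the cohomology, its support, and the Galois representations
# attached to maximal ideals
-/

noncomputable section

namespace Pool.Agent.CG3

open CategoryTheory
open scoped IsMulCommutative

variable {p : P} {S : Finset P}
variable {O : Type} [CommRing O] {W : Type} [AddCommGroup W] [Module O W]

theorem heckeCoh_comm (L : Level p S) (σ : Representation O (L.K p) W) (i : ℕ) (s t : Idx S) :
    heckeCoh L σ i s * heckeCoh L σ i t = heckeCoh L σ i t * heckeCoh L σ i s := by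
  have h1 : heckeHom L σ s ≫ heckeHom L σ t = heckeHom L σ t ≫ heckeHom L σ s := by
    apply Rep.hom_ext
    apply Representation.IntertwiningMap.ext
    apply LinearMap.ext
    intro f
    exact (LinearMap.congr_fun (heckeLin_comm L σ s t) f).symm
  have h2 := congrArg (fun a => ((groupCohomology.functor O G i).map a).hom) h1
  simp only [CategoryTheory.Functor.map_comp, ModuleCat.hom_comp] at h2
  exact h2.symm

/-- The Hecke algebra: the polynomial algebra over `O` on the Hecke operators `T_(ℓ,j)`,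
`ℓ ∉ S`, `j ∈ {0,1,2,3}`. -/
abbrev HeckeAlg (S : Finset P) (O : Type) [CommRing O] := MvPolynomial (Idx S) O

/-- The commutative algebra of endomorphisms of `Hⁱ(Y(K_f), W)` generated by the Hecke
operators. -/
def heckeSub (L : Level p S) (σ : Representation O (L.K p) W) (i : ℕ) :
    Subalgebra O (Module.End O (groupCohomology (coeff L σ) i)) :=
  Algebra.adjoin O (Set.range (heckeCoh L σ i))

instance heckeSub_comm (L : Level p S) (σ : Representation O (L.K p) W) (i : ℕ) :
    IsMulCommutative (heckeSub L σ i) :=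
  Algebra.isMulCommutative_adjoin O (by
    rintro _ ⟨s, rfl⟩ _ ⟨t, rfl⟩
    exact heckeCoh_comm L σ i s t)

/-- The action of the Hecke algebra on `Hⁱ(Y(K_f), W)`. -/
def act (L : Level p S) (σ : Representation O (L.K p) W) (i : ℕ) :
    HeckeAlg S O →ₐ[O] Module.End O (groupCohomology (coeff L σ) i) :=
  (heckeSub L σ i).val.comp
    (MvPolynomial.aeval (fun t => (⟨heckeCoh L σ i t, Algebra.subset_adjoin ⟨t, rfl⟩⟩ :
      heckeSub L σ i)))

theorem act_X (L : Level p S) (σ : Representation O (L.K p) W) (i : ℕ) (t : Idx S) :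
    act L σ i (MvPolynomial.X t) = heckeCoh L σ i t := by
  simp [act]

/-- The localisation of `Hⁱ(Y(K_f), W)` at the prime ideal `m` of the Hecke algebra is not
zero. -/
def InSupport (L : Level p S) (σ : Representation O (L.K p) W) (i : ℕ)
    (m : Ideal (HeckeAlg S O)) : Prop :=
  ∃ h : groupCohomology (coeff L σ) i, ∀ t : HeckeAlg S O, t ∉ m → act L σ i t h ≠ 0

/-- The action of `K_p` on `W` is continuous for the `𝔪`-adic topology of `W`, `𝔪` the maximal
ideal of `O`. -/
def IsContinuousRep [IsLocalRing O] (L : Level p S) (σ : Representation O (L.K p) W) : Prop :=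
  ∀ n : ℕ, ∃ U : Set (GQ p), IsOpen U ∧ 1 ∈ U ∧ ∀ k : L.K p, k.1 ∈ U →
    ∀ w : W, σ k w - w ∈ (IsLocalRing.maximalIdeal O ^ n • ⊤ : Submodule O W)

/-- An algebraic closure of `ℚ`. -/
abbrev Qbar := AlgebraicClosure ℚ

/-- The absolute Galois group of `ℚ`, with its Krull topology. -/
abbrev GalQ := Qbar ≃ₐ[ℚ] Qbar

/-- The ring of algebraic integers in `Qbar`. -/
abbrev Zbar := integralClosure ℤ Qbar

/-- `σ` acts trivially on the residue ring `Zbar / Q`. -/
def IsInertia (Q : Ideal Zbar) (σ : GalQ) : Prop :=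
  ∀ x y : Zbar, (y : Qbar) = σ (x : Qbar) → y - x ∈ Q

/-- `σ` acts on the residue ring `Zbar / Q` by `x ↦ x ^ ℓ`: it is a Frobenius element at `Q`. -/
def IsFrob (ℓ : P) (Q : Ideal Zbar) (σ : GalQ) : Prop :=
  ∀ x y : Zbar, (y : Qbar) = σ (x : Qbar) → y - x ^ (ℓ : ℕ) ∈ Q

/-- The image in `k` of the Hecke operator `T_(ℓ,j)`, where `k` is a field extension of the
residue field of the maximal ideal `m` of the Hecke algebra. -/
def eig (m : Ideal (HeckeAlg S O)) (k : Type) [Field k] [Algebra (HeckeAlg S O ⧸ m) k]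
    (t : Idx S) : k :=
  algebraMap (HeckeAlg S O ⧸ m) k (Ideal.Quotient.mk m (MvPolynomial.X t))

/-- The representation `ρ` of the absolute Galois group of `ℚ` is attached to the maximal
ideal `m` of the Hecke algebra: it is continuous, unramified outside `S`, and the characteristic
polynomial of (arithmetic, `e = 1`, or geometric, `e = -1`) Frobenius elements at `ℓ ∉ S` is
given by the Hecke eigenvalues through the Satake isomorphism, up to a twist by a fixed power of
the cyclotomic character: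
`X³ - ℓ^(a-1) t₀ X² + ℓ^(2a-1) t₁ X - ℓ^(3a) t₂`. -/
def Attached (m : Ideal (HeckeAlg S O)) (k : Type) [Field k] [Algebra (HeckeAlg S O ⧸ m) k]
    (ρ : GalQ →* GL (Fin 3) k) : Prop :=
  IsOpen (ρ.ker : Set GalQ) ∧
  ∃ (a : ℤ) (e : ℤˣ), ∀ (ℓ : P) (hℓ : ℓ ∉ S) (Q : Ideal Zbar), Q.IsPrime →
    ((ℓ : ℕ) : Zbar) ∈ Q →
      (∀ σ : GalQ, IsInertia Q σ → ρ σ = 1) ∧
      (∀ σ : GalQ, IsFrob ℓ Q σ →
        (ρ (σ ^ (e : ℤ)) : Matrix (Fin 3) (Fin 3) k).charpoly =
          Polynomial.X ^ 3
            - Polynomial.C (((ℓ : ℕ) : k) ^ (a - 1) * eig m k (⟨ℓ, hℓ⟩, 0)) * Polynomial.X ^ 2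
            + Polynomial.C (((ℓ : ℕ) : k) ^ (2 * a - 1) * eig m k (⟨ℓ, hℓ⟩, 1)) * Polynomial.X
            - Polynomial.C (((ℓ : ℕ) : k) ^ (3 * a) * eig m k (⟨ℓ, hℓ⟩, 2)))

/-- `ρ` does not factor through a proper parabolic subgroup of `GL₃`, after any finite extension
of the field `k`: over no finite extension is there a stable subspace other than `0` and the
whole space. -/
def NonEisenstein {k : Type} [Field k] (ρ : GalQ →* GL (Fin 3) k) : Prop :=
  ∀ (k' : Type) [Field k'] [Algebra k k'], Module.Finite k k' →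
    ∀ V : Submodule k' (Fin 3 → k'),
      (∀ (g : GalQ), ∀ v ∈ V,
        ((ρ g : Matrix (Fin 3) (Fin 3) k).map (algebraMap k k')).mulVec v ∈ V) →
      V = ⊥ ∨ V = ⊤

end Pool.Agent.CG3
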