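import Pool.Agent.CG3.CohMapDefs
import Pool.Agent.CG3.Statement

/-!
# E1: the maps induced by equivariant maps `W → W'` commute with the Hecke algebra
-/

noncomputable section

namespace Pool.Agent.CG3

open CategoryTheory

variable {p : P} {S : Finset P}
variable {O : Type} [CommRing O]

namespace CohMapAux

theorem formsMap_heckeHom (L : Level p S) {W W' : Type} [AddCommGroup W] [Module O W]
    [AddCommGroup W'] [Module O W'] (σ : Representation O (L.K p) W)
    (σ' : Representation O (L.K p) W') (φ : W →ₗ[O] W') (hφ : ∀ k w, φ (σ k w) = σ' k (φ w))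
    (t : Idx S) :
    formsMap L σ σ' φ hφ ≫ heckeHom L σ' t = heckeHom L σ t ≫ formsMap L σ σ' φ hφ := by
  apply Rep.hom_ext
  apply Representation.IntertwiningMap.ext
  apply LinearMap.ext
  intro f
  apply Subtype.ext
  funext y
  exact (map_sum φ _ _).symm

theorem cohMap_heckeCoh (L : Level p S) {W W' : Type} [AddCommGroup W] [Module O W]
    [AddCommGroup W'] [Module O W'] (σ : Representation O (L.K p) W)
    (σ' : Representation O (L.K p) W') (φ : W →ₗ[O] W') (hφ : ∀ k w, φ (σ k w) = σ' k (φ w))
    (i : ℕ) (t : Idx S) (z : groupCohomology (coeff L σ) i) :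
    cohMap L σ σ' φ hφ i (heckeCoh L σ i t z) = heckeCoh L σ' i t (cohMap L σ σ' φ hφ i z) := by
  have h1 := formsMap_heckeHom L σ σ' φ hφ t
  have h2 := congrArg (fun a => ((groupCohomology.functor O G i).map a).hom) h1
  simp only [CategoryTheory.Functor.map_comp, ModuleCat.hom_comp] at h2
  exact (LinearMap.congr_fun h2 z).symm

end CohMapAux

/-- **E1** -/
theorem cohMap_hecke (L : Level p S) {W W' : Type} [AddCommGroup W] [Module O W]
    [AddCommGroup W'] [Module O W'] (σ : Representation O (L.K p) W)
    (σ' : Representation O (L.K p) W') (φ : W →ₗ[O] W') (hφ : ∀ k w, φ (σ k w) = σ' k (φ w))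
    (i : ℕ) (t : HeckeAlg S O) (z : groupCohomology (coeff L σ) i) :
    cohMap L σ σ' φ hφ i (act L σ i t z) = act L σ' i t (cohMap L σ σ' φ hφ i z) := by
  induction t using MvPolynomial.induction_on generalizing z with
  | C a =>
    have h1 : act L σ i (MvPolynomial.C a) = algebraMap O _ a := by
      have := (act L σ i).commutes a
      rwa [MvPolynomial.algebraMap_eq] at this
    have h2 : act L σ' i (MvPolynomial.C a) = algebraMap O _ a := by
      have := (act L σ' i).commutes a
      rwa [MvPolynomial.algebraMap_eq] at this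
    rw [h1, h2, Module.algebraMap_end_apply, Module.algebraMap_end_apply, map_smul]
  | add a b ha hb =>
    rw [map_add, map_add, LinearMap.add_apply, LinearMap.add_apply, map_add, ha, hb]
  | mul_X a t ha =>
    rw [map_mul, map_mul, Module.End.mul_apply, Module.End.mul_apply, ha, act_X, act_X,
      CohMapAux.cohMap_heckeCoh]

end Pool.Agent.CG3
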