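import Pool.Agent.CG3.Hecke

/-!
# The maps on the coefficient modules and on cohomology induced by equivariant maps `W → W'`
-/

noncomputable section

namespace Pool.Agent.CG3

open CategoryTheory

variable {p : P} {S : Finset P}
variable {O : Type} [CommRing O]

/-- The map on the coefficient modules induced by an equivariant map. -/
def formsMap (L : Level p S) {W W' : Type} [AddCommGroup W] [Module O W] [AddCommGroup W']
    [Module O W'] (σ : Representation O (L.K p) W) (σ' : Representation O (L.K p) W')
    (φ : W →ₗ[O] W') (hφ : ∀ k w, φ (σ k w) = σ' k (φ w)) : coeff L σ ⟶ coeff L σ' :=
  Rep.ofHom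
    { toLinearMap :=
        { toFun := fun f => ⟨fun y => φ (f.1 y), fun x g k => by
            change φ (f.1 (x, g * k.1)) = _
            rw [f.2 x g k, hφ]⟩
          map_add' := fun a b => by
            apply Subtype.ext
            funext y
            exact map_add φ _ _
          map_smul' := fun c a => by
            apply Subtype.ext
            funext y
            exact map_smul φ _ _ }
      isIntertwining' := by
        intro γ
        apply LinearMap.ext
        intro f
        apply Subtype.ext
        funext y
        rfl }

/-- The map induced by an equivariant map `W → W'` on cohomology. -/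
def cohMap (L : Level p S) {W W' : Type} [AddCommGroup W] [Module O W] [AddCommGroup W']
    [Module O W'] (σ : Representation O (L.K p) W) (σ' : Representation O (L.K p) W')
    (φ : W →ₗ[O] W') (hφ : ∀ k w, φ (σ k w) = σ' k (φ w)) (i : ℕ) :
    groupCohomology (coeff L σ) i →ₗ[O] groupCohomology (coeff L σ') i :=
  ((groupCohomology.functor O G i).map (formsMap L σ σ' φ hφ)).hom

end Pool.Agent.CG3
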