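import Pool.Agent.CG3.Defs2

/-!
# The number of cosets in the Hecke double cosets of `GL₃`
-/

noncomputable section

namespace Pool.Agent.CG3

open Matrix

namespace CountAux

/-- The group `GL₃(ℤ_ℓ)`. -/
abbrev UZ (ℓ : P) := GL (Fin 3) ℤ_[(ℓ : ℕ)]

/-- The inclusion of `GL₃(ℤ_ℓ)`. -/
abbrev inc (ℓ : P) : UZ ℓ →* GQ ℓ :=
  GeneralLinearGroup.map (n := Fin 3) (algebraMap ℤ_[(ℓ : ℕ)] ℚ_[(ℓ : ℕ)])

/-- Reduction modulo `ℓ`. -/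
abbrev red (ℓ : P) : UZ ℓ →* GL (Fin 3) (ZMod (ℓ : ℕ)) :=
  GeneralLinearGroup.map (n := Fin 3) (PadicInt.toZMod (p := (ℓ : ℕ)))

theorem inc_apply (ℓ : P) (u : UZ ℓ) (i j : Fin 3) :
    (inc ℓ u : Matrix (Fin 3) (Fin 3) ℚ_[(ℓ : ℕ)]) i j
      = (((u : Matrix (Fin 3) (Fin 3) ℤ_[(ℓ : ℕ)]) i j : ℤ_[(ℓ : ℕ)]) : ℚ_[(ℓ : ℕ)]) := rfl

theorem red_apply (ℓ : P) (u : UZ ℓ) (i j : Fin 3) :
    (red ℓ u : Matrix (Fin 3) (Fin 3) (ZMod (ℓ : ℕ))) i j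
      = PadicInt.toZMod ((u : Matrix (Fin 3) (Fin 3) ℤ_[(ℓ : ℕ)]) i j) := rfl

theorem toZMod_eq_zero_iff {ℓ : P} (x : ℤ_[(ℓ : ℕ)]) :
    PadicInt.toZMod x = 0 ↔ ‖(x : ℚ_[(ℓ : ℕ)])‖ ≤ ‖((ℓ : ℕ) : ℚ_[(ℓ : ℕ)])‖ := by
  rw [← RingHom.mem_ker, PadicInt.ker_toZMod, PadicInt.maximalIdeal_eq_span_p]
  have h := PadicInt.norm_le_pow_iff_mem_span_pow x 1
  rw [pow_one] at h
  rw [← h]
  have h2 : ‖((ℓ : ℕ) : ℚ_[(ℓ : ℕ)])‖ = ((ℓ : ℕ) : ℝ) ^ (-((1 : ℕ) : ℤ)) := by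
    simp
  rw [h2]
  rfl

theorem norm_p_lt_one (ℓ : P) : ‖((ℓ : ℕ) : ℚ_[(ℓ : ℕ)])‖ < 1 := Padic.norm_p_lt_one

theorem norm_p_pos (ℓ : P) : 0 < ‖((ℓ : ℕ) : ℚ_[(ℓ : ℕ)])‖ := by
  rw [norm_pos_iff]
  exact_mod_cast ℓ.2.ne_zero

/-- Every nonzero vector modulo `ℓ` is a column of an element of `GL₃(ℤ_ℓ)`. -/
theorem exists_col (ℓ : P) (c : Fin 3) (v : Fin 3 → ZMod (ℓ : ℕ)) (hv : v ≠ 0) :
    ∃ u : UZ ℓ, ∀ i, (red ℓ u : Matrix (Fin 3) (Fin 3) (ZMod (ℓ : ℕ))) i c = v i := by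
  obtain ⟨i₀, hi₀⟩ := Function.ne_iff.1 hv
  have hsurj := ZMod.ringHom_surjective (PadicInt.toZMod (p := (ℓ : ℕ)))
  choose w hw using fun i => hsurj (v i)
  have hunit : IsUnit (w i₀) := by
    by_contra h
    have : w i₀ ∈ IsLocalRing.maximalIdeal ℤ_[(ℓ : ℕ)] := h
    rw [← PadicInt.ker_toZMod, RingHom.mem_ker, hw] at this
    exact hi₀ this
  let A : Matrix (Fin 3) (Fin 3) ℤ_[(ℓ : ℕ)] := (1 : Matrix (Fin 3) (Fin 3) _).updateCol i₀ w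
  have hA : A.det = w i₀ := by
    have := congrFun (LinearMap.congr_fun
      (Matrix.cramer_one (n := Fin 3) (α := ℤ_[(ℓ : ℕ)])) w) i₀
    rw [Matrix.cramer_apply] at this
    exact this
  let B : Matrix (Fin 3) (Fin 3) ℤ_[(ℓ : ℕ)] := A.submatrix id (Equiv.swap i₀ c)
  have hB : IsUnit B.det := by
    have h1 : B.det = ((Equiv.Perm.sign (Equiv.swap i₀ c) : ℤˣ) : ℤ_[(ℓ : ℕ)]) * A.det := by
      exact Matrix.det_permute' _ _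
    rw [h1, hA]
    refine IsUnit.mul ?_ hunit
    exact (Units.isUnit _).map (Int.castRingHom ℤ_[(ℓ : ℕ)])
  refine ⟨GeneralLinearGroup.mk'' B hB, fun i => ?_⟩
  rw [red_apply]
  have h2 : ((GeneralLinearGroup.mk'' B hB : UZ ℓ) : Matrix (Fin 3) (Fin 3) ℤ_[(ℓ : ℕ)]) i c
      = w i := by
    change A i (Equiv.swap i₀ c c) = w i
    rw [Equiv.swap_apply_right]
    simp [A]
  rw [h2, hw]

theorem conj_mem_GZ {ℓ : P} {α : GQ ℓ} {a : Fin 3 → ℚ_[(ℓ : ℕ)]} (hα :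
    (α : Matrix (Fin 3) (Fin 3) ℚ_[(ℓ : ℕ)]) = Matrix.diagonal a) (ha : ∀ i, a i ≠ 0)
    (m : GQ ℓ) : α⁻¹ * m * α ∈ GZ ℓ ↔
      (∀ i j, ‖(m : Matrix (Fin 3) (Fin 3) ℚ_[(ℓ : ℕ)]) i j‖ * ‖a j‖ ≤ ‖a i‖) ∧
      (∀ i j, ‖((m⁻¹ : GQ ℓ) : Matrix (Fin 3) (Fin 3) ℚ_[(ℓ : ℕ)]) i j‖ * ‖a j‖ ≤ ‖a i‖) := by
  have key : ∀ (m : GQ ℓ) (i j : Fin 3),
      ‖((α⁻¹ * m * α : GQ ℓ) : Matrix (Fin 3) (Fin 3) ℚ_[(ℓ : ℕ)]) i j‖ ≤ 1 ↔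
      ‖(m : Matrix (Fin 3) (Fin 3) ℚ_[(ℓ : ℕ)]) i j‖ * ‖a j‖ ≤ ‖a i‖ := by
    intro m i j
    have h1 : (α : Matrix (Fin 3) (Fin 3) ℚ_[(ℓ : ℕ)]) *
        ((α⁻¹ * m * α : GQ ℓ) : Matrix (Fin 3) (Fin 3) ℚ_[(ℓ : ℕ)])
        = (m : Matrix (Fin 3) (Fin 3) ℚ_[(ℓ : ℕ)]) * (α : Matrix (Fin 3) (Fin 3) _) := by
      rw [← Units.val_mul, ← Units.val_mul]
      congr 1
      group
    rw [hα] at h1
    have h2 := congrFun (congrFun h1 i) j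
    rw [Matrix.diagonal_mul, Matrix.mul_diagonal] at h2
    rw [← norm_mul, ← h2, norm_mul]
    have h3 : 0 < ‖a i‖ := norm_pos_iff.2 (ha i)
    constructor
    · intro h
      calc ‖a i‖ * _ ≤ ‖a i‖ * 1 := mul_le_mul_of_nonneg_left h h3.le
        _ = ‖a i‖ := mul_one _
    · intro h
      by_contra hlt
      push Not at hlt
      have := mul_lt_mul_of_pos_left hlt h3
      rw [mul_one] at this
      exact absurd h (not_le.2 this)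
  rw [mem_GZ_iff]
  have hinv : (α⁻¹ * m * α)⁻¹ = α⁻¹ * m⁻¹ * α := by group
  rw [hinv]
  constructor
  · rintro ⟨h1, h2⟩
    exact ⟨fun i j => (key m i j).1 (h1 i j), fun i j => (key m⁻¹ i j).1 (h2 i j)⟩
  · rintro ⟨h1, h2⟩
    exact ⟨fun i j => (key m i j).2 (h1 i j), fun i j => (key m⁻¹ i j).2 (h2 i j)⟩

theorem mk_eq_iff {ℓ : P} (α : GQ ℓ) (u u' : UZ ℓ) :
    ((inc ℓ u * α : GQ ℓ) : GQ ℓ ⧸ GZ ℓ) = ((inc ℓ u' * α : GQ ℓ) : GQ ℓ ⧸ GZ ℓ) ↔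
      α⁻¹ * inc ℓ (u⁻¹ * u') * α ∈ GZ ℓ := by
  rw [QuotientGroup.eq]
  have : (inc ℓ u * α)⁻¹ * (inc ℓ u' * α) = α⁻¹ * inc ℓ (u⁻¹ * u') * α := by
    rw [map_mul, map_inv]
    group
  rw [this]

theorem cosets_eq_range (ℓ : P) (j : Fin 4) :
    cosets ℓ j = Set.range (fun u : UZ ℓ => ((inc ℓ u * alpha ℓ j : GQ ℓ) : GQ ℓ ⧸ GZ ℓ)) := by
  ext c
  constructor
  · rintro ⟨k, ⟨u, rfl⟩, rfl⟩
    exact ⟨u, rfl⟩
  · rintro ⟨u, rfl⟩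
    exact ⟨_, ⟨u, rfl⟩, rfl⟩

section field

variable {F : Type} [Field F]

/-- the vector `e_c` -/
abbrev ev (c : Fin 3) : Fin 3 → F := Pi.single c 1

theorem col_iff (c : Fin 3) (g g' : GL (Fin 3) F) :
    (∃ a : F, a • ((g : Matrix (Fin 3) (Fin 3) F) *ᵥ ev c) = (g' : Matrix (Fin 3) (Fin 3) F) *ᵥ ev c)
      ↔ ∀ i, i ≠ c → ((g⁻¹ * g' : GL (Fin 3) F) : Matrix (Fin 3) (Fin 3) F) i c = 0 := by
  constructor
  · rintro ⟨a, ha⟩ i hi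
    have h1 : ((g⁻¹ * g' : GL (Fin 3) F) : Matrix (Fin 3) (Fin 3) F) *ᵥ ev c = a • ev c := by
      rw [Units.val_mul, ← Matrix.mulVec_mulVec, ← ha, Matrix.mulVec_smul, Matrix.mulVec_mulVec,
        ← Units.val_mul, inv_mul_cancel, Units.val_one, Matrix.one_mulVec]
    have h2 := congrFun h1 i
    rw [Matrix.mulVec_single_one] at h2
    simpa [hi] using h2
  · intro h
    refine ⟨((g⁻¹ * g' : GL (Fin 3) F) : Matrix (Fin 3) (Fin 3) F) c c, ?_⟩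
    have h1 : ((g⁻¹ * g' : GL (Fin 3) F) : Matrix (Fin 3) (Fin 3) F) *ᵥ ev c =
        ((g⁻¹ * g' : GL (Fin 3) F) : Matrix (Fin 3) (Fin 3) F) c c • ev c := by
      rw [Matrix.mulVec_single_one]
      funext i
      by_cases hi : i = c
      · subst hi; simp
      · rw [Matrix.col_apply, h i hi]; simp [hi]
    rw [← Matrix.mulVec_smul, ← h1, Matrix.mulVec_mulVec, ← Units.val_mul, mul_inv_cancel_left]

theorem row_iff (c : Fin 3) (g g' : GL (Fin 3) F) :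
    (∃ a : F, a • (ev c ᵥ* ((g'⁻¹ : GL (Fin 3) F) : Matrix (Fin 3) (Fin 3) F)) =
      ev c ᵥ* ((g⁻¹ : GL (Fin 3) F) : Matrix (Fin 3) (Fin 3) F))
      ↔ ∀ i, i ≠ c → ((g⁻¹ * g' : GL (Fin 3) F) : Matrix (Fin 3) (Fin 3) F) c i = 0 := by
  constructor
  · rintro ⟨a, ha⟩ i hi
    have h1 : ev c ᵥ* ((g⁻¹ * g' : GL (Fin 3) F) : Matrix (Fin 3) (Fin 3) F) = a • ev c := by
      rw [Units.val_mul, ← Matrix.vecMul_vecMul, ← ha, Matrix.smul_vecMul, Matrix.vecMul_vecMul,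
        ← Units.val_mul, inv_mul_cancel, Units.val_one, Matrix.vecMul_one]
    have h2 := congrFun h1 i
    rw [Matrix.single_one_vecMul] at h2
    simpa [hi] using h2
  · intro h
    refine ⟨((g⁻¹ * g' : GL (Fin 3) F) : Matrix (Fin 3) (Fin 3) F) c c, ?_⟩
    have h1 : ev c ᵥ* ((g⁻¹ * g' : GL (Fin 3) F) : Matrix (Fin 3) (Fin 3) F) =
        ((g⁻¹ * g' : GL (Fin 3) F) : Matrix (Fin 3) (Fin 3) F) c c • ev c := by
      rw [Matrix.single_one_vecMul]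
      funext i
      by_cases hi : i = c
      · subst hi; simp
      · rw [Matrix.row_apply, h i hi]; simp [hi]
    rw [← Matrix.smul_vecMul, ← h1, Matrix.vecMul_vecMul, ← Units.val_mul, mul_inv_cancel_right]

theorem mulVec_ne_zero (c : Fin 3) (g : GL (Fin 3) F) :
    (g : Matrix (Fin 3) (Fin 3) F) *ᵥ ev c ≠ 0 := by
  intro h
  have h1 : ((g⁻¹ : GL (Fin 3) F) : Matrix (Fin 3) (Fin 3) F) *ᵥ
      ((g : Matrix (Fin 3) (Fin 3) F) *ᵥ ev c) = 0 := by rw [h, Matrix.mulVec_zero]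
  rw [Matrix.mulVec_mulVec, ← Units.val_mul, inv_mul_cancel, Units.val_one,
    Matrix.one_mulVec] at h1
  have := congrFun h1 c
  simp at this

theorem vecMul_ne_zero (c : Fin 3) (g : GL (Fin 3) F) :
    ev c ᵥ* (g : Matrix (Fin 3) (Fin 3) F) ≠ 0 := by
  intro h
  have h1 : (ev c ᵥ* (g : Matrix (Fin 3) (Fin 3) F)) ᵥ*
      ((g⁻¹ : GL (Fin 3) F) : Matrix (Fin 3) (Fin 3) F) = 0 := by rw [h, Matrix.zero_vecMul]
  rw [Matrix.vecMul_vecMul, ← Units.val_mul, mul_inv_cancel, Units.val_one,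
    Matrix.vecMul_one] at h1
  have := congrFun h1 c
  simp at this

end field

theorem norm_inc_le (ℓ : P) (u : UZ ℓ) (i j : Fin 3) :
    ‖(inc ℓ u : Matrix (Fin 3) (Fin 3) ℚ_[(ℓ : ℕ)]) i j‖ ≤ 1 := by
  rw [inc_apply]
  exact PadicInt.norm_le_one _

theorem red_eq_zero_iff (ℓ : P) (u : UZ ℓ) (i j : Fin 3) :
    (red ℓ u : Matrix (Fin 3) (Fin 3) (ZMod (ℓ : ℕ))) i j = 0 ↔
      ‖(inc ℓ u : Matrix (Fin 3) (Fin 3) ℚ_[(ℓ : ℕ)]) i j‖ ≤ ‖((ℓ : ℕ) : ℚ_[(ℓ : ℕ)])‖ := by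
  rw [red_apply, inc_apply]
  exact toZMod_eq_zero_iff _

theorem alpha_zero (ℓ : P) : (alpha ℓ 0 : Matrix (Fin 3) (Fin 3) ℚ_[(ℓ : ℕ)]) =
    Matrix.diagonal ![((ℓ : ℕ) : ℚ_[(ℓ : ℕ)]), 1, 1] := rfl

theorem alpha_one (ℓ : P) : (alpha ℓ 1 : Matrix (Fin 3) (Fin 3) ℚ_[(ℓ : ℕ)]) =
    Matrix.diagonal ![((ℓ : ℕ) : ℚ_[(ℓ : ℕ)]), ((ℓ : ℕ) : ℚ_[(ℓ : ℕ)]), 1] := rfl

theorem alpha_two (ℓ : P) : (alpha ℓ 2 : Matrix (Fin 3) (Fin 3) ℚ_[(ℓ : ℕ)]) =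
    Matrix.diagonal ![((ℓ : ℕ) : ℚ_[(ℓ : ℕ)]), ((ℓ : ℕ) : ℚ_[(ℓ : ℕ)]),
      ((ℓ : ℕ) : ℚ_[(ℓ : ℕ)])] := rfl

theorem alpha_three (ℓ : P) : alpha ℓ 3 = (alpha ℓ 2)⁻¹ := rfl

theorem prime_ne_zero (ℓ : P) : ((ℓ : ℕ) : ℚ_[(ℓ : ℕ)]) ≠ 0 := by
  exact_mod_cast ℓ.2.ne_zero

theorem alpha_two_comm (ℓ : P) (g : GQ ℓ) : g * alpha ℓ 2 = alpha ℓ 2 * g := by
  apply Units.ext
  rw [Units.val_mul, Units.val_mul, alpha_two]
  ext i j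
  rw [Matrix.mul_diagonal, Matrix.diagonal_mul]
  fin_cases i <;> fin_cases j <;> simp [mul_comm]

/-- The condition for equality of cosets for `j = 1`. -/
theorem cond_one (ℓ : P) (m : UZ ℓ) : (alpha ℓ 1)⁻¹ * inc ℓ m * alpha ℓ 1 ∈ GZ ℓ ↔
    (∀ i, i ≠ 2 → (red ℓ m : Matrix (Fin 3) (Fin 3) (ZMod (ℓ : ℕ))) i 2 = 0) ∧
    (∀ i, i ≠ 2 → (red ℓ m⁻¹ : Matrix (Fin 3) (Fin 3) (ZMod (ℓ : ℕ))) i 2 = 0) := by
  have hne : ∀ i, (![((ℓ : ℕ) : ℚ_[(ℓ : ℕ)]), ((ℓ : ℕ) : ℚ_[(ℓ : ℕ)]), 1] :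
      Fin 3 → ℚ_[(ℓ : ℕ)]) i ≠ 0 := by
    intro i
    fin_cases i <;> simp [ℓ.2.ne_zero]
  rw [conj_mem_GZ (alpha_one ℓ) hne, ← map_inv]
  have key : ∀ m : UZ ℓ, ((∀ i j, ‖(inc ℓ m : Matrix (Fin 3) (Fin 3) ℚ_[(ℓ : ℕ)]) i j‖ *
      ‖(![((ℓ : ℕ) : ℚ_[(ℓ : ℕ)]), ((ℓ : ℕ) : ℚ_[(ℓ : ℕ)]), 1] : Fin 3 → ℚ_[(ℓ : ℕ)]) j‖ ≤
      ‖(![((ℓ : ℕ) : ℚ_[(ℓ : ℕ)]), ((ℓ : ℕ) : ℚ_[(ℓ : ℕ)]), 1] : Fin 3 → ℚ_[(ℓ : ℕ)]) i‖) ↔
      (∀ i, i ≠ 2 → (red ℓ m : Matrix (Fin 3) (Fin 3) (ZMod (ℓ : ℕ))) i 2 = 0)) := by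
    intro m
    have hp := (norm_p_lt_one ℓ).le
    have hp0 := (norm_p_pos ℓ).le
    constructor
    · intro h i hi
      rw [red_eq_zero_iff]
      have := h i 2
      fin_cases i
      · simpa using this
      · simpa using this
      · exact absurd rfl hi
    · intro h i j
      have h1 := norm_inc_le ℓ m i j
      have h0 := (red_eq_zero_iff ℓ m 0 2).1 (h 0 (by decide))
      have h1' := (red_eq_zero_iff ℓ m 1 2).1 (h 1 (by decide))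
      have hmul : ∀ x : ℝ, 0 ≤ x → x ≤ 1 → x * ‖((ℓ : ℕ) : ℚ_[(ℓ : ℕ)])‖ ≤
          ‖((ℓ : ℕ) : ℚ_[(ℓ : ℕ)])‖ := fun x hx hx1 => mul_le_of_le_one_left hp0 hx1
      have hmul' : ∀ x : ℝ, 0 ≤ x → x ≤ 1 → x * ‖((ℓ : ℕ) : ℚ_[(ℓ : ℕ)])‖ ≤ 1 :=
        fun x hx hx1 => (hmul x hx hx1).trans hp
      fin_cases i <;> fin_cases j
      · exact hmul _ (norm_nonneg _) h1
      · exact hmul _ (norm_nonneg _) h1
      · simpa using h0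
      · exact hmul _ (norm_nonneg _) h1
      · exact hmul _ (norm_nonneg _) h1
      · simpa using h1'
      · have := hmul' _ (norm_nonneg _) h1
        simpa using this
      · have := hmul' _ (norm_nonneg _) h1
        simpa using this
      · simpa using h1
  rw [key, key]

/-- The condition for equality of cosets for `j = 0`. -/
theorem cond_zero (ℓ : P) (m : UZ ℓ) : (alpha ℓ 0)⁻¹ * inc ℓ m * alpha ℓ 0 ∈ GZ ℓ ↔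
    (∀ i, i ≠ 0 → (red ℓ m : Matrix (Fin 3) (Fin 3) (ZMod (ℓ : ℕ))) 0 i = 0) ∧
    (∀ i, i ≠ 0 → (red ℓ m⁻¹ : Matrix (Fin 3) (Fin 3) (ZMod (ℓ : ℕ))) 0 i = 0) := by
  have hne : ∀ i, (![((ℓ : ℕ) : ℚ_[(ℓ : ℕ)]), 1, 1] :
      Fin 3 → ℚ_[(ℓ : ℕ)]) i ≠ 0 := by
    intro i
    fin_cases i <;> simp [ℓ.2.ne_zero]
  rw [conj_mem_GZ (alpha_zero ℓ) hne, ← map_inv]
  have key : ∀ m : UZ ℓ, ((∀ i j, ‖(inc ℓ m : Matrix (Fin 3) (Fin 3) ℚ_[(ℓ : ℕ)]) i j‖ *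
      ‖(![((ℓ : ℕ) : ℚ_[(ℓ : ℕ)]), 1, 1] : Fin 3 → ℚ_[(ℓ : ℕ)]) j‖ ≤
      ‖(![((ℓ : ℕ) : ℚ_[(ℓ : ℕ)]), 1, 1] : Fin 3 → ℚ_[(ℓ : ℕ)]) i‖) ↔
      (∀ i, i ≠ 0 → (red ℓ m : Matrix (Fin 3) (Fin 3) (ZMod (ℓ : ℕ))) 0 i = 0)) := by
    intro m
    have hp := (norm_p_lt_one ℓ).le
    have hp0 := (norm_p_pos ℓ).le
    constructor
    · intro h i hi
      rw [red_eq_zero_iff]
      have := h 0 i
      fin_cases i
      · exact absurd rfl hi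
      · simpa using this
      · simpa using this
    · intro h i j
      have h1 := norm_inc_le ℓ m i j
      have h0 := (red_eq_zero_iff ℓ m 0 1).1 (h 1 (by decide))
      have h1' := (red_eq_zero_iff ℓ m 0 2).1 (h 2 (by decide))
      have hmul : ∀ x : ℝ, 0 ≤ x → x ≤ 1 → x * ‖((ℓ : ℕ) : ℚ_[(ℓ : ℕ)])‖ ≤
          ‖((ℓ : ℕ) : ℚ_[(ℓ : ℕ)])‖ := fun x hx hx1 => mul_le_of_le_one_left hp0 hx1
      have hmul' : ∀ x : ℝ, 0 ≤ x → x ≤ 1 → x * ‖((ℓ : ℕ) : ℚ_[(ℓ : ℕ)])‖ ≤ 1 :=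
        fun x hx hx1 => (hmul x hx hx1).trans hp
      fin_cases i <;> fin_cases j
      · exact hmul _ (norm_nonneg _) h1
      · simpa using h0
      · simpa using h1'
      · have := hmul' _ (norm_nonneg _) h1
        simpa using this
      · simpa using h1
      · simpa using h1
      · have := hmul' _ (norm_nonneg _) h1
        simpa using this
      · simpa using h1
      · simpa using h1
  rw [key, key]

open scoped LinearAlgebra.Projectivization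

theorem card_proj (ℓ : P) : Nat.card (ℙ (ZMod (ℓ : ℕ)) (Fin 3 → ZMod (ℓ : ℕ)))
    = (ℓ : ℕ) ^ 2 + ℓ + 1 := by
  rw [Projectivization.card_of_finrank (ZMod (ℓ : ℕ)) (Fin 3 → ZMod (ℓ : ℕ)) (n := 3) (by simp)]
  simp [Finset.sum_range_succ]
  ring

theorem card_range_eq {A B C : Type} (Φ : A → B) (Ψ : A → C) (hΨ : Function.Surjective Ψ)
    (h : ∀ a a', Φ a = Φ a' ↔ Ψ a = Ψ a') : Nat.card (Set.range Φ) = Nat.card C := by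
  have h1 : Setoid.ker Φ = Setoid.ker Ψ := by
    ext a a'
    exact h a a'
  rw [← Nat.card_congr (Setoid.quotientKerEquivRange Φ), h1,
    Nat.card_congr (Setoid.quotientKerEquivOfSurjective Ψ hΨ)]

theorem ncard_one (ℓ : P) : (cosets ℓ 1).ncard = (ℓ : ℕ) ^ 2 + ℓ + 1 := by
  rw [cosets_eq_range, ← card_proj ℓ, ← Nat.card_coe_set_eq]
  apply card_range_eq _ (fun u : UZ ℓ => Projectivization.mk (ZMod (ℓ : ℕ))
    ((red ℓ u : Matrix (Fin 3) (Fin 3) (ZMod (ℓ : ℕ))) *ᵥ ev 2) (mulVec_ne_zero 2 (red ℓ u)))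
  · intro y
    induction y using Projectivization.ind with
    | h v hv =>
      obtain ⟨u, hu⟩ := exists_col ℓ 2 v hv
      refine ⟨u, ?_⟩
      simp only
      congr 1
      rw [Matrix.mulVec_single_one]
      funext i
      exact hu i
  · intro u u'
    rw [mk_eq_iff, Projectivization.mk_eq_mk_iff', cond_one]
    rw [map_inv (red ℓ), map_mul (red ℓ), map_inv (red ℓ)]
    have hinv : ((red ℓ u)⁻¹ * red ℓ u')⁻¹ = (red ℓ u')⁻¹ * red ℓ u := by group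
    rw [hinv, ← col_iff, ← col_iff]
    constructor
    · exact fun h => h.2
    · rintro ⟨a, ha⟩
      have ha0 : a ≠ 0 := by
        rintro rfl
        rw [zero_smul] at ha
        exact mulVec_ne_zero 2 (red ℓ u) ha.symm
      refine ⟨⟨a⁻¹, ?_⟩, ⟨a, ha⟩⟩
      rw [← ha, smul_smul, inv_mul_cancel₀ ha0, one_smul]

theorem ncard_zero (ℓ : P) : (cosets ℓ 0).ncard = (ℓ : ℕ) ^ 2 + ℓ + 1 := by
  rw [cosets_eq_range, ← card_proj ℓ, ← Nat.card_coe_set_eq]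
  apply card_range_eq _ (fun u : UZ ℓ => Projectivization.mk (ZMod (ℓ : ℕ))
    (ev 0 ᵥ* (((red ℓ u)⁻¹ : GL (Fin 3) (ZMod (ℓ : ℕ))) : Matrix (Fin 3) (Fin 3) (ZMod (ℓ : ℕ))))
      (vecMul_ne_zero 0 (red ℓ u)⁻¹))
  · intro y
    induction y using Projectivization.ind with
    | h v hv =>
      obtain ⟨w, hw⟩ := exists_col ℓ 0 v hv
      have hdet : IsUnit ((w : Matrix (Fin 3) (Fin 3) ℤ_[(ℓ : ℕ)])ᵀ).det := by
        rw [Matrix.det_transpose]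
        exact w.isUnit.map (Matrix.detMonoidHom (R := ℤ_[(ℓ : ℕ)]) (n := Fin 3))
      let w' : UZ ℓ := GeneralLinearGroup.mk'' _ hdet
      refine ⟨w'⁻¹, ?_⟩
      simp only
      congr 1
      rw [map_inv, inv_inv, Matrix.single_one_vecMul]
      funext i
      exact hw i
  · intro u u'
    rw [mk_eq_iff, Projectivization.mk_eq_mk_iff', cond_zero]
    rw [map_inv (red ℓ), map_mul (red ℓ), map_inv (red ℓ)]
    have hinv : ((red ℓ u)⁻¹ * red ℓ u')⁻¹ = (red ℓ u')⁻¹ * red ℓ u := by group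
    rw [hinv, ← row_iff, ← row_iff]
    constructor
    · exact fun h => h.1
    · rintro ⟨a, ha⟩
      have ha0 : a ≠ 0 := by
        rintro rfl
        rw [zero_smul] at ha
        exact vecMul_ne_zero 0 (red ℓ u)⁻¹ ha.symm
      refine ⟨⟨a, ha⟩, ⟨a⁻¹, ?_⟩⟩
      rw [← ha, smul_smul, inv_mul_cancel₀ ha0, one_smul]

theorem ncard_central (ℓ : P) (j : Fin 4) (h : ∀ g : GQ ℓ, g * alpha ℓ j = alpha ℓ j * g) :
    (cosets ℓ j).ncard = 1 := by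
  rw [Set.ncard_eq_one]
  refine ⟨((alpha ℓ j : GQ ℓ) : GQ ℓ ⧸ GZ ℓ), ?_⟩
  ext c
  rw [Set.mem_singleton_iff]
  constructor
  · rintro ⟨k, hk, rfl⟩
    rw [h, QuotientGroup.eq]
    rw [_root_.mul_inv_rev, inv_mul_cancel_right]
    exact (GZ ℓ).inv_mem hk
  · rintro rfl
    exact ⟨1, (GZ ℓ).one_mem, by rw [one_mul]⟩

end CountAux

open CountAux in
/-- **C5** -/
theorem cosets_ncard (ℓ : P) (j : Fin 4) :
    (cosets ℓ j).ncard = ![(ℓ : ℕ) ^ 2 + ℓ + 1, (ℓ : ℕ) ^ 2 + ℓ + 1, 1, 1] j := by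
  fin_cases j
  · exact ncard_zero ℓ
  · exact ncard_one ℓ
  · exact ncard_central ℓ 2 (alpha_two_comm ℓ)
  · refine ncard_central ℓ 3 ?_
    intro g
    rw [alpha_three]
    have := alpha_two_comm ℓ g
    rw [mul_inv_eq_iff_eq_mul, mul_assoc, this, inv_mul_cancel_left]

end Pool.Agent.CG3
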