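import Mathlib

/-!
# Cohomology of the locally symmetric spaces of GL₃ over ℚ : the adelic group and the
# coefficient modules
-/

noncomputable section

namespace Pool.Agent.CG3

open Matrix

/-- Prime numbers (the finite places of `ℚ`). -/
abbrev P := Nat.Primes

instance fact_prime (ℓ : P) : Fact (Nat.Prime (ℓ : ℕ)) := ⟨ℓ.2⟩

/-- The group `GL₃(ℚ)`. -/
abbrev G := GL (Fin 3) ℚ

/-- The group `GL₃(ℚ_ℓ)` (a topological group). -/
abbrev GQ (ℓ : P) := GL (Fin 3) ℚ_[(ℓ : ℕ)]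

/-- The subgroup `GL₃(ℤ_ℓ)` of `GL₃(ℚ_ℓ)`. -/
def GZ (ℓ : P) : Subgroup (GQ ℓ) :=
  (GeneralLinearGroup.map (n := Fin 3) (algebraMap ℤ_[(ℓ : ℕ)] ℚ_[(ℓ : ℕ)])).range

theorem mem_GZ_iff (ℓ : P) (g : GQ ℓ) :
    g ∈ GZ ℓ ↔ (∀ i j, ‖(g : Matrix (Fin 3) (Fin 3) ℚ_[(ℓ : ℕ)]) i j‖ ≤ 1) ∧
      (∀ i j, ‖((g⁻¹ : GQ ℓ) : Matrix (Fin 3) (Fin 3) ℚ_[(ℓ : ℕ)]) i j‖ ≤ 1) := by
  constructor
  · rintro ⟨u, rfl⟩
    constructor
    · intro i j
      exact ((u : Matrix (Fin 3) (Fin 3) ℤ_[(ℓ : ℕ)]) i j).2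
    · intro i j
      rw [← map_inv]
      exact (((u⁻¹ : GL (Fin 3) ℤ_[(ℓ : ℕ)]) : Matrix (Fin 3) (Fin 3) ℤ_[(ℓ : ℕ)]) i j).2
  · rintro ⟨h1, h2⟩
    let A : Matrix (Fin 3) (Fin 3) ℤ_[(ℓ : ℕ)] := fun i j => ⟨_, h1 i j⟩
    let B : Matrix (Fin 3) (Fin 3) ℤ_[(ℓ : ℕ)] := fun i j => ⟨_, h2 i j⟩
    have hA : A.map (algebraMap ℤ_[(ℓ : ℕ)] ℚ_[(ℓ : ℕ)]) = (g : Matrix (Fin 3) (Fin 3) _) := by
      ext i j; rfl
    have hB : B.map (algebraMap ℤ_[(ℓ : ℕ)] ℚ_[(ℓ : ℕ)])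
        = ((g⁻¹ : GQ ℓ) : Matrix (Fin 3) (Fin 3) _) := by
      ext i j; rfl
    have hinj : ∀ M N : Matrix (Fin 3) (Fin 3) ℤ_[(ℓ : ℕ)],
        M.map (algebraMap ℤ_[(ℓ : ℕ)] ℚ_[(ℓ : ℕ)]) = N.map (algebraMap ℤ_[(ℓ : ℕ)] ℚ_[(ℓ : ℕ)]) →
        M = N := by
      intro M N h
      ext i j
      have := congrFun (congrFun h i) j
      exact Subtype.ext this
    have hAB : A * B = 1 := by
      apply hinj
      rw [Matrix.map_mul, hA, hB, Matrix.map_one _ (map_zero _) (map_one _)]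
      exact congrArg Units.val (mul_inv_cancel g)
    have hBA : B * A = 1 := by
      apply hinj
      rw [Matrix.map_mul, hA, hB, Matrix.map_one _ (map_zero _) (map_one _)]
      exact congrArg Units.val (inv_mul_cancel g)
    refine ⟨⟨A, B, hAB, hBA⟩, ?_⟩
    apply Units.ext
    exact hA

/-- The group `GL₃(𝔸_f)` : the restricted product of the groups `GL₃(ℚ_ℓ)` with respect to the
subgroups `GL₃(ℤ_ℓ)`. -/
def GA : Subgroup (∀ ℓ : P, GQ ℓ) where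
  carrier := {g | {ℓ | g ℓ ∉ GZ ℓ}.Finite}
  mul_mem' := by
    intro a b ha hb
    refine (ha.union hb).subset ?_
    intro ℓ hℓ
    by_contra h
    simp only [Set.mem_union, Set.mem_ofPred_eq, not_or, not_not] at h
    exact hℓ ((GZ ℓ).mul_mem h.1 h.2)
  one_mem' := by
    refine Set.finite_empty.subset ?_
    intro ℓ hℓ
    exact (hℓ ((GZ ℓ).one_mem)).elim
  inv_mem' := by
    intro a ha
    refine ha.subset ?_
    intro ℓ hℓ h
    exact hℓ ((GZ ℓ).inv_mem h)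

/-- The image of a rational matrix in `GL₃(ℚ_ℓ)`. -/
def loc (ℓ : P) : G →* GQ ℓ := GeneralLinearGroup.map (algebraMap ℚ ℚ_[(ℓ : ℕ)])

theorem loc_apply (ℓ : P) (γ : G) (i j : Fin 3) :
    (loc ℓ γ : Matrix (Fin 3) (Fin 3) ℚ_[(ℓ : ℕ)]) i j
      = (((γ : Matrix (Fin 3) (Fin 3) ℚ) i j : ℚ) : ℚ_[(ℓ : ℕ)]) := rfl

theorem finite_norm_gt (q : ℚ) : {ℓ : P | ¬ ‖((q : ℚ) : ℚ_[(ℓ : ℕ)])‖ ≤ 1}.Finite := by
  have hd : (q.den : ℕ) ≠ 0 := q.den_nz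
  have : {ℓ : P | ¬ ‖((q : ℚ) : ℚ_[(ℓ : ℕ)])‖ ≤ 1} ⊆
      (fun ℓ : P => (ℓ : ℕ)) ⁻¹' {n | n ∣ q.den} := by
    intro ℓ hℓ
    by_contra h
    exact hℓ (Padic.norm_rat_le_one h)
  refine Set.Finite.subset (Set.Finite.preimage ?_ ?_) this
  · intro a _ b _ h
    exact Subtype.ext h
  · exact (Nat.divisors q.den).finite_toSet.subset (fun n hn => by
      simpa [hd] using hn)

/-- The diagonal embedding `GL₃(ℚ) → GL₃(𝔸_f)`. -/
def diag : G →* GA where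
  toFun γ := ⟨fun ℓ => loc ℓ γ, by
    have h1 : ({ℓ : P | ∃ i j, ¬ ‖(((γ : Matrix (Fin 3) (Fin 3) ℚ) i j : ℚ) : ℚ_[(ℓ : ℕ)])‖ ≤ 1} ∪
        {ℓ : P | ∃ i j, ¬ ‖((((γ⁻¹ : G) : Matrix (Fin 3) (Fin 3) ℚ) i j : ℚ) :
          ℚ_[(ℓ : ℕ)])‖ ≤ 1}).Finite := by
      refine Set.Finite.union ?_ ?_
      · have : {ℓ : P | ∃ i j, ¬ ‖(((γ : Matrix (Fin 3) (Fin 3) ℚ) i j : ℚ) : ℚ_[(ℓ : ℕ)])‖ ≤ 1}
          = ⋃ i, ⋃ j, {ℓ : P | ¬ ‖(((γ : Matrix (Fin 3) (Fin 3) ℚ) i j : ℚ) :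
              ℚ_[(ℓ : ℕ)])‖ ≤ 1} := by
          ext ℓ; simp
        rw [this]
        exact Set.finite_iUnion fun i => Set.finite_iUnion fun j => finite_norm_gt _
      · have : {ℓ : P | ∃ i j, ¬ ‖((((γ⁻¹ : G) : Matrix (Fin 3) (Fin 3) ℚ) i j : ℚ) :
            ℚ_[(ℓ : ℕ)])‖ ≤ 1}
          = ⋃ i, ⋃ j, {ℓ : P | ¬ ‖((((γ⁻¹ : G) : Matrix (Fin 3) (Fin 3) ℚ) i j : ℚ) :
              ℚ_[(ℓ : ℕ)])‖ ≤ 1} := by
          ext ℓ; simp
        rw [this]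
        exact Set.finite_iUnion fun i => Set.finite_iUnion fun j => finite_norm_gt _
    refine h1.subset ?_
    intro ℓ hℓ
    by_contra h
    simp only [Set.mem_union, Set.mem_ofPred_eq, not_or, not_exists, not_not] at h
    apply hℓ
    rw [mem_GZ_iff]
    refine ⟨fun i j => by rw [loc_apply]; exact h.1 i j, fun i j => ?_⟩
    rw [← map_inv, loc_apply]
    exact h.2 i j⟩
  map_one' := by
    apply Subtype.ext
    funext ℓ
    exact map_one _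
  map_mul' a b := by
    apply Subtype.ext
    funext ℓ
    exact map_mul _ _ _

@[simp] theorem diag_apply (γ : G) (ℓ : P) : (diag γ).1 ℓ = loc ℓ γ := rfl

/-- The embedding `GL₃(ℚ_ℓ) → GL₃(𝔸_f)`. -/
def single (ℓ : P) : GQ ℓ →* GA where
  toFun h := ⟨Pi.mulSingle ℓ h, by
    refine (Set.finite_singleton ℓ).subset ?_
    intro q hq
    by_contra hne
    apply hq
    rw [Pi.mulSingle_eq_of_ne (fun h => hne h)]
    exact (GZ q).one_mem⟩
  map_one' := by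
    apply Subtype.ext
    exact Pi.mulSingle_one ℓ
  map_mul' a b := by
    apply Subtype.ext
    exact Pi.mulSingle_mul ℓ a b

@[simp] theorem single_apply (ℓ : P) (h : GQ ℓ) : (single ℓ h).1 = Pi.mulSingle ℓ h := rfl

/-- The action of `GL₃(ℚ)` on the set `{1,-1}` of connected components of `GL₃(ℝ)/ℝ_{>0} SO(3)`:
the sign of the determinant. -/
def sgn : G →* ℤˣ where
  toFun γ := if 0 < (γ : Matrix (Fin 3) (Fin 3) ℚ).det then 1 else -1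
  map_one' := by simp
  map_mul' a b := by
    have ha : (a : Matrix (Fin 3) (Fin 3) ℚ).det ≠ 0 := by
      have := (a.isUnit.map (Matrix.detMonoidHom (R := ℚ) (n := Fin 3)))
      exact this.ne_zero
    have hb : (b : Matrix (Fin 3) (Fin 3) ℚ).det ≠ 0 := by
      have := (b.isUnit.map (Matrix.detMonoidHom (R := ℚ) (n := Fin 3)))
      exact this.ne_zero
    rw [Units.val_mul, Matrix.det_mul]
    rcases lt_or_gt_of_ne ha with ha | ha <;> rcases lt_or_gt_of_ne hb with hb | hb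
    · rw [if_pos (mul_pos_of_neg_of_neg ha hb), if_neg ha.not_gt, if_neg hb.not_gt]; rfl
    · rw [if_neg (mul_neg_of_neg_of_pos ha hb).not_gt, if_neg ha.not_gt, if_pos hb]; rfl
    · rw [if_neg (mul_neg_of_pos_of_neg ha hb).not_gt, if_pos ha, if_neg hb.not_gt]; rfl
    · rw [if_pos (mul_pos ha hb), if_pos ha, if_pos hb]; rfl

/-- A level: compact open subgroups `K_ℓ` of `GL₃(ℚ_ℓ)` for all primes `ℓ`, with
`K_ℓ = GL₃(ℤ_ℓ)` for `ℓ` outside a finite set `S` of primes which contains `p`. The group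
`K_f` is the product of the `K_ℓ`. -/
structure Level (p : P) (S : Finset P) where
  /-- the local groups -/
  K : ∀ ℓ : P, Subgroup (GQ ℓ)
  isOpen : ∀ ℓ, IsOpen (K ℓ : Set (GQ ℓ))
  isCompact : ∀ ℓ, IsCompact (K ℓ : Set (GQ ℓ))
  off : ∀ ℓ, ℓ ∉ S → K ℓ = GZ ℓ
  mem : p ∈ S

variable {p : P} {S : Finset P}

/-- The group `K_f`, a subgroup of `GL₃(𝔸_f)`. -/
def Level.Kf (L : Level p S) : Subgroup GA where
  carrier := {k | ∀ ℓ, k.1 ℓ ∈ L.K ℓ}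
  mul_mem' ha hb ℓ := (L.K ℓ).mul_mem (ha ℓ) (hb ℓ)
  one_mem' ℓ := (L.K ℓ).one_mem
  inv_mem' ha ℓ := (L.K ℓ).inv_mem (ha ℓ)

/-- The groups `GL₃(ℚ) ∩ g K_f g⁻¹` (the fundamental groups of the components of `Y(K_f)` together
with the elements of negative determinant) are torsion free, for all `g` in `GL₃(𝔸_f)`.
This holds when `K_f` is neat. -/
def Level.TorsionFree (L : Level p S) : Prop :=
  ∀ (g : GA) (γ : G) (n : ℕ), 0 < n → g⁻¹ * diag γ * g ∈ L.Kf → γ ^ n = 1 → γ = 1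

variable {O : Type} [CommRing O] {W : Type} [AddCommGroup W] [Module O W]

/-- The module of all functions `f` on `{1,-1} × GL₃(𝔸_f)` with values in `W` such that
`f (x, g k) = k_p⁻¹ f (x, g)` for all `k` in `K_f`; here `σ` is the action of `K_p` on `W`. -/
def Forms (L : Level p S) (σ : Representation O (L.K p) W) : Submodule O (ℤˣ × GA → W) where
  carrier := {f | ∀ (x : ℤˣ) (g : GA) (k : L.Kf), f (x, g * k) = σ ⟨k.1.1 p, k.2 p⟩⁻¹ (f (x, g))}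
  add_mem' := by
    intro a b ha hb x g k
    simp only [Pi.add_apply, map_add, ha x g k, hb x g k]
  zero_mem' := by
    intro x g k
    simp
  smul_mem' := by
    intro c a ha x g k
    simp only [Pi.smul_apply, map_smul, ha x g k]

/-- The action of `GL₃(ℚ)` on `Forms`: `(γ f)(x, g) = f (γ⁻¹ x, γ⁻¹ g)`. -/
def formsRep (L : Level p S) (σ : Representation O (L.K p) W) :
    Representation O G (Forms L σ) where
  toFun γ :=
    { toFun := fun f => ⟨fun y => f.1 ((sgn γ)⁻¹ * y.1, (diag γ)⁻¹ * y.2), by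
        intro x g k
        have := f.2 ((sgn γ)⁻¹ * x) ((diag γ)⁻¹ * g) k
        simpa only [mul_assoc] using this⟩
      map_add' := fun _ _ => rfl
      map_smul' := fun _ _ => rfl }
  map_one' := by
    apply LinearMap.ext
    intro f
    apply Subtype.ext
    funext y
    simp
  map_mul' a b := by
    apply LinearMap.ext
    intro f
    apply Subtype.ext
    funext y
    simp [mul_assoc]

@[simp] theorem formsRep_apply (L : Level p S) (σ : Representation O (L.K p) W) (γ : G)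
    (f : Forms L σ) (y : ℤˣ × GA) :
    (formsRep L σ γ f).1 y = f.1 ((sgn γ)⁻¹ * y.1, (diag γ)⁻¹ * y.2) := rfl

/-- The `GL₃(ℚ)`-module whose cohomology is the cohomology of `Y(K_f)` with coefficients in the
local system attached to `W`. -/
def coeff (L : Level p S) (σ : Representation O (L.K p) W) : Rep O G := Rep.of (formsRep L σ)

/-- The element `diag(ℓ,1,1)`, `diag(ℓ,ℓ,1)`, `diag(ℓ,ℓ,ℓ)`, `diag(ℓ,ℓ,ℓ)⁻¹` of `GL₃(ℚ_ℓ)`
for `j = 0, 1, 2, 3`. -/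
def alpha (ℓ : P) (j : Fin 4) : GQ ℓ :=
  let u : ℚ_[(ℓ : ℕ)]ˣ := Units.mk0 ((ℓ : ℕ) : ℚ_[(ℓ : ℕ)]) (by
    exact_mod_cast ℓ.2.ne_zero)
  (![ GeneralLinearGroup.mkOfDetNeZero (Matrix.diagonal ![(u : ℚ_[(ℓ : ℕ)]), 1, 1]) (by
        simp [Matrix.det_diagonal, Fin.prod_univ_three]),
      GeneralLinearGroup.mkOfDetNeZero (Matrix.diagonal ![(u : ℚ_[(ℓ : ℕ)]), u, 1]) (by
        simp [Matrix.det_diagonal, Fin.prod_univ_three]),
      GeneralLinearGroup.mkOfDetNeZero (Matrix.diagonal ![(u : ℚ_[(ℓ : ℕ)]), u, u]) (by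
        simp [Matrix.det_diagonal, Fin.prod_univ_three]),
      (GeneralLinearGroup.mkOfDetNeZero (Matrix.diagonal ![(u : ℚ_[(ℓ : ℕ)]), u, u]) (by
        simp [Matrix.det_diagonal, Fin.prod_univ_three]))⁻¹] : Fin 4 → GQ ℓ) j

/-- The set of the cosets `h GL₃(ℤ_ℓ)` contained in the double coset
`GL₃(ℤ_ℓ) α GL₃(ℤ_ℓ)`, `α = alpha ℓ j`. -/
def cosets (ℓ : P) (j : Fin 4) : Set (GQ ℓ ⧸ GZ ℓ) :=
  {c | ∃ k ∈ GZ ℓ, c = ((k * alpha ℓ j : GQ ℓ) : GQ ℓ ⧸ GZ ℓ)}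

end Pool.Agent.CG3
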