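import Pool.Agent.CG3.Defs2

/-!
# Integral points: `SL₃(ℤ)` inside `GL₃(ℚ)`
-/

noncomputable section

namespace Pool.Agent.CG3

open Matrix

namespace IntPoints

/-- a rational number which is integral at all primes is an integer -/
theorem exists_int (x : ℚ) (h : ∀ q : P, ‖(x : ℚ_[(q : ℕ)])‖ ≤ 1) : ∃ n : ℤ, (n : ℚ) = x := by
  by_cases hd : x.den = 1
  · exact ⟨x.num, (Rat.den_eq_one_iff x).1 hd⟩
  · exfalso
    obtain ⟨q, hq, hqd⟩ := Nat.exists_prime_and_dvd hd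
    have h1 := h ⟨q, hq⟩
    have : Fact (Nat.Prime q) := ⟨hq⟩
    change ‖(x : ℚ_[q])‖ ≤ 1 at h1
    have h2 : ‖((x.den : ℕ) : ℚ_[q])‖ < 1 := Padic.norm_natCast_lt_one_iff.2 hqd
    have h3 : ‖((x.num : ℤ) : ℚ_[q])‖ < 1 := by
      have h4 : (x : ℚ_[q]) * ((x.den : ℕ) : ℚ_[q]) = ((x.num : ℤ) : ℚ_[q]) := by
        have := Rat.mul_den_eq_num x
        exact_mod_cast congrArg (fun y : ℚ => (y : ℚ_[q])) this
      rw [← h4, norm_mul]
      calc ‖(x : ℚ_[q])‖ * ‖((x.den : ℕ) : ℚ_[q])‖ ≤ 1 * ‖((x.den : ℕ) : ℚ_[q])‖ :=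
            mul_le_mul_of_nonneg_right h1 (norm_nonneg _)
        _ < 1 := by rw [one_mul]; exact h2
    have h5 : (q : ℤ) ∣ x.num := Padic.norm_intCast_lt_one_iff.1 h3
    have h6 : q ∣ x.num.natAbs := Int.natCast_dvd.1 h5
    have h7 := Nat.dvd_gcd h6 hqd
    rw [x.reduced.gcd_eq_one] at h7
    exact hq.one_lt.ne' (Nat.dvd_one.1 h7)

theorem norm_intCast_le_iff {N : ℕ} (hN : 0 < N) (z : ℤ) :
    (N : ℤ) ∣ z ↔ ∀ q : P, ‖((z : ℤ) : ℚ_[(q : ℕ)])‖ ≤ ‖(N : ℚ_[(q : ℕ)])‖ := by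
  constructor
  · rintro ⟨w, rfl⟩ q
    rw [Int.cast_mul, norm_mul, Int.cast_natCast]
    calc ‖(N : ℚ_[(q : ℕ)])‖ * ‖((w : ℤ) : ℚ_[(q : ℕ)])‖ ≤ ‖(N : ℚ_[(q : ℕ)])‖ * 1 :=
          mul_le_mul_of_nonneg_left (Padic.norm_int_le_one w) (norm_nonneg _)
      _ = _ := mul_one _
  · intro h
    obtain ⟨n, hn⟩ := exists_int ((z : ℚ) / N) (by
      intro q
      have h0 : (N : ℚ_[(q : ℕ)]) ≠ 0 := by exact_mod_cast hN.ne'
      have h1 : (((z : ℚ) / N : ℚ) : ℚ_[(q : ℕ)]) =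
          ((z : ℤ) : ℚ_[(q : ℕ)]) / (N : ℚ_[(q : ℕ)]) := by push_cast; rfl
      rw [h1, norm_div, div_le_one (norm_pos_iff.2 h0)]
      exact h q)
    refine ⟨n, ?_⟩
    have h0 : (N : ℚ) ≠ 0 := by exact_mod_cast hN.ne'
    have h2 : (z : ℚ) = N * n := by
      rw [hn]; field_simp
    exact_mod_cast h2

theorem loc_toG_apply (q : P) (A : SLZ) (i j : Fin 3) :
    (loc q (toG A) : Matrix (Fin 3) (Fin 3) ℚ_[(q : ℕ)]) i j =
      (((A : Matrix (Fin 3) (Fin 3) ℤ) i j : ℤ) : ℚ_[(q : ℕ)]) := by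
  rw [loc_apply, toG_apply]
  push_cast
  rfl

end IntPoints

open IntPoints

/-- **C2a** -/
theorem diag_toG_mem (A : SLZ) : diag (toG A) ∈ KZ := by
  intro q
  rw [diag_apply, mem_GZ_iff]
  constructor
  · intro i j
    rw [loc_toG_apply]
    exact Padic.norm_int_le_one _
  · intro i j
    rw [← map_inv, ← map_inv, loc_toG_apply]
    exact Padic.norm_int_le_one _

/-- **C2b** -/
theorem exists_SL (γ : G) (h : diag γ ∈ KZ) (hs : sgn γ = 1) : ∃ A : SLZ, toG A = γ := by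
  have hent : ∀ δ : G, diag δ ∈ KZ → ∀ i j, ∃ n : ℤ, (n : ℚ) =
      (δ : Matrix (Fin 3) (Fin 3) ℚ) i j := by
    intro δ hδ i j
    refine exists_int _ fun q => ?_
    have := val_le_one_of_mem_GZ (hδ q) i j
    rwa [diag_apply, loc_apply] at this
  have hinv : diag γ⁻¹ ∈ KZ := by
    rw [map_inv]
    exact KZ.inv_mem h
  choose a ha using hent γ h
  choose b hb using hent γ⁻¹ hinv
  set A : Matrix (Fin 3) (Fin 3) ℤ := Matrix.of a with hA
  set B : Matrix (Fin 3) (Fin 3) ℤ := Matrix.of b with hB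
  have hAm : A.map (Int.castRingHom ℚ) = (γ : Matrix (Fin 3) (Fin 3) ℚ) := by
    ext i j; exact ha i j
  have hBm : B.map (Int.castRingHom ℚ) = ((γ⁻¹ : G) : Matrix (Fin 3) (Fin 3) ℚ) := by
    ext i j; exact hb i j
  have hdetA : ((A.det : ℤ) : ℚ) = (γ : Matrix (Fin 3) (Fin 3) ℚ).det := by
    rw [← hAm]
    exact (RingHom.map_det (Int.castRingHom ℚ) A)
  have hdetB : ((B.det : ℤ) : ℚ) = ((γ⁻¹ : G) : Matrix (Fin 3) (Fin 3) ℚ).det := by
    rw [← hBm]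
    exact (RingHom.map_det (Int.castRingHom ℚ) B)
  have hmul : A.det * B.det = 1 := by
    have h1 : ((A.det * B.det : ℤ) : ℚ) = 1 := by
      rw [Int.cast_mul, hdetA, hdetB, ← Matrix.det_mul, ← Units.val_mul, mul_inv_cancel,
        Units.val_one, Matrix.det_one]
    exact_mod_cast h1
  have hpos : 0 < (γ : Matrix (Fin 3) (Fin 3) ℚ).det := by
    by_contra hneg
    have h1 : sgn γ = -1 := by
      change (if 0 < (γ : Matrix (Fin 3) (Fin 3) ℚ).det then (1 : ℤˣ) else -1) = -1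
      rw [if_neg hneg]
    rw [hs] at h1
    exact absurd h1 (by decide)
  have hposA : 0 < A.det := by
    rw [← hdetA] at hpos
    exact_mod_cast hpos
  have hdet1 : A.det = 1 := by
    rcases Int.eq_one_or_neg_one_of_mul_eq_one hmul with h1 | h1
    · exact h1
    · rw [h1] at hposA; norm_num at hposA
  have hA' : ∀ A' : SLZ, (A' : Matrix (Fin 3) (Fin 3) ℤ) = A → toG A' = γ := by
    intro A' h1
    apply Units.ext
    ext i j
    rw [toG_apply, h1]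
    exact ha i j
  exact ⟨⟨A, hdet1⟩, hA' _ rfl⟩

/-- **C2c** -/
theorem mem_Gam_iff_KN {N : ℕ} (hN : 0 < N) (A : SLZ) : A ∈ Gam N ↔ diag (toG A) ∈ KN N := by
  have hent : ∀ (q : P) (i j : Fin 3),
      ((loc q (toG A) : Matrix (Fin 3) (Fin 3) ℚ_[(q : ℕ)]) - 1) i j =
      ((((A : Matrix (Fin 3) (Fin 3) ℤ) - 1) i j : ℤ) : ℚ_[(q : ℕ)]) := by
    intro q i j
    rw [Matrix.sub_apply, Matrix.sub_apply, loc_toG_apply, Int.cast_sub]
    congr 1
    simp only [Matrix.one_apply]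
    split_ifs <;> simp
  rw [mem_Gam_iff, mem_KN]
  constructor
  · intro h q
    refine ⟨diag_toG_mem A q, fun i j => ?_⟩
    rw [diag_apply, hent]
    exact (norm_intCast_le_iff hN _).1 (h i j) q
  · intro h i j
    refine (norm_intCast_le_iff hN _).2 fun q => ?_
    have := (h q).2 i j
    rwa [diag_apply, hent] at this

end Pool.Agent.CG3
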