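import Pool.Agent.CG3.Defs2

/-!
# Every level contains a principal congruence subgroup
-/

noncomputable section

namespace Pool.Agent.CG3

open Matrix Topology Filter

variable {p : P} {S : Finset P}

namespace LevelN

/-- principal congruence subgroups are small -/
theorem exists_pow {q : P} (U : Set (GQ q)) (hU : IsOpen U) (h1 : 1 ∈ U) :
    ∃ n : ℕ, 1 ≤ n ∧ (GZN q ((q : ℕ) ^ n) : Set (GQ q)) ⊆ U := by
  by_contra hcon
  push Not at hcon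
  have hch : ∀ n : ℕ, ∃ k : GQ q, k ∈ GZN q ((q : ℕ) ^ (n + 1)) ∧ k ∉ U := by
    intro n
    obtain ⟨k, hk, hkU⟩ := Set.not_subset.1 (hcon (n + 1) (by omega))
    exact ⟨k, hk, hkU⟩
  choose k hk hkU using hch
  have hq1 : (1 : ℝ) < ((q : ℕ) : ℝ) := by exact_mod_cast q.2.one_lt
  have hlim : Tendsto (fun n : ℕ => ‖((((q : ℕ) ^ (n + 1) : ℕ) : ℚ_[(q : ℕ)]))‖) atTop (𝓝 0) := by
    have h2 : ∀ n : ℕ, ‖((((q : ℕ) ^ (n + 1) : ℕ) : ℚ_[(q : ℕ)]))‖ =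
        (((q : ℕ) : ℝ)⁻¹) ^ (n + 1) := by
      intro n
      push_cast
      rw [norm_pow, Padic.norm_p]
    simp_rw [h2]
    exact (tendsto_pow_atTop_nhds_zero_of_lt_one (by positivity)
      (inv_lt_one_of_one_lt₀ hq1)).comp (tendsto_add_atTop_nat 1)
  have hent : ∀ (a : ℕ → GQ q), (∀ n, a n ∈ GZN q ((q : ℕ) ^ (n + 1))) →
      Tendsto (fun n => (a n : Matrix (Fin 3) (Fin 3) ℚ_[(q : ℕ)])) atTop (𝓝 1) := by
    intro a ha
    refine tendsto_pi_nhds.2 fun i => tendsto_pi_nhds.2 fun j => ?_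
    rw [tendsto_iff_norm_sub_tendsto_zero]
    refine squeeze_zero (fun n => norm_nonneg _) (fun n => ?_) hlim
    exact (ha n).2 i j
  have hk1 := hent k hk
  have hk2 := hent (fun n => (k n)⁻¹) fun n => (GZN q _).inv_mem (hk n)
  have hk3 : Tendsto k atTop (𝓝 1) := by
    rw [Units.isEmbedding_embedProduct.isInducing.nhds_eq_comap, tendsto_comap_iff]
    have h3 : (𝓝 (Units.embedProduct _ (1 : GQ q))) =
        𝓝 (1 : Matrix (Fin 3) (Fin 3) ℚ_[(q : ℕ)]) ×ˢ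
          𝓝 (1 : (Matrix (Fin 3) (Fin 3) ℚ_[(q : ℕ)])ᵐᵒᵖ) := by
      rw [← nhds_prod_eq]
      rfl
    rw [h3]
    refine Tendsto.prodMk hk1 ?_
    exact (MulOpposite.continuous_op.tendsto _).comp hk2
  have := hk3.eventually (hU.mem_nhds h1)
  obtain ⟨n, hn⟩ := this.exists
  exact hkU n hn

end LevelN

open LevelN

/-- **C0** -/
theorem exists_level (L : Level p S) (hK : ∀ ℓ, L.K ℓ ≤ GZ ℓ) (U : Set (GQ p))
    (hU : IsOpen U) (h1 : 1 ∈ U) :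
    ∃ N : ℕ, 0 < N ∧ (p : ℕ) ∣ N ∧ (∀ q : P, (q : ℕ) ∣ N → q ∈ S) ∧ KN N ≤ L.Kf ∧
      (GZN p N : Set (GQ p)) ⊆ U := by
  classical
  have hV : ∀ q : P, ∃ n : ℕ, 1 ≤ n ∧ GZN q ((q : ℕ) ^ n) ≤ L.K q ∧
      (∀ h : q = p, (GZN p ((p : ℕ) ^ n) : Set (GQ p)) ⊆ U) := by
    intro q
    by_cases hq : q = p
    · subst hq
      obtain ⟨n, hn, hsub⟩ := exists_pow ((L.K q : Set (GQ q)) ∩ U)
        ((L.isOpen q).inter hU) ⟨(L.K q).one_mem, h1⟩
      exact ⟨n, hn, fun x hx => (hsub hx).1, fun _ x hx => (hsub hx).2⟩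
    · obtain ⟨n, hn, hsub⟩ := exists_pow (L.K q : Set (GQ q)) (L.isOpen q) (L.K q).one_mem
      exact ⟨n, hn, hsub, fun h => absurd h hq⟩
  choose n hn1 hnK hnU using hV
  have hdvd : ∀ q ∈ S, (q : ℕ) ^ n q ∣ ∏ r ∈ S, (r : ℕ) ^ n r := fun q hq =>
    Finset.dvd_prod_of_mem (fun r : P => (r : ℕ) ^ n r) hq
  refine ⟨∏ r ∈ S, (r : ℕ) ^ n r, ?_, ?_, ?_, ?_, ?_⟩
  · exact Finset.prod_pos fun r _ => pow_pos r.2.pos _
  · exact (dvd_pow_self _ (by have := hn1 p; omega)).trans (hdvd p L.mem)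
  · intro q hq
    obtain ⟨r, hr, hqr⟩ := (q.2.prime.dvd_finsetProd_iff _).1 hq
    have h2 : (q : ℕ) ∣ r := q.2.dvd_of_dvd_pow hqr
    have h3 : (q : ℕ) = r := (Nat.prime_dvd_prime_iff_eq q.2 r.2).1 h2
    have h4 : q = r := Subtype.ext h3
    rw [h4]
    exact hr
  · intro k hk q
    by_cases hq : q ∈ S
    · exact hnK q (GZN_anti (hdvd q hq) (hk q))
    · rw [L.off q hq]
      exact (hk q).1
  · intro k hk
    exact hnU p rfl (GZN_anti (hdvd p L.mem) hk)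

end Pool.Agent.CG3
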