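import Pool.Agent.CG3.Defs2
import Pool.Agent.CG3.LevelN
import Pool.Agent.CG3.ClassOne
import Pool.Agent.CG3.IntPoints

/-!
# Finite generation of `SL₃(ℤ)` and of the stabilisers, finiteness of the set of the orbits
-/

noncomputable section

namespace Pool.Agent.CG3

open Matrix

namespace FgAux

/-- The group `SL₂(ℤ)`. -/
abbrev S2 := SpecialLinearGroup (Fin 2) ℤ

/-- Block matrices. -/
def F01 (g : Matrix (Fin 2) (Fin 2) ℤ) : Matrix (Fin 3) (Fin 3) ℤ :=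
  !![g 0 0, g 0 1, 0; g 1 0, g 1 1, 0; 0, 0, 1]

/-- Block matrices. -/
def F12 (g : Matrix (Fin 2) (Fin 2) ℤ) : Matrix (Fin 3) (Fin 3) ℤ :=
  !![1, 0, 0; 0, g 0 0, g 0 1; 0, g 1 0, g 1 1]

theorem F01_mul (a b : Matrix (Fin 2) (Fin 2) ℤ) : F01 (a * b) = F01 a * F01 b := by
  ext i j
  fin_cases i <;> fin_cases j <;>
    simp [F01, Matrix.mul_apply, Fin.sum_univ_three, Fin.sum_univ_two]

theorem F12_mul (a b : Matrix (Fin 2) (Fin 2) ℤ) : F12 (a * b) = F12 a * F12 b := by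
  ext i j
  fin_cases i <;> fin_cases j <;>
    simp [F12, Matrix.mul_apply, Fin.sum_univ_three, Fin.sum_univ_two]

theorem F01_one : F01 1 = 1 := by
  ext i j
  fin_cases i <;> fin_cases j <;> simp [F01]

theorem F12_one : F12 1 = 1 := by
  ext i j
  fin_cases i <;> fin_cases j <;> simp [F12]

theorem F01_det (g : Matrix (Fin 2) (Fin 2) ℤ) : (F01 g).det = g.det := by
  rw [Matrix.det_fin_two, Matrix.det_fin_three]
  simp [F01]

theorem F12_det (g : Matrix (Fin 2) (Fin 2) ℤ) : (F12 g).det = g.det := by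
  rw [Matrix.det_fin_two, Matrix.det_fin_three]
  simp [F12]

/-- The embedding of `SL₂(ℤ)` in the upper left corner. -/
def f01 : S2 →* SLZ where
  toFun g := ⟨F01 g, by rw [F01_det]; exact g.2⟩
  map_one' := Subtype.ext F01_one
  map_mul' a b := Subtype.ext (F01_mul a.1 b.1)

/-- The embedding of `SL₂(ℤ)` in the lower right corner. -/
def f12 : S2 →* SLZ where
  toFun g := ⟨F12 g, by rw [F12_det]; exact g.2⟩
  map_one' := Subtype.ext F12_one
  map_mul' a b := Subtype.ext (F12_mul a.1 b.1)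

theorem f01_coe (g : S2) : (f01 g : Matrix (Fin 3) (Fin 3) ℤ) = F01 g := rfl

theorem f12_coe (g : S2) : (f12 g : Matrix (Fin 3) (Fin 3) ℤ) = F12 g := rfl

theorem exists_kill (a b : ℤ) : ∃ g : S2,
    (g : Matrix (Fin 2) (Fin 2) ℤ) 1 0 * a + (g : Matrix (Fin 2) (Fin 2) ℤ) 1 1 * b = 0 := by
  by_cases h : Int.gcd a b = 0
  · rw [Int.gcd_eq_zero_iff] at h
    exact ⟨1, by rw [h.1, h.2]; simp⟩
  · obtain ⟨a', b', hd, ha, hb⟩ := Int.exists_gcd_one (Nat.pos_of_ne_zero h)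
    obtain ⟨u, v, huv⟩ := Int.isCoprime_iff_gcd_eq_one.2 hd
    refine ⟨⟨!![u, v; -b', a'], by rw [Matrix.det_fin_two]; simp; linarith⟩, ?_⟩
    generalize (Int.gcd a b : ℤ) = d at ha hb
    subst ha
    subst hb
    simp
    ring

/-- The group generated by the two copies of `SL₂(ℤ)`. -/
def H : Subgroup SLZ := f01.range ⊔ f12.range

theorem f01_mem (g : S2) : f01 g ∈ H :=
  (le_sup_left : f01.range ≤ H) ⟨g, rfl⟩

theorem f12_mem (g : S2) : f12 g ∈ H :=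
  (le_sup_right : f12.range ≤ H) ⟨g, rfl⟩

theorem fg_range_of {G' : Type} [Group G'] (f : S2 →* G') : f.range.FG := by
  rw [MonoidHom.range_eq_map, ← SpecialLinearGroup.SL2Z_generators, MonoidHom.map_closure]
  rw [Subgroup.fg_iff]
  exact ⟨_, rfl, (Set.toFinite _).image _⟩

theorem H_fg : H.FG := (fg_range_of f01).sup (fg_range_of f12)

/-- Upper unitriangular matrices with two nontrivial entries in the first row. -/
def U (x y : ℤ) : Matrix (Fin 3) (Fin 3) ℤ := !![1, x, y; 0, 1, 0; 0, 0, 1]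

theorem U_det (x y : ℤ) : (U x y).det = 1 := by
  rw [Matrix.det_fin_three]
  simp [U]

/-- The element of `SL₃(ℤ)` with matrix `U x y`. -/
def Ue (x y : ℤ) : SLZ := ⟨U x y, U_det x y⟩

theorem U0_mem (x : ℤ) : Ue x 0 ∈ H := by
  have : Ue x 0 = f01 ⟨!![1, x; 0, 1], by rw [Matrix.det_fin_two]; simp⟩ := by
    apply Subtype.ext
    change U x 0 = F01 _
    ext i j
    fin_cases i <;> fin_cases j <;> simp [U, F01]
  rw [this]
  exact f01_mem _

theorem U_mem (x y : ℤ) : Ue x y ∈ H := by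
  obtain ⟨g, hg⟩ := exists_kill x y
  -- the transpose of `g`
  let t : S2 := ⟨(g : Matrix (Fin 2) (Fin 2) ℤ)ᵀ, by rw [Matrix.det_transpose]; exact g.2⟩
  have key : Ue x y * f12 t = f12 t * Ue (x * t.1 0 0 + y * t.1 1 0) 0 := by
    apply Subtype.ext
    change U x y * F12 (g : Matrix (Fin 2) (Fin 2) ℤ)ᵀ = F12 (g : Matrix (Fin 2) (Fin 2) ℤ)ᵀ *
      U (x * (g : Matrix (Fin 2) (Fin 2) ℤ)ᵀ 0 0 + y * (g : Matrix (Fin 2) (Fin 2) ℤ)ᵀ 1 0) 0
    ext i j
    fin_cases i <;> fin_cases j <;>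
      simp [U, F12, Matrix.mul_apply, Fin.sum_univ_three, Matrix.transpose_apply]
    linarith
  have h1 : Ue x y = f12 t * Ue (x * t.1 0 0 + y * t.1 1 0) 0 * (f12 t)⁻¹ := by
    rw [← key, mul_inv_cancel_right]
  rw [h1]
  exact H.mul_mem (H.mul_mem (f12_mem _) (U0_mem _)) (H.inv_mem (f12_mem _))

/-- A matrix with first column `e₁` is in `H`. -/
theorem mem_H_of_col (A : SLZ) (h0 : A.1 0 0 = 1)
    (h1 : A.1 1 0 = 0) (h2 : A.1 2 0 = 0) :
    A ∈ H := by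
  have hdet := A.2
  rw [Matrix.det_fin_three, h0, h1, h2] at hdet
  -- the lower right block
  let B : S2 := ⟨!![A.1 1 1, A.1 1 2; A.1 2 1, A.1 2 2], by
      rw [Matrix.det_fin_two]; simp; linarith⟩
  have key : A = f12 B * Ue (A.1 0 1) (A.1 0 2) := by
    apply Subtype.ext
    change A.1 = F12 !![A.1 1 1, A.1 1 2; A.1 2 1, A.1 2 2] * U (A.1 0 1) (A.1 0 2)
    ext i j
    fin_cases i <;> fin_cases j <;>
      simp [U, F12, Matrix.mul_apply, Fin.sum_univ_three, h0, h1, h2]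
  rw [key]
  exact H.mul_mem (f12_mem _) (U_mem _ _)

theorem mem_H (A : SLZ) : A ∈ H := by
  obtain ⟨g, hg⟩ := exists_kill (A.1 1 0) (A.1 2 0)
  have h2 : (f12 g * A).1 2 0 = 0 := by
    change (F12 g.1 * A.1) 2 0 = 0
    simp [F12, Matrix.mul_apply, Fin.sum_univ_three]
    exact hg
  set A1 := f12 g * A with hA1
  obtain ⟨g', hg'⟩ := exists_kill (A1.1 0 0) (A1.1 1 0)
  have h3 : (f01 g' * A1).1 1 0 = 0 := by
    change (F01 g'.1 * A1.1) 1 0 = 0
    simp [F01, Matrix.mul_apply, Fin.sum_univ_three]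
    exact hg'
  have h4 : (f01 g' * A1).1 2 0 = 0 := by
    change (F01 g'.1 * A1.1) 2 0 = 0
    simp [F01, Matrix.mul_apply, Fin.sum_univ_three]
    exact h2
  set A2 := f01 g' * A1 with hA2
  have hA : A2 ∈ H → A ∈ H := by
    intro h
    have : A = (f12 g)⁻¹ * ((f01 g')⁻¹ * A2) := by
      rw [hA2, inv_mul_cancel_left, hA1, inv_mul_cancel_left]
    rw [this]
    exact H.mul_mem (H.inv_mem (f12_mem _)) (H.mul_mem (H.inv_mem (f01_mem _)) h)
  apply hA
  have hdet := A2.2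
  rw [Matrix.det_fin_three, h3, h4] at hdet
  have hunit : IsUnit (A2.1 0 0) := by
    refine IsUnit.of_mul_eq_one (A2.1 1 1 * A2.1 2 2 - A2.1 1 2 * A2.1 2 1) ?_
    linarith
  rcases Int.isUnit_iff.1 hunit with h5 | h5
  · exact mem_H_of_col A2 h5 h3 h4
  · let m : S2 := ⟨!![-1, 0; 0, -1], by rw [Matrix.det_fin_two]; simp⟩
    have hm : f01 m * A2 ∈ H := by
      apply mem_H_of_col
      · change (F01 !![-1, 0; 0, -1] * A2.1) 0 0 = 1
        simp [F01, Matrix.mul_apply, Fin.sum_univ_three, h5]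
      · change (F01 !![-1, 0; 0, -1] * A2.1) 1 0 = 0
        simp [F01, Matrix.mul_apply, Fin.sum_univ_three, h3]
      · change (F01 !![-1, 0; 0, -1] * A2.1) 2 0 = 0
        simp [F01, Matrix.mul_apply, Fin.sum_univ_three, h4]
    have : A2 = (f01 m)⁻¹ * (f01 m * A2) := by rw [inv_mul_cancel_left]
    rw [this]
    exact H.mul_mem (H.inv_mem (f01_mem _)) hm

end FgAux

/-- **C10a** -/
theorem slz_fg : Group.FG SLZ := by
  rw [Group.fg_def]
  have : (⊤ : Subgroup SLZ) = FgAux.H := by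
    symm
    rw [eq_top_iff]
    intro A _
    exact FgAux.mem_H A
  rw [this]
  exact FgAux.H_fg

variable {p : P} {S : Finset P}

namespace FgAux

theorem Gam_finiteIndex {N : ℕ} (hN : 0 < N) : (Gam N).FiniteIndex := by
  have h0 : NeZero N := ⟨hN.ne'⟩
  have h1 : Finite (SpecialLinearGroup (Fin 3) (ZMod N)) :=
    inferInstanceAs (Finite {A : Matrix (Fin 3) (Fin 3) (ZMod N) // A.det = 1})
  exact Subgroup.finiteIndex_ker _

theorem Kf_le_KZ (L : Level p S) (hK : ∀ ℓ, L.K ℓ ≤ GZ ℓ) : L.Kf ≤ KZ :=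
  fun _ h q => hK q (h q)

theorem isOpen_GZN (q : P) {N : ℕ} (hN : 0 < N) : IsOpen (GZN q N : Set (GQ q)) := by
  have h : (GZN q N : Set (GQ q)) = (GZ q : Set (GQ q)) ∩
      ⋂ i, ⋂ j, {g : GQ q | ‖((g : Matrix (Fin 3) (Fin 3) ℚ_[(q : ℕ)]) - 1) i j‖ ≤
        ‖(N : ℚ_[(q : ℕ)])‖} := by
    ext g
    simp only [Set.mem_inter_iff, Set.mem_iInter, Set.mem_ofPred_eq, SetLike.mem_coe]
    rfl
  rw [h]
  have hN0 : ‖(N : ℚ_[(q : ℕ)])‖ ≠ 0 := by
    rw [norm_ne_zero_iff]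
    exact_mod_cast hN.ne'
  refine (isOpen_GZ q).inter (isOpen_iInter_of_finite fun i => isOpen_iInter_of_finite fun j => ?_)
  have hb : IsOpen {x : ℚ_[(q : ℕ)] | ‖x‖ ≤ ‖(N : ℚ_[(q : ℕ)])‖} := by
    have := IsUltrametricDist.isOpen_closedBall (0 : ℚ_[(q : ℕ)]) (r := ‖(N : ℚ_[(q : ℕ)])‖) hN0
    simpa [Metric.closedBall, dist_eq_norm] using this
  have hc : Continuous (fun g : GQ q => ((g : Matrix (Fin 3) (Fin 3) ℚ_[(q : ℕ)]) - 1) i j) := by
    have h1 : Continuous (fun g : GQ q => (g : Matrix (Fin 3) (Fin 3) ℚ_[(q : ℕ)])) :=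
      Units.continuous_val
    exact (h1.sub continuous_const).matrix_elem i j
  exact hb.preimage hc

/-- The set of the cosets of `GZN q N` in `GZ q` is finite. -/
theorem finite_cosets (q : P) {N : ℕ} (hN : 0 < N) :
    ((fun k : GQ q => (k : GQ q ⧸ GZN q N)) '' (GZ q : Set (GQ q))).Finite := by
  have : DiscreteTopology (GQ q ⧸ GZN q N) :=
    QuotientGroup.discreteTopology (isOpen_GZN q hN)
  apply IsCompact.finite_of_discrete
  apply (isCompact_GZ q).image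
  exact QuotientGroup.continuous_mk

/-- Finitely many representatives of `KZ` modulo `KN N`. -/
theorem exists_reps {N : ℕ} (hN : 0 < N) :
    ∃ R : Finset GA, (∀ r ∈ R, r ∈ KZ) ∧ ∀ u ∈ KZ, ∃ r ∈ R, r⁻¹ * u ∈ KN N := by
  classical
  let I := {q : P // (q : ℕ) ∣ N}
  have hI : Finite I := by
    have : Function.Injective (fun q : I => (⟨(q.1 : ℕ), q.2⟩ : {n : ℕ // n ∣ N})) := by
      intro a b h
      apply Subtype.ext
      apply Subtype.ext
      exact congrArg (fun x : {n : ℕ // n ∣ N} => x.1) h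
    have h2 : Finite {n : ℕ // n ∣ N} := by
      have : {n : ℕ | n ∣ N}.Finite :=
        (Nat.divisors N).finite_toSet.subset (fun n hn => by
          simpa [hN.ne'] using hn)
      exact this
    exact Finite.of_injective _ this
  let c : GA → (∀ q : I, GQ q.1 ⧸ GZN q.1 N) := fun u q => (u.1 q.1 : GQ q.1 ⧸ GZN q.1 N)
  have hfin : (c '' (KZ : Set GA)).Finite := by
    refine Set.Finite.subset (Set.Finite.pi (fun q : I => finite_cosets q.1 hN)) ?_
    rintro _ ⟨u, hu, rfl⟩ q _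
    exact ⟨u.1 q.1, hu q.1, rfl⟩
  have hch : ∀ x : c '' (KZ : Set GA), ∃ u ∈ KZ, c u = x.1 := fun x => x.2
  choose f hf hf' using hch
  have hfin' : Finite (c '' (KZ : Set GA)) := hfin
  refine ⟨(Set.finite_range f).toFinset, ?_, ?_⟩
  · intro r hr
    rw [Set.Finite.mem_toFinset] at hr
    obtain ⟨x, rfl⟩ := hr
    exact hf x
  · intro u hu
    let x : c '' (KZ : Set GA) := ⟨c u, ⟨u, hu, rfl⟩⟩
    refine ⟨f x, by rw [Set.Finite.mem_toFinset]; exact ⟨x, rfl⟩, ?_⟩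
    intro q
    by_cases hq : (q : ℕ) ∣ N
    · have h1 := congrFun (hf' x) ⟨q, hq⟩
      exact QuotientGroup.eq.1 h1
    · rw [GZN_eq_GZ hq]
      exact (GZ q).mul_mem ((GZ q).inv_mem (hf x q)) (hu q)

end FgAux

/-- **C10b** (uses C2, C10a; `Γ_u` is the image of a subgroup of finite index of `SL₃(ℤ)`) -/
theorem stab_fg (L : Level p S) (hK : ∀ ℓ, L.K ℓ ≤ GZ ℓ) (u : GA) (hu : u ∈ KZ) :
    ∃ F : Finset G, ∀ γ : G, (sgn γ = 1 ∧ u⁻¹ * diag γ * u ∈ L.Kf) ↔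
      γ ∈ Subgroup.closure (F : Set G) := by
  classical
  obtain ⟨N, hN, -, -, hKN, -⟩ := exists_level L hK Set.univ isOpen_univ (Set.mem_univ _)
  let φ : SLZ →* GA :=
    ((MulAut.conj u⁻¹).toMonoidHom.comp (diag.comp toG))
  have hφ : ∀ A, φ A = u⁻¹ * diag (toG A) * u := by
    intro A
    simp [φ, MulAut.conj_apply]
  let D : Subgroup SLZ := L.Kf.comap φ
  have hD : ∀ A, A ∈ D ↔ u⁻¹ * diag (toG A) * u ∈ L.Kf := by
    intro A
    rw [← hφ]
    rfl
  have hle : Gam N ≤ D := by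
    intro A hA
    rw [hD]
    exact hKN (KN_conj ((mem_Gam_iff_KN hN A).1 hA) hu)
  have hfi : (Gam N).FiniteIndex := FgAux.Gam_finiteIndex hN
  have hDfi : D.FiniteIndex := Subgroup.finiteIndex_of_le hle
  have hfg := slz_fg
  have hDfg : Group.FG D := Subgroup.fg_of_index_ne_zero D
  obtain ⟨T, hT⟩ := (Group.fg_iff_subgroup_fg D).1 hDfg
  refine ⟨T.image toG, ?_⟩
  intro γ
  have h1 : Subgroup.closure ((T.image toG : Finset G) : Set G) = D.map toG := by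
    rw [Finset.coe_image, ← MonoidHom.map_closure, hT]
  rw [h1]
  constructor
  · rintro ⟨hs, hγ⟩
    have h2 : diag γ ∈ KZ := by
      have h3 : diag γ = u * (u⁻¹ * diag γ * u) * u⁻¹ := by group
      rw [h3]
      exact KZ.mul_mem (KZ.mul_mem hu (FgAux.Kf_le_KZ L hK hγ)) (KZ.inv_mem hu)
    obtain ⟨A, rfl⟩ := exists_SL γ h2 hs
    exact ⟨A, (hD A).2 hγ, rfl⟩
  · rintro ⟨A, hA, rfl⟩
    exact ⟨sgn_toG A, (hD A).1 hA⟩

/-- **C10c** (uses C1) -/
theorem finite_orbits (L : Level p S) (hK : ∀ ℓ, L.K ℓ ≤ GZ ℓ) :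
    ∃ R : Finset GA, (∀ r ∈ R, r ∈ KZ) ∧ ∀ (x : ℤˣ) (g : GA), ∃ (γ : G), ∃ k ∈ L.Kf, ∃ r ∈ R,
      x = sgn γ ∧ g = diag γ * r * k := by
  obtain ⟨N, hN, -, -, hKN, -⟩ := exists_level L hK Set.univ isOpen_univ (Set.mem_univ _)
  obtain ⟨R, hR, hR'⟩ := FgAux.exists_reps hN
  refine ⟨R, hR, ?_⟩
  intro x g
  obtain ⟨γ, u, hu, hs, rfl⟩ := class_one x g
  obtain ⟨r, hr, hk⟩ := hR' u hu
  refine ⟨γ, r⁻¹ * u, hKN hk, r, hr, hs.symm, ?_⟩
  group

end Pool.Agent.CG3
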