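import Pool.Agent.CG3.Defs2

/-!
# Cocycles with values in equivariant functions which vanish on the stabilisers
-/

noncomputable section

namespace Pool.Agent.CG3

namespace OrbitAux

variable {G' K' X V : Type} [Group G'] [Group K'] [MulAction G' X] [AddCommGroup V]

/-- The setoid of the double orbits. -/
def setoid (r : X → K' → X) (hr1 : ∀ x, r x 1 = x) (hrmul : ∀ x k k', r (r x k) k' = r x (k * k'))
    (hcomm : ∀ (γ : G') x k, γ • r x k = r (γ • x) k) : Setoid X where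
  r x x' := ∃ (γ : G') (k : K'), x' = γ • r x k
  iseqv :=
    { refl := fun x => ⟨1, 1, by rw [hr1, one_smul]⟩
      symm := by
        rintro x x' ⟨γ, k, rfl⟩
        refine ⟨γ⁻¹, k⁻¹, ?_⟩
        rw [← hcomm, hrmul, mul_inv_cancel, hr1, inv_smul_smul]
      trans := by
        rintro x x' x'' ⟨γ, k, rfl⟩ ⟨γ', k', rfl⟩
        refine ⟨γ' * γ, k * k', ?_⟩
        rw [← hcomm, hrmul, mul_smul] }

end OrbitAux

open OrbitAux in
/-- **C6**: a one-cocycle of `G'` with values in the functions on `X`, equivariant for `K'`,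
which vanishes on the stabilisers of representatives of the double orbits, is a coboundary. -/
theorem orbit_lemma {G' K' X V : Type} [Group G'] [Group K'] [MulAction G' X] [AddCommGroup V]
    (r : X → K' → X) (hr1 : ∀ x, r x 1 = x) (hrmul : ∀ x k k', r (r x k) k' = r x (k * k'))
    (hcomm : ∀ (γ : G') x k, γ • r x k = r (γ • x) k)
    (τ : K' →* AddMonoid.End V) (z : G' → X → V)
    (hz : ∀ γ x k, z γ (r x k) = τ k⁻¹ (z γ x))
    (hcoc : ∀ γ δ x, z (γ * δ) x = z γ x + z δ (γ⁻¹ • x))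
    (R : Set X) (hR : ∀ x, ∃ (γ : G') (k : K'), ∃ y ∈ R, x = γ • r y k)
    (hvan : ∀ y ∈ R, ∀ (γ : G') (k : K'), γ • r y k = y → z γ y = 0) :
    ∃ f : X → V, (∀ x k, f (r x k) = τ k⁻¹ (f x)) ∧ ∀ γ x, z γ x = f (γ⁻¹ • x) - f x := by
  classical
  let s : Setoid X := OrbitAux.setoid r hr1 hrmul hcomm
  have hrep : ∀ c : Quotient s, ∃ y ∈ R, (⟦y⟧ : Quotient s) = c := by
    intro c
    induction c using Quotient.inductionOn with
    | _ x =>
      obtain ⟨γ, k, y, hy, hx⟩ := hR x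
      exact ⟨y, hy, Quotient.sound ⟨γ, k, hx⟩⟩
  choose rep hrepR hrepc using hrep
  have hch : ∀ x : X, ∃ (γ : G') (k : K'), x = γ • r (rep ⟦x⟧) k := by
    intro x
    have := Quotient.exact (hrepc ⟦x⟧)
    exact this
  choose γc kc hx using hch
  have hz1 : ∀ x, z 1 x = 0 := by
    intro x
    have := hcoc 1 1 x
    rw [mul_one, inv_one, one_smul] at this
    simpa using this
  -- well defined
  have hwd : ∀ y ∈ R, ∀ (x : X) (γ γ' : G') (k k' : K'), x = γ • r y k → x = γ' • r y k' →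
      z γ x = z γ' x := by
    intro y hy x γ γ' k k' h h'
    have h1 : (γ⁻¹ * γ') • r y (k' * k⁻¹) = y := by
      rw [← hrmul, hcomm, mul_smul, ← h', h, inv_smul_smul, hrmul, mul_inv_cancel, hr1]
    have h2 := hvan y hy _ _ h1
    have h3 := hcoc γ (γ⁻¹ * γ') x
    rw [mul_inv_cancel_left] at h3
    have h4 : γ⁻¹ • x = r y k := by rw [h, inv_smul_smul]
    rw [h4, hz, h2, map_zero, add_zero] at h3
    exact h3.symm
  let f : X → V := fun x => - z (γc x) x
  have hf : ∀ (x : X) (γ : G') (k : K'), x = γ • r (rep ⟦x⟧) k → f x = - z γ x := by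
    intro x γ k h
    exact congrArg Neg.neg (hwd _ (hrepR _) x _ _ _ _ (hx x) h)
  refine ⟨f, ?_, ?_⟩
  · intro x k
    have hq : (⟦r x k⟧ : Quotient s) = ⟦x⟧ := by
      apply Eq.symm
      apply Quotient.sound
      exact ⟨1, k, by rw [one_smul]⟩
    have h1 : r x k = γc x • r (rep ⟦r x k⟧) (kc x * k) := by
      rw [hq, ← hrmul, hcomm, ← hx x]
    rw [hf _ _ _ h1, hz]
    simp only [f, map_neg]
  · intro γ x
    have hq : (⟦γ⁻¹ • x⟧ : Quotient s) = ⟦x⟧ := by
      apply Eq.symm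
      apply Quotient.sound
      exact ⟨γ⁻¹, 1, by rw [hr1]⟩
    have h1 : γ⁻¹ • x = (γ⁻¹ * γc x) • r (rep ⟦γ⁻¹ • x⟧) (kc x) := by
      rw [hq, mul_smul, ← hx x]
    rw [hf _ _ _ h1, hcoc, inv_inv, smul_inv_smul]
    have h2 := hcoc γ γ⁻¹ x
    rw [mul_inv_cancel, hz1] at h2
    have h3 : f x = - z (γc x) x := rfl
    rw [h3]
    have h4 : z γ⁻¹ (γ⁻¹ • x) = - z γ x := by
      rw [eq_neg_iff_add_eq_zero, add_comm]
      exact h2.symm
    rw [h4]
    abel

end Pool.Agent.CG3
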