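import Pool.Agent.CG3.Defs2
import Pool.Agent.CG3.Orbit
import Pool.Agent.CG3.Fg

/-!
# Finiteness of the cohomology in degrees `0` and `1`
-/

noncomputable section

namespace Pool.Agent.CG3

open Matrix CategoryTheory

variable {p : P} {S : Finset P}

namespace FinHAux

variable {O : Type} [CommRing O] {W : Type} [AddCommGroup W] [Module O W]

/-- The action of `GL₃(ℚ)` on `{1,-1} × GL₃(𝔸_f)`. -/
@[reducible]
def act : MulAction G (ℤˣ × GA) where
  smul γ y := (sgn γ * y.1, diag γ * y.2)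
  one_smul y := by
    change (sgn 1 * y.1, diag 1 * y.2) = y
    rw [map_one, map_one, one_mul, one_mul]
  mul_smul a b y := by
    change (sgn (a * b) * y.1, diag (a * b) * y.2) =
      (sgn a * (sgn b * y.1), diag a * (diag b * y.2))
    rw [map_mul, map_mul, mul_assoc, mul_assoc]

/-- The action of `K_f` on `W` through its component at `p`. -/
def tau (L : Level p S) (σ : Representation O (L.K p) W) : L.Kf →* AddMonoid.End W where
  toFun k := (σ ⟨k.1.1 p, k.2 p⟩).toAddMonoidHom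
  map_one' := by
    have : (⟨((1 : L.Kf).1).1 p, (1 : L.Kf).2 p⟩ : L.K p) = 1 := rfl
    rw [this, map_one]
    rfl
  map_mul' a b := by
    have : (⟨((a * b : L.Kf).1).1 p, (a * b : L.Kf).2 p⟩ : L.K p) =
      ⟨a.1.1 p, a.2 p⟩ * ⟨b.1.1 p, b.2 p⟩ := rfl
    rw [this, map_mul]
    rfl

theorem tau_inv (L : Level p S) (σ : Representation O (L.K p) W) (k : L.Kf) (w : W) :
    tau L σ k⁻¹ w = σ ⟨k.1.1 p, k.2 p⟩⁻¹ w := rfl

theorem coc_apply {L : Level p S} {σ : Representation O (L.K p) W}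
    (c : groupCohomology.cocycles₁ (coeff L σ)) (γ δ : G) (x : ℤˣ × GA) :
    ((c (γ * δ) : Forms L σ)).1 x =
      (c γ : Forms L σ).1 x + (c δ : Forms L σ).1 ((sgn γ)⁻¹ * x.1, (diag γ)⁻¹ * x.2) := by
  have h := (groupCohomology.mem_cocycles₁_iff (A := coeff L σ) c.1).1 c.2 γ δ
  have h1 : (c (γ * δ) : Forms L σ) = @HAdd.hAdd (Forms L σ) (Forms L σ) (Forms L σ) _
    (formsRep L σ γ (c δ : Forms L σ)) (c γ : Forms L σ) := h
  rw [h1]
  exact add_comm ((c δ : Forms L σ).1 ((sgn γ)⁻¹ * x.1, (diag γ)⁻¹ * x.2))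
    ((c γ : Forms L σ).1 x)

/-- A cocycle vanishing on generators of the stabiliser at a point vanishes on the stabiliser. -/
theorem van_stab {L : Level p S} {σ : Representation O (L.K p) W}
    (c : groupCohomology.cocycles₁ (coeff L σ)) (r : GA) (F : Finset G)
    (hF : ∀ γ : G, (sgn γ = 1 ∧ r⁻¹ * diag γ * r ∈ L.Kf) ↔ γ ∈ Subgroup.closure (F : Set G))
    (h0 : ∀ s ∈ F, (c s : Forms L σ).1 (1, r) = 0) (γ : G)
    (hγ : sgn γ = 1 ∧ r⁻¹ * diag γ * r ∈ L.Kf) : (c γ : Forms L σ).1 (1, r) = 0 := by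
  -- multiplicativity
  have hmul : ∀ γ δ : G, sgn γ = 1 ∧ r⁻¹ * diag γ * r ∈ L.Kf →
      (c γ : Forms L σ).1 (1, r) = 0 → (c δ : Forms L σ).1 (1, r) = 0 →
      (c (γ * δ) : Forms L σ).1 (1, r) = 0 := by
    intro γ δ hγ h1 h2
    rw [coc_apply, h1, zero_add]
    have h3 : (diag γ)⁻¹ * r = r * (r⁻¹ * diag γ * r)⁻¹ := by group
    change (c δ : Forms L σ).1 ((sgn γ)⁻¹ * 1, (diag γ)⁻¹ * r) = 0
    rw [hγ.1, h3, inv_one, one_mul]
    have h4 := (c δ : Forms L σ).2 1 r ⟨(r⁻¹ * diag γ * r)⁻¹, L.Kf.inv_mem hγ.2⟩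
    rw [h4, h2, map_zero]
  have hone : (c 1 : Forms L σ).1 (1, r) = 0 := by
    have := groupCohomology.cocycles₁_map_one c
    have h1 : (c 1 : Forms L σ) = 0 := this
    rw [h1]
    rfl
  have hinv : ∀ γ : G, sgn γ = 1 ∧ r⁻¹ * diag γ * r ∈ L.Kf →
      (c γ : Forms L σ).1 (1, r) = 0 → (c γ⁻¹ : Forms L σ).1 (1, r) = 0 := by
    intro γ hγ h1
    have h2 := coc_apply c γ⁻¹ γ (1, r)
    rw [inv_mul_cancel, hone] at h2
    have h3 : (c γ : Forms L σ).1 ((sgn γ⁻¹)⁻¹ * 1, (diag γ⁻¹)⁻¹ * r) = 0 := by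
      have h5 : (diag γ⁻¹)⁻¹ * r = r * (r⁻¹ * diag γ * r) := by
        rw [map_inv]; group
      rw [map_inv, inv_inv, hγ.1, h5, one_mul]
      have h4 := (c γ : Forms L σ).2 1 r ⟨(r⁻¹ * diag γ * r), hγ.2⟩
      rw [h4, h1, map_zero]
    change 0 = (c γ⁻¹ : Forms L σ).1 (1, r) +
      (c γ : Forms L σ).1 ((sgn γ⁻¹)⁻¹ * 1, (diag γ⁻¹)⁻¹ * r) at h2
    rw [h3, add_zero] at h2
    exact h2.symm
  have key : ∀ γ ∈ Subgroup.closure (F : Set G), (c γ : Forms L σ).1 (1, r) = 0 := by
    intro γ hγ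
    induction hγ using Subgroup.closure_induction with
    | mem x hx => exact h0 x hx
    | one => exact hone
    | mul x y hx hy h1 h2 => exact hmul x y ((hF x).2 hx) h1 h2
    | inv x hx h1 => exact hinv x ((hF x).2 hx) h1
  exact key γ ((hF γ).1 hγ)

/-- A cocycle vanishing at finitely many places is a coboundary. -/
theorem mem_cob {L : Level p S} {σ : Representation O (L.K p) W}
    (c : groupCohomology.cocycles₁ (coeff L σ)) (R : Finset GA)
    (hR : ∀ (x : ℤˣ) (g : GA), ∃ (γ : G), ∃ k ∈ L.Kf, ∃ r ∈ R,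
      x = sgn γ ∧ g = diag γ * r * k)
    (F : GA → Finset G)
    (hF : ∀ r ∈ R, ∀ γ : G, (sgn γ = 1 ∧ r⁻¹ * diag γ * r ∈ L.Kf) ↔
      γ ∈ Subgroup.closure (F r : Set G))
    (h0 : ∀ r ∈ R, ∀ s ∈ F r, (c s : Forms L σ).1 (1, r) = 0) :
    (c.1 : G → Forms L σ) ∈ groupCohomology.coboundaries₁ (coeff L σ) := by
  let _ : MulAction G (ℤˣ × GA) := act
  obtain ⟨f, hf, hf'⟩ := orbit_lemma (G' := G) (K' := L.Kf) (X := ℤˣ × GA) (V := W)
    (fun x k => (x.1, x.2 * k.1)) (fun x => by simp) (fun x k k' => by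
      simp [mul_assoc]) (fun γ x k => by
        change (sgn γ * x.1, diag γ * (x.2 * k.1)) = (sgn γ * x.1, diag γ * x.2 * k.1)
        rw [mul_assoc]) (tau L σ) (fun γ x => (c γ : Forms L σ).1 x)
      (fun γ x k => (c γ : Forms L σ).2 x.1 x.2 k)
      (fun γ δ x => by
        rw [coc_apply]
        congr 1
        change _ = (c δ : Forms L σ).1 (sgn γ⁻¹ * x.1, diag γ⁻¹ * x.2)
        rw [map_inv, map_inv])
      {y | ∃ r ∈ R, y = (1, r)}
      (fun x => by
        obtain ⟨γ, k, hk, r, hr, h1, h2⟩ := hR x.1 x.2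
        refine ⟨γ, ⟨k, hk⟩, (1, r), ⟨r, hr, rfl⟩, ?_⟩
        change x = (sgn γ * 1, diag γ * (r * k))
        rw [mul_one, ← mul_assoc, ← h1, ← h2])
      (by
        rintro y ⟨r, hr, rfl⟩ γ k h
        have h1 : sgn γ * 1 = 1 := congrArg Prod.fst h
        have h2 : diag γ * (r * k.1) = r := congrArg Prod.snd h
        rw [mul_one] at h1
        refine van_stab c r (F r) (hF r hr) (h0 r hr) γ ⟨h1, ?_⟩
        have h3 : r⁻¹ * diag γ * r = k.1⁻¹ := by
          have h4 : diag γ * r = r * k.1⁻¹ := by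
            rw [eq_mul_inv_iff_mul_eq, mul_assoc]
            exact h2
          rw [mul_assoc, h4, inv_mul_cancel_left]
        rw [h3]
        exact L.Kf.inv_mem k.2)
  refine ⟨(⟨f, fun x g k => hf (x, g) k⟩ : Forms L σ), ?_⟩
  funext γ
  apply Subtype.ext
  funext x
  have h1 := hf' γ x
  change f ((sgn γ)⁻¹ * x.1, (diag γ)⁻¹ * x.2) - f x = (c γ : Forms L σ).1 x
  rw [h1]
  congr 1
  change _ = f (sgn γ⁻¹ * x.1, diag γ⁻¹ * x.2)
  rw [map_inv, map_inv]

/-- The evaluation map on the cocycles. -/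
def evc (L : Level p S) (σ : Representation O (L.K p) W) (R : Finset GA) (F : GA → Finset G) :
    groupCohomology.cocycles₁ (coeff L σ) →ₗ[O] (∀ r : R, (F r.1 : Type) → W) where
  toFun c := fun r s => (c s.1 : Forms L σ).1 (1, r.1)
  map_add' _ _ := rfl
  map_smul' _ _ := rfl

end FinHAux

open FinHAux in
/-- **C11** -/
theorem finite_coh {O : Type} [CommRing O] [IsNoetherianRing O] (L : Level p S)
    (hK : ∀ ℓ, L.K ℓ ≤ GZ ℓ)
    {W : Type} [AddCommGroup W] [Module O W] [Module.Finite O W]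
    (σ : Representation O (L.K p) W) (i : ℕ) (hi : i ≤ 1) :
    Module.Finite O (groupCohomology (coeff L σ) i) := by
  obtain ⟨R, hRZ, hR⟩ := finite_orbits L hK
  have hstab : ∀ r : GA, ∃ F : Finset G, r ∈ R → ∀ γ : G,
      (sgn γ = 1 ∧ r⁻¹ * diag γ * r ∈ L.Kf) ↔ γ ∈ Subgroup.closure (F : Set G) := by
    intro r
    by_cases hr : r ∈ R
    · obtain ⟨F, hF⟩ := stab_fg L hK r (hRZ r hr)
      exact ⟨F, fun _ => hF⟩
    · exact ⟨∅, fun h => absurd h hr⟩
  choose F hF using hstab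
  have hi' : i = 0 ∨ i = 1 := by omega
  rcases hi' with rfl | rfl
  · -- degree 0
    have e := (groupCohomology.H0Iso (coeff L σ)).toLinearEquiv
    let ev : (coeff L σ).ρ.invariants →ₗ[O] (R → W) :=
      { toFun := fun f r => (f.1 : Forms L σ).1 (1, r.1)
        map_add' := fun _ _ => rfl
        map_smul' := fun _ _ => rfl }
    have hev : Function.Injective ev := by
      intro a b hab
      apply Subtype.ext
      apply Subtype.ext
      funext x
      obtain ⟨γ, k, hk, r, hr, h1, h2⟩ := hR x.1 x.2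
      have key : ∀ f : (coeff L σ).ρ.invariants, (f.1 : Forms L σ).1 x =
          σ ⟨k.1 p, hk p⟩⁻¹ ((f.1 : Forms L σ).1 (1, r)) := by
        intro f
        have h3 : formsRep L σ γ (f.1 : Forms L σ) = (f.1 : Forms L σ) := f.2 γ
        have h4 : (f.1 : Forms L σ).1 x =
            (f.1 : Forms L σ).1 ((sgn γ)⁻¹ * x.1, (diag γ)⁻¹ * x.2) := by
          conv_lhs => rw [← h3]
          rfl
        have h5 : ((sgn γ)⁻¹ * x.1, (diag γ)⁻¹ * x.2) = (1, r * k) := by
          rw [h1, h2]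
          refine Prod.ext ?_ ?_
          · simp
          · change (diag γ)⁻¹ * (diag γ * r * k) = r * k
            group
        rw [h4, h5]
        exact (f.1 : Forms L σ).2 1 r ⟨k, hk⟩
      rw [key a, key b]
      have := congrFun hab ⟨r, hr⟩
      exact congrArg _ this
    have h1 : Module.Finite O (coeff L σ).ρ.invariants := Module.Finite.of_injective ev hev
    exact Module.Finite.equiv e.symm
  · -- degree 1
    let Φ := evc L σ R F
    let B : Submodule O (groupCohomology.cocycles₁ (coeff L σ)) :=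
      (groupCohomology.coboundaries₁ (coeff L σ)).comap
        (groupCohomology.cocycles₁ (coeff L σ)).subtype
    let g : groupCohomology.cocycles₁ (coeff L σ) →ₗ[O]
        ((∀ r : R, (F r.1 : Type) → W) ⧸ B.map Φ) := (B.map Φ).mkQ ∘ₗ Φ
    let π : groupCohomology.cocycles₁ (coeff L σ) →ₗ[O] groupCohomology (coeff L σ) 1 :=
      (groupCohomology.H1π (coeff L σ)).hom
    have hπ : Function.Surjective π :=
      (ModuleCat.epi_iff_surjective _).1 (inferInstance : Epi (groupCohomology.H1π (coeff L σ)))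
    have hkπ : LinearMap.ker π = B := by
      ext c
      rw [LinearMap.mem_ker]
      exact groupCohomology.H1π_eq_zero_iff c
    have hkg : LinearMap.ker g = B := by
      ext c
      rw [LinearMap.mem_ker]
      constructor
      · intro h
        have h1 : Φ c ∈ B.map Φ := by
          have h2 : (B.map Φ).mkQ (Φ c) = 0 := h
          rwa [← LinearMap.mem_ker, Submodule.ker_mkQ] at h2
        obtain ⟨b, hb, hbc⟩ := h1
        have h3 : Φ (c - b) = 0 := by rw [map_sub, hbc, sub_self]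
        have h4 : (c - b) ∈ B := by
          refine mem_cob (c - b) R hR F (fun r hr => hF r hr) ?_
          intro r hr s hs
          exact congrFun (congrFun h3 ⟨r, hr⟩) ⟨s, hs⟩
        have h5 := B.add_mem h4 hb
        rwa [sub_add_cancel] at h5
      · intro h
        change (B.map Φ).mkQ (Φ c) = 0
        rw [← LinearMap.mem_ker, Submodule.ker_mkQ]
        exact ⟨c, h, rfl⟩
    have h1 : Module.Finite O (LinearMap.range g) := by
      have : IsNoetherian O (∀ r : R, (F r.1 : Type) → W) := inferInstance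
      infer_instance
    have e1 := (LinearMap.quotKerEquivOfSurjective π hπ)
    have e2 := g.quotKerEquivRange
    rw [hkπ] at e1
    rw [hkg] at e2
    exact Module.Finite.equiv (e2.symm.trans e1)

end Pool.Agent.CG3
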