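import Mathlib

noncomputable section

namespace Pool.Agent.CG3.GalAux

open Matrix Polynomial

/-- A commuting family of `3 × 3` matrices has a proper stable subspace over a finite
extension. -/
lemma commuting_stable {k : Type} [Field k] {ι : Type} (M : ι → Matrix (Fin 3) (Fin 3) k)
    (hc : ∀ i j, M i * M j = M j * M i) :
    ∃ (k' : Type) (_ : Field k') (_ : Algebra k k'), Module.Finite k k' ∧
      ∃ V : Submodule k' (Fin 3 → k'),
        (∀ i, ∀ v ∈ V, ((M i).map (algebraMap k k')).mulVec v ∈ V) ∧ V ≠ ⊥ ∧ V ≠ ⊤ := by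
  classical
  by_cases hsc : ∀ i, ∃ c : k, M i = c • (1 : Matrix (Fin 3) (Fin 3) k)
  · refine ⟨k, inferInstance, Algebra.id k, inferInstance, Submodule.span k {Pi.single 0 1},
      ?_, ?_, ?_⟩
    · intro i v hv
      obtain ⟨c, hcM⟩ := hsc i
      have h1 : (M i).map (algebraMap k k) = M i := by
        ext a b; simp
      rw [h1, hcM, smul_mulVec, one_mulVec]
      exact Submodule.smul_mem _ _ hv
    · intro h
      have h1 : (Pi.single 0 1 : Fin 3 → k) ∈ (⊥ : Submodule k (Fin 3 → k)) := by
        rw [← h]
        exact Submodule.mem_span_singleton_self _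
      rw [Submodule.mem_bot] at h1
      have := congrFun h1 0
      simp at this
    · intro h
      have h1 : (Pi.single 1 1 : Fin 3 → k) ∈ Submodule.span k {(Pi.single 0 1 : Fin 3 → k)} := by
        rw [h]; trivial
      obtain ⟨a, ha⟩ := Submodule.mem_span_singleton.1 h1
      have := congrFun ha 1
      simp at this
  · push Not at hsc
    obtain ⟨i0, hi0⟩ := hsc
    let f : k[X] := (M i0).charpoly
    let k' := f.SplittingField
    let ε : k →+* k' := algebraMap k k'
    have hdeg : (f.map ε).degree ≠ 0 := by
      rw [degree_map, Matrix.charpoly_degree_eq_dim]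
      simp
    obtain ⟨lam, hlam⟩ := (SplittingField.splits f).exists_eval_eq_zero (by
      exact hdeg)
    let A' : Matrix (Fin 3) (Fin 3) k' := (M i0).map ε
    have hdet : (scalar (Fin 3) lam - A').det = 0 := by
      rw [← Matrix.eval_charpoly]
      have : A'.charpoly = f.map ε := Matrix.charpoly_map (M i0) ε
      rw [this]
      exact hlam
    obtain ⟨v0, hv0, hv0'⟩ := Matrix.exists_mulVec_eq_zero_iff.2 hdet
    let V : Submodule k' (Fin 3 → k') := LinearMap.ker (Matrix.mulVecLin (scalar (Fin 3) lam - A'))
    refine ⟨k', inferInstance, inferInstance, inferInstance, V, ?_, ?_, ?_⟩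
    · intro i v hv
      have hcomm : ((M i).map ε) * (scalar (Fin 3) lam - A') =
          (scalar (Fin 3) lam - A') * ((M i).map ε) := by
        rw [mul_sub, sub_mul]
        congr 1
        · exact (Matrix.scalar_commute lam (fun _ => mul_comm _ _) _).eq.symm
        · have := congrArg (fun B : Matrix (Fin 3) (Fin 3) k => B.map ε) (hc i i0)
          simp only [Matrix.map_mul] at this
          exact this
      rw [LinearMap.mem_ker, Matrix.mulVecLin_apply] at hv ⊢
      rw [Matrix.mulVec_mulVec, ← hcomm, ← Matrix.mulVec_mulVec, hv, Matrix.mulVec_zero]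
    · intro h
      have h1 : v0 ∈ (⊥ : Submodule k' (Fin 3 → k')) := by
        rw [← h]
        exact hv0'
      exact hv0 (by simpa using h1)
    · intro h
      have h1 : ∀ v : Fin 3 → k', (scalar (Fin 3) lam - A').mulVec v = 0 := by
        intro v
        have : v ∈ V := by rw [h]; trivial
        exact this
      have h2 : scalar (Fin 3) lam - A' = 0 := by
        apply Matrix.ext_of_mulVec_single
        intro j
        rw [h1, Matrix.zero_mulVec]
      have h3 : A' = scalar (Fin 3) lam := (sub_eq_zero.1 h2).symm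
      apply hi0 (M i0 0 0)
      ext a b
      apply (algebraMap k k').injective
      have h4 : ε (M i0 a b) = (scalar (Fin 3) lam : Matrix (Fin 3) (Fin 3) k') a b :=
        congrFun (congrFun h3 a) b
      have h5 : ε (M i0 0 0) = (scalar (Fin 3) lam : Matrix (Fin 3) (Fin 3) k') 0 0 :=
        congrFun (congrFun h3 0) 0
      rw [Matrix.scalar_apply, Matrix.diagonal_apply] at h4 h5
      simp only [if_true] at h5
      change ε _ = ε _
      rw [h4, Matrix.smul_apply, Matrix.one_apply, smul_eq_mul, map_mul, h5]
      split_ifs <;> simp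

/-- A finite `p`-group of matrices in characteristic `p` has a fixed vector. -/
lemma pgroup_fixed {k : Type} [Field k] (p : ℕ) [hp : Fact p.Prime] [CharP k p]
    (U : Subgroup (GL (Fin 3) k)) [Finite U] (hU : IsPGroup p U) :
    ∃ v : Fin 3 → k, v ≠ 0 ∧ ∀ u ∈ U, (u : Matrix (Fin 3) (Fin 3) k).mulVec v = v := by
  classical
  let _ : Algebra (ZMod p) k := ZMod.algebra k p
  let e : Fin 3 → k := Pi.single 0 1
  let s : Set (Fin 3 → k) := Set.range (fun u : U => (u.1 : Matrix (Fin 3) (Fin 3) k).mulVec e)
  let A : Submodule (ZMod p) (Fin 3 → k) := Submodule.span (ZMod p) s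
  have hAfin : Finite A := by
    have : Module.Finite (ZMod p) A := FiniteDimensional.span_of_finite _ (Set.finite_range _)
    exact Module.finite_of_finite (ZMod p)
  have hst : ∀ (u : U) (a : Fin 3 → k), a ∈ A → (u.1 : Matrix (Fin 3) (Fin 3) k).mulVec a ∈ A := by
    intro u a ha
    induction ha using Submodule.span_induction with
    | mem x hx =>
      obtain ⟨w, rfl⟩ := hx
      apply Submodule.subset_span
      refine ⟨u * w, ?_⟩
      simp [Matrix.mulVec_mulVec]
    | zero => rw [Matrix.mulVec_zero]; exact A.zero_mem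
    | add x y _ _ hx hy => rw [Matrix.mulVec_add]; exact A.add_mem hx hy
    | smul c x _ hx =>
      rw [Matrix.mulVec_smul]
      exact A.smul_mem _ hx
  let _ : MulAction U A :=
    { smul := fun u a => ⟨(u.1 : Matrix (Fin 3) (Fin 3) k).mulVec a.1, hst u a.1 a.2⟩
      one_smul := fun a => by
        apply Subtype.ext
        change ((1 : U).1 : Matrix (Fin 3) (Fin 3) k).mulVec a.1 = a.1
        simp
      mul_smul := fun u w a => by
        apply Subtype.ext
        change ((u * w : U).1 : Matrix (Fin 3) (Fin 3) k).mulVec a.1 =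
          (u.1 : Matrix (Fin 3) (Fin 3) k).mulVec ((w.1 : Matrix (Fin 3) (Fin 3) k).mulVec a.1)
        simp [Matrix.mulVec_mulVec] }
  have heA : e ∈ A := Submodule.subset_span ⟨1, by simp⟩
  have he0 : e ≠ 0 := by
    intro h
    have := congrFun h 0
    simp [e] at this
  have hdvd : p ∣ Nat.card A := by
    have h1 : addOrderOf (⟨e, heA⟩ : A) = p := by
      apply addOrderOf_eq_prime
      · apply Subtype.ext
        change p • e = 0
        ext i
        simp [CharP.cast_eq_zero]
      · intro h
        exact he0 (congrArg Subtype.val h)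
    have h2 := addOrderOf_dvd_natCard (⟨e, heA⟩ : A)
    rwa [h1] at h2
  have h0 : (0 : A) ∈ MulAction.fixedPoints U A := by
    intro u
    apply Subtype.ext
    change (u.1 : Matrix (Fin 3) (Fin 3) k).mulVec (0 : Fin 3 → k) = 0
    exact Matrix.mulVec_zero _
  obtain ⟨b, hb, hne⟩ := hU.exists_fixed_point_of_prime_dvd_card_of_fixed_point A hdvd h0
  refine ⟨b.1, fun h => hne (Subtype.ext h.symm), fun u hu => ?_⟩
  exact congrArg Subtype.val (hb ⟨u, hu⟩)

/-- A unipotent matrix has order a power of `p`. -/
lemma unipotent_pow {k : Type} [Field k] (p : ℕ) [hp : Fact p.Prime] [CharP k p]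
    (A : Matrix (Fin 3) (Fin 3) k) (hA : A.charpoly = (X - 1) ^ 3) : A ^ (p ^ 2) = 1 := by
  have h1 : (A - 1) ^ 3 = 0 := by
    have := Matrix.aeval_self_charpoly A
    rw [hA] at this
    simpa using this
  have h2 : (A - 1) ^ (p ^ 2) = 0 := by
    have : 3 ≤ p ^ 2 := by
      have := hp.1.two_le
      nlinarith
    exact pow_eq_zero_of_le this h1
  have h3 : (A - 1) ^ (p ^ 2) = A ^ (p ^ 2) - 1 ^ (p ^ 2) := by
    have : CharP (Matrix (Fin 3) (Fin 3) k) p := inferInstance
    exact sub_pow_char_pow_of_commute p 2 (Commute.one_right A)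
  rw [h2, one_pow] at h3
  exact (sub_eq_zero.1 h3.symm)

end Pool.Agent.CG3.GalAux
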