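import Pool.Agent.CG3.GalDense
import Pool.Agent.CG3.GalLin

noncomputable section

namespace Pool.Agent.CG3.GalAux

open scoped Pointwise nonZeroDivisors
open Matrix Polynomial

/-- The automorphisms fixing a primitive `N`-th root of unity. -/
def GN (ζ : Qb) : Subgroup GQb := MulAction.stabilizer GQb ζ

lemma mem_GN {ζ : Qb} {g : GQb} : g ∈ GN ζ ↔ g ζ = ζ := Iff.rfl

lemma isOpen_GN (ζ : Qb) : IsOpen (GN ζ : Set GQb) := stabilizer_isOpen_of_isIntegral ζ

lemma act_root {ζ : Qb} {N : ℕ} (hN : 0 < N) (hζ : IsPrimitiveRoot ζ N) (g : GQb) :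
    ∃ i : ℕ, g ζ = ζ ^ i := by
  have : NeZero N := ⟨hN.ne'⟩
  obtain ⟨i, _, hi⟩ := hζ.eq_pow_of_pow_eq_one (ξ := g ζ) (by rw [← map_pow, hζ.pow_eq_one, map_one])
  exact ⟨i, hi.symm⟩

lemma comm_mem_GN {ζ : Qb} {N : ℕ} (hN : 0 < N) (hζ : IsPrimitiveRoot ζ N) (a b : GQb) :
    (b * a)⁻¹ * (a * b) ∈ GN ζ := by
  obtain ⟨i, hi⟩ := act_root hN hζ a
  obtain ⟨j, hj⟩ := act_root hN hζ b
  have h1 : (a * b) ζ = (b * a) ζ := by
    rw [AlgEquiv.mul_apply, AlgEquiv.mul_apply, hi, hj, map_pow, map_pow, hi, hj, ← pow_mul,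
      ← pow_mul, mul_comm]
  rw [mem_GN, AlgEquiv.mul_apply, h1, ← AlgEquiv.mul_apply, inv_mul_cancel]
  rfl

lemma normal_GN {ζ : Qb} {N : ℕ} (hN : 0 < N) (hζ : IsPrimitiveRoot ζ N) : (GN ζ).Normal := by
  constructor
  intro g hg s
  obtain ⟨j, hj⟩ := act_root hN hζ s⁻¹
  rw [mem_GN] at hg ⊢
  rw [AlgEquiv.mul_apply, AlgEquiv.mul_apply, hj, map_pow, hg, ← hj, ← AlgEquiv.mul_apply,
    mul_inv_cancel]
  rfl

/-- A Frobenius element at a large prime which fixes the `N`-th roots of unity belongs to a prime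
which is `1` modulo `N`. -/
lemma modEq_one {ζ : Qb} {N : ℕ} (hN : 0 < N) (hζ : IsPrimitiveRoot ζ N) (ℓ : ℕ) (hℓ : ℓ.Prime)
    (hlt : N < ℓ) (Q : Ideal Zb) [hQ : Q.IsPrime] (hm : ((ℓ : ℕ) : Zb) ∈ Q) (s : GQb)
    (hs : ∀ x : Zb, s • x - x ^ ℓ ∈ Q) (hsζ : s ∈ GN ζ) : ℓ ≡ 1 [MOD N] := by
  have hint : IsIntegral ℤ ζ := hζ.isIntegral hN
  let z : Zb := ⟨ζ, hint⟩
  have hz : IsPrimitiveRoot z N := by
    have h1 : (z : Qb) = ζ := rfl
    exact IsPrimitiveRoot.of_map_of_injective (f := algebraMap Zb Qb) (by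
      change IsPrimitiveRoot ζ N
      exact hζ) Subtype.val_injective
  have h1 : s • z = z := Subtype.ext hsζ
  have h2 : z - z ^ ℓ ∈ Q := by
    have := hs z
    rwa [h1] at this
  have hunit : z ∉ Q := by
    intro h
    have h3 : z ^ N ∈ Q := Ideal.pow_mem_of_mem Q h N hN
    rw [hz.pow_eq_one] at h3
    exact hQ.ne_top ((Ideal.eq_top_iff_one Q).2 h3)
  have h4 : 1 - z ^ (ℓ - 1) ∈ Q := by
    have h5 : z * (1 - z ^ (ℓ - 1)) ∈ Q := by
      have h6 : z * (1 - z ^ (ℓ - 1)) = z - z ^ ℓ := by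
        rw [mul_sub, mul_one, ← pow_succ', Nat.sub_add_cancel hℓ.one_lt.le]
      rw [h6]
      exact h2
    exact (hQ.mem_or_mem h5).resolve_left hunit
  -- if `z ^ (ℓ - 1) ≠ 1` then `N ∈ Q`
  have h5 : z ^ (ℓ - 1) = 1 := by
    by_contra hne
    set η := z ^ (ℓ - 1) with hη
    have h6 : η ^ N = 1 := by
      rw [hη, ← pow_mul, mul_comm, pow_mul, hz.pow_eq_one, one_pow]
    have h7 : (∑ i ∈ Finset.range N, η ^ i) * (η - 1) = 0 := by
      rw [geom_sum_mul, h6, sub_self]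
    have h8 : ∑ i ∈ Finset.range N, η ^ i = 0 :=
      (mul_eq_zero.1 h7).resolve_right (sub_ne_zero.2 hne)
    have h9 : ∀ i : ℕ, 1 - η ^ i ∈ Q := by
      intro i
      have : (1 - η) ∣ (1 ^ i - η ^ i) := sub_dvd_pow_sub_pow 1 η i
      rw [one_pow] at this
      exact Ideal.mem_of_dvd Q this h4
    have h10 : ((N : ℕ) : Zb) ∈ Q := by
      have h11 : ∑ i ∈ Finset.range N, (1 - η ^ i) ∈ Q := Q.sum_mem fun i _ => h9 i
      rw [Finset.sum_sub_distrib, h8, sub_zero] at h11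
      simpa using h11
    have hcop : Nat.Coprime N ℓ := by
      rw [Nat.coprime_comm, hℓ.coprime_iff_not_dvd]
      intro h
      exact absurd (Nat.le_of_dvd hN h) (by omega)
    obtain ⟨a, b, hab⟩ : IsCoprime (N : ℤ) (ℓ : ℤ) := Nat.isCoprime_iff_coprime.2 hcop
    have h12 : (1 : Zb) = (a : Zb) * ((N : ℕ) : Zb) + (b : Zb) * ((ℓ : ℕ) : Zb) := by
      have := congrArg (fun z : ℤ => (z : Zb)) hab
      push_cast at this
      exact this.symm
    have h13 : (1 : Zb) ∈ Q := by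
      rw [h12]
      exact Q.add_mem (Q.mul_mem_left _ h10) (Q.mul_mem_left _ hm)
    exact hQ.ne_top ((Ideal.eq_top_iff_one Q).2 h13)
  have h6 : N ∣ ℓ - 1 := hz.dvd_of_pow_eq_one _ h5
  exact ((Nat.modEq_iff_dvd' hℓ.one_lt.le).2 h6).symm

theorem core {k : Type} [Field k] (p : ℕ) (hp : p.Prime) [CharP k p] (ρ : GQb →* GL (Fin 3) k)
    (hρ : IsOpen (ρ.ker : Set GQb)) (N : ℕ) (hN : 0 < N) (e : ℤˣ) (S : Finset ℕ)
    (hfrob : ∀ ℓ : ℕ, ℓ.Prime → ℓ ∉ S → ℓ ≡ 1 [MOD N] → ∀ Q : Ideal Zb, Q.IsPrime →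
      ((ℓ : ℕ) : Zb) ∈ Q → ∀ s : GQb, (∀ x : Zb, s • x - x ^ ℓ ∈ Q) →
        (ρ (s ^ (e : ℤ)) : Matrix (Fin 3) (Fin 3) k).charpoly = (X - 1) ^ 3) :
    ∃ (k' : Type) (_ : Field k') (_ : Algebra k k'), Module.Finite k k' ∧
      ∃ V : Submodule k' (Fin 3 → k'),
        (∀ g : GQb, ∀ v ∈ V,
          ((ρ g : Matrix (Fin 3) (Fin 3) k).map (algebraMap k k')).mulVec v ∈ V) ∧
        V ≠ ⊥ ∧ V ≠ ⊤ := by
  classical
  have hpf : Fact p.Prime := ⟨hp⟩
  have : NeZero N := ⟨hN.ne'⟩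
  obtain ⟨ζ, hζ⟩ : ∃ ζ : Qb, IsPrimitiveRoot ζ N := by
    have : NeZero (N : Qb) := ⟨by exact_mod_cast hN.ne'⟩
    exact HasEnoughRootsOfUnity.exists_primitiveRoot Qb N
  have hnorm := normal_GN hN hζ
  let V : Subgroup GQb := ρ.ker ⊓ GN ζ
  have hVopen : IsOpen (V : Set GQb) := by
    rw [Subgroup.coe_inf]
    exact hρ.inter (isOpen_GN ζ)
  have hVn : V.Normal := inferInstance
  -- step 1
  have step1 : ∀ g ∈ GN ζ, ∀ r : ℕ, r.Prime → r ≠ p → (ρ g) ^ r = 1 → ρ g = 1 := by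
    intro g hg r hr hrp hgr
    by_contra hg1
    have h1 : g ^ r ∈ V := Subgroup.mem_inf.2
      ⟨by rw [MonoidHom.mem_ker, map_pow, hgr], (GN ζ).pow_mem hg r⟩
    have h2 : g ∉ V := fun h => hg1 (MonoidHom.mem_ker.1 h.1)
    obtain ⟨ℓ, hℓ, hlt, Q, hQ, hm, s, hs, hsV, j, hj⟩ :=
      frob_in_coset V hVopen g r hr h1 h2 (N + ∑ x ∈ S, x)
    have hℓS : ℓ ∉ S := by
      intro h
      have : ℓ ≤ ∑ x ∈ S, x := Finset.single_le_sum (f := fun x : ℕ => x)
        (fun _ _ => Nat.zero_le _) h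
      omega
    have hsG : s ∈ GN ζ := by
      have h3 : s = g ^ j * ((g ^ j)⁻¹ * s) := by group
      rw [h3]
      exact (GN ζ).mul_mem ((GN ζ).zpow_mem hg j) (Subgroup.mem_inf.1 hj).2
    have hmod := modEq_one hN hζ ℓ hℓ (by omega) Q hm s hs hsG
    have h4 := hfrob ℓ hℓ hℓS hmod Q hQ hm s hs
    have h5 := unipotent_pow p _ h4
    have h6 : (ρ s) ^ ((e : ℤ) * (p ^ 2 : ℕ)) = 1 := by
      rw [_root_.zpow_mul, zpow_natCast, ← map_zpow]
      apply Units.ext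
      rw [Units.val_pow_eq_pow_val]
      exact h5
    have h7 : ρ s = (ρ g) ^ j := by
      have := (Subgroup.mem_inf.1 hj).1
      rw [MonoidHom.mem_ker, map_mul, map_inv, map_zpow] at this
      exact (inv_mul_eq_one.1 this).symm
    have hord : orderOf (ρ g) = r := orderOf_eq_prime hgr hg1 (hp := ⟨hr⟩)
    rw [h7, ← _root_.zpow_mul] at h6
    have h8 : (r : ℤ) ∣ j * ((e : ℤ) * (p ^ 2 : ℕ)) := by
      rw [← hord]
      exact orderOf_dvd_iff_zpow_eq_one.2 h6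
    have hrint : Prime (r : ℤ) := Nat.prime_iff_prime_int.1 hr
    rcases hrint.dvd_or_dvd h8 with h9 | h9
    · apply hsV
      refine Subgroup.mem_inf.2 ⟨?_, hsG⟩
      rw [MonoidHom.mem_ker, h7]
      rw [← hord] at h9
      exact orderOf_dvd_iff_zpow_eq_one.1 h9
    · rcases hrint.dvd_or_dvd h9 with h10 | h10
      · have : IsUnit (r : ℤ) := isUnit_of_dvd_unit h10 e.isUnit
        exact hrint.not_isUnit this
      · have h11 : r ∣ p ^ 2 := by exact_mod_cast h10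
        exact hrp ((Nat.prime_dvd_prime_iff_eq hr hp).1 (hr.dvd_of_dvd_pow h11))
  -- the image is finite
  have hfinQ : Finite (GQb ⧸ ρ.ker) := Subgroup.quotient_finite_of_isOpen _ hρ
  have hfinR : Finite ρ.range := by
    exact Finite.of_equiv _ (QuotientGroup.quotientKerEquivRange ρ).toEquiv
  let U : Subgroup (GL (Fin 3) k) := (GN ζ).map ρ
  have hUle : U ≤ ρ.range := by
    rintro _ ⟨g, _, rfl⟩
    exact ⟨g, rfl⟩
  have hfinU : Finite U := Finite.of_injective (Subgroup.inclusion hUle)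
    (Subgroup.inclusion_injective hUle)
  have hpU : IsPGroup p U := by
    rintro ⟨u, hu⟩
    obtain ⟨g, hg, rfl⟩ := hu
    have hfo : IsOfFinOrder (ρ g) := by
      have : IsOfFinOrder (⟨ρ g, ⟨g, rfl⟩⟩ : ρ.range) := isOfFinOrder_of_finite _
      have h2 := MonoidHom.isOfFinOrder ρ.range.subtype this
      exact h2
    have hpos : 0 < orderOf (ρ g) := hfo.orderOf_pos
    have hpow : orderOf (ρ g) = p ^ (orderOf (ρ g)).primeFactorsList.length := by
      apply Nat.eq_prime_pow_of_unique_prime_dvd hpos.ne'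
      intro r hr hrd
      by_contra hrp
      obtain ⟨m, hm⟩ := hrd
      have hm0 : 0 < m := by
        rcases Nat.eq_zero_or_pos m with h | h
        · subst h; omega
        · exact h
      have h1 : ρ (g ^ m) = 1 := by
        apply step1 (g ^ m) ((GN ζ).pow_mem hg m) r hr hrp
        rw [map_pow, ← pow_mul, mul_comm m r, ← hm, pow_orderOf_eq_one]
      rw [map_pow] at h1
      have h2 := Nat.le_of_dvd hm0 (orderOf_dvd_of_pow_eq_one h1)
      rw [hm] at h2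
      have := hr.two_le
      nlinarith
    refine ⟨(orderOf (ρ g)).primeFactorsList.length, ?_⟩
    apply Subtype.ext
    change (ρ g) ^ (p ^ _) = 1
    rw [← hpow, pow_orderOf_eq_one]
  -- the fixed space
  let D : Submodule k (Fin 3 → k) :=
    { carrier := {v | ∀ g ∈ GN ζ, (ρ g : Matrix (Fin 3) (Fin 3) k).mulVec v = v}
      add_mem' := fun {v w} hv hw g hg => by rw [Matrix.mulVec_add, hv g hg, hw g hg]
      zero_mem' := fun g _ => Matrix.mulVec_zero _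
      smul_mem' := fun c v hv g hg => by rw [Matrix.mulVec_smul, hv g hg] }
  have hDst : ∀ g : GQb, ∀ v ∈ D, (ρ g : Matrix (Fin 3) (Fin 3) k).mulVec v ∈ D := by
    intro s v hv g hg
    have h1 : g * s = s * (s⁻¹ * g * s) := by group
    have h2 : s⁻¹ * g * s ∈ GN ζ := by
      have := hnorm.conj_mem g hg s⁻¹
      rwa [inv_inv] at this
    have h3 : (ρ g : Matrix (Fin 3) (Fin 3) k).mulVec ((ρ s : Matrix (Fin 3) (Fin 3) k).mulVec v) =
        (ρ (g * s) : Matrix (Fin 3) (Fin 3) k).mulVec v := by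
      rw [map_mul, Units.val_mul, Matrix.mulVec_mulVec]
    rw [h3, h1, map_mul, Units.val_mul, ← Matrix.mulVec_mulVec, hv _ h2]
  obtain ⟨v0, hv0, hv0U⟩ := pgroup_fixed p U hpU
  have hDbot : D ≠ ⊥ := by
    intro h
    have h1 : v0 ∈ D := fun g hg => hv0U (ρ g) ⟨g, hg, rfl⟩
    rw [h, Submodule.mem_bot] at h1
    exact hv0 h1
  by_cases hDtop : D = ⊤
  · -- the image is abelian
    have h1 : ∀ g ∈ GN ζ, ρ g = 1 := by
      intro g hg
      apply Units.ext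
      apply Matrix.ext_of_mulVec_single
      intro j
      have h2 : (Pi.single j 1 : Fin 3 → k) ∈ D := by rw [hDtop]; trivial
      rw [h2 g hg, Units.val_one, Matrix.one_mulVec]
    have hc : ∀ a b : GQb, (ρ a : Matrix (Fin 3) (Fin 3) k) * (ρ b : Matrix (Fin 3) (Fin 3) k) =
        (ρ b : Matrix (Fin 3) (Fin 3) k) * (ρ a : Matrix (Fin 3) (Fin 3) k) := by
      intro a b
      have h2 := h1 _ (comm_mem_GN hN hζ a b)
      rw [map_mul, map_inv, inv_mul_eq_one] at h2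
      rw [← Units.val_mul, ← Units.val_mul, ← map_mul, ← map_mul, h2]
    exact commuting_stable (fun g : GQb => (ρ g : Matrix (Fin 3) (Fin 3) k)) hc
  · refine ⟨k, inferInstance, Algebra.id k, inferInstance, D, ?_, hDbot, hDtop⟩
    intro g v hv
    have h1 : ((ρ g : Matrix (Fin 3) (Fin 3) k).map (algebraMap k k)) =
        (ρ g : Matrix (Fin 3) (Fin 3) k) := by
      ext a b; simp
    rw [h1]
    exact hDst g v hv

end Pool.Agent.CG3.GalAux
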