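import Pool.Agent.CG3.GalLift2

noncomputable section

namespace Pool.Agent.CG3.GalAux

open scoped Pointwise nonZeroDivisors
open NumberField IsDedekindDomain

set_option linter.unusedSectionVars false

/-- Frobenius elements in the cosets of an open normal subgroup `V` generated by an element of
prime order in the quotient. -/
theorem frob_in_coset (V : Subgroup GQb) [V.Normal] (hV : IsOpen (V : Set GQb)) (g : GQb) (r : ℕ)
    (hr : r.Prime) (hgr : g ^ r ∈ V) (hg : g ∉ V) (M : ℕ) :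
    ∃ ℓ : ℕ, ℓ.Prime ∧ M < ℓ ∧ ∃ Q : Ideal Zb, Q.IsPrime ∧ ((ℓ : ℕ) : Zb) ∈ Q ∧ ∃ s : GQb,
      (∀ x : Zb, s • x - x ^ ℓ ∈ Q) ∧ s ∉ V ∧ ∃ j : ℤ, (g ^ j)⁻¹ * s ∈ V := by
  classical
  let F : IntermediateField ℚ Qb := IntermediateField.fixedField V
  have hfix : F.fixingSubgroup = V :=
    InfiniteGalois.fixingSubgroup_fixedField ⟨V, V.isClosed_of_isOpen hV⟩
  have hfin : FiniteDimensional ℚ F := by
    rw [← InfiniteGalois.isOpen_iff_finite, hfix]
    exact hV
  have hgal : IsGalois ℚ F := by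
    have h := (InfiniteGalois.normal_iff_isGalois F).1 (by rw [hfix]; infer_instance)
    convert h
    exact Subsingleton.elim _ _
  have hNF : NumberField F := { to_charZero := inferInstance, to_finiteDimensional := hfin }
  have hnorm : Normal ℚ F := inferInstance
  let π : GQb →* Gal(F/ℚ) := AlgEquiv.restrictNormalHom F
  have hker : ∀ s : GQb, π s = 1 ↔ s ∈ V := by
    intro s
    rw [← hfix, ← IntermediateField.restrictNormalHom_ker F]
    rfl
  have hπr : (π g) ^ r = 1 := by rw [← map_pow]; exact (hker _).2 hgr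
  have hπ1 : π g ≠ 1 := fun h => hg ((hker _).1 h)
  have hord : orderOf (π g) = r := orderOf_eq_prime hπr hπ1 (hp := ⟨hr⟩)
  let E : IntermediateField ℚ F := IntermediateField.fixedField (Subgroup.zpowers (π g))
  have hEfix : E.fixingSubgroup = Subgroup.zpowers (π g) :=
    IntermediateField.fixingSubgroup_fixedField _
  have hrank : Module.finrank E F = r := by
    rw [IntermediateField.finrank_fixedField_eq_card, Nat.card_zpowers, hord]
  -- the elements moved by automorphisms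
  have hmove : ∀ σ : Gal(F/ℚ), ∃ x : 𝓞 F, σ ≠ 1 → σ • x - x ≠ 0 := by
    intro σ
    have hG : IsGaloisGroup Gal(F/ℚ) ℤ (𝓞 F) :=
      IsGaloisGroup.of_isFractionRing Gal(F/ℚ) ℤ (𝓞 F) ℚ F
    by_cases hσ : σ = 1
    · exact ⟨0, fun h => absurd hσ h⟩
    · by_contra hall
      push Not at hall
      apply hσ
      have := hG.faithful
      refine eq_of_smul_eq_smul (α := 𝓞 F) fun x => ?_
      rw [one_smul]
      exact sub_eq_zero.1 (hall x).2
  choose X hX using hmove
  let B : ℕ := ∑ σ : Gal(F/ℚ), Ideal.absNorm (Ideal.span {σ • X σ - X σ})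
  obtain ⟨ℓ, hℓ, hℓT, P, hP, hmP, t, ht1, ht⟩ := frob_dense (E := E) (F := F)
    (by rw [hrank]; exact hr) (Finset.range (B + M + 1))
  have hℓB : B + M < ℓ := by
    rw [Finset.mem_range, not_lt] at hℓT
    omega
  let t' : Gal(F/ℚ) := t.restrictScalars ℚ
  have ht' : ∀ x : 𝓞 F, t' • x - x ^ ℓ ∈ P := ht
  have ht'1 : t' ≠ 1 := by
    intro h
    apply ht1
    ext x
    exact congrArg _ (DFunLike.congr_fun h x)
  have hmem : t' ∈ Subgroup.zpowers (π g) := by
    rw [← hEfix]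
    intro x
    exact t.commutes x
  have hin : ∀ σ : Gal(F/ℚ), σ ≠ 1 → ∃ x : 𝓞 F, σ • x - x ∉ P := by
    intro σ hσ
    refine ⟨X σ, fun hcon => ?_⟩
    have h1 : Ideal.absNorm P ∣ Ideal.absNorm (Ideal.span {σ • X σ - X σ}) :=
      Ideal.absNorm_dvd_absNorm_of_le ((Ideal.span_singleton_le_iff_mem _).2 hcon)
    have h2 : Ideal.absNorm (Ideal.span {σ • X σ - X σ}) ≠ 0 := by
      rw [Ne, Ideal.absNorm_eq_zero_iff, Ideal.span_singleton_eq_bot]
      exact hX σ hσ
    have h3 := Nat.le_of_dvd (Nat.pos_of_ne_zero h2) h1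
    have h4 : Ideal.absNorm (Ideal.span {σ • X σ - X σ}) ≤ B :=
      Finset.single_le_sum (f := fun σ : Gal(F/ℚ) => Ideal.absNorm (Ideal.span {σ • X σ - X σ}))
        (fun _ _ => Nat.zero_le _) (Finset.mem_univ σ)
    have hPne : P ≠ ⊥ := by
      rintro rfl
      have : (ℓ : 𝓞 F) = 0 := by simpa using hmP
      exact hℓ.ne_zero (by exact_mod_cast this)
    obtain ⟨q, hq, hqP, f, hf1, hf⟩ := exists_char F ⟨P, hP, hPne⟩
    have hqℓ : q = ℓ := by
      by_contra hne
      have hcop : Nat.Coprime q ℓ := (Nat.coprime_primes hq hℓ).2 hne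
      have h5 : (1 : 𝓞 F) ∈ P := by
        have h6 : Int.gcd (q : ℤ) (ℓ : ℤ) = 1 := by simpa using hcop
        obtain ⟨a, b, hab⟩ : IsCoprime (q : ℤ) (ℓ : ℤ) := Int.isCoprime_iff_gcd_eq_one.2 h6
        have h7 : (1 : 𝓞 F) = (a : 𝓞 F) * (q : 𝓞 F) + (b : 𝓞 F) * (ℓ : 𝓞 F) := by
          have := congrArg (fun z : ℤ => (z : 𝓞 F)) hab
          push_cast at this
          exact this.symm
        rw [h7]
        exact P.add_mem (P.mul_mem_left _ hqP) (P.mul_mem_left _ hmP)
      exact hP.ne_top ((Ideal.eq_top_iff_one P).2 h5)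
    have hf' : Ideal.absNorm P = ℓ ^ f := by rw [← hqℓ]; exact hf
    have h8 : ℓ ≤ ℓ ^ f := Nat.le_self_pow (by omega) ℓ
    omega
  obtain ⟨Q, hQ, hmQ, s, hs, hst⟩ := lift_frob F ℓ hℓ P hmP t' ht' hin
  obtain ⟨j, hj⟩ := Subgroup.mem_zpowers_iff.1 hmem
  refine ⟨ℓ, hℓ, by omega, Q, hQ, hmQ, s, hs, ?_, j, ?_⟩
  · intro h
    apply ht'1
    rw [← hst]
    exact (hker s).2 h
  · rw [← hker, map_mul, map_inv, map_zpow, hj]
    have : π s = t' := hst
    rw [this, inv_mul_cancel]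

end Pool.Agent.CG3.GalAux
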