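import Pool.Agent.CG3.GalZeta4

namespace Pool.Agent.CG3.GalAux

open scoped Pointwise nonZeroDivisors
open NumberField IsDedekindDomain

set_option linter.unusedSectionVars false

lemma finite_small (R : Type*) [CommRing R] [IsDomain R] [Finite R] (ℓ : ℕ) (hℓ : ℓ.Prime)
    (h0 : ((ℓ : ℕ) : R) = 0) (hpow : ∀ a : R, a ^ ℓ = a) :
    Nat.card R = ℓ ∧ ∀ a : R, ∃ n : ℕ, a = n := by
  classical
  have := Fintype.ofFinite R
  have hcard : Fintype.card R ≤ ℓ := by
    let p : Polynomial R := Polynomial.X ^ ℓ - Polynomial.X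
    have hdeg : p.natDegree = ℓ := by
      rw [Polynomial.natDegree_sub_eq_left_of_natDegree_lt, Polynomial.natDegree_X_pow]
      rw [Polynomial.natDegree_X, Polynomial.natDegree_X_pow]
      exact hℓ.one_lt
    have hp0 : p ≠ 0 := by
      intro h
      rw [h, Polynomial.natDegree_zero] at hdeg
      exact hℓ.ne_zero hdeg.symm
    rw [← hdeg, ← Finset.card_univ]
    apply Polynomial.card_le_degree_of_subset_roots (p := p) (Z := Finset.univ)
    intro a _
    rw [Polynomial.mem_roots hp0]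
    simp [p, hpow]
  have hchar : CharP R ℓ := by
    obtain ⟨q, hq⟩ := CharP.exists R
    have h2 : q ∣ ℓ := (CharP.cast_eq_zero_iff R q ℓ).1 h0
    rcases (Nat.dvd_prime hℓ).1 h2 with h3 | h3
    · subst h3
      have h4 : ((1 : ℕ) : R) = 0 := CharP.cast_eq_zero _ 1
      rw [Nat.cast_one] at h4
      exact absurd h4 one_ne_zero
    · exact h3 ▸ hq
  have hNe : NeZero ℓ := ⟨hℓ.ne_zero⟩
  have hge : ℓ ≤ Fintype.card R := by
    have h1 := Fintype.card_le_of_injective _ (ZMod.castHom_injective (n := ℓ) R)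
    rwa [ZMod.card] at h1
  have hc : Fintype.card R = ℓ := le_antisymm hcard hge
  constructor
  · rw [Nat.card_eq_fintype_card]
    exact hc
  · intro x
    obtain ⟨a, ha⟩ := (ZMod.castHom_bijective (n := ℓ) R hc).2 x
    refine ⟨a.val, ?_⟩
    rw [← ha, ZMod.castHom_apply, ZMod.cast_eq_val]

/-- If `x ↦ x ^ ℓ` is the identity modulo the prime `P` above `ℓ`, the residue field has `ℓ`
elements, represented by integers. -/
lemma residue_small {F : Type*} [Field F] [NumberField F] (P : Ideal (𝓞 F)) [P.IsPrime]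
    (ℓ : ℕ) (hℓ : ℓ.Prime) (hm : (ℓ : 𝓞 F) ∈ P) (h : ∀ x : 𝓞 F, x - x ^ ℓ ∈ P) :
    Ideal.absNorm P = ℓ ∧ ∀ x : 𝓞 F, ∃ n : ℕ, x - n ∈ P := by
  classical
  have hne : P ≠ ⊥ := by
    rintro rfl
    have : (ℓ : 𝓞 F) = 0 := by simpa using hm
    exact hℓ.ne_zero (by exact_mod_cast this)
  have hfin : Finite (𝓞 F ⧸ P) := Ideal.finiteQuotientOfFreeOfNeBot P hne
  have hpow : ∀ a : 𝓞 F ⧸ P, a ^ ℓ = a := by
    intro a
    obtain ⟨x, rfl⟩ := Ideal.Quotient.mk_surjective a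
    rw [← map_pow, Ideal.Quotient.eq]
    have := P.neg_mem (h x)
    rwa [neg_sub] at this
  have h0 : ((ℓ : ℕ) : 𝓞 F ⧸ P) = 0 := by
    rw [← map_natCast (Ideal.Quotient.mk P)]
    exact Ideal.Quotient.eq_zero_iff_mem.2 hm
  obtain ⟨h1, h2⟩ := finite_small (𝓞 F ⧸ P) ℓ hℓ h0 hpow
  constructor
  · rw [Ideal.absNorm_apply, Submodule.cardQuot_apply]
    exact h1
  · intro x
    obtain ⟨n, hn⟩ := h2 (Ideal.Quotient.mk P x)
    refine ⟨n, ?_⟩
    rw [← Ideal.Quotient.eq, hn, map_natCast]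

theorem frob_dense {E F : Type*} [Field F] [NumberField F] [Field E] [NumberField E] [Algebra E F]
    [IsGalois E F] (hr : (Module.finrank E F).Prime) (T : Finset ℕ) :
    ∃ ℓ : ℕ, ℓ.Prime ∧ ℓ ∉ T ∧ ∃ P : Ideal (𝓞 F), P.IsPrime ∧ (ℓ : 𝓞 F) ∈ P ∧
      ∃ t : Gal(F/E), t ≠ 1 ∧ ∀ x : 𝓞 F, t • x - x ^ ℓ ∈ P := by
  classical
  by_contra hcon
  have h : ∀ ℓ : ℕ, ℓ.Prime → ℓ ∉ T → ∀ P : Ideal (𝓞 F), P.IsPrime → (ℓ : 𝓞 F) ∈ P →
      ∀ t : Gal(F/E), (∀ x : 𝓞 F, t • x - x ^ ℓ ∈ P) → t = 1 := by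
    intro ℓ h1 h2 P h3 h4 t h5
    by_contra h6
    exact hcon ⟨ℓ, h1, h2, P, h3, h4, t, h6, h5⟩
  have hG : IsGaloisGroup Gal(F/E) (𝓞 E) (𝓞 F) :=
    IsGaloisGroup.of_isFractionRing Gal(F/E) (𝓞 E) (𝓞 F) E F
  have hcardG : Nat.card Gal(F/E) = Module.finrank E F := IsGalois.card_aut_eq_finrank E F
  -- elements moved by the non-trivial automorphisms
  have hmove : ∀ σ : Gal(F/E), ∃ x : 𝓞 F, σ ≠ 1 → σ • x - x ≠ 0 := by
    intro σ
    by_cases hσ : σ = 1
    · exact ⟨0, fun h => absurd hσ h⟩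
    · by_contra hall
      push Not at hall
      apply hσ
      have := hG.faithful
      refine eq_of_smul_eq_smul (α := 𝓞 F) fun x => ?_
      rw [one_smul]
      exact sub_eq_zero.1 (hall x).2
  choose X hX using hmove
  let M : ℕ := ∑ σ : Gal(F/E), Ideal.absNorm (Ideal.span {σ • X σ - X σ})
  let T' : Finset ℕ := T ∪ Finset.range (M + 1)
  have hM : ∀ (σ : Gal(F/E)), σ ≠ 1 → ∀ P : Ideal (𝓞 F), σ • X σ - X σ ∈ P →
      Ideal.absNorm P ∈ T' := by
    intro σ hσ P hP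
    have h1 : Ideal.absNorm P ∣ Ideal.absNorm (Ideal.span {σ • X σ - X σ}) :=
      Ideal.absNorm_dvd_absNorm_of_le ((Ideal.span_singleton_le_iff_mem _).2 hP)
    have h2 : Ideal.absNorm (Ideal.span {σ • X σ - X σ}) ≠ 0 := by
      rw [Ne, Ideal.absNorm_eq_zero_iff, Ideal.span_singleton_eq_bot]
      exact hX σ hσ
    have h3 := Nat.le_of_dvd (Nat.pos_of_ne_zero h2) h1
    have h4 : Ideal.absNorm (Ideal.span {σ • X σ - X σ}) ≤ M :=
      Finset.single_le_sum (f := fun σ : Gal(F/E) => Ideal.absNorm (Ideal.span {σ • X σ - X σ}))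
        (fun _ _ => Nat.zero_le _) (Finset.mem_univ σ)
    exact Finset.mem_union_right _ (Finset.mem_range.2 (by omega))
  -- the primes over good primes
  have hgood : ∀ v : ↥((Bad E T')ᶜ), ∀ P : Ideal (𝓞 F), P.IsPrime → P.LiesOver v.1.asIdeal →
      (Ideal.absNorm P = Ideal.absNorm v.1.asIdeal ∧ ∀ x : 𝓞 F, ∃ n : ℕ, x - n ∈ P) := by
    intro v P hP hPv
    have hv : (Ideal.absNorm v.1.asIdeal).Prime ∧ Ideal.absNorm v.1.asIdeal ∉ T' := by
      have := v.2
      simp only [Bad, Set.mem_compl_iff, Set.mem_ofPred_eq, not_not] at this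
      exact this
    have hPne : P ≠ ⊥ := Ideal.ne_bot_of_liesOver_of_ne_bot v.1.ne_bot P
    have hfin : Finite (𝓞 F ⧸ P) := Ideal.finiteQuotientOfFreeOfNeBot P hPne
    have hmem : ((Ideal.absNorm v.1.asIdeal : ℕ) : 𝓞 F) ∈ P := by
      have h1 : ((Ideal.absNorm v.1.asIdeal : ℕ) : 𝓞 E) ∈ v.1.asIdeal := Ideal.absNorm_mem _
      have h2 := (Ideal.mem_of_liesOver P v.1.asIdeal _).1 h1
      simpa using h2
    obtain ⟨t, ht⟩ := IsArithFrobAt.exists_of_isInvariant (𝓞 E) Gal(F/E) P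
    have hcard : Nat.card (𝓞 E ⧸ P.under (𝓞 E)) = Ideal.absNorm v.1.asIdeal := by
      rw [← Ideal.over_def P v.1.asIdeal, Ideal.absNorm_apply, Submodule.cardQuot_apply]
    have ht2 : ∀ x : 𝓞 F, t • x - x ^ (Ideal.absNorm v.1.asIdeal) ∈ P := by
      intro x
      have := ht x
      rw [hcard] at this
      exact this
    have ht1 : t = 1 := h _ hv.1 (fun hT => hv.2 (Finset.mem_union_left _ hT)) P hP hmem t ht2
    subst ht1
    refine residue_small P _ hv.1 hmem (fun x => ?_)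
    have := ht2 x
    rwa [one_smul] at this
  -- choose a prime above
  have hex : ∀ v : ↥((Bad E T')ᶜ), ∃ P : Ideal (𝓞 F), P.IsPrime ∧ P.LiesOver v.1.asIdeal := by
    intro v
    have := v.1.isPrime
    obtain ⟨Q, hQ⟩ := (inferInstance : Nonempty (Ideal.primesOver v.1.asIdeal (𝓞 F)))
    exact ⟨Q, hQ.1, hQ.2⟩
  choose P hP1 hP2 using hex
  let e : Fin (Module.finrank E F) ≃ Gal(F/E) := by
    rw [← hcardG]
    exact (Finite.equivFin _).symm
  have hover : ∀ (v : ↥((Bad E T')ᶜ)) (σ : Gal(F/E)), (σ • P v).LiesOver v.1.asIdeal := by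
    intro v σ
    have := hP2 v
    infer_instance
  have hprime : ∀ (v : ↥((Bad E T')ᶜ)) (σ : Gal(F/E)), (σ • P v).IsPrime := by
    intro v σ
    have := hP1 v
    infer_instance
  refine zeta_contra (Module.finrank E F) hr.two_le T'
    (fun x => ⟨e x.2 • P x.1, hprime x.1 (e x.2), by
      have := hover x.1 (e x.2)
      exact Ideal.ne_bot_of_liesOver_of_ne_bot x.1.1.ne_bot _⟩) ?_ ?_
  · rintro ⟨v, j⟩ ⟨w, k⟩ hvw
    have h1 : e j • P v = e k • P w := congrArg (fun u => u.asIdeal) hvw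
    have hvw' : v = w := by
      apply Subtype.ext
      apply HeightOneSpectrum.ext
      have h2 := hover v (e j)
      have h3 := hover w (e k)
      rw [h2.over, h3.over, h1]
    subst hvw'
    have h4 : ((e k)⁻¹ * e j) • P v = P v := by
      rw [mul_smul, h1, inv_smul_smul]
    have h5 : (e k)⁻¹ * e j = 1 := by
      by_contra hσ
      set σ := (e k)⁻¹ * e j with hσdef
      obtain ⟨hN, hZ⟩ := hgood v (P v) (hP1 v) (hP2 v)
      obtain ⟨n, hn⟩ := hZ (X σ)
      have h6 : σ • (X σ - n) ∈ P v := by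
        rw [← h4]
        exact Ideal.smul_mem_pointwise_smul _ _ _ hn
      have h7 : σ • X σ - X σ ∈ P v := by
        have h8 : σ • X σ - X σ = σ • (X σ - n) - (X σ - n) := by
          rw [smul_sub]
          have : σ • (n : 𝓞 F) = n := by
            exact map_natCast (MulSemiringAction.toRingHom Gal(F/E) (𝓞 F) σ) n
          rw [this]
          ring
        rw [h8]
        exact (P v).sub_mem h6 hn
      have h9 := hM σ hσ (P v) h7
      rw [hN] at h9
      have := v.2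
      simp only [Bad, Set.mem_compl_iff, Set.mem_ofPred_eq, not_not] at this
      exact this.2 h9
    have h6 : e j = e k := (inv_mul_eq_one.1 h5).symm
    rw [e.injective h6]
  · rintro ⟨v, j⟩
    exact (hgood v _ (hprime v (e j)) (hover v (e j))).1

end Pool.Agent.CG3.GalAux
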