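import Pool.Agent.CG3.GalFrob

noncomputable section

namespace Pool.Agent.CG3.GalAux

open scoped Pointwise nonZeroDivisors
open NumberField IsDedekindDomain

set_option linter.unusedSectionVars false

abbrev Qb := AlgebraicClosure ℚ
abbrev GQb := Qb ≃ₐ[ℚ] Qb
abbrev Zb := integralClosure ℤ Qb

instance algQb : Algebra.IsAlgebraic ℚ Qb := by
  have h : (DivisionRing.toRatAlgebra : Algebra ℚ Qb) = AlgebraicClosure.instAlgebra ℚ :=
    Subsingleton.elim _ _
  rw [h]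
  infer_instance

instance closQb : IsAlgClosure ℚ Qb := ⟨AlgebraicClosure.isAlgClosed ℚ, inferInstance⟩

instance galQb : IsGalois ℚ Qb := IsAlgClosure.isGalois ℚ Qb

instance intQb : Algebra.IsIntegral ℚ Qb := Algebra.IsAlgebraic.isIntegral

lemma coe_smul_Zb (g : GQb) (x : Zb) : ((g • x : Zb) : Qb) = g (x : Qb) := rfl

instance : SMulCommClass GQb ℤ Zb := inferInstance

instance invZb : Algebra.IsInvariant ℤ Zb GQb := by
  constructor
  intro b hb
  have h1 : ∀ g : GQb, g (b : Qb) = b := fun g => by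
    rw [← coe_smul_Zb, hb g]
  obtain ⟨q, hq⟩ := (InfiniteGalois.mem_range_algebraMap_iff_fixed (b : Qb)).2 h1
  have h2 : IsIntegral ℤ (b : Qb) := b.2
  rw [← hq, isIntegral_algebraMap_iff (algebraMap ℚ Qb).injective] at h2
  obtain ⟨n, hn⟩ := IsIntegrallyClosed.algebraMap_eq_of_integral h2
  refine ⟨n, ?_⟩
  apply Subtype.ext
  rw [← hq, ← hn]
  simp

/-- Frobenius elements of the absolute Galois group. -/
lemma exists_frob_GQb (ℓ : ℕ) (hℓ : ℓ.Prime) (Q : Ideal Zb) [hQ : Q.IsPrime]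
    (hm : ((ℓ : ℕ) : Zb) ∈ Q) : ∃ s : GQb, ∀ x : Zb, s • x - x ^ ℓ ∈ Q := by
  let _ : TopologicalSpace Zb := ⊥
  have : DiscreteTopology Zb := ⟨rfl⟩
  have : ContinuousSMul GQb Zb := by
    rw [continuousSMul_iff_stabilizer_isOpen]
    intro x
    have h1 : (MulAction.stabilizer GQb x : Set GQb) = MulAction.stabilizer GQb (x : Qb) := by
      ext g
      simp only [SetLike.mem_coe, MulAction.mem_stabilizer_iff]
      constructor
      · intro h
        exact congrArg Subtype.val h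
      · intro h
        exact Subtype.ext h
    rw [h1]
    exact stabilizer_isOpen_of_isIntegral (x : Qb)
  have hchar : CharP (Zb ⧸ Q) ℓ := by
    obtain ⟨q, hq⟩ := CharP.exists (Zb ⧸ Q)
    have h0 : ((ℓ : ℕ) : Zb ⧸ Q) = 0 := by
      rw [← map_natCast (Ideal.Quotient.mk Q)]
      exact Ideal.Quotient.eq_zero_iff_mem.2 hm
    have h2 : q ∣ ℓ := (CharP.cast_eq_zero_iff (Zb ⧸ Q) q ℓ).1 h0
    rcases (Nat.dvd_prime hℓ).1 h2 with h3 | h3
    · subst h3
      have h4 : ((1 : ℕ) : Zb ⧸ Q) = 0 := CharP.cast_eq_zero _ 1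
      rw [Nat.cast_one] at h4
      exact absurd h4 one_ne_zero
    · exact h3 ▸ hq
  have hExp : ExpChar (Zb ⧸ Q) ℓ := .prime hℓ
  have hinj : Function.Injective (frobenius (Zb ⧸ Q) ℓ) := by
    rw [injective_iff_map_eq_zero]
    intro x hx
    exact pow_eq_zero_iff (hℓ.ne_zero) |>.1 hx
  have hsurj : Function.Surjective (frobenius (Zb ⧸ Q) ℓ) := by
    intro a
    obtain ⟨x, rfl⟩ := Ideal.Quotient.mk_surjective a
    obtain ⟨z, hz⟩ := IsAlgClosed.exists_pow_nat_eq (x : Qb) hℓ.pos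
    have hz' : IsIntegral ℤ z := by
      apply IsIntegral.of_pow hℓ.pos
      rw [hz]
      exact x.2
    refine ⟨Ideal.Quotient.mk Q ⟨z, hz'⟩, ?_⟩
    rw [frobenius_def, ← map_pow]
    congr 1
    exact Subtype.ext hz
  let P : Ideal ℤ := Q.under ℤ
  let φ : (Zb ⧸ Q) ≃ₐ[ℤ ⧸ P] (Zb ⧸ Q) :=
    AlgEquiv.ofBijective (AlgHom.mk (frobenius (Zb ⧸ Q) ℓ) (by
      intro r
      obtain ⟨n, rfl⟩ := Ideal.Quotient.mk_surjective r
      have : algebraMap (ℤ ⧸ P) (Zb ⧸ Q) (Ideal.Quotient.mk P n) = ((n : ℤ) : Zb ⧸ Q) := by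
        rw [← map_intCast (algebraMap (ℤ ⧸ P) (Zb ⧸ Q)), ← map_intCast (Ideal.Quotient.mk P)]
        simp
      change frobenius (Zb ⧸ Q) ℓ (algebraMap (ℤ ⧸ P) (Zb ⧸ Q) (Ideal.Quotient.mk P n)) = _
      rw [this, map_intCast])) ⟨hinj, hsurj⟩
  obtain ⟨s, hs⟩ := Ideal.Quotient.stabilizerHom_surjective_of_profinite (G := GQb) P Q φ
  refine ⟨s, fun x => ?_⟩
  rw [← Ideal.Quotient.eq]
  have := DFunLike.congr_fun hs (Ideal.Quotient.mk Q x)
  exact this

end Pool.Agent.CG3.GalAux
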