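import Pool.Agent.CG3.GalLift

noncomputable section

namespace Pool.Agent.CG3.GalAux

open scoped Pointwise nonZeroDivisors
open NumberField IsDedekindDomain

set_option linter.unusedSectionVars false

section
variable (F : IntermediateField ℚ Qb) [NumberField F]

/-- The integers of `F` as algebraic integers. -/
def inc : 𝓞 F →+* Zb where
  toFun x := ⟨((x : F) : Qb), by
    have h : IsIntegral ℤ (x : F) := x.2
    exact h.algebraMap⟩
  map_one' := by apply Subtype.ext; simp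
  map_mul' x y := by apply Subtype.ext; simp
  map_zero' := by apply Subtype.ext; simp
  map_add' x y := by apply Subtype.ext; simp

lemma coe_inc (x : 𝓞 F) : ((inc F x : Zb) : Qb) = ((x : F) : Qb) := rfl

lemma inc_injective : Function.Injective (inc F) := by
  intro x y h
  have h1 := congrArg (Subtype.val) h
  rw [coe_inc, coe_inc] at h1
  exact RingOfIntegers.ext (Subtype.ext h1)

lemma exists_over (P : Ideal (𝓞 F)) [P.IsPrime] :
    ∃ Q : Ideal Zb, Q.IsPrime ∧ Q.comap (inc F) = P := by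
  letI := (inc F).toAlgebra
  have hint : Algebra.IsIntegral (𝓞 F) Zb := by
    constructor
    intro x
    have h1 : IsIntegral ℤ x := by
      have := x.2
      exact (isIntegral_algebraMap_iff (Subtype.val_injective : Function.Injective (algebraMap Zb Qb))).1 this
    exact h1.tower_top
  obtain ⟨Q, _, h1, h2⟩ := Ideal.exists_ideal_over_prime_of_isIntegral P (⊥ : Ideal Zb) (by
    intro x hx
    have : inc F x = 0 := hx
    have : x = 0 := inc_injective F (by rw [this, map_zero])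
    rw [this]
    exact P.zero_mem)
  exact ⟨Q, h1, h2⟩

variable [Normal ℚ F]

lemma inc_smul (s : GQb) (x : 𝓞 F) :
    inc F ((AlgEquiv.restrictNormalHom F s) • x) = s • inc F x := by
  apply Subtype.ext
  rw [coe_smul_Zb, coe_inc, coe_inc]
  have h1 : (((AlgEquiv.restrictNormalHom F s) • x : 𝓞 F) : F) =
      (AlgEquiv.restrictNormalHom F s) (x : F) := by
    have := algebraMap.coe_smul' (B := 𝓞 F) (C := F) (AlgEquiv.restrictNormalHom F s) x
    exact this
  rw [h1]
  exact AlgEquiv.restrictNormal_commutes s F (x : F)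

lemma lift_frob (ℓ : ℕ) (hℓ : ℓ.Prime) (P : Ideal (𝓞 F)) [P.IsPrime] (hm : (ℓ : 𝓞 F) ∈ P)
    (t : Gal(F/ℚ)) (ht : ∀ x : 𝓞 F, t • x - x ^ ℓ ∈ P)
    (hin : ∀ σ : Gal(F/ℚ), σ ≠ 1 → ∃ x : 𝓞 F, σ • x - x ∉ P) :
    ∃ Q : Ideal Zb, Q.IsPrime ∧ ((ℓ : ℕ) : Zb) ∈ Q ∧ ∃ s : GQb, (∀ x : Zb, s • x - x ^ ℓ ∈ Q) ∧
      AlgEquiv.restrictNormalHom F s = t := by
  obtain ⟨Q, hQ, hQP⟩ := exists_over F P
  have hmQ : ((ℓ : ℕ) : Zb) ∈ Q := by
    have : inc F (ℓ : 𝓞 F) ∈ Q := by
      rw [← hQP] at hm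
      exact hm
    simpa using this
  obtain ⟨s, hs⟩ := exists_frob_GQb ℓ hℓ Q hmQ
  refine ⟨Q, hQ, hmQ, s, hs, ?_⟩
  have h1 : ∀ x : 𝓞 F, (AlgEquiv.restrictNormalHom F s) • x - x ^ ℓ ∈ P := by
    intro x
    rw [← hQP, Ideal.mem_comap, map_sub, map_pow, inc_smul]
    exact hs _
  by_contra hne
  have hne' : t⁻¹ * AlgEquiv.restrictNormalHom F s ≠ 1 := by
    intro h
    exact hne (inv_mul_eq_one.1 h).symm
  obtain ⟨x, hx⟩ := hin _ hne'
  apply hx
  set y := (t⁻¹ * AlgEquiv.restrictNormalHom F s) • x - x with hy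
  have h2 : t • y ∈ P := by
    rw [hy, smul_sub, mul_smul, smul_inv_smul]
    have := P.sub_mem (h1 x) (ht x)
    rwa [sub_sub_sub_cancel_right] at this
  have h3 : y ^ ℓ ∈ P := by
    have := P.sub_mem h2 (ht y)
    rwa [sub_sub_cancel] at this
  exact Ideal.IsPrime.mem_of_pow_mem ‹_› _ h3

end

end Pool.Agent.CG3.GalAux
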