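import Mathlib

namespace Pool.Agent.CG3.GalAux

open scoped ENNReal
open Filter Topology

/-- Formal Euler product. -/
noncomputable def Zf {α : Type*} (w : α → ℝ≥0∞) : ℝ≥0∞ := ∑' f : α →₀ ℕ, f.prod fun a n => w a ^ n

lemma prod_split {α β : Type*} (w : α → ℝ≥0∞) (v : β → ℝ≥0∞) (f : α →₀ ℕ) (g : β →₀ ℕ) :
    (Finsupp.sumElim f g).prod (fun a n => Sum.elim w v a ^ n) =
      (f.prod fun a n => w a ^ n) * (g.prod fun a n => v a ^ n) := by
  classical
  rw [Finsupp.prod, Finsupp.prod, Finsupp.prod]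
  have h : (Finsupp.sumElim f g).support = f.support.disjSum g.support := rfl
  rw [h, Finset.prod_disjSum]
  rfl

lemma Zf_sum {α β : Type*} (w : α → ℝ≥0∞) (v : β → ℝ≥0∞) :
    Zf (Sum.elim w v) = Zf w * Zf v := by
  classical
  unfold Zf
  rw [← (Finsupp.sumFinsuppEquivProdFinsupp (α := α) (β := β) (γ := ℕ)).symm.tsum_eq]
  have h1 : ∀ x : (α →₀ ℕ) × (β →₀ ℕ),
      (Finsupp.sumFinsuppEquivProdFinsupp.symm x).prod (fun a n => Sum.elim w v a ^ n) =
      (x.1.prod fun a n => w a ^ n) * (x.2.prod fun a n => v a ^ n) := by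
    intro x
    exact prod_split w v x.1 x.2
  simp_rw [h1]
  rw [ENNReal.tsum_prod']
  simp_rw [ENNReal.tsum_mul_left, ENNReal.tsum_mul_right]

lemma Zf_equiv {α β : Type*} (e : α ≃ β) (w : β → ℝ≥0∞) : Zf (fun a => w (e a)) = Zf w := by
  unfold Zf
  rw [← (Finsupp.domCongr e (M := ℕ)).toEquiv.tsum_eq]
  refine tsum_congr fun f => ?_
  simp only [AddEquiv.toEquiv_eq_coe, EquivLike.coe_coe, Finsupp.domCongr_apply]
  rw [Finsupp.equivMapDomain_eq_mapDomain, Finsupp.prod_mapDomain_index_inj e.injective]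

lemma Zf_prod_fin {α : Type*} (w : α → ℝ≥0∞) (r : ℕ) :
    Zf (fun x : α × Fin r => w x.1) = Zf w ^ r := by
  induction r with
  | zero =>
    unfold Zf
    rw [tsum_eq_single 0]
    · simp
    · intro f hf
      exact absurd (Subsingleton.elim f 0) hf
  | succ r ih =>
    let e : α × Fin (r + 1) ≃ (α × Fin r) ⊕ (α × Fin 1) :=
      ((Equiv.refl α).prodCongr (finSumFinEquiv (m := r) (n := 1)).symm).trans
        (Equiv.prodSumDistrib α (Fin r) (Fin 1))
    have h1 : (fun x : α × Fin (r + 1) => w x.1) =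
        fun x => (Sum.elim (fun x : α × Fin r => w x.1) (fun x : α × Fin 1 => w x.1)) (e x) := by
      funext x
      obtain ⟨a, i⟩ := x
      simp only [e, Equiv.trans_apply, Equiv.prodCongr_apply, Prod.map]
      rcases h : (finSumFinEquiv (m := r) (n := 1)).symm i with j | j
      · simp
      · simp
    rw [h1, Zf_equiv, Zf_sum, ih, pow_succ]
    congr 1
    exact Zf_equiv (Equiv.prodUnique α (Fin 1)) w

lemma Zf_mono {α : Type*} {w v : α → ℝ≥0∞} (h : ∀ a, w a ≤ v a) : Zf w ≤ Zf v := by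
  unfold Zf
  refine ENNReal.tsum_le_tsum fun f => ?_
  exact Finset.prod_le_prod' fun a _ => pow_le_pow_left' (h a) _

lemma sum_le_prod {α : Type*} (w : α → ℝ≥0∞) (F : Finset (α →₀ ℕ)) :
    ∃ (S : Finset α), ∑ f ∈ F, (f.prod fun a n => w a ^ n) ≤ ∏ a ∈ S, ∑' n : ℕ, w a ^ n := by
  classical
  let S : Finset α := F.biUnion Finsupp.support
  let n : ℕ := F.sup (fun f => f.support.sup f)
  refine ⟨S, ?_⟩
  have hn : ∀ f ∈ F, ∀ a, f a ≤ n := by
    intro f hf a
    by_cases ha : a ∈ f.support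
    · exact le_trans (Finset.le_sup (f := fun a => f a) ha)
        (Finset.le_sup (f := fun f : α →₀ ℕ => f.support.sup f) hf)
    · rw [Finsupp.notMem_support_iff.1 ha]; exact Nat.zero_le _
  have hS : ∀ f ∈ F, f.support ⊆ S := fun f hf => Finset.subset_biUnion_of_mem _ hf
  calc ∑ f ∈ F, (f.prod fun a n => w a ^ n)
      = ∑ f ∈ F, ∏ x ∈ S.attach, w x.1 ^ (f x.1) := by
        refine Finset.sum_congr rfl fun f hf => ?_
        rw [Finset.prod_attach S (fun a => w a ^ (f a))]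
        exact Finsupp.prod_of_support_subset f (hS f hf) _ (by simp)
    _ ≤ ∑ p ∈ S.pi (fun _ => Finset.range (n + 1)), ∏ x ∈ S.attach, w x.1 ^ (p x.1 x.2) := by
        let φ : (α →₀ ℕ) → (∀ a ∈ S, ℕ) := fun f a _ => f a
        have hinj : Set.InjOn φ F := by
          intro f hf g hg hfg
          ext a
          by_cases ha : a ∈ S
          · exact congrFun (congrFun hfg a) ha
          · rw [Finsupp.notMem_support_iff.1 (fun h => ha (hS f hf h)),
              Finsupp.notMem_support_iff.1 (fun h => ha (hS g hg h))]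
        have : ∑ f ∈ F, ∏ x ∈ S.attach, w x.1 ^ (f x.1) =
            ∑ p ∈ F.image φ, ∏ x ∈ S.attach, w x.1 ^ (p x.1 x.2) := by
          rw [Finset.sum_image hinj]
        rw [this]
        refine Finset.sum_le_sum_of_subset ?_
        intro p hp
        obtain ⟨f, hf, rfl⟩ := Finset.mem_image.1 hp
        rw [Finset.mem_pi]
        intro a _
        exact Finset.mem_range.2 (Nat.lt_succ_of_le (hn f hf a))
    _ = ∏ a ∈ S, ∑ i ∈ Finset.range (n + 1), w a ^ i :=
        (Finset.prod_sum S (fun _ => Finset.range (n + 1)) (fun a i => w a ^ i)).symm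
    _ ≤ ∏ a ∈ S, ∑' n : ℕ, w a ^ n :=
        Finset.prod_le_prod' fun a _ => ENNReal.sum_le_tsum _

lemma geom_le (x : ℝ) (h0 : 0 ≤ x) (h1 : x ≤ 1 / 2) :
    ∑' n : ℕ, ENNReal.ofReal x ^ n ≤ ENNReal.ofReal (Real.exp (2 * x)) := by
  have h2 : ∀ n : ℕ, ENNReal.ofReal x ^ n = ENNReal.ofReal (x ^ n) := fun n =>
    (ENNReal.ofReal_pow h0 n).symm
  simp_rw [h2]
  rw [← ENNReal.ofReal_tsum_of_nonneg (fun n => pow_nonneg h0 n)
    (summable_geometric_of_lt_one h0 (by linarith)),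
    tsum_geometric_of_lt_one h0 (by linarith)]
  refine ENNReal.ofReal_le_ofReal ?_
  have h3 : (1 - x)⁻¹ ≤ 2 * x + 1 := by
    rw [inv_le_iff_one_le_mul₀ (by linarith)]
    nlinarith
  exact le_trans h3 (Real.add_one_le_exp _)

lemma Zf_ne_top {α : Type*} (x : α → ℝ) (h0 : ∀ a, 0 ≤ x a) (h1 : ∀ a, x a ≤ 1 / 2)
    (hs : Summable x) : Zf (fun a => ENNReal.ofReal (x a)) ≠ ⊤ := by
  classical
  have key : Zf (fun a => ENNReal.ofReal (x a)) ≤ ENNReal.ofReal (Real.exp (2 * ∑' a, x a)) := by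
    unfold Zf
    rw [ENNReal.tsum_eq_iSup_sum]
    refine iSup_le fun F => ?_
    obtain ⟨S, hS⟩ := sum_le_prod (fun a => ENNReal.ofReal (x a)) F
    refine hS.trans ?_
    calc ∏ a ∈ S, ∑' n : ℕ, ENNReal.ofReal (x a) ^ n
        ≤ ∏ a ∈ S, ENNReal.ofReal (Real.exp (2 * x a)) :=
          Finset.prod_le_prod' fun a _ => geom_le _ (h0 a) (h1 a)
      _ = ENNReal.ofReal (Real.exp (2 * ∑ a ∈ S, x a)) := by
          rw [← ENNReal.ofReal_prod_of_nonneg (fun _ _ => (Real.exp_pos _).le), ← Real.exp_sum,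
            Finset.mul_sum]
      _ ≤ _ := by
          refine ENNReal.ofReal_le_ofReal (Real.exp_le_exp.2 ?_)
          have := hs.sum_le_tsum S (fun a _ => h0 a)
          linarith
  exact ne_top_of_le_ne_top ENNReal.ofReal_ne_top key

end Pool.Agent.CG3.GalAux
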