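import Pool.Agent.CG3.GalZeta1

namespace Pool.Agent.CG3.GalAux

open scoped ENNReal nonZeroDivisors
open Filter Topology NumberField IsDedekindDomain UniqueFactorizationMonoid

set_option linter.unusedSectionVars false

section
variable (K : Type*) [Field K] [NumberField K]

/-- The ideal with a given factorisation. -/
noncomputable def idl (f : HeightOneSpectrum (𝓞 K) →₀ ℕ) : Ideal (𝓞 K) :=
  f.prod fun v n => v.asIdeal ^ n

lemma idl_eq (f : HeightOneSpectrum (𝓞 K) →₀ ℕ) :
    idl K f = ((Finsupp.toMultiset f).map (fun v => v.asIdeal)).prod := by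
  rw [idl, Finsupp.toMultiset_map, Finsupp.prod_toMultiset]
  rw [Finsupp.prod_mapDomain_index_inj]
  intro v w h
  exact HeightOneSpectrum.ext h

lemma idl_ne_bot (f : HeightOneSpectrum (𝓞 K) →₀ ℕ) : idl K f ≠ ⊥ := by
  rw [idl, Finsupp.prod, ← Ideal.zero_eq_bot, Finset.prod_ne_zero_iff]
  intro v _
  exact pow_ne_zero _ v.ne_bot

lemma idl_injective : Function.Injective (idl K) := by
  classical
  intro f g h
  rw [idl_eq, idl_eq] at h
  have h2 : ∀ f : HeightOneSpectrum (𝓞 K) →₀ ℕ,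
      normalizedFactors ((Finsupp.toMultiset f).map (fun v => v.asIdeal)).prod =
      (Finsupp.toMultiset f).map (fun v => v.asIdeal) := by
    intro f
    apply normalizedFactors_prod_of_prime
    intro p hp
    obtain ⟨v, _, rfl⟩ := Multiset.mem_map.1 hp
    exact v.prime
  have h3 := congrArg normalizedFactors h
  rw [h2, h2] at h3
  have h4 := Multiset.map_injective (fun v w h => HeightOneSpectrum.ext h) h3
  exact Multiset.toFinsupp.symm.injective h4

lemma idl_surj (I : Ideal (𝓞 K)) (hI : I ≠ ⊥) : ∃ f, idl K f = I := by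
  classical
  have h1 : (normalizedFactors I).prod = I := by
    have := prod_normalizedFactors hI
    exact associated_iff_eq.1 this
  let m : Multiset (HeightOneSpectrum (𝓞 K)) :=
    (normalizedFactors I).pmap (fun p hp => (⟨p, Ideal.isPrime_of_prime hp,
      hp.ne_zero⟩ : HeightOneSpectrum (𝓞 K))) (fun p hp => prime_of_normalized_factor p hp)
  refine ⟨Multiset.toFinsupp m, ?_⟩
  rw [idl_eq, Multiset.toFinsupp_toMultiset]
  simp only [m, Multiset.map_pmap]
  rw [Multiset.pmap_eq_map, Multiset.map_id']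
  exact h1

lemma absNorm_idl (f : HeightOneSpectrum (𝓞 K) →₀ ℕ) :
    Ideal.absNorm (idl K f) = f.prod fun v n => (Ideal.absNorm v.asIdeal) ^ n := by
  rw [idl, map_finsuppProd]
  simp

/-- weights -/
noncomputable def wt (s : ℝ) (n : ℕ) : ℝ≥0∞ := ENNReal.ofReal ((n : ℝ) ^ (-s))

lemma wt_mul (s : ℝ) (m n : ℕ) : wt s (m * n) = wt s m * wt s n := by
  unfold wt
  rw [← ENNReal.ofReal_mul (by positivity)]
  push_cast
  rw [Real.mul_rpow (by positivity) (by positivity)]

lemma wt_one (s : ℝ) : wt s 1 = 1 := by simp [wt]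

lemma wt_pow (s : ℝ) (m n : ℕ) : wt s (m ^ n) = wt s m ^ n := by
  induction n with
  | zero => simp [wt_one]
  | succ n ih => rw [pow_succ, pow_succ, wt_mul, ih]

lemma wt_prod (s : ℝ) {ι : Type*} (S : Finset ι) (f : ι → ℕ) :
    wt s (∏ i ∈ S, f i) = ∏ i ∈ S, wt s (f i) := by
  classical
  induction S using Finset.induction_on with
  | empty => simp [wt_one]
  | insert a S ha ih => rw [Finset.prod_insert ha, Finset.prod_insert ha, wt_mul, ih]

/-- The zeta function. -/
noncomputable def ZK (s : ℝ) : ℝ≥0∞ :=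
  Zf (fun v : HeightOneSpectrum (𝓞 K) => wt s (Ideal.absNorm v.asIdeal))

lemma ZK_eq (s : ℝ) (hs : 0 < s) : ZK K s = ∑' I : Ideal (𝓞 K), wt s (Ideal.absNorm I) := by
  unfold ZK Zf
  rw [← (idl_injective K).tsum_eq (f := fun I => wt s (Ideal.absNorm I))]
  · refine tsum_congr fun f => ?_
    rw [absNorm_idl, Finsupp.prod, Finsupp.prod, wt_prod]
    exact Finset.prod_congr rfl fun v _ => (wt_pow _ _ _).symm
  · intro I hI
    have : I ≠ ⊥ := by
      rintro rfl
      apply hI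
      simp [wt, Real.zero_rpow (neg_ne_zero.2 hs.ne')]
    obtain ⟨f, hf⟩ := idl_surj K I this
    exact ⟨f, hf⟩

lemma ZK_eq_nat (s : ℝ) (hs : 0 < s) :
    ZK K s = ∑' n : ℕ, (Nat.card {I : Ideal (𝓞 K) // Ideal.absNorm I = n} : ℝ≥0∞) * wt s n := by
  rw [ZK_eq K s hs, ← (Equiv.sigmaFiberEquiv (fun I : Ideal (𝓞 K) => Ideal.absNorm I)).tsum_eq,
    ENNReal.tsum_sigma']
  refine tsum_congr fun n => ?_
  have h1 : ∀ I : {I : Ideal (𝓞 K) // Ideal.absNorm I = n},
      wt s (Ideal.absNorm ((Equiv.sigmaFiberEquiv fun I : Ideal (𝓞 K) => Ideal.absNorm I) ⟨n, I⟩)) =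
      wt s n := by
    rintro ⟨I, rfl⟩
    rfl
  simp_rw [h1]
  have hfin : Finite {I : Ideal (𝓞 K) // Ideal.absNorm I = n} := by
    exact Set.finite_coe_iff.2 (Ideal.finite_setOfPred_absNorm_eq n)
  rw [ENNReal.tsum_const, ENat.card_eq_coe_natCard]
  rfl

lemma term_real (f : ℕ → ℕ) (s : ℝ) (hs : 0 < s) (n : ℕ) :
    LSeries.term (fun n => (f n : ℂ)) s n = (((f n : ℝ) * (n : ℝ) ^ (-s) : ℝ) : ℂ) := by
  rw [LSeries.term_def]
  split_ifs with h
  · subst h
    simp [Real.zero_rpow (neg_ne_zero.2 hs.ne')]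
  · push_cast
    rw [Complex.ofReal_cpow (by positivity)]
    push_cast
    rw [Complex.cpow_neg, div_eq_mul_inv]

lemma dedekind_real (s : ℝ) (hs : 1 < s) (hne : dedekindZeta K s ≠ 0) :
    ZK K s = ENNReal.ofReal ‖dedekindZeta K s‖ := by
  have hs0 : 0 < s := by linarith
  let a : ℕ → ℕ := fun n => Nat.card {I : Ideal (𝓞 K) // Ideal.absNorm I = n}
  have hterm : ∀ n, LSeries.term (fun n => (a n : ℂ)) s n =
      (((a n : ℝ) * (n : ℝ) ^ (-s) : ℝ) : ℂ) := fun n => term_real a s hs0 n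
  have hz : dedekindZeta K s = ∑' n, (((a n : ℝ) * (n : ℝ) ^ (-s) : ℝ) : ℂ) := by
    have : dedekindZeta K s = ∑' n, LSeries.term (fun n => (a n : ℂ)) s n := rfl
    rw [this]
    exact tsum_congr hterm
  have hsum : Summable (fun n : ℕ => (a n : ℝ) * (n : ℝ) ^ (-s)) := by
    by_contra hcon
    apply hne
    rw [hz]
    apply tsum_eq_zero_of_not_summable
    intro h
    exact hcon (Complex.summable_ofReal.1 h)
  have hz2 : dedekindZeta K s = ((∑' n, (a n : ℝ) * (n : ℝ) ^ (-s) : ℝ) : ℂ) := by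
    rw [hz, Complex.ofReal_tsum]
  have hnn : ∀ n : ℕ, 0 ≤ (a n : ℝ) * (n : ℝ) ^ (-s) := fun n => by positivity
  rw [hz2, Complex.norm_real, Real.norm_of_nonneg (tsum_nonneg hnn),
    ENNReal.ofReal_tsum_of_nonneg hnn hsum, ZK_eq_nat K s hs0]
  refine tsum_congr fun n => ?_
  rw [ENNReal.ofReal_mul (by positivity), ENNReal.ofReal_natCast]
  rfl

/-- The pole at `1`. -/
lemma ZK_bounds : ∃ c C : ℝ, 0 < c ∧ 0 < C ∧ ∀ᶠ s : ℝ in 𝓝[>] 1,
    ENNReal.ofReal (c / (s - 1)) ≤ ZK K s ∧ ZK K s ≤ ENNReal.ofReal (C / (s - 1)) := by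
  have hpos := dedekindZeta_residue_pos K
  refine ⟨dedekindZeta_residue K / 2, 2 * dedekindZeta_residue K, by positivity, by positivity, ?_⟩
  have h1 := (tendsto_sub_one_mul_dedekindZeta_nhdsGT K).norm
  have h2 : ‖((dedekindZeta_residue K : ℝ) : ℂ)‖ = dedekindZeta_residue K := by
    rw [Complex.norm_real, Real.norm_of_nonneg hpos.le]
  rw [h2] at h1
  have h3 := h1.eventually (Ioo_mem_nhds (show dedekindZeta_residue K / 2 < dedekindZeta_residue K by
    linarith) (show dedekindZeta_residue K < 2 * dedekindZeta_residue K by linarith))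
  filter_upwards [h3, self_mem_nhdsWithin] with s hs hs1
  have hs1' : 0 < s - 1 := sub_pos.2 hs1
  have h4 : ‖((s : ℂ) - 1) * dedekindZeta K s‖ = (s - 1) * ‖dedekindZeta K s‖ := by
    rw [norm_mul]
    congr 1
    have : ((s : ℂ) - 1) = ((s - 1 : ℝ) : ℂ) := by push_cast; rfl
    rw [this, Complex.norm_real, Real.norm_of_nonneg hs1'.le]
  rw [h4] at hs
  have hne : dedekindZeta K s ≠ 0 := by
    intro h0
    rw [h0, norm_zero, mul_zero] at hs
    have := hs.1
    linarith
  rw [dedekind_real K s hs1 hne]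
  constructor
  · refine ENNReal.ofReal_le_ofReal ?_
    rw [div_le_iff₀ hs1']
    linarith [hs.1]
  · refine ENNReal.ofReal_le_ofReal ?_
    rw [le_div_iff₀ hs1']
    linarith [hs.2]

end

end Pool.Agent.CG3.GalAux
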