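import Pool.Agent.CG3.GalZeta2

namespace Pool.Agent.CG3.GalAux

open scoped ENNReal nonZeroDivisors
open Filter Topology NumberField IsDedekindDomain UniqueFactorizationMonoid

set_option linter.unusedSectionVars false

section
variable (K : Type*) [Field K] [NumberField K]

lemma absNorm_span_nat (n : ℕ) :
    Ideal.absNorm (Ideal.span {(n : 𝓞 K)}) = n ^ Module.finrank ℚ K := by
  rw [Ideal.absNorm_span_singleton]
  have : (n : 𝓞 K) = algebraMap ℤ (𝓞 K) (n : ℤ) := by simp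
  rw [this, Algebra.norm_algebraMap, RingOfIntegers.rank]
  simp [Int.natAbs_pow]

lemma two_le_absNorm (v : HeightOneSpectrum (𝓞 K)) : 2 ≤ Ideal.absNorm v.asIdeal := by
  have h0 : Ideal.absNorm v.asIdeal ≠ 0 := by
    rw [Ne, Ideal.absNorm_eq_zero_iff]; exact v.ne_bot
  have h1 : Ideal.absNorm v.asIdeal ≠ 1 := by
    rw [Ne, Ideal.absNorm_eq_one_iff]; exact v.isPrime.ne_top
  omega

/-- A prime ideal contains a prime number; its norm is a power of it. -/
lemma exists_char (v : HeightOneSpectrum (𝓞 K)) : ∃ ℓ : ℕ, ℓ.Prime ∧ (ℓ : 𝓞 K) ∈ v.asIdeal ∧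
    ∃ f : ℕ, 1 ≤ f ∧ Ideal.absNorm v.asIdeal = ℓ ^ f := by
  have hmem : ((Ideal.absNorm v.asIdeal : ℕ) : 𝓞 K) ∈ v.asIdeal := Ideal.absNorm_mem _
  have key : ∀ n : ℕ, n ≠ 0 → (n : 𝓞 K) ∈ v.asIdeal → ∃ ℓ : ℕ, ℓ.Prime ∧ (ℓ : 𝓞 K) ∈ v.asIdeal := by
    intro n hn h
    induction n using Nat.recOnMul with
    | zero => exact absurd rfl hn
    | one => exact absurd ((Ideal.eq_top_iff_one _).2 (by simpa using h)) v.isPrime.ne_top
    | prime p hp => exact ⟨p, hp, h⟩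
    | mul a b ha hb =>
      rw [Nat.cast_mul] at h
      rcases v.isPrime.mem_or_mem h with h1 | h1
      · exact ha (by rintro rfl; simp at hn) h1
      · exact hb (by rintro rfl; simp at hn) h1
  obtain ⟨ℓ, hℓ, hm⟩ := key _ (by have := two_le_absNorm K v; omega) hmem
  refine ⟨ℓ, hℓ, hm, ?_⟩
  have hd : Ideal.absNorm v.asIdeal ∣ ℓ ^ Module.finrank ℚ K := by
    rw [← absNorm_span_nat]
    exact Ideal.absNorm_dvd_absNorm_of_le ((Ideal.span_singleton_le_iff_mem _).2 hm)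
  obtain ⟨f, _, hf⟩ := (Nat.dvd_prime_pow hℓ).1 hd
  refine ⟨f, ?_, hf⟩
  by_contra h
  have : f = 0 := by omega
  subst this
  have := two_le_absNorm K v
  rw [hf] at this
  simp at this

lemma card_above (ℓ : ℕ) (hℓ : ℓ.Prime) (Φ : Finset (HeightOneSpectrum (𝓞 K)))
    (h : ∀ v ∈ Φ, (ℓ : 𝓞 K) ∈ v.asIdeal) : Φ.card ≤ Module.finrank ℚ K := by
  classical
  have hle : ∀ v ∈ Φ, ℓ ≤ Ideal.absNorm v.asIdeal := by
    intro v hv
    obtain ⟨q, hq, hqm, f, hf1, hf⟩ := exists_char K v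
    have hd : Ideal.absNorm v.asIdeal ∣ ℓ ^ Module.finrank ℚ K := by
      rw [← absNorm_span_nat]
      exact Ideal.absNorm_dvd_absNorm_of_le ((Ideal.span_singleton_le_iff_mem _).2 (h v hv))
    obtain ⟨g, _, hg⟩ := (Nat.dvd_prime_pow hℓ).1 hd
    rw [hg]
    have : g ≠ 0 := by
      rintro rfl
      have := two_le_absNorm K v
      rw [hg] at this
      simp at this
    exact Nat.le_self_pow this ℓ
  have hdvd : ∏ v ∈ Φ, v.asIdeal ∣ Ideal.span {(ℓ : 𝓞 K)} := by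
    have h1 : ∏ v ∈ Φ, v.asIdeal = ∏ p ∈ Φ.image (fun v => v.asIdeal), p := by
      rw [Finset.prod_image]
      intro v _ w _ hvw
      exact HeightOneSpectrum.ext hvw
    rw [h1]
    apply Finset.prod_primes_dvd
    · intro p hp
      obtain ⟨v, _, rfl⟩ := Finset.mem_image.1 hp
      exact v.prime
    · intro p hp
      obtain ⟨v, hv, rfl⟩ := Finset.mem_image.1 hp
      exact Ideal.dvd_iff_le.2 ((Ideal.span_singleton_le_iff_mem _).2 (h v hv))
  have h2 : ∏ v ∈ Φ, Ideal.absNorm v.asIdeal ∣ ℓ ^ Module.finrank ℚ K := by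
    rw [← absNorm_span_nat, ← map_prod]
    exact Ideal.absNorm_dvd_absNorm_of_le (Ideal.dvd_iff_le.1 hdvd)
  have h3 : ℓ ^ Φ.card ≤ ℓ ^ Module.finrank ℚ K := by
    calc ℓ ^ Φ.card = ∏ v ∈ Φ, ℓ := by rw [Finset.prod_const]
      _ ≤ ∏ v ∈ Φ, Ideal.absNorm v.asIdeal := Finset.prod_le_prod' hle
      _ ≤ _ := Nat.le_of_dvd (pow_pos hℓ.pos _) h2
  exact (Nat.pow_le_pow_iff_right hℓ.one_lt).1 h3

/-- bad primes -/
def Bad (T : Finset ℕ) : Set (HeightOneSpectrum (𝓞 K)) :=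
  {v | ¬ ((Ideal.absNorm v.asIdeal).Prime ∧ Ideal.absNorm v.asIdeal ∉ T)}

lemma summable_bad (T : Finset ℕ) :
    Summable (fun v : Bad K T => (Ideal.absNorm v.1.asIdeal : ℝ) ^ (-1 : ℝ)) := by
  classical
  let c : Bad K T → ℕ := fun v => (Ideal.absNorm v.1.asIdeal).minFac
  let h : ℕ → ℝ := fun n => ((n : ℝ) ^ 2)⁻¹ + if n ∈ T then 1 else 0
  have hc : ∀ v : Bad K T, (c v).Prime ∧ ((c v : ℕ) : 𝓞 K) ∈ v.1.asIdeal ∧ ∃ f : ℕ, 1 ≤ f ∧
      Ideal.absNorm v.1.asIdeal = (c v) ^ f := by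
    intro v
    obtain ⟨ℓ, hℓ, hm, f, hf1, hf⟩ := exists_char K v.1
    have : c v = ℓ := by
      simp only [c]
      rw [hf]
      exact hℓ.pow_minFac (by omega)
    rw [this]
    exact ⟨hℓ, hm, f, hf1, hf⟩
  have hh0 : ∀ n, 0 ≤ h n := by
    intro n
    simp only [h]
    positivity
  have hsum : Summable h := by
    refine Summable.add ?_ ?_
    · exact (Real.summable_nat_pow_inv (p := 2)).2 (by norm_num)
    · exact summable_of_ne_finset_zero (s := T) (fun n hn => by simp [hn])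
  have hle : ∀ v : Bad K T, (Ideal.absNorm v.1.asIdeal : ℝ) ^ (-1 : ℝ) ≤ h (c v) := by
    intro v
    obtain ⟨hℓ, hm, f, hf1, hf⟩ := hc v
    have hℓ1 : (1 : ℝ) ≤ (c v : ℝ) := by exact_mod_cast hℓ.one_lt.le
    rw [hf, Real.rpow_neg_one]
    by_cases hf2 : f = 1
    · subst hf2
      have hT : c v ∈ T := by
        by_contra hcon
        apply v.2
        rw [hf, pow_one]
        exact ⟨hℓ, hcon⟩
      simp only [h, hT, if_true, pow_one]
      have : ((c v : ℝ))⁻¹ ≤ 1 := inv_le_one_of_one_le₀ hℓ1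
      have h3 : (0 : ℝ) ≤ ((c v : ℝ) ^ 2)⁻¹ := by positivity
      linarith
    · have hf3 : 2 ≤ f := by omega
      have h4 : ((c v : ℝ) ^ 2) ≤ ((c v ^ f : ℕ) : ℝ) := by
        push_cast
        exact pow_le_pow_right₀ hℓ1 hf3
      have h5 : (((c v ^ f : ℕ) : ℝ))⁻¹ ≤ ((c v : ℝ) ^ 2)⁻¹ := by
        apply inv_anti₀ _ h4
        positivity
      simp only [h]
      split_ifs <;> linarith
  refine summable_of_sum_le (c := (Module.finrank ℚ K : ℝ) * ∑' n, h n)
    (fun v => by positivity) (fun u => ?_)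
  calc ∑ v ∈ u, (Ideal.absNorm v.1.asIdeal : ℝ) ^ (-1 : ℝ) ≤ ∑ v ∈ u, h (c v) :=
        Finset.sum_le_sum fun v _ => hle v
    _ = ∑ n ∈ u.image c, (u.filter (fun v => c v = n)).card • h n := Finset.sum_comp h c
    _ ≤ ∑ n ∈ u.image c, (Module.finrank ℚ K : ℝ) * h n := by
        refine Finset.sum_le_sum fun n hn => ?_
        rw [nsmul_eq_mul]
        refine mul_le_mul_of_nonneg_right ?_ (hh0 n)
        obtain ⟨v0, _, hv0⟩ := Finset.mem_image.1 hn
        have h6 := card_above K n (hv0 ▸ (hc v0).1)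
          ((u.filter (fun v => c v = n)).map (Function.Embedding.subtype _)) (by
            intro v hv
            obtain ⟨w, hw, rfl⟩ := Finset.mem_map.1 hv
            have := (Finset.mem_filter.1 hw).2
            rw [← this]
            exact (hc w).2.1)
        rw [Finset.card_map] at h6
        exact_mod_cast h6
    _ = (Module.finrank ℚ K : ℝ) * ∑ n ∈ u.image c, h n := by rw [Finset.mul_sum]
    _ ≤ _ := mul_le_mul_of_nonneg_left (hsum.sum_le_tsum _ (fun n _ => hh0 n)) (by positivity)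

end

end Pool.Agent.CG3.GalAux
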