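import Pool.Agent.CG3.Statement
import Pool.Agent.CG3.GalCore

/-!
# D: the Galois side

A three-dimensional Galois representation over a field of characteristic `p` whose Frobenius
elements at the primes `ℓ ≡ 1 mod N` outside a finite set are unipotent is Eisenstein.
-/

noncomputable section

namespace Pool.Agent.CG3

open Matrix

variable {p : P} {S : Finset P}

/-- **D** -/
theorem galois_side {k : Type} [Field k] [CharP k (p : ℕ)] (ρ : GalQ →* GL (Fin 3) k)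
    (hρ : IsOpen (ρ.ker : Set GalQ)) (N : ℕ) (hN : 0 < N) (e : ℤˣ)
    (hfrob : ∀ ℓ : P, ℓ ∉ S → (ℓ : ℕ) ≡ 1 [MOD N] → ∀ Q : Ideal Zbar, Q.IsPrime →
      ((ℓ : ℕ) : Zbar) ∈ Q → ∀ s : GalQ, IsFrob ℓ Q s →
        (ρ (s ^ (e : ℤ)) : Matrix (Fin 3) (Fin 3) k).charpoly = (Polynomial.X - 1) ^ 3) :
    ¬ NonEisenstein ρ := by
  classical
  intro hne
  obtain ⟨k', i1, i2, hfin, V, hV, hbot, htop⟩ := GalAux.core (p : ℕ) p.2 ρ hρ N hN e
    (S.image (fun q : P => (q : ℕ))) (by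
      intro ℓ hℓ hℓS hmod Q hQ hm s hs
      refine hfrob ⟨ℓ, hℓ⟩ (fun h => hℓS (Finset.mem_image.2 ⟨⟨ℓ, hℓ⟩, h, rfl⟩)) hmod Q hQ hm s ?_
      intro x y hxy
      have h1 : y = s • x := Subtype.ext hxy
      rw [h1]
      exact hs x)
  rcases hne k' hfin V hV with h | h
  · exact hbot h
  · exact htop h

end Pool.Agent.CG3
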