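import Pool.Agent.CG3.Defs

/-!
# The Hecke operators on the modules `Forms`
-/

noncomputable section

namespace Pool.Agent.CG3

open Matrix

theorem isOpen_GZ (ℓ : P) : IsOpen (GZ ℓ : Set (GQ ℓ)) := by
  have h : (GZ ℓ : Set (GQ ℓ)) =
      ⋂ i, ⋂ j, ({g : GQ ℓ | ‖(g : Matrix (Fin 3) (Fin 3) ℚ_[(ℓ : ℕ)]) i j‖ ≤ 1} ∩
        {g : GQ ℓ | ‖((g⁻¹ : GQ ℓ) : Matrix (Fin 3) (Fin 3) ℚ_[(ℓ : ℕ)]) i j‖ ≤ 1}) := by
    ext g
    simp only [SetLike.mem_coe, mem_GZ_iff, Set.mem_iInter, Set.mem_inter_iff,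
      Set.mem_ofPred_eq]
    constructor
    · intro h i j
      exact ⟨h.1 i j, h.2 i j⟩
    · intro h
      exact ⟨fun i j => (h i j).1, fun i j => (h i j).2⟩
  rw [h]
  refine isOpen_iInter_of_finite fun i => isOpen_iInter_of_finite fun j => ?_
  have hb : IsOpen {x : ℚ_[(ℓ : ℕ)] | ‖x‖ ≤ 1} := by
    have := IsUltrametricDist.isOpen_closedBall (0 : ℚ_[(ℓ : ℕ)]) (r := 1) one_ne_zero
    simpa [Metric.closedBall, dist_eq_norm] using this
  refine IsOpen.inter ?_ ?_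
  · exact hb.preimage ((Units.continuous_val.matrix_elem i j))
  · exact hb.preimage ((Units.continuous_val.comp continuous_inv).matrix_elem i j)

theorem isCompact_GZ (ℓ : P) : IsCompact (GZ ℓ : Set (GQ ℓ)) := by
  have : (GZ ℓ : Set (GQ ℓ)) = Set.range
      (GeneralLinearGroup.map (n := Fin 3) (algebraMap ℤ_[(ℓ : ℕ)] ℚ_[(ℓ : ℕ)])) := rfl
  rw [this]
  have hc : CompactSpace (Matrix (Fin 3) (Fin 3) ℤ_[(ℓ : ℕ)]) :=
    inferInstanceAs (CompactSpace (Fin 3 → Fin 3 → ℤ_[(ℓ : ℕ)]))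
  have hc' : CompactSpace (GL (Fin 3) ℤ_[(ℓ : ℕ)]) :=
    inferInstanceAs (CompactSpace (Matrix (Fin 3) (Fin 3) ℤ_[(ℓ : ℕ)])ˣ)
  apply isCompact_range
  have hcast : Continuous (fun x : ℤ_[(ℓ : ℕ)] => (x : ℚ_[(ℓ : ℕ)])) := continuous_subtype_val
  refine Units.continuous_iff.2 ⟨?_, ?_⟩
  · refine continuous_matrix fun i j => ?_
    have h1 : Continuous (fun u : GL (Fin 3) ℤ_[(ℓ : ℕ)] =>
        (u : Matrix (Fin 3) (Fin 3) ℤ_[(ℓ : ℕ)]) i j) := Units.continuous_val.matrix_elem i j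
    exact hcast.comp h1
  · refine continuous_matrix fun i j => ?_
    have h1 : Continuous (fun u : GL (Fin 3) ℤ_[(ℓ : ℕ)] =>
        ((u⁻¹ : GL (Fin 3) ℤ_[(ℓ : ℕ)]) : Matrix (Fin 3) (Fin 3) ℤ_[(ℓ : ℕ)]) i j) :=
      (Units.continuous_val.comp continuous_inv).matrix_elem i j
    exact hcast.comp h1

theorem cosets_finite (ℓ : P) (j : Fin 4) : (cosets ℓ j).Finite := by
  have h1 : cosets ℓ j = (fun k : GQ ℓ => ((k * alpha ℓ j : GQ ℓ) : GQ ℓ ⧸ GZ ℓ)) ''
      (GZ ℓ : Set (GQ ℓ)) := by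
    ext c
    simp only [cosets, Set.mem_ofPred_eq, Set.mem_image, SetLike.mem_coe]
    constructor
    · rintro ⟨k, hk, rfl⟩
      exact ⟨k, hk, rfl⟩
    · rintro ⟨k, hk, rfl⟩
      exact ⟨k, hk, rfl⟩
  rw [h1]
  have : DiscreteTopology (GQ ℓ ⧸ GZ ℓ) :=
    QuotientGroup.discreteTopology (isOpen_GZ ℓ)
  apply IsCompact.finite_of_discrete
  apply (isCompact_GZ ℓ).image
  exact (QuotientGroup.continuous_mk).comp (continuous_mul_const _)

variable {p : P} {S : Finset P}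
variable {O : Type} [CommRing O] {W : Type} [AddCommGroup W] [Module O W]

/-- Elements of `GL₃(𝔸_f)` at different primes commute. -/
theorem single_comm {ℓ q : P} (h : ℓ ≠ q) (a : GQ ℓ) (b : GQ q) :
    single ℓ a * single q b = single q b * single ℓ a := by
  apply Subtype.ext
  funext r
  simp only [Subgroup.coe_mul, single_apply, Pi.mul_apply]
  by_cases h1 : r = ℓ
  · subst h1
    rw [Pi.mulSingle_eq_of_ne (M := fun ℓ => GQ ℓ) h b, mul_one, one_mul]
  · rw [Pi.mulSingle_eq_of_ne (M := fun ℓ => GQ ℓ) h1 a, mul_one, one_mul]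

/-- Right translation by an element of `GL₃(ℤ_ℓ)`, `ℓ ∉ S`, does nothing on `Forms`. -/
theorem forms_mul_single {L : Level p S} {σ : Representation O (L.K p) W} (f : Forms L σ)
    {ℓ : P} (hℓ : ℓ ∉ S) (x : ℤˣ) (g : GA) (k : GQ ℓ) (hk : k ∈ GZ ℓ) :
    f.1 (x, g * single ℓ k) = f.1 (x, g) := by
  have hp : p ≠ ℓ := fun h => hℓ (h ▸ L.mem)
  have hmem : single ℓ k ∈ L.Kf := by
    intro q
    by_cases h : q = ℓ
    · subst h
      rw [single_apply, Pi.mulSingle_eq_same, L.off _ hℓ]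
      exact hk
    · rw [single_apply, Pi.mulSingle_eq_of_ne h]
      exact (L.K q).one_mem
  have := f.2 x g ⟨_, hmem⟩
  rw [this]
  have h1 : (⟨(single ℓ k).1 p, hmem p⟩ : L.K p) = 1 := by
    apply Subtype.ext
    exact Pi.mulSingle_eq_of_ne hp k
  rw [h1]
  simp

/-- The value of `f` at `(x, g h)` depends only on the coset `h GL₃(ℤ_ℓ)`. -/
theorem forms_congr_coset {L : Level p S} {σ : Representation O (L.K p) W} (f : Forms L σ)
    {ℓ : P} (hℓ : ℓ ∉ S) (x : ℤˣ) (g : GA) {h h' : GQ ℓ}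
    (hh : (h : GQ ℓ ⧸ GZ ℓ) = (h' : GQ ℓ ⧸ GZ ℓ)) :
    f.1 (x, g * single ℓ h) = f.1 (x, g * single ℓ h') := by
  have h1 : h⁻¹ * h' ∈ GZ ℓ := QuotientGroup.eq.1 hh
  have h2 := forms_mul_single f hℓ x (g * single ℓ h) _ h1
  rw [mul_assoc, ← map_mul, mul_inv_cancel_left] at h2
  exact h2.symm

/-- Left multiplication by an element of `GL₃(ℤ_ℓ)` permutes the cosets. -/
theorem smul_mem_cosets {ℓ : P} {j : Fin 4} {c : GQ ℓ ⧸ GZ ℓ} (hc : c ∈ cosets ℓ j)
    {k : GQ ℓ} (hk : k ∈ GZ ℓ) : k • c ∈ cosets ℓ j := by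
  obtain ⟨u, hu, rfl⟩ := hc
  refine ⟨k * u, (GZ ℓ).mul_mem hk hu, ?_⟩
  rw [mul_assoc]
  rfl

/-- The sum over the cosets in the definition of the Hecke operators. -/
def heckeSum {ℓ : P} (j : Fin 4) (f : ℤˣ × GA → W) (y : ℤˣ × GA) : W :=
  ∑ c ∈ (cosets_finite ℓ j).toFinset, f (y.1, y.2 * single ℓ (Quotient.out c))

theorem heckeSum_mem {L : Level p S} {σ : Representation O (L.K p) W} (f : Forms L σ)
    {ℓ : P} (hℓ : ℓ ∉ S) (j : Fin 4) : heckeSum (ℓ := ℓ) j f.1 ∈ Forms L σ := by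
  intro x g k
  have hp : p ≠ ℓ := fun h => hℓ (h ▸ L.mem)
  -- the element `k` with its component at `ℓ` removed
  set a : GQ ℓ := k.1.1 ℓ with ha
  have haZ : a ∈ GZ ℓ := by
    have := k.2 ℓ
    rwa [L.off _ hℓ] at this
  let k' : GA := (single ℓ a)⁻¹ * k.1
  have hk' : k.1 = single ℓ a * k' := by simp [k']
  have hk'ℓ : k'.1 ℓ = 1 := by
    simp [k', ha]
  have hcomm : ∀ b : GQ ℓ, k' * single ℓ b = single ℓ b * k' := by
    intro b
    apply Subtype.ext
    funext q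
    simp only [Subgroup.coe_mul, single_apply, Pi.mul_apply]
    by_cases h : q = ℓ
    · subst h
      rw [hk'ℓ, mul_one, one_mul]
    · rw [Pi.mulSingle_eq_of_ne (M := fun ℓ => GQ ℓ) h b, mul_one, one_mul]
  have hk'mem : k' ∈ L.Kf := by
    intro q
    by_cases h : q = ℓ
    · subst h
      rw [hk'ℓ]
      exact (L.K q).one_mem
    · have : k'.1 q = k.1.1 q := by
        simp only [k', Subgroup.coe_mul, Pi.mul_apply, Subgroup.coe_inv, Pi.inv_apply,
          single_apply, Pi.mulSingle_eq_of_ne (M := fun ℓ => GQ ℓ) h a, inv_one, one_mul]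
      rw [this]
      exact k.2 q
  have hpe : (⟨k'.1 p, hk'mem p⟩ : L.K p) = ⟨k.1.1 p, k.2 p⟩ := by
    apply Subtype.ext
    simp only [k', Subgroup.coe_mul, Pi.mul_apply, Subgroup.coe_inv, Pi.inv_apply,
          single_apply, Pi.mulSingle_eq_of_ne (M := fun ℓ => GQ ℓ) hp a, inv_one, one_mul]
  unfold heckeSum
  rw [map_sum]
  refine Finset.sum_bij (fun c _ => a • c) ?_ ?_ ?_ ?_
  · intro c hc
    rw [Set.Finite.mem_toFinset] at hc ⊢
    exact smul_mem_cosets hc haZ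
  · intro c _ c' _ h
    exact MulAction.injective a h
  · intro c hc
    rw [Set.Finite.mem_toFinset] at hc
    refine ⟨a⁻¹ • c, ?_, by simp⟩
    rw [Set.Finite.mem_toFinset]
    exact smul_mem_cosets hc ((GZ ℓ).inv_mem haZ)
  · intro c _
    simp only
    have h1 : g * k.1 * single ℓ (Quotient.out c) =
        (g * single ℓ (a * Quotient.out c)) * k' := by
      rw [hk', map_mul]
      simp only [mul_assoc]
      rw [hcomm]
    rw [h1]
    have h2 := f.2 x (g * single ℓ (a * Quotient.out c)) ⟨k', hk'mem⟩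
    simp only at h2
    rw [h2, hpe]
    congr 1
    apply forms_congr_coset f hℓ
    have h3 : ((Quotient.out (a • c) : GQ ℓ) : GQ ℓ ⧸ GZ ℓ) = a • c := Quotient.out_eq' _
    have h4 : ((Quotient.out c : GQ ℓ) : GQ ℓ ⧸ GZ ℓ) = c := Quotient.out_eq' _
    rw [h3]
    conv_rhs => rw [← h4]
    rfl

/-- The index set of the generators of the Hecke algebra: a prime `ℓ ∉ S` and `j ∈ {0,1,2,3}`. -/
abbrev Idx (S : Finset P) := {ℓ : P // ℓ ∉ S} × Fin 4

/-- The Hecke operator `T_(ℓ,j)` as an endomorphism of the `O`-module `Forms`. -/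
def heckeLin (L : Level p S) (σ : Representation O (L.K p) W) (t : Idx S) :
    Forms L σ →ₗ[O] Forms L σ where
  toFun f := ⟨heckeSum (ℓ := t.1.1) t.2 f.1, heckeSum_mem f t.1.2 t.2⟩
  map_add' f f' := by
    apply Subtype.ext
    funext y
    simp [heckeSum, Finset.sum_add_distrib]
  map_smul' c f := by
    apply Subtype.ext
    funext y
    simp [heckeSum, Finset.smul_sum]

/-- The Hecke operator `T_(ℓ,j)` as an endomorphism of the representation `coeff L σ`. -/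
def heckeHom (L : Level p S) (σ : Representation O (L.K p) W) (t : Idx S) :
    coeff L σ ⟶ coeff L σ :=
  Rep.ofHom
    { toLinearMap := heckeLin L σ t
      isIntertwining' := by
        intro γ
        apply LinearMap.ext
        intro f
        apply Subtype.ext
        funext y
        simp [heckeLin, heckeSum, mul_assoc] }

/-- The Hecke operator `T_(ℓ,j)` on the cohomology group `Hⁱ(Y(K_f), W)`. -/
def heckeCoh (L : Level p S) (σ : Representation O (L.K p) W) (i : ℕ) (t : Idx S) :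
    Module.End O (groupCohomology (coeff L σ) i) :=
  ((groupCohomology.functor O G i).map (heckeHom L σ t)).hom

end Pool.Agent.CG3
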