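import Pool.Agent.CG3.Cartan

/-!
# C13 : the Hecke operators commute
-/

noncomputable section

namespace Pool.Agent.CG3

open Matrix

namespace HeckeComm

section Abstract

variable {Γ : Type*} [Group Γ] {K : Subgroup Γ}

/-- `C` is stable under left multiplication by `K`. -/
def Stable (K : Subgroup Γ) (C : Finset (Γ ⧸ K)) : Prop := ∀ k ∈ K, ∀ c ∈ C, k • c ∈ C

open Classical in
/-- The structure constant of the Hecke algebra. -/
def m (C D : Finset (Γ ⧸ K)) (c : Γ ⧸ K) : ℕ :=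
  (C.filter (fun a : Γ ⧸ K => (Quotient.out a : Γ)⁻¹ • c ∈ D)).card

theorem out_eq (a : Γ ⧸ K) : ((Quotient.out a : Γ) : Γ ⧸ K) = a := Quotient.out_eq' _

theorem mk_smul (x y : Γ) : x • (y : Γ ⧸ K) = ((x * y : Γ) : Γ ⧸ K) := rfl

theorem rep {D : Finset (Γ ⧸ K)} (hD : Stable K D) {a : Γ ⧸ K} {x : Γ}
    (hx : (x : Γ ⧸ K) = a) (c : Γ ⧸ K) :
    (Quotient.out a : Γ)⁻¹ • c ∈ D ↔ x⁻¹ • c ∈ D := by
  have h1 : x⁻¹ * (Quotient.out a : Γ) ∈ K := by
    apply QuotientGroup.eq.1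
    rw [hx, out_eq]
  constructor
  · intro h
    have := hD _ h1 _ h
    rwa [smul_smul, mul_assoc, mul_inv_cancel, mul_one] at this
  · intro h
    have := hD _ (K.inv_mem h1) _ h
    rwa [smul_smul, _root_.mul_inv_rev, inv_inv, mul_assoc, mul_inv_cancel, mul_one] at this

theorem m_left_le {C D : Finset (Γ ⧸ K)} (hC : Stable K C) (hD : Stable K D) {k : Γ}
    (hk : k ∈ K) (c : Γ ⧸ K) : m C D (k • c) ≤ m C D c := by
  classical
  unfold m
  refine Finset.card_le_card_of_injOn (fun a : Γ ⧸ K => k⁻¹ • a) ?_ ?_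
  · intro (a : Γ ⧸ K) ha
    simp only [Finset.coe_filter, Set.mem_ofPred_eq] at ha ⊢
    refine ⟨hC _ (K.inv_mem hk) _ ha.1, ?_⟩
    have h1 : ((k⁻¹ * (Quotient.out a : Γ) : Γ) : Γ ⧸ K) = k⁻¹ • a := by
      rw [← mk_smul, out_eq]
    rw [rep hD h1]
    have h2 := ha.2
    rw [smul_smul] at h2
    rwa [_root_.mul_inv_rev, inv_inv]
  · intro (a : Γ ⧸ K) _ (b : Γ ⧸ K) _ h
    exact smul_left_cancel _ h

theorem m_left {C D : Finset (Γ ⧸ K)} (hC : Stable K C) (hD : Stable K D) {k : Γ}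
    (hk : k ∈ K) (c : Γ ⧸ K) : m C D (k • c) = m C D c := by
  apply le_antisymm (m_left_le hC hD hk c)
  have := m_left_le hC hD (K.inv_mem hk) (k • c)
  rwa [inv_smul_smul] at this

theorem m_theta_le {C D : Finset (Γ ⧸ K)} (hC : Stable K C) {θ : Γ → Γ}
    (hm : ∀ a b, θ (a * b) = θ b * θ a) (hθ : ∀ a, θ (θ a) = a) (hK : ∀ k ∈ K, θ k ∈ K)
    (hCθ : ∀ h : Γ, (h : Γ ⧸ K) ∈ C → (θ h : Γ ⧸ K) ∈ C)
    (hDθ : ∀ h : Γ, (h : Γ ⧸ K) ∈ D → (θ h : Γ ⧸ K) ∈ D) (h : Γ) :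
    m C D (h : Γ ⧸ K) ≤ m D C (θ h : Γ ⧸ K) := by
  classical
  have hone : θ 1 = 1 := by
    have h1 := hm 1 1
    rw [mul_one] at h1
    exact (mul_eq_left.1 h1.symm)
  have hinv : ∀ a, θ a⁻¹ = (θ a)⁻¹ := by
    intro a
    rw [eq_inv_iff_mul_eq_one, ← hm, mul_inv_cancel, hone]
  unfold m
  refine Finset.card_le_card_of_injOn
    (fun a => ((θ h * (θ (Quotient.out a : Γ))⁻¹ : Γ) : Γ ⧸ K)) ?_ ?_
  · intro a ha
    simp only [Finset.coe_filter, Set.mem_ofPred_eq] at ha ⊢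
    constructor
    · have h1 := ha.2
      rw [mk_smul] at h1
      have h2 := hDθ _ h1
      rwa [hm, hinv] at h2
    · rw [rep hC rfl, mk_smul]
      rw [_root_.mul_inv_rev, inv_inv, mul_assoc, inv_mul_cancel, mul_one]
      apply hCθ
      rw [out_eq]
      exact ha.1
  · intro a _ b _ hab
    simp only at hab
    have h1 := QuotientGroup.eq.1 hab
    have h2 := hK _ h1
    rw [_root_.mul_inv_rev, inv_inv, mul_assoc, inv_mul_cancel_left, hm, hinv, hθ, hθ] at h2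
    have h3 : (Quotient.out b : Γ)⁻¹ * (Quotient.out a : Γ) ∈ K := h2
    have h4 := QuotientGroup.eq.2 h3
    rw [out_eq, out_eq] at h4
    exact h4.symm

theorem m_symm {C D : Finset (Γ ⧸ K)} (hC : Stable K C) (hD : Stable K D) {θ : Γ → Γ}
    (hm : ∀ a b, θ (a * b) = θ b * θ a) (hθ : ∀ a, θ (θ a) = a) (hK : ∀ k ∈ K, θ k ∈ K)
    (hCθ : ∀ h : Γ, (h : Γ ⧸ K) ∈ C → (θ h : Γ ⧸ K) ∈ C)
    (hDθ : ∀ h : Γ, (h : Γ ⧸ K) ∈ D → (θ h : Γ ⧸ K) ∈ D)
    (hdc : ∀ h : Γ, ∃ k₁ ∈ K, ∃ k₂ ∈ K, θ h = k₁ * h * k₂) (c : Γ ⧸ K) :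
    m C D c = m D C c := by
  obtain ⟨h, rfl⟩ := QuotientGroup.mk_surjective c
  have h1 : m C D (h : Γ ⧸ K) = m D C (θ h : Γ ⧸ K) := by
    apply le_antisymm (m_theta_le hC hm hθ hK hCθ hDθ h)
    have := m_theta_le hD hm hθ hK hDθ hCθ (θ h)
    rwa [hθ] at this
  obtain ⟨k₁, h₁, k₂, h₂, hh⟩ := hdc h
  rw [h1, hh]
  have h3 : ((k₁ * h * k₂ : Γ) : Γ ⧸ K) = k₁ • (h : Γ ⧸ K) := by
    rw [mk_smul]
    apply QuotientGroup.eq.2
    rw [_root_.mul_inv_rev, mul_assoc, inv_mul_cancel, mul_one]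
    exact K.inv_mem h₂
  rw [h3]
  exact m_left hD hC h₁ _

open Classical in
theorem sum_eq {W : Type*} [AddCommMonoid W] {C D U : Finset (Γ ⧸ K)} (F : Γ ⧸ K → W)
    (hU : ∀ a ∈ C, ∀ b ∈ D, (Quotient.out a : Γ) • b ∈ U) :
    ∑ a ∈ C, ∑ b ∈ D, F ((Quotient.out a : Γ) • b) = ∑ c ∈ U, m C D c • F c := by
  have h1 : ∀ a ∈ C, ∑ b ∈ D, F ((Quotient.out a : Γ) • b) =
      ∑ c ∈ U, if (Quotient.out a : Γ)⁻¹ • c ∈ D then F c else 0 := by
    intro a ha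
    rw [← Finset.sum_filter]
    refine Finset.sum_bij (fun (b : Γ ⧸ K) _ => (Quotient.out a : Γ) • b) ?_ ?_ ?_ ?_
    · intro b hb
      rw [Finset.mem_filter]
      refine ⟨hU a ha b hb, ?_⟩
      rwa [inv_smul_smul]
    · intro b _ b' _ h
      exact smul_left_cancel _ h
    · intro c hc
      rw [Finset.mem_filter] at hc
      exact ⟨_, hc.2, smul_inv_smul _ _⟩
    · intro b _
      rfl
  rw [Finset.sum_congr rfl h1, Finset.sum_comm]
  apply Finset.sum_congr rfl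
  intro c _
  rw [← Finset.sum_filter, Finset.sum_const]
  rfl

theorem sum_comm' {W : Type*} [AddCommMonoid W] {C D : Finset (Γ ⧸ K)} (F : Γ ⧸ K → W)
    (h : ∀ c, m C D c = m D C c) :
    ∑ a ∈ C, ∑ b ∈ D, F ((Quotient.out a : Γ) • b) =
      ∑ a ∈ D, ∑ b ∈ C, F ((Quotient.out a : Γ) • b) := by
  classical
  let U : Finset (Γ ⧸ K) :=
    ((C ×ˢ D).image (fun ab => (Quotient.out ab.1 : Γ) • ab.2)) ∪
    ((D ×ˢ C).image (fun ab => (Quotient.out ab.1 : Γ) • ab.2))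
  rw [sum_eq (U := U) F ?_, sum_eq (U := U) F ?_]
  · apply Finset.sum_congr rfl
    intro c _
    rw [h c]
  · intro a ha b hb
    apply Finset.mem_union_right
    rw [Finset.mem_image]
    exact ⟨(a, b), Finset.mem_product.2 ⟨ha, hb⟩, rfl⟩
  · intro a ha b hb
    apply Finset.mem_union_left
    rw [Finset.mem_image]
    exact ⟨(a, b), Finset.mem_product.2 ⟨ha, hb⟩, rfl⟩

end Abstract

theorem tr_alpha (ℓ : P) (j : Fin 4) : Cartan.tr (alpha ℓ j) = alpha ℓ j := by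
  have key : ∀ (v : Fin 3 → ℚ_[(ℓ : ℕ)]) (hv : (Matrix.diagonal v).det ≠ 0),
      Cartan.tr (GeneralLinearGroup.mkOfDetNeZero (Matrix.diagonal v) hv) =
        GeneralLinearGroup.mkOfDetNeZero (Matrix.diagonal v) hv := by
    intro v hv
    apply Units.ext
    rw [Cartan.coe_tr]
    exact Matrix.diagonal_transpose v
  fin_cases j
  · exact key _ _
  · exact key _ _
  · exact key _ _
  · change Cartan.tr (GeneralLinearGroup.mkOfDetNeZero _ _)⁻¹ =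
      (GeneralLinearGroup.mkOfDetNeZero _ _)⁻¹
    rw [Cartan.tr_inv, key]

theorem tr_cosets {ℓ : P} {j : Fin 4} {h : GQ ℓ} (hh : (h : GQ ℓ ⧸ GZ ℓ) ∈ cosets ℓ j) :
    ((Cartan.tr h : GQ ℓ) : GQ ℓ ⧸ GZ ℓ) ∈ cosets ℓ j := by
  obtain ⟨k, hk, hkh⟩ := hh
  obtain ⟨k', h1, h2⟩ : ∃ k' ∈ GZ ℓ, h = k * alpha ℓ j * k' :=
    ⟨(k * alpha ℓ j)⁻¹ * h, QuotientGroup.eq.1 hkh.symm, (mul_inv_cancel_left _ _).symm⟩
  refine ⟨Cartan.tr k', Cartan.tr_mem_GZ h1, ?_⟩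
  have h4 : Cartan.tr h = Cartan.tr k' * (alpha ℓ j * Cartan.tr k) := by
    rw [h2, Cartan.tr_mul, Cartan.tr_mul, tr_alpha]
  rw [h4]
  apply QuotientGroup.eq.2
  have h3 : (Cartan.tr k' * (alpha ℓ j * Cartan.tr k))⁻¹ * (Cartan.tr k' * alpha ℓ j) =
      (Cartan.tr k)⁻¹ := by group
  rw [h3]
  exact (GZ ℓ).inv_mem (Cartan.tr_mem_GZ hk)

theorem stable_cosets (ℓ : P) (j : Fin 4) :
    Stable (GZ ℓ) (cosets_finite ℓ j).toFinset := by
  intro k hk c hc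
  rw [Set.Finite.mem_toFinset] at hc ⊢
  exact smul_mem_cosets hc hk

theorem m_cosets (ℓ : P) (i j : Fin 4) (c : GQ ℓ ⧸ GZ ℓ) :
    m (cosets_finite ℓ i).toFinset (cosets_finite ℓ j).toFinset c =
      m (cosets_finite ℓ j).toFinset (cosets_finite ℓ i).toFinset c := by
  refine m_symm (stable_cosets ℓ i) (stable_cosets ℓ j) (θ := Cartan.tr) Cartan.tr_mul
    Cartan.tr_tr (fun k hk => Cartan.tr_mem_GZ hk) ?_ ?_ (Cartan.exists_tr ℓ) c
  · intro h hh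
    rw [Set.Finite.mem_toFinset] at hh ⊢
    exact tr_cosets hh
  · intro h hh
    rw [Set.Finite.mem_toFinset] at hh ⊢
    exact tr_cosets hh

variable {p : P} {S : Finset P}
variable {O : Type} [CommRing O] {W : Type} [AddCommGroup W] [Module O W]

theorem heckeSum_heckeSum_same {L : Level p S} {σ : Representation O (L.K p) W} (f : Forms L σ)
    {ℓ : P} (hℓ : ℓ ∉ S) (i j : Fin 4) :
    heckeSum (ℓ := ℓ) i (heckeSum (ℓ := ℓ) j f.1) =
      heckeSum (ℓ := ℓ) j (heckeSum (ℓ := ℓ) i f.1) := by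
  funext y
  obtain ⟨x, g⟩ := y
  have key : ∀ i j : Fin 4, heckeSum (ℓ := ℓ) i (heckeSum (ℓ := ℓ) j f.1) (x, g) =
      ∑ a ∈ (cosets_finite ℓ i).toFinset, ∑ b ∈ (cosets_finite ℓ j).toFinset,
        (fun c : GQ ℓ ⧸ GZ ℓ => f.1 (x, g * single ℓ (Quotient.out c)))
          ((Quotient.out a : GQ ℓ) • b) := by
    intro i j
    unfold heckeSum
    apply Finset.sum_congr rfl
    intro a _
    apply Finset.sum_congr rfl
    intro b _
    simp only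
    rw [mul_assoc, ← map_mul]
    apply forms_congr_coset f hℓ
    rw [out_eq, ← mk_smul, out_eq]
  rw [key, key]
  exact sum_comm' (fun c : GQ ℓ ⧸ GZ ℓ => f.1 (x, g * single ℓ (Quotient.out c)))
    (m_cosets ℓ i j)

theorem heckeSum_heckeSum_ne {ℓ q : P} (h : ℓ ≠ q) (f : ℤˣ × GA → W) (i j : Fin 4) :
    heckeSum (ℓ := ℓ) i (heckeSum (ℓ := q) j f) =
      heckeSum (ℓ := q) j (heckeSum (ℓ := ℓ) i f) := by
  funext y
  change ∑ a ∈ (cosets_finite ℓ i).toFinset, ∑ b ∈ (cosets_finite q j).toFinset,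
      f (y.1, y.2 * single ℓ (Quotient.out a) * single q (Quotient.out b)) =
    ∑ b ∈ (cosets_finite q j).toFinset, ∑ a ∈ (cosets_finite ℓ i).toFinset,
      f (y.1, y.2 * single q (Quotient.out b) * single ℓ (Quotient.out a))
  rw [Finset.sum_comm]
  apply Finset.sum_congr rfl
  intro b _
  apply Finset.sum_congr rfl
  intro a _
  rw [mul_assoc, mul_assoc, single_comm h]

end HeckeComm

variable {p : P} {S : Finset P}
variable {O : Type} [CommRing O] {W : Type} [AddCommGroup W] [Module O W]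

/-- **C13**: the Hecke operators commute. -/
theorem heckeLin_comm (L : Level p S) (σ : Representation O (L.K p) W) (s t : Idx S) :
    heckeLin L σ s ∘ₗ heckeLin L σ t = heckeLin L σ t ∘ₗ heckeLin L σ s := by
  apply LinearMap.ext
  intro f
  apply Subtype.ext
  change heckeSum (ℓ := s.1.1) s.2 (heckeSum (ℓ := t.1.1) t.2 f.1) =
    heckeSum (ℓ := t.1.1) t.2 (heckeSum (ℓ := s.1.1) s.2 f.1)
  obtain ⟨⟨ℓ, hℓ⟩, i⟩ := s
  obtain ⟨⟨q, hq⟩, j⟩ := t
  by_cases h : ℓ = q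
  · subst h
    exact HeckeComm.heckeSum_heckeSum_same f hℓ i j
  · exact HeckeComm.heckeSum_heckeSum_ne h f.1 i j

end Pool.Agent.CG3
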