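import Pool.Agent.CG3.SLsurj

/-!
# Representatives of the Hecke cosets by rational matrices
-/

noncomputable section

namespace Pool.Agent.CG3

open Matrix

namespace HeckeRep

/-- The diagonal matrix with given units on the diagonal. -/
def D {R : Type} [CommRing R] (d : Fin 3 → Rˣ) : GL (Fin 3) R :=
  ⟨Matrix.diagonal (fun i => (d i : R)), Matrix.diagonal (fun i => (((d i)⁻¹ : Rˣ) : R)),
    by
      rw [Matrix.diagonal_mul_diagonal, ← Matrix.diagonal_one]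
      congr 1
      funext i
      exact (d i).mul_inv,
    by
      rw [Matrix.diagonal_mul_diagonal, ← Matrix.diagonal_one]
      congr 1
      funext i
      exact (d i).inv_mul⟩

theorem D_val {R : Type} [CommRing R] (d : Fin 3 → Rˣ) :
    (D d : Matrix (Fin 3) (Fin 3) R) = Matrix.diagonal (fun i => (d i : R)) := rfl

theorem D_inv_val {R : Type} [CommRing R] (d : Fin 3 → Rˣ) :
    (((D d)⁻¹ : GL (Fin 3) R) : Matrix (Fin 3) (Fin 3) R)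
      = Matrix.diagonal (fun i => (((d i)⁻¹ : Rˣ) : R)) := rfl

theorem D_inv {R : Type} [CommRing R] (d : Fin 3 → Rˣ) : (D d)⁻¹ = D (fun i => (d i)⁻¹) := by
  apply Units.ext
  rw [D_inv_val, D_val]

theorem D_comm {R : Type} [CommRing R] (d e : Fin 3 → Rˣ) : D d * D e = D e * D d := by
  apply Units.ext
  rw [Units.val_mul, Units.val_mul, D_val, D_val, Matrix.diagonal_mul_diagonal,
    Matrix.diagonal_mul_diagonal]
  congr 1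
  funext i
  exact mul_comm _ _

theorem D_map {R R' : Type} [CommRing R] [CommRing R'] (f : R →+* R') (d : Fin 3 → Rˣ) :
    GeneralLinearGroup.map (n := Fin 3) f (D d) = D (fun i => Units.map f.toMonoidHom (d i)) := by
  apply Units.ext
  rw [D_val]
  ext i j
  change f (Matrix.diagonal (fun i => (d i : R)) i j) = _
  rw [Matrix.diagonal_apply, Matrix.diagonal_apply]
  split_ifs with h
  · rfl
  · exact map_zero f

/-- The exponents. -/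
def dd {K : Type} [Field K] (u : Kˣ) (j : Fin 4) : Fin 3 → Kˣ :=
  ![![u, 1, 1], ![u, u, 1], ![u, u, u], ![u⁻¹, u⁻¹, u⁻¹]] j

/-- The prime as a unit of a field of characteristic zero. -/
def uu (K : Type) [Field K] [CharZero K] (ℓ : P) : Kˣ := Units.mk0 ((ℓ : ℕ) : K) (by
    exact_mod_cast ℓ.2.ne_zero)

theorem alpha_eq (ℓ : P) (j : Fin 4) : alpha ℓ j = D (dd (uu ℚ_[(ℓ : ℕ)] ℓ) j) := by
  fin_cases j
  · apply Units.ext
    change Matrix.diagonal _ = Matrix.diagonal _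
    congr 1
    funext i
    fin_cases i <;> rfl
  · apply Units.ext
    change Matrix.diagonal _ = Matrix.diagonal _
    congr 1
    funext i
    fin_cases i <;> rfl
  · apply Units.ext
    change Matrix.diagonal _ = Matrix.diagonal _
    congr 1
    funext i
    fin_cases i <;> rfl
  · have h2 : alpha ℓ 3 = (alpha ℓ 2)⁻¹ := rfl
    have h3 : alpha ℓ 2 = D (dd (uu ℚ_[(ℓ : ℕ)] ℓ) 2) := by
      apply Units.ext
      change Matrix.diagonal _ = Matrix.diagonal _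
      congr 1
      funext i
      fin_cases i <;> rfl
    change alpha ℓ 3 = D (dd (uu ℚ_[(ℓ : ℕ)] ℓ) 3)
    rw [h2, h3, D_inv]
    congr 1
    funext i
    fin_cases i <;> rfl

/-- The rational matrix. -/
def beta (ℓ : P) (j : Fin 4) : G := D (dd (uu ℚ ℓ) j)

theorem loc_beta (ℓ q : P) (j : Fin 4) : loc q (beta ℓ j) = D (dd (uu ℚ_[(q : ℕ)] ℓ) j) := by
  rw [beta, loc, D_map]
  congr 1
  have key : Units.map (algebraMap ℚ ℚ_[(q : ℕ)]).toMonoidHom (uu ℚ ℓ) = uu ℚ_[(q : ℕ)] ℓ := by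
    apply Units.ext
    change algebraMap ℚ ℚ_[(q : ℕ)] ((ℓ : ℕ) : ℚ) = ((ℓ : ℕ) : ℚ_[(q : ℕ)])
    exact map_natCast _ _
  have key' : Units.map (algebraMap ℚ ℚ_[(q : ℕ)]).toMonoidHom (uu ℚ ℓ)⁻¹
      = (uu ℚ_[(q : ℕ)] ℓ)⁻¹ := (map_inv _ _).trans (congrArg _ key)
  funext i
  fin_cases j <;> fin_cases i
  all_goals first | exact key | exact key' | exact map_one _

theorem sgn_beta (ℓ : P) (j : Fin 4) : sgn (beta ℓ j) = 1 := by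
  have hpos : 0 < (beta ℓ j : Matrix (Fin 3) (Fin 3) ℚ).det := by
    rw [beta, D_val, Matrix.det_diagonal]
    apply Finset.prod_pos
    intro i _
    have hl : (0 : ℚ) < ((uu ℚ ℓ : ℚˣ) : ℚ) := by
      change (0 : ℚ) < ((ℓ : ℕ) : ℚ)
      exact_mod_cast ℓ.2.pos
    fin_cases j <;> fin_cases i <;> simp [dd, hl]
  change (if 0 < (beta ℓ j : Matrix (Fin 3) (Fin 3) ℚ).det then (1 : ℤˣ) else -1) = 1
  rw [if_pos hpos]

theorem norm_uu_eq_one {ℓ q : P} (h : q ≠ ℓ) : ‖((uu ℚ_[(q : ℕ)] ℓ : ℚ_[(q : ℕ)]ˣ) :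
    ℚ_[(q : ℕ)])‖ = 1 := by
  change ‖((ℓ : ℕ) : ℚ_[(q : ℕ)])‖ = 1
  apply Padic.norm_natCast_eq_one_iff.2
  exact (Nat.coprime_primes q.2 ℓ.2).2 (fun h' => h (Subtype.ext h'))

theorem norm_uu_sub {N : ℕ} {ℓ q : P} (hℓ : (ℓ : ℕ) ≡ 1 [MOD N]) :
    ‖((uu ℚ_[(q : ℕ)] ℓ : ℚ_[(q : ℕ)]ˣ) : ℚ_[(q : ℕ)]) - 1‖ ≤ ‖(N : ℚ_[(q : ℕ)])‖ := by
  change ‖((ℓ : ℕ) : ℚ_[(q : ℕ)]) - 1‖ ≤ ‖(N : ℚ_[(q : ℕ)])‖
  have h1 : N ∣ (ℓ : ℕ) - 1 := (Nat.modEq_iff_dvd' ℓ.2.one_le).1 hℓ.symm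
  obtain ⟨m, hm⟩ := h1
  have h2 : ((ℓ : ℕ) : ℚ_[(q : ℕ)]) - 1 = (N : ℚ_[(q : ℕ)]) * (m : ℚ_[(q : ℕ)]) := by
    have h3 : (ℓ : ℕ) = N * m + 1 := by
      have := ℓ.2.one_le
      omega
    rw [h3]
    push_cast
    ring
  rw [h2, norm_mul]
  have h4 : ‖(m : ℚ_[(q : ℕ)])‖ ≤ 1 := by
    have := Padic.norm_int_le_one (p := (q : ℕ)) (m : ℤ)
    simpa using this
  calc ‖(N : ℚ_[(q : ℕ)])‖ * ‖(m : ℚ_[(q : ℕ)])‖ ≤ ‖(N : ℚ_[(q : ℕ)])‖ * 1 :=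
        mul_le_mul_of_nonneg_left h4 (norm_nonneg _)
    _ = _ := mul_one _

/-- Diagonal matrices in the congruence subgroups. -/
theorem D_mem_GZN {q : P} {N : ℕ} (d : Fin 3 → ℚ_[(q : ℕ)]ˣ)
    (h1 : ∀ i, ‖((d i : ℚ_[(q : ℕ)]ˣ) : ℚ_[(q : ℕ)])‖ = 1)
    (h2 : ∀ i, ‖((d i : ℚ_[(q : ℕ)]ˣ) : ℚ_[(q : ℕ)]) - 1‖ ≤ ‖(N : ℚ_[(q : ℕ)])‖) :
    D d ∈ GZN q N := by
  refine ⟨?_, ?_⟩
  · rw [mem_GZ_iff]
    constructor
    · intro i j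
      rw [D_val, Matrix.diagonal_apply]
      split_ifs
      · exact (h1 i).le
      · simp
    · intro i j
      rw [D_inv_val, Matrix.diagonal_apply]
      split_ifs
      · rw [Units.val_inv_eq_inv_val, norm_inv, h1 i, inv_one]
      · simp
  · intro i j
    rw [D_val, Matrix.sub_apply, Matrix.diagonal_apply, Matrix.one_apply]
    split_ifs
    · exact h2 i
    · simp

theorem D_mem_GZ {q : P} (d : Fin 3 → ℚ_[(q : ℕ)]ˣ)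
    (h1 : ∀ i, ‖((d i : ℚ_[(q : ℕ)]ˣ) : ℚ_[(q : ℕ)])‖ = 1) : D d ∈ GZ q := by
  rw [mem_GZ_iff]
  constructor
  · intro i j
    rw [D_val, Matrix.diagonal_apply]
    split_ifs
    · exact (h1 i).le
    · simp
  · intro i j
    rw [D_inv_val, Matrix.diagonal_apply]
    split_ifs
    · rw [Units.val_inv_eq_inv_val, norm_inv, h1 i, inv_one]
    · simp

theorem loc_beta_mem {N : ℕ} {ℓ q : P} (hℓ : (ℓ : ℕ) ≡ 1 [MOD N]) (hq : q ≠ ℓ) (j : Fin 4) :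
    loc q (beta ℓ j) ∈ GZN q N := by
  have h0 : ‖((1 : ℚ_[(q : ℕ)]ˣ) : ℚ_[(q : ℕ)])‖ = 1 := by simp
  have h0' : ‖((1 : ℚ_[(q : ℕ)]ˣ) : ℚ_[(q : ℕ)]) - 1‖ ≤ ‖(N : ℚ_[(q : ℕ)])‖ := by simp
  have h1 := norm_uu_eq_one hq
  have h2 := norm_uu_sub (q := q) hℓ
  have hmem : ∀ j : Fin 3, D (dd (uu ℚ_[(q : ℕ)] ℓ) (Fin.castSucc j)) ∈ GZN q N := by
    intro j
    apply D_mem_GZN
    · intro i
      fin_cases j <;> fin_cases i
      all_goals first | exact h1 | exact h0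
    · intro i
      fin_cases j <;> fin_cases i
      all_goals first | exact h2 | exact h0'
  rw [loc_beta]
  by_cases hj : j = 3
  · subst hj
    have h3 : D (dd (uu ℚ_[(q : ℕ)] ℓ) 3) = (D (dd (uu ℚ_[(q : ℕ)] ℓ) (Fin.castSucc 2)))⁻¹ := by
      rw [D_inv]
      congr 1
      funext i
      fin_cases i <;> rfl
    rw [h3]
    exact (GZN q N).inv_mem (hmem 2)
  · obtain ⟨j', rfl⟩ : ∃ j' : Fin 3, j = Fin.castSucc j' := by
      refine ⟨⟨j, ?_⟩, ?_⟩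
      · have := j.2
        have : (j : ℕ) ≠ 3 := fun h => hj (Fin.ext h)
        omega
      · apply Fin.ext
        rfl
    exact hmem j'

/-- Conjugation by `alpha` maps the congruence subgroup of level `ℓ` to `GL₃(ℤ_ℓ)`. -/
theorem conj_mem {ℓ : P} (d : Fin 3 → ℚ_[(ℓ : ℕ)]ˣ)
    (hd : ∀ i j, ‖(((d i)⁻¹ : ℚ_[(ℓ : ℕ)]ˣ) : ℚ_[(ℓ : ℕ)])‖ * ‖((d j : ℚ_[(ℓ : ℕ)]ˣ) :
      ℚ_[(ℓ : ℕ)])‖ ≤ (ℓ : ℕ))
    {c : GQ ℓ} (hc : c ∈ GZN ℓ ℓ) : (D d)⁻¹ * c * D d ∈ GZ ℓ := by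
  have hl : (0 : ℝ) < ((ℓ : ℕ) : ℝ) := by exact_mod_cast ℓ.2.pos
  have key : ∀ c ∈ GZN ℓ ℓ, ∀ i j, ‖(((D d)⁻¹ * c * D d : GQ ℓ) :
      Matrix (Fin 3) (Fin 3) ℚ_[(ℓ : ℕ)]) i j‖ ≤ 1 := by
    intro c hc i j
    rw [Units.val_mul, Units.val_mul, D_val, D_inv_val, Matrix.mul_diagonal,
      Matrix.diagonal_mul, norm_mul, norm_mul]
    by_cases hij : i = j
    · subst hij
      have h1 : ‖(((d i)⁻¹ : ℚ_[(ℓ : ℕ)]ˣ) : ℚ_[(ℓ : ℕ)])‖ *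
          ‖((d i : ℚ_[(ℓ : ℕ)]ˣ) : ℚ_[(ℓ : ℕ)])‖ = 1 := by
        rw [← norm_mul, ← Units.val_mul, inv_mul_cancel]
        simp
      calc _ = (‖(((d i)⁻¹ : ℚ_[(ℓ : ℕ)]ˣ) : ℚ_[(ℓ : ℕ)])‖ *
          ‖((d i : ℚ_[(ℓ : ℕ)]ˣ) : ℚ_[(ℓ : ℕ)])‖) * ‖(c : Matrix (Fin 3) (Fin 3) ℚ_[(ℓ : ℕ)]) i i‖ := by
            ring
        _ = ‖(c : Matrix (Fin 3) (Fin 3) ℚ_[(ℓ : ℕ)]) i i‖ := by rw [h1, one_mul]
        _ ≤ 1 := val_le_one_of_mem_GZ hc.1 i i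
    · have h1 := hc.2 i j
      rw [Matrix.sub_apply, Matrix.one_apply_ne hij, sub_zero, Padic.norm_p] at h1
      calc _ = (‖(((d i)⁻¹ : ℚ_[(ℓ : ℕ)]ˣ) : ℚ_[(ℓ : ℕ)])‖ *
          ‖((d j : ℚ_[(ℓ : ℕ)]ˣ) : ℚ_[(ℓ : ℕ)])‖) * ‖(c : Matrix (Fin 3) (Fin 3) ℚ_[(ℓ : ℕ)]) i j‖ := by
            ring
        _ ≤ (ℓ : ℕ) * ((ℓ : ℕ) : ℝ)⁻¹ := mul_le_mul (hd i j) h1 (norm_nonneg _) hl.le
        _ = 1 := mul_inv_cancel₀ hl.ne'
  rw [mem_GZ_iff]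
  refine ⟨key c hc, ?_⟩
  have h2 : ((D d)⁻¹ * c * D d)⁻¹ = (D d)⁻¹ * c⁻¹ * D d := by group
  rw [h2]
  exact key _ ((GZN ℓ ℓ).inv_mem hc)

theorem dd_norm (ℓ : P) (j : Fin 4) (a b : Fin 3) :
    ‖(((dd (uu ℚ_[(ℓ : ℕ)] ℓ) j a)⁻¹ : ℚ_[(ℓ : ℕ)]ˣ) : ℚ_[(ℓ : ℕ)])‖ *
      ‖((dd (uu ℚ_[(ℓ : ℕ)] ℓ) j b : ℚ_[(ℓ : ℕ)]ˣ) : ℚ_[(ℓ : ℕ)])‖ ≤ (ℓ : ℕ) := by
  have hl : (1 : ℝ) ≤ ((ℓ : ℕ) : ℝ) := by exact_mod_cast ℓ.2.one_le
  have hl0 : ((ℓ : ℕ) : ℝ) ≠ 0 := by positivity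
  have hl' : ((ℓ : ℕ) : ℝ)⁻¹ ≤ ((ℓ : ℕ) : ℝ) := (inv_le_one_of_one_le₀ hl).trans hl
  have hu : ‖((uu ℚ_[(ℓ : ℕ)] ℓ : ℚ_[(ℓ : ℕ)]ˣ) : ℚ_[(ℓ : ℕ)])‖ = ((ℓ : ℕ) : ℝ)⁻¹ :=
    Padic.norm_p
  fin_cases j <;> fin_cases a <;> fin_cases b <;> simp [dd, hu, hl, hl0, hl']

/-- Elements of `GL₃(ℤ_ℓ)` which reduce to `1` modulo `ℓ`. -/
theorem mem_GZN_of_map {ℓ : P} (c : GL (Fin 3) ℤ_[(ℓ : ℕ)])
    (hc : GeneralLinearGroup.map (n := Fin 3) (PadicInt.toZMod (p := (ℓ : ℕ))) c = 1) :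
    GeneralLinearGroup.map (n := Fin 3) (algebraMap ℤ_[(ℓ : ℕ)] ℚ_[(ℓ : ℕ)]) c ∈ GZN ℓ ℓ := by
  refine ⟨⟨c, rfl⟩, ?_⟩
  intro i j
  have h1 : PadicInt.toZMod (p := (ℓ : ℕ)) ((c : Matrix (Fin 3) (Fin 3) ℤ_[(ℓ : ℕ)]) i j)
      = (1 : Matrix (Fin 3) (Fin 3) (ZMod (ℓ : ℕ))) i j := by
    have := congrArg (fun g : GL (Fin 3) (ZMod (ℓ : ℕ)) =>
      (g : Matrix (Fin 3) (Fin 3) (ZMod (ℓ : ℕ))) i j) hc
    exact this
  have h2 : PadicInt.toZMod (p := (ℓ : ℕ)) (((c : Matrix (Fin 3) (Fin 3) ℤ_[(ℓ : ℕ)]) - 1) i j)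
      = 0 := by
    rw [Matrix.sub_apply, map_sub, h1, Matrix.one_apply, Matrix.one_apply]
    split_ifs <;> simp
  have h3 : ((c : Matrix (Fin 3) (Fin 3) ℤ_[(ℓ : ℕ)]) - 1) i j ∈
      IsLocalRing.maximalIdeal ℤ_[(ℓ : ℕ)] := by
    rw [← PadicInt.ker_toZMod, RingHom.mem_ker]
    exact h2
  rw [PadicInt.maximalIdeal_eq_span_p, Ideal.mem_span_singleton] at h3
  obtain ⟨r, hr⟩ := h3
  have h4 : ((GeneralLinearGroup.map (n := Fin 3) (algebraMap ℤ_[(ℓ : ℕ)] ℚ_[(ℓ : ℕ)]) c :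
      Matrix (Fin 3) (Fin 3) ℚ_[(ℓ : ℕ)]) - 1) i j
      = ((((c : Matrix (Fin 3) (Fin 3) ℤ_[(ℓ : ℕ)]) - 1) i j : ℤ_[(ℓ : ℕ)]) : ℚ_[(ℓ : ℕ)]) := by
    rw [Matrix.sub_apply, Matrix.sub_apply, PadicInt.coe_sub]
    congr 1
    rw [Matrix.one_apply, Matrix.one_apply]
    split_ifs <;> simp
  rw [h4, hr, PadicInt.coe_mul, norm_mul]
  have h5 : ‖(r : ℚ_[(ℓ : ℕ)])‖ ≤ 1 := r.2
  have h6 : (((((ℓ : ℕ) : ℤ_[(ℓ : ℕ)])) : ℤ_[(ℓ : ℕ)]) : ℚ_[(ℓ : ℕ)]) = ((ℓ : ℕ) : ℚ_[(ℓ : ℕ)]) := by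
    simp
  rw [h6]
  calc ‖((ℓ : ℕ) : ℚ_[(ℓ : ℕ)])‖ * ‖(r : ℚ_[(ℓ : ℕ)])‖ ≤ ‖((ℓ : ℕ) : ℚ_[(ℓ : ℕ)])‖ * 1 :=
        mul_le_mul_of_nonneg_left h5 (norm_nonneg _)
    _ = _ := mul_one _

/-- Approximation: an integer matrix with given reduction modulo `ℓ` and trivial modulo `N`. -/
theorem exists_approx {N : ℕ} (hN : 0 < N) {ℓ : P} (hcop : Nat.Coprime ℓ N)
    (B : SpecialLinearGroup (Fin 3) (ZMod (ℓ : ℕ))) :
    ∃ A : SLZ, SpecialLinearGroup.map (n := Fin 3) (Int.castRingHom (ZMod (ℓ : ℕ))) A = B ∧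
      A ∈ Gam N := by
  let e := ZMod.chineseRemainder hcop
  let C : Matrix (Fin 3) (Fin 3) (ZMod (ℓ : ℕ) × ZMod N) :=
    fun i j => ((B : Matrix (Fin 3) (Fin 3) (ZMod (ℓ : ℕ))) i j,
      (1 : Matrix (Fin 3) (Fin 3) (ZMod N)) i j)
  have hC : C.det = 1 := by
    apply Prod.ext
    · have h1 := (RingHom.fst (ZMod (ℓ : ℕ)) (ZMod N)).map_det C
      have h2 : (RingHom.fst (ZMod (ℓ : ℕ)) (ZMod N)).mapMatrix C
          = (B : Matrix (Fin 3) (Fin 3) (ZMod (ℓ : ℕ))) := by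
        ext i j; rfl
      rw [h2] at h1
      exact h1.trans B.2
    · have h1 := (RingHom.snd (ZMod (ℓ : ℕ)) (ZMod N)).map_det C
      have h2 : (RingHom.snd (ZMod (ℓ : ℕ)) (ZMod N)).mapMatrix C
          = (1 : Matrix (Fin 3) (Fin 3) (ZMod N)) := by
        ext i j; rfl
      rw [h2] at h1
      exact h1.trans Matrix.det_one
  let C' : SpecialLinearGroup (Fin 3) (ZMod (ℓ : ℕ) × ZMod N) := ⟨C, hC⟩
  obtain ⟨A, hA⟩ := sl3_surj (ℓ * N) (Nat.mul_pos ℓ.2.pos hN)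
    (SpecialLinearGroup.map (n := Fin 3) e.symm.toRingHom C')
  have hent : ∀ i j, (((A : Matrix (Fin 3) (Fin 3) ℤ) i j : ℤ) : ZMod ((ℓ : ℕ) * N))
      = e.symm (C i j) := by
    intro i j
    have := congrArg (fun g : SpecialLinearGroup (Fin 3) (ZMod ((ℓ : ℕ) * N)) =>
      (g : Matrix (Fin 3) (Fin 3) (ZMod ((ℓ : ℕ) * N))) i j) hA
    exact this
  have hent' : ∀ i j, C i j = ((((A : Matrix (Fin 3) (Fin 3) ℤ) i j : ℤ) : ZMod (ℓ : ℕ)),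
      (((A : Matrix (Fin 3) (Fin 3) ℤ) i j : ℤ) : ZMod N)) := by
    intro i j
    have h1 := congrArg e (hent i j)
    rw [RingEquiv.apply_symm_apply, map_intCast] at h1
    rw [← h1]
    rfl
  refine ⟨A, ?_, ?_⟩
  · apply Subtype.ext
    ext i j
    exact (congrArg Prod.fst (hent' i j)).symm
  · rw [Gam, MonoidHom.mem_ker]
    apply Subtype.ext
    ext i j
    exact (congrArg Prod.snd (hent' i j)).symm

theorem diag_toG_mem_KN {N : ℕ} {A : SLZ} (hA : A ∈ Gam N) : diag (toG A) ∈ KN N := by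
  intro q
  have hGZ : ∀ A : SLZ, loc q (toG A) ∈ GZ q := by
    intro A
    rw [mem_GZ_iff]
    constructor
    · intro i j
      rw [loc_apply, toG_apply]
      have := Padic.norm_int_le_one (p := (q : ℕ)) ((A : Matrix (Fin 3) (Fin 3) ℤ) i j)
      simpa using this
    · intro i j
      rw [← map_inv, ← map_inv, loc_apply, toG_apply]
      have := Padic.norm_int_le_one (p := (q : ℕ))
        (((A⁻¹ : SLZ) : Matrix (Fin 3) (Fin 3) ℤ) i j)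
      simpa using this
  refine ⟨hGZ A, ?_⟩
  intro i j
  obtain ⟨m, hm⟩ := mem_Gam_iff.1 hA i j
  have h1 : (((diag (toG A)).1 q : Matrix (Fin 3) (Fin 3) ℚ_[(q : ℕ)]) - 1) i j
      = (N : ℚ_[(q : ℕ)]) * (m : ℚ_[(q : ℕ)]) := by
    rw [diag_apply, Matrix.sub_apply, loc_apply, toG_apply]
    have h2 : (((((A : Matrix (Fin 3) (Fin 3) ℤ) i j : ℤ) : ℚ)) : ℚ_[(q : ℕ)])
        = (((A : Matrix (Fin 3) (Fin 3) ℤ) i j : ℤ) : ℚ_[(q : ℕ)]) := by simp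
    have h3 : (1 : Matrix (Fin 3) (Fin 3) ℚ_[(q : ℕ)]) i j
        = (((1 : Matrix (Fin 3) (Fin 3) ℤ) i j : ℤ) : ℚ_[(q : ℕ)]) := by
      rw [Matrix.one_apply, Matrix.one_apply]
      split_ifs <;> simp
    rw [h2, h3, ← Int.cast_sub, ← Matrix.sub_apply, hm]
    push_cast
    ring
  rw [h1, norm_mul]
  calc ‖(N : ℚ_[(q : ℕ)])‖ * ‖(m : ℚ_[(q : ℕ)])‖ ≤ ‖(N : ℚ_[(q : ℕ)])‖ * 1 :=
        mul_le_mul_of_nonneg_left (Padic.norm_int_le_one _) (norm_nonneg _)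
    _ = _ := mul_one _

theorem map_toGL {R R' : Type} [CommRing R] [CommRing R'] (f : R →+* R')
    (B : SpecialLinearGroup (Fin 3) R) :
    GeneralLinearGroup.map (n := Fin 3) f (SpecialLinearGroup.toGL B)
      = SpecialLinearGroup.toGL (SpecialLinearGroup.map (n := Fin 3) f B) := by
  apply Units.ext
  rfl

theorem map_map_int {R R' : Type} [CommRing R] [CommRing R'] (f : R →+* R') (A : SLZ) :
    SpecialLinearGroup.map (n := Fin 3) f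
      (SpecialLinearGroup.map (n := Fin 3) (Int.castRingHom R) A)
      = SpecialLinearGroup.map (n := Fin 3) (Int.castRingHom R') A := by
  apply Subtype.ext
  ext i j
  change f (((A : Matrix (Fin 3) (Fin 3) ℤ) i j : ℤ) : R)
    = (((A : Matrix (Fin 3) (Fin 3) ℤ) i j : ℤ) : R')
  exact map_intCast f _

theorem exists_det_one {R : Type} [CommRing R] (a : GL (Fin 3) R) :
    ∃ (b : SpecialLinearGroup (Fin 3) R) (d : Fin 3 → Rˣ),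
      a = SpecialLinearGroup.toGL b * D d := by
  let v : Rˣ := GeneralLinearGroup.det a
  let d : Fin 3 → Rˣ := ![v, 1, 1]
  have h1 : GeneralLinearGroup.det (D d) = v := by
    apply Units.ext
    change (D d : Matrix (Fin 3) (Fin 3) R).det = v
    rw [D_val, Matrix.det_diagonal, Fin.prod_univ_three]
    simp [d]
  have h2 : GeneralLinearGroup.det (a * (D d)⁻¹) = 1 := by
    rw [map_mul, map_inv, h1]
    exact mul_inv_cancel v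
  refine ⟨⟨(a * (D d)⁻¹ : GL (Fin 3) R), congrArg Units.val h2⟩, d, ?_⟩
  have h3 : SpecialLinearGroup.toGL (⟨((a * (D d)⁻¹ : GL (Fin 3) R) : Matrix (Fin 3) (Fin 3) R),
      congrArg Units.val h2⟩ : SpecialLinearGroup (Fin 3) R) = a * (D d)⁻¹ := by
    apply Units.ext
    rfl
  rw [h3]
  group

/-- The local statement at `ℓ`: every element of `GL₃(ℤ_ℓ)` is `A c δ` with `A` in `SL₃(ℤ)`,
trivial modulo `N`. -/
theorem local_factor {N : ℕ} (hN : 0 < N) {ℓ : P} (hcop : Nat.Coprime ℓ N) (a : GQ ℓ)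
    (ha : a ∈ GZ ℓ) :
    ∃ A : SLZ, A ∈ Gam N ∧ ∃ c ∈ GZN ℓ ℓ, ∃ d : Fin 3 → ℚ_[(ℓ : ℕ)]ˣ, D d ∈ GZ ℓ ∧
      a = loc ℓ (toG A) * c * D d := by
  obtain ⟨a0, rfl⟩ := ha
  obtain ⟨b, d0, hb⟩ := exists_det_one a0
  obtain ⟨A, hA1, hA2⟩ := exists_approx hN hcop
    (SpecialLinearGroup.map (n := Fin 3) (PadicInt.toZMod (p := (ℓ : ℕ))) b)
  have hιA : GeneralLinearGroup.map (n := Fin 3) (algebraMap ℤ_[(ℓ : ℕ)] ℚ_[(ℓ : ℕ)])
      (SpecialLinearGroup.toGL (SpecialLinearGroup.map (n := Fin 3)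
        (Int.castRingHom ℤ_[(ℓ : ℕ)]) A)) = loc ℓ (toG A) := by
    rw [map_toGL, map_map_int]
    rw [loc, toG, MonoidHom.comp_apply, map_toGL, map_map_int]
  have hred : GeneralLinearGroup.map (n := Fin 3) (PadicInt.toZMod (p := (ℓ : ℕ)))
      ((SpecialLinearGroup.toGL (SpecialLinearGroup.map (n := Fin 3)
        (Int.castRingHom ℤ_[(ℓ : ℕ)]) A))⁻¹ * SpecialLinearGroup.toGL b) = 1 := by
    rw [map_mul, map_inv, map_toGL, map_toGL, map_map_int, hA1, inv_mul_cancel]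
  refine ⟨A, hA2, _, mem_GZN_of_map _ hred,
    fun i => Units.map (algebraMap ℤ_[(ℓ : ℕ)] ℚ_[(ℓ : ℕ)]).toMonoidHom (d0 i), ?_, ?_⟩
  · rw [← D_map]
    exact ⟨D d0, rfl⟩
  · rw [← D_map, ← hιA, ← map_mul, ← map_mul, hb, mul_inv_cancel_left]

end HeckeRep

/-- **C4** (uses C3) -/
theorem hecke_rep {N : ℕ} (hN : 0 < N) {ℓ : P} (hℓ : (ℓ : ℕ) ≡ 1 [MOD N]) (u : GA)
    (hu : u ∈ KZ) (j : Fin 4) (h : GQ ℓ) (hh : (h : GQ ℓ ⧸ GZ ℓ) ∈ cosets ℓ j) :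
    ∃ γ : G, sgn γ = 1 ∧ ∃ k ∈ KN N, u * single ℓ h = diag γ * u * k := by
  have hdvd : ¬ (ℓ : ℕ) ∣ N := by
    intro hd
    have h1 : (ℓ : ℕ) ≡ 1 [MOD (ℓ : ℕ)] := hℓ.of_dvd hd
    have h2 : (ℓ : ℕ) ∣ (ℓ : ℕ) - 1 := (Nat.modEq_iff_dvd' ℓ.2.one_le).1 h1.symm
    have h3 := Nat.le_of_dvd (by have := ℓ.2.two_le; omega) h2
    have := ℓ.2.two_le
    omega
  have hcop : Nat.Coprime ℓ N := (Nat.Prime.coprime_iff_not_dvd ℓ.2).2 hdvd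
  obtain ⟨k₁, hk₁, hc⟩ := hh
  have hk₂ : (k₁ * alpha ℓ j)⁻¹ * h ∈ GZ ℓ := QuotientGroup.eq.1 hc.symm
  obtain ⟨A, hA, c, hc, d, hd, hfac⟩ := HeckeRep.local_factor hN hcop (u.1 ℓ * k₁)
    ((GZ ℓ).mul_mem (hu ℓ) hk₁)
  have hAN := HeckeRep.diag_toG_mem_KN hA
  have hAZ : loc ℓ (toG A) ∈ GZ ℓ := (hAN ℓ).1
  refine ⟨toG A * HeckeRep.beta ℓ j, ?_, (diag (toG A * HeckeRep.beta ℓ j) * u)⁻¹ *
    (u * single ℓ h), ?_, ?_⟩
  · rw [map_mul, sgn_toG, HeckeRep.sgn_beta, mul_one]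
  · intro q
    by_cases hq : q = ℓ
    · subst hq
      rw [GZN_eq_GZ hdvd]
      have h1 : ((diag (toG A * HeckeRep.beta q j) * u)⁻¹ * (u * single q h)).1 q
          = (u.1 q)⁻¹ * (loc q (HeckeRep.beta q j))⁻¹ * (loc q (toG A))⁻¹ * (u.1 q * h) := by
        change (loc q (toG A * HeckeRep.beta q j) * u.1 q)⁻¹ * (u.1 q * (single q h).1 q) = _
        rw [single_apply, Pi.mulSingle_eq_same, map_mul]
        group
      have h2 : u.1 q * h = loc q (toG A) * c * HeckeRep.D d * (alpha q j *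
          ((k₁ * alpha q j)⁻¹ * h)) := by
        rw [← hfac]
        group
      have h3 : loc q (HeckeRep.beta q j) = alpha q j := by
        rw [HeckeRep.loc_beta, HeckeRep.alpha_eq]
      have h4 : HeckeRep.D d * alpha q j = alpha q j * HeckeRep.D d := by
        rw [HeckeRep.alpha_eq, HeckeRep.D_comm]
      have h5 : ((diag (toG A * HeckeRep.beta q j) * u)⁻¹ * (u * single q h)).1 q
          = (u.1 q)⁻¹ * (((alpha q j)⁻¹ * c * alpha q j) * HeckeRep.D d) *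
            ((k₁ * alpha q j)⁻¹ * h) := by
        rw [h1, h2, h3]
        calc (u.1 q)⁻¹ * (alpha q j)⁻¹ * (loc q (toG A))⁻¹ * (loc q (toG A) * c * HeckeRep.D d *
              (alpha q j * ((k₁ * alpha q j)⁻¹ * h)))
            = (u.1 q)⁻¹ * (alpha q j)⁻¹ * c * (HeckeRep.D d * alpha q j) *
                ((k₁ * alpha q j)⁻¹ * h) := by group
          _ = (u.1 q)⁻¹ * (alpha q j)⁻¹ * c * (alpha q j * HeckeRep.D d) *
                ((k₁ * alpha q j)⁻¹ * h) := by rw [h4]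
          _ = _ := by group
      rw [h5]
      refine (GZ q).mul_mem ((GZ q).mul_mem ((GZ q).inv_mem (hu q)) ((GZ q).mul_mem ?_ hd)) hk₂
      rw [HeckeRep.alpha_eq]
      exact HeckeRep.conj_mem _ (HeckeRep.dd_norm q j) hc
    · have h1 : ((diag (toG A * HeckeRep.beta ℓ j) * u)⁻¹ * (u * single ℓ h)).1 q
          = (u.1 q)⁻¹ * ((loc q (toG A) * loc q (HeckeRep.beta ℓ j))⁻¹) * u.1 q := by
        change (loc q (toG A * HeckeRep.beta ℓ j) * u.1 q)⁻¹ * (u.1 q * (single ℓ h).1 q) = _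
        rw [single_apply, Pi.mulSingle_eq_of_ne hq, map_mul]
        group
      rw [h1]
      exact GZN_conj ((GZN q N).inv_mem ((GZN q N).mul_mem (hAN q)
        (HeckeRep.loc_beta_mem hℓ hq j))) (hu q)
  · group

end Pool.Agent.CG3
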