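import Pool.Agent.CG3.ClassOne
import Pool.Agent.CG3.HeckeRep

/-!
# Hecke operators at primes congruent to `1` modulo `N` act through the degree on invariant
# functions of level `N`
-/

noncomputable section

namespace Pool.Agent.CG3

/-- **C7** -/
theorem lemmaA {V : Type} [AddCommGroup V] {N : ℕ} (hN : 0 < N) {ℓ : P}
    (hℓ : (ℓ : ℕ) ≡ 1 [MOD N]) (f : ℤˣ × GA → V)
    (hG : ∀ (γ : G) (x : ℤˣ) (g : GA), f (sgn γ * x, diag γ * g) = f (x, g))
    (hK : ∀ (x : ℤˣ) (g : GA), ∀ k ∈ KN N, f (x, g * k) = f (x, g)) (j : Fin 4)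
    (y : ℤˣ × GA) : heckeSum (ℓ := ℓ) j f y = (cosets ℓ j).ncard • f y := by
  obtain ⟨x, g⟩ := y
  obtain ⟨γ₀, u, hu, hx, hg⟩ := class_one x g
  have h0 : f (x, g) = f (1, u) := by
    have := hG γ₀ 1 u
    rw [mul_one, hx, ← hg] at this
    exact this
  have hterm : ∀ c ∈ (cosets_finite ℓ j).toFinset,
      f (x, g * single ℓ (Quotient.out c)) = f (x, g) := by
    intro c hc
    rw [Set.Finite.mem_toFinset] at hc
    have h4 : ((Quotient.out c : GQ ℓ) : GQ ℓ ⧸ GZ ℓ) = c := Quotient.out_eq' _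
    obtain ⟨γ, hγ, k, hk, he⟩ := hecke_rep hN hℓ u hu j (Quotient.out c) (by rw [h4]; exact hc)
    have h1 : g * single ℓ (Quotient.out c) = diag γ₀ * (diag γ * u) * k := by
      rw [hg, mul_assoc, he]
      simp only [mul_assoc]
    rw [h1, hK x _ k hk, h0]
    have h2 := hG γ₀ 1 (diag γ * u)
    rw [mul_one, hx] at h2
    have h3 := hG γ 1 u
    rw [mul_one, hγ] at h3
    rw [h2, h3]
  unfold heckeSum
  simp only
  rw [Finset.sum_congr rfl hterm, Finset.sum_const, Set.ncard_eq_toFinset_card _ (cosets_finite ℓ j)]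

end Pool.Agent.CG3
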