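import Pool.Agent.CG3.Defs2

/-!
# Hecke operators commute with right translations by elements of `GL₃(Ẑ)`
-/

noncomputable section

namespace Pool.Agent.CG3

namespace TransAux

variable {V : Type} {N : ℕ} {ℓ : P}

theorem single_mem_KN (hℓ : ¬ (ℓ : ℕ) ∣ N) {k : GQ ℓ} (hk : k ∈ GZ ℓ) : single ℓ k ∈ KN N := by
  intro q
  by_cases h : q = ℓ
  · subst h
    rw [single_apply, Pi.mulSingle_eq_same, GZN_eq_GZ hℓ]
    exact hk
  · rw [single_apply, Pi.mulSingle_eq_of_ne h]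
    exact (GZN q N).one_mem

theorem inv_mul_single (hℓ : ¬ (ℓ : ℕ) ∣ N) (f : ℤˣ × GA → V)
    (hK : ∀ (x : ℤˣ) (g : GA), ∀ k ∈ KN N, f (x, g * k) = f (x, g)) (x : ℤˣ) (g : GA)
    {k : GQ ℓ} (hk : k ∈ GZ ℓ) : f (x, g * single ℓ k) = f (x, g) :=
  hK x g _ (single_mem_KN hℓ hk)

theorem congr_coset (hℓ : ¬ (ℓ : ℕ) ∣ N) (f : ℤˣ × GA → V)
    (hK : ∀ (x : ℤˣ) (g : GA), ∀ k ∈ KN N, f (x, g * k) = f (x, g)) (x : ℤˣ) (g : GA)
    {h h' : GQ ℓ} (hh : (h : GQ ℓ ⧸ GZ ℓ) = (h' : GQ ℓ ⧸ GZ ℓ)) :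
    f (x, g * single ℓ h) = f (x, g * single ℓ h') := by
  have h1 : h⁻¹ * h' ∈ GZ ℓ := QuotientGroup.eq.1 hh
  have h2 := inv_mul_single hℓ f hK x (g * single ℓ h) h1
  rw [mul_assoc, ← map_mul, mul_inv_cancel_left] at h2
  exact h2.symm

end TransAux

open TransAux in
/-- **C8**: Hecke operators commute with right translations by elements of `GL₃(Ẑ)`. -/
theorem heckeSum_trans {V : Type} [AddCommGroup V] {N : ℕ} {ℓ : P} (hℓ : ¬ (ℓ : ℕ) ∣ N)
    (f : ℤˣ × GA → V)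
    (hK : ∀ (x : ℤˣ) (g : GA), ∀ k ∈ KN N, f (x, g * k) = f (x, g)) (j : Fin 4)
    (u : GA) (hu : u ∈ KZ) (x : ℤˣ) (g : GA) :
    heckeSum (ℓ := ℓ) j (fun y => f (y.1, y.2 * u)) (x, g) = heckeSum (ℓ := ℓ) j f (x, g * u) := by
  set a : GQ ℓ := u.1 ℓ with ha
  have haZ : a ∈ GZ ℓ := hu ℓ
  let u' : GA := (single ℓ a)⁻¹ * u
  have hu' : u = single ℓ a * u' := by simp [u']
  have hu'ℓ : u'.1 ℓ = 1 := by simp [u', ha]
  have hcomm : ∀ b : GQ ℓ, u' * single ℓ b = single ℓ b * u' := by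
    intro b
    apply Subtype.ext
    funext q
    simp only [Subgroup.coe_mul, single_apply, Pi.mul_apply]
    by_cases h : q = ℓ
    · subst h
      rw [hu'ℓ, mul_one, one_mul]
    · rw [Pi.mulSingle_eq_of_ne (M := fun ℓ => GQ ℓ) h b, mul_one, one_mul]
  have hL : ∀ c : GQ ℓ ⧸ GZ ℓ, f (x, g * single ℓ (Quotient.out c) * u)
      = f (x, g * u' * single ℓ (Quotient.out c)) := by
    intro c
    have h1 : g * single ℓ (Quotient.out c) * u = g * u' * single ℓ (Quotient.out c * a) := by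
      rw [map_mul]
      rw [show g * u' * (single ℓ (Quotient.out c) * single ℓ a)
        = g * (u' * single ℓ (Quotient.out c)) * single ℓ a by simp only [mul_assoc], hcomm,
        show g * (single ℓ (Quotient.out c) * u') * single ℓ a
        = g * single ℓ (Quotient.out c) * (u' * single ℓ a) by simp only [mul_assoc], hcomm, ← hu']
    rw [h1]
    apply congr_coset hℓ f hK
    rw [QuotientGroup.eq]
    rw [mul_inv_rev, inv_mul_cancel_right]
    exact (GZ ℓ).inv_mem haZ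
  have hR : ∀ c : GQ ℓ ⧸ GZ ℓ, f (x, g * u * single ℓ (Quotient.out c))
      = f (x, g * u' * single ℓ (Quotient.out (a • c))) := by
    intro c
    have h1 : g * u * single ℓ (Quotient.out c) = g * u' * single ℓ (a * Quotient.out c) := by
      rw [map_mul, ← mul_assoc (g * u'), mul_assoc g u', hcomm, ← hu']
    rw [h1]
    apply congr_coset hℓ f hK
    have h3 : ((Quotient.out (a • c) : GQ ℓ) : GQ ℓ ⧸ GZ ℓ) = a • c := Quotient.out_eq' _
    have h4 : ((Quotient.out c : GQ ℓ) : GQ ℓ ⧸ GZ ℓ) = c := Quotient.out_eq' _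
    rw [h3]
    conv_rhs => rw [← h4]
    rfl
  unfold heckeSum
  simp only
  rw [Finset.sum_congr rfl (fun c _ => hL c), Finset.sum_congr rfl (fun c _ => hR c)]
  symm
  refine Finset.sum_bij (fun c _ => a • c) ?_ ?_ ?_ ?_
  · intro c hc
    rw [Set.Finite.mem_toFinset] at hc ⊢
    exact smul_mem_cosets hc haZ
  · intro c _ c' _ h
    exact MulAction.injective a h
  · intro c hc
    rw [Set.Finite.mem_toFinset] at hc
    refine ⟨a⁻¹ • c, ?_, by simp⟩
    rw [Set.Finite.mem_toFinset]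
    exact smul_mem_cosets hc ((GZ ℓ).inv_mem haZ)
  · intro c _
    rfl

end Pool.Agent.CG3
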