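import Pool.Agent.CG3.LemmaA
import Pool.Agent.CG3.Orbit
import Pool.Agent.CG3.Trans
import Pool.Agent.CG3.Count
import Pool.Agent.CG3.CSP
import Pool.Agent.CG3.LevelN
import Pool.Agent.CG3.IntPoints

/-!
# Hecke operators act through the degree on the cohomology in degrees `0` and `1` with
# coefficients killed by `p`
-/

noncomputable section

namespace Pool.Agent.CG3

open CategoryTheory

variable {p : P} {S : Finset P}
variable {O : Type} [CommRing O]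

namespace LemmaBAux

/-- The action of `GL₃(ℚ)` on `{1,-1} × GL₃(𝔸_f)`. -/
abbrev actX : MulAction G (ℤˣ × GA) where
  smul γ y := (sgn γ * y.1, diag γ * y.2)
  one_smul y := by
    change (sgn 1 * y.1, diag 1 * y.2) = y
    rw [map_one, map_one, one_mul, one_mul]
  mul_smul γ δ y := by
    change (sgn (γ * δ) * y.1, diag (γ * δ) * y.2) = (sgn γ * (sgn δ * y.1), diag γ * (diag δ * y.2))
    rw [map_mul, map_mul, mul_assoc, mul_assoc]

theorem heckeSum_sub {V : Type} [AddCommGroup V] {ℓ : P} (j : Fin 4) (f f' : ℤˣ × GA → V)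
    (y : ℤˣ × GA) : heckeSum (ℓ := ℓ) j (fun y => f y - f' y) y =
      heckeSum (ℓ := ℓ) j f y - heckeSum (ℓ := ℓ) j f' y := by
  simp [heckeSum, Finset.sum_sub_distrib]

theorem heckeSum_left {V : Type} [AddCommGroup V] {ℓ : P} (j : Fin 4) (f : ℤˣ × GA → V)
    (a : ℤˣ) (b : GA) (y : ℤˣ × GA) : heckeSum (ℓ := ℓ) j (fun y => f (a * y.1, b * y.2)) y =
      heckeSum (ℓ := ℓ) j f (a * y.1, b * y.2) := by
  simp [heckeSum, mul_assoc]

theorem heckeSum_map {V : Type} [AddCommGroup V] {ℓ : P} (j : Fin 4) (f : ℤˣ × GA → V)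
    (φ : V →+ V) (y : ℤˣ × GA) : heckeSum (ℓ := ℓ) j (fun y => φ (f y)) y =
      φ (heckeSum (ℓ := ℓ) j f y) := by
  simp [heckeSum, map_sum]

/-- The degree modulo `p`. -/
theorem deg_smul {V : Type} [AddCommGroup V] (p : P) (hp : ∀ v : V, (p : ℕ) • v = 0) {N : ℕ}
    (hpN : (p : ℕ) ∣ N) {ℓ : P} (hℓ : (ℓ : ℕ) ≡ 1 [MOD N]) (j : Fin 4) (v : V) :
    (cosets ℓ j).ncard • v = degN j • v := by
  have h1 : (ℓ : ℕ) ≡ 1 [MOD (p : ℕ)] := hℓ.of_dvd hpN
  have h2 : (cosets ℓ j).ncard ≡ degN j [MOD (p : ℕ)] := by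
    rw [cosets_ncard]
    have h3 : (ℓ : ℕ) ^ 2 + ℓ + 1 ≡ 3 [MOD (p : ℕ)] := by
      have := ((h1.pow 2).add h1).add_right 1
      simpa using this
    fin_cases j
    · exact h3
    · exact h3
    · exact rfl
    · exact rfl
  have key : ∀ a b : ℕ, a ≤ b → a ≡ b [MOD (p : ℕ)] → a • v = b • v := by
    intro a b hab h
    obtain ⟨m, hm⟩ := (Nat.modEq_iff_dvd' hab).1 h
    have : b = a + (p : ℕ) * m := by omega
    rw [this, add_smul, mul_comm, mul_smul, hp, smul_zero, add_zero]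
  rcases le_total (cosets ℓ j).ncard (degN j) with h | h
  · exact key _ _ h h2
  · exact (key _ _ h h2.symm).symm

/-- The action of elements of level `N₀` on `V` is trivial. -/
theorem forms_inv (L : Level p S) {V : Type} [AddCommGroup V]
    [Module O V] (τ : Representation O (L.K p) V) (U : Set (GQ p))
    (htriv : ∀ k : L.K p, k.1 ∈ U → τ k = 1) {N : ℕ} (hKN : KN N ≤ L.Kf)
    (hU : (GZN p N : Set (GQ p)) ⊆ U) (f : Forms L τ) (x : ℤˣ) (g : GA) (k : GA)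
    (hk : k ∈ KN N) : f.1 (x, g * k) = f.1 (x, g) := by
  have h1 := f.2 x g ⟨k, hKN hk⟩
  rw [h1]
  have h2 : τ (⟨k.1 p, hKN hk p⟩ : L.K p)⁻¹ = 1 := by
    apply htriv
    apply hU
    exact (GZN p N).inv_mem (hk p)
  rw [h2]
  rfl

theorem formsRep_inv_apply (L : Level p S) {V : Type} [AddCommGroup V]
    [Module O V] (τ : Representation O (L.K p) V) (γ : G) (f : Forms L τ) (x : ℤˣ) (g : GA) :
    (formsRep L τ γ f).1 (sgn γ * x, diag γ * g) = f.1 (x, g) := by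
  rw [formsRep_apply]
  simp only [inv_mul_cancel_left]

/-- Degree 0. -/
theorem degree_zero (L : Level p S) {V : Type} [AddCommGroup V]
    [Module O V] (τ : Representation O (L.K p) V) (hp : ∀ v : V, (p : ℕ) • v = 0)
    (U : Set (GQ p)) (htriv : ∀ k : L.K p, k.1 ∈ U → τ k = 1) {N : ℕ} (hN : 0 < N)
    (hpN : (p : ℕ) ∣ N) (hKN : KN N ≤ L.Kf) (hU : (GZN p N : Set (GQ p)) ⊆ U)
    (t : Idx S) (ht : (t.1.1 : ℕ) ≡ 1 [MOD N]) (z : groupCohomology (coeff L τ) 0) :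
    heckeCoh L τ 0 t z = (degN t.2 : O) • z := by
  have hinj : Function.Injective (groupCohomology.H0Iso (coeff L τ)).hom := by
    exact (ConcreteCategory.bijective_of_isIso (groupCohomology.H0Iso (coeff L τ)).hom).1
  apply hinj
  rw [map_smul]
  have h1 : (groupCohomology.H0Iso (coeff L τ)).hom (heckeCoh L τ 0 t z) =
      (Rep.invariantsFunctor O G).map (heckeHom L τ t)
        ((groupCohomology.H0Iso (coeff L τ)).hom z) := by
    exact congrArg (fun a => a.hom z)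
      (groupCohomology.map_id_comp_H0Iso_hom (heckeHom L τ t))
  rw [h1]
  generalize (groupCohomology.H0Iso (coeff L τ)).hom z = w
  apply Subtype.ext
  apply Subtype.ext
  funext y
  have hinv : ∀ γ : G, formsRep L τ γ w.1 = w.1 := w.2
  have h2 := lemmaA hN ht w.1.1 (fun γ x g => by
    have := formsRep_inv_apply L τ γ w.1 x g
    rw [hinv γ] at this
    exact this) (fun x g k hk => forms_inv L τ U htriv hKN hU w.1 x g k hk) t.2 y
  rw [deg_smul p hp hpN ht] at h2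
  have h3 : (degN t.2 : O) • (w.1.1 y) = degN t.2 • (w.1.1 y) := Nat.cast_smul_eq_nsmul O _ _
  exact h2.trans h3.symm

/-- Values at the points `(1, u)` of a cocycle on the congruence subgroup. -/
theorem cocycle_vanish (L : Level p S) {V : Type} [AddCommGroup V]
    [Module O V] (τ : Representation O (L.K p) V) (hp : ∀ v : V, (p : ℕ) • v = 0)
    (U : Set (GQ p)) (htriv : ∀ k : L.K p, k.1 ∈ U → τ k = 1) {N : ℕ} (hN : 0 < N)
    (hpN : (p : ℕ) ∣ N) (hKN : KN N ≤ L.Kf) (hU : (GZN p N : Set (GQ p)) ⊆ U)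
    (c : groupCohomology.cocycles₁ (coeff L τ)) (u : GA) (hu : u ∈ KZ) (A : SLZ)
    (hA : A ∈ Gam (N ^ 2)) : (c (toG A) : Forms L τ).1 (1, u) = 0 := by
  have hcoc : ∀ γ δ : G, ∀ y : ℤˣ × GA, (c (γ * δ) : Forms L τ).1 y =
      (c δ : Forms L τ).1 ((sgn γ)⁻¹ * y.1, (diag γ)⁻¹ * y.2) + (c γ : Forms L τ).1 y := by
    intro γ δ y
    have h := (groupCohomology.mem_cocycles₁_iff (A := coeff L τ) c).1 c.2 γ δ
    exact congrArg (fun f : Forms L τ => f.1 y) h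
  have hinv : ∀ (B : SLZ), B ∈ Gam N → ∀ δ : G, (c δ : Forms L τ).1
      ((sgn (toG B))⁻¹ * 1, (diag (toG B))⁻¹ * u) = (c δ : Forms L τ).1 (1, u) := by
    intro B hB δ
    have h1 : (diag (toG B))⁻¹ * u = u * (u⁻¹ * (diag (toG B))⁻¹ * u) := by group
    rw [sgn_toG, inv_one, one_mul, h1]
    apply forms_inv L τ U htriv hKN hU
    apply KN_conj _ hu
    exact (KN N).inv_mem ((mem_Gam_iff_KN hN B).1 hB)
  let φ : Gam N →* Multiplicative V :=
    { toFun := fun B => Multiplicative.ofAdd ((c (toG B.1) : Forms L τ).1 (1, u))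
      map_one' := by
        have h1 : (c (toG (1 : SLZ)) : Forms L τ) = 0 := by
          rw [map_one]
          exact groupCohomology.cocycles₁_map_one c
        change Multiplicative.ofAdd ((c (toG (1 : SLZ)) : Forms L τ).1 (1, u)) = 1
        rw [h1]
        rfl
      map_mul' := by
        intro B B'
        change Multiplicative.ofAdd ((c (toG (B.1 * B'.1)) : Forms L τ).1 (1, u)) =
          Multiplicative.ofAdd ((c (toG B.1) : Forms L τ).1 (1, u)) *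
          Multiplicative.ofAdd ((c (toG B'.1) : Forms L τ).1 (1, u))
        rw [← ofAdd_add, map_mul, hcoc, hinv B.1 B.2, add_comm] }
  have hA' : A ∈ Gam N := by
    rw [mem_Gam_iff] at hA ⊢
    intro i j
    exact (Dvd.intro_left ((N : ℤ)) (by push_cast; ring)).trans (hA i j)
  have h := csp_lite (p := (p : ℕ)) p.2 hN hpN (A := Multiplicative V) (fun a => hp a.toAdd) φ A hA hA'
  exact h

/-- The translate of `f` by `k` acting also on the values. -/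
theorem degree_one_forms (L : Level p S) (hK : ∀ ℓ, L.K ℓ ≤ GZ ℓ) {V : Type} [AddCommGroup V]
    [Module O V] (τ : Representation O (L.K p) V) {N : ℕ} (hN : 0 < N)
    (z : G → Forms L τ) (f : ℤˣ × GA → V)
    (hf : ∀ (x : ℤˣ) (g : GA), ∀ k ∈ KN N, f (x, g * k) = f (x, g))
    (hz : ∀ (γ : G) (y : ℤˣ × GA), (z γ).1 y = f ((sgn γ)⁻¹ * y.1, (diag γ)⁻¹ * y.2) - f y)
    {ℓ : P} (hℓ : (ℓ : ℕ) ≡ 1 [MOD N]) (hℓN : ¬ (ℓ : ℕ) ∣ N) (j : Fin 4) :
    (fun y => heckeSum (ℓ := ℓ) j f y - (cosets ℓ j).ncard • f y) ∈ Forms L τ := by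
  intro x g k
  have hkZ : k.1 ∈ KZ := fun q => hK q (k.2 q)
  let kp : L.K p := ⟨k.1.1 p, k.2 p⟩
  let F : ℤˣ × GA → V := fun y => τ kp (f (y.1, y.2 * k.1))
  let h : ℤˣ × GA → V := fun y => F y - f y
  have hleft : ∀ (γ : G) (y : ℤˣ × GA), h ((sgn γ)⁻¹ * y.1, (diag γ)⁻¹ * y.2) = h y := by
    intro γ y
    have h1 : (z γ).1 (y.1, y.2 * k.1) = τ kp⁻¹ ((z γ).1 (y.1, y.2)) := (z γ).2 y.1 y.2 k
    have h2 : τ kp ((z γ).1 (y.1, y.2 * k.1)) = (z γ).1 y := by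
      rw [h1, ← Module.End.mul_apply, ← map_mul, mul_inv_cancel, map_one]
      rfl
    rw [hz, hz, map_sub] at h2
    change τ kp (f ((sgn γ)⁻¹ * y.1, (diag γ)⁻¹ * y.2 * k.1)) -
      f ((sgn γ)⁻¹ * y.1, (diag γ)⁻¹ * y.2) = τ kp (f (y.1, y.2 * k.1)) - f y
    simp only at h2
    rw [mul_assoc]
    rw [sub_eq_sub_iff_add_eq_add] at h2 ⊢
    rw [add_comm (τ kp (f (y.1, y.2 * k.1))), ← h2]
  have hG : ∀ (γ : G) (x : ℤˣ) (g : GA), h (sgn γ * x, diag γ * g) = h (x, g) := by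
    intro γ x g
    have := hleft γ (sgn γ * x, diag γ * g)
    simp only [inv_mul_cancel_left] at this
    exact this.symm
  have hKN : ∀ (x : ℤˣ) (g : GA), ∀ k' ∈ KN N, h (x, g * k') = h (x, g) := by
    intro x g k' hk'
    change τ kp (f (x, g * k' * k.1)) - f (x, g * k') = τ kp (f (x, g * k.1)) - f (x, g)
    have h1 : g * k' * k.1 = g * k.1 * (k.1⁻¹ * k' * k.1) := by group
    rw [h1, hf _ _ _ (KN_conj hk' hkZ), hf _ _ _ hk']
  have h1 := lemmaA hN hℓ h hG hKN j (x, g)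
  have h2 : heckeSum (ℓ := ℓ) j h (x, g) =
      heckeSum (ℓ := ℓ) j F (x, g) - heckeSum (ℓ := ℓ) j f (x, g) := heckeSum_sub j F f (x, g)
  have h3 : heckeSum (ℓ := ℓ) j F (x, g) = τ kp (heckeSum (ℓ := ℓ) j f (x, g * k.1)) := by
    rw [← heckeSum_trans hℓN f hf j k.1 hkZ x g]
    exact heckeSum_map j (fun y => f (y.1, y.2 * k.1)) (τ kp).toAddMonoidHom (x, g)
  rw [h2, h3] at h1
  have h4 : h (x, g) = τ kp (f (x, g * k.1)) - f (x, g) := rfl
  rw [h4] at h1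
  change heckeSum (ℓ := ℓ) j f (x, g * k.1) - (cosets ℓ j).ncard • f (x, g * k.1) =
    τ kp⁻¹ (heckeSum (ℓ := ℓ) j f (x, g) - (cosets ℓ j).ncard • f (x, g))
  have h5 : heckeSum (ℓ := ℓ) j f (x, g) - (cosets ℓ j).ncard • f (x, g) =
      τ kp (heckeSum (ℓ := ℓ) j f (x, g * k.1) - (cosets ℓ j).ncard • f (x, g * k.1)) := by
    rw [map_sub, map_nsmul]
    rw [smul_sub] at h1
    rw [sub_eq_sub_iff_add_eq_add] at h1 ⊢
    rw [add_comm, ← h1, add_comm]
  rw [h5, ← Module.End.mul_apply, ← map_mul, inv_mul_cancel, map_one]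
  rfl

end LemmaBAux

open LemmaBAux in
/-- **C9** -/
theorem lemmaB (L : Level p S) (hK : ∀ ℓ, L.K ℓ ≤ GZ ℓ) {V : Type} [AddCommGroup V]
    [Module O V] (τ : Representation O (L.K p) V) (hp : ∀ v : V, (p : ℕ) • v = 0)
    (U : Set (GQ p)) (hU : IsOpen U) (h1 : 1 ∈ U) (htriv : ∀ k : L.K p, k.1 ∈ U → τ k = 1) :
    ∃ N : ℕ, 0 < N ∧ (p : ℕ) ∣ N ∧ ∀ t : Idx S, (t.1.1 : ℕ) ≡ 1 [MOD N] →
      ∀ i : ℕ, i ≤ 1 → ∀ z : groupCohomology (coeff L τ) i,
        heckeCoh L τ i t z = (degN t.2 : O) • z := by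
  obtain ⟨N, hN, hpN, hNS, hKN, hNU⟩ := exists_level L hK U hU h1
  have hN2 : 0 < N ^ 2 := by positivity
  have hdvd : N ∣ N ^ 2 := Dvd.intro_left N (by ring)
  have hpN2 : (p : ℕ) ∣ N ^ 2 := hpN.trans hdvd
  have hKN2 : KN (N ^ 2) ≤ L.Kf := (KN_anti hdvd).trans hKN
  have hNU2 : (GZN p (N ^ 2) : Set (GQ p)) ⊆ U := fun k hk => hNU (GZN_anti hdvd hk)
  refine ⟨N ^ 2, hN2, hpN2, ?_⟩
  intro t ht i hi z
  have hi' : i = 0 ∨ i = 1 := by omega
  rcases hi' with rfl | rfl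
  · exact degree_zero L τ hp U htriv hN2 hpN2 hKN2 hNU2 t ht z
  have hℓN : ¬ (t.1.1 : ℕ) ∣ N ^ 2 := fun h => t.1.2 (hNS _ ((t.1.1).2.dvd_of_dvd_pow h))
  induction z using groupCohomology.H1_induction_on with
  | h c =>
  have hcoc : ∀ γ δ : G, ∀ y : ℤˣ × GA, (c (γ * δ) : Forms L τ).1 y =
      (c δ : Forms L τ).1 ((sgn γ)⁻¹ * y.1, (diag γ)⁻¹ * y.2) + (c γ : Forms L τ).1 y := by
    intro γ δ y
    have h := (groupCohomology.mem_cocycles₁_iff (A := coeff L τ) c).1 c.2 γ δ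
    exact congrArg (fun f : Forms L τ => f.1 y) h
  let _ := actX
  have hsm : ∀ (γ : G) (y : ℤˣ × GA), γ • y = (sgn γ * y.1, diag γ * y.2) := fun _ _ => rfl
  have hsmi : ∀ (γ : G) (y : ℤˣ × GA), γ⁻¹ • y = ((sgn γ)⁻¹ * y.1, (diag γ)⁻¹ * y.2) := by
    intro γ y
    rw [hsm, map_inv, map_inv]
  obtain ⟨f, hfK, hfz⟩ := orbit_lemma (G' := G) (K' := KN (N ^ 2)) (X := ℤˣ × GA) (V := V)
    (fun y k => (y.1, y.2 * k.1))
    (fun y => by simp) (fun y k k' => by simp [mul_assoc])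
    (fun γ y k => by simp only [hsm, mul_assoc])
    1 (fun γ y => (c γ : Forms L τ).1 y)
    (fun γ y k => forms_inv L τ U htriv hKN2 hNU2 (c γ) y.1 y.2 k.1 k.2)
    (fun γ δ y => by
      rw [hsmi, hcoc, add_comm])
    {y | y.1 = 1 ∧ y.2 ∈ KZ}
    (fun y => by
      obtain ⟨γ, u, hu, hx, hg⟩ := class_one y.1 y.2
      refine ⟨γ, 1, (1, u), ⟨rfl, hu⟩, ?_⟩
      rw [hsm]
      simp only [OneMemClass.coe_one, mul_one]
      rw [hx, ← hg])
    (fun y hy γ k hγ => by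
      obtain ⟨x, u⟩ := y
      obtain ⟨hx, hu⟩ := hy
      simp only at hx hu
      subst hx
      rw [hsm] at hγ
      have h2 := congrArg Prod.fst hγ
      have h3 := congrArg Prod.snd hγ
      simp only [mul_one] at h2 h3
      have h4 : diag γ = (u⁻¹)⁻¹ * (k.1)⁻¹ * u⁻¹ := by
        rw [inv_inv, eq_mul_inv_iff_mul_eq, eq_mul_inv_iff_mul_eq, mul_assoc]
        exact h3
      have h5 : diag γ ∈ KN (N ^ 2) := by
        rw [h4]
        exact KN_conj ((KN (N ^ 2)).inv_mem k.2) ((KZ).inv_mem hu)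
      obtain ⟨A, rfl⟩ := exists_SL γ (KN_le_KZ _ h5) h2
      exact cocycle_vanish L τ hp U htriv hN hpN hKN hNU c u hu A
        ((mem_Gam_iff_KN hN2 A).2 h5))
  have hfK' : ∀ (x : ℤˣ) (g : GA), ∀ k ∈ KN (N ^ 2), f (x, g * k) = f (x, g) := by
    intro x g k hk
    exact hfK (x, g) ⟨k, hk⟩
  have hz : ∀ (γ : G) (y : ℤˣ × GA), (c γ : Forms L τ).1 y =
      f ((sgn γ)⁻¹ * y.1, (diag γ)⁻¹ * y.2) - f y := by
    intro γ y
    rw [← hsmi]
    exact hfz γ y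
  have hmem := degree_one_forms L hK τ hN2 (fun γ => (c γ : Forms L τ)) f hfK' hz ht hℓN t.2
  have hmap : heckeCoh L τ 1 t (groupCohomology.H1π (coeff L τ) c) =
      groupCohomology.H1π (coeff L τ)
        (groupCohomology.mapCocycles₁ (MonoidHom.id G) (heckeHom L τ t) c) := by
    exact congrArg (fun a => a.hom c)
      (groupCohomology.H1π_comp_map (A := coeff L τ) (B := coeff L τ) (MonoidHom.id G)
        (heckeHom L τ t))
  rw [hmap, ← map_smul, groupCohomology.H1π_eq_iff]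
  refine ⟨(⟨_, hmem⟩ : Forms L τ), ?_⟩
  funext γ
  apply Subtype.ext
  funext y
  have h6 : (degN t.2 : O) • ((c γ : Forms L τ).1 y) = degN t.2 • ((c γ : Forms L τ).1 y) :=
    Nat.cast_smul_eq_nsmul O _ _
  have h7 : heckeSum (ℓ := t.1.1) t.2 (c γ : Forms L τ).1 y =
      heckeSum (ℓ := t.1.1) t.2 f ((sgn γ)⁻¹ * y.1, (diag γ)⁻¹ * y.2) -
      heckeSum (ℓ := t.1.1) t.2 f y := by
    rw [← heckeSum_left, ← heckeSum_sub]
    congr 1
    funext y
    exact hz γ y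
  change (heckeSum (ℓ := t.1.1) t.2 f ((sgn γ)⁻¹ * y.1, (diag γ)⁻¹ * y.2) -
      (cosets t.1.1 t.2).ncard • f ((sgn γ)⁻¹ * y.1, (diag γ)⁻¹ * y.2)) -
      (heckeSum (ℓ := t.1.1) t.2 f y - (cosets t.1.1 t.2).ncard • f y) =
      heckeSum (ℓ := t.1.1) t.2 (c γ : Forms L τ).1 y - (degN t.2 : O) • ((c γ : Forms L τ).1 y)
  rw [h6, h7, hz γ y, deg_smul p hp hpN2 ht, deg_smul p hp hpN2 ht, smul_sub]
  abel

end Pool.Agent.CG3
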