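import Pool.Agent.CG3.CohMap
import Pool.Agent.CG3.CohExact
import Pool.Agent.CG3.Nakayama
import Pool.Agent.CG3.LemmaB
import Pool.Agent.CG3.FiniteH

/-!
# Degrees `0` and `1` are Eisenstein for all coefficient modules: devissage
-/

noncomputable section

namespace Pool.Agent.CG3

open CategoryTheory

variable {p : P} {S : Finset P}
variable {O : Type} [CommRing O]

/-- The restriction of a representation to a stable submodule. -/
def subRep {H W : Type} [Group H] [AddCommGroup W] [Module O W] (σ : Representation O H W)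
    (T : Submodule O W) (hT : ∀ k, ∀ w ∈ T, σ k w ∈ T) : Representation O H T where
  toFun k := (σ k).restrict (hT k)
  map_one' := by
    apply LinearMap.ext
    intro w
    apply Subtype.ext
    simp
  map_mul' a b := by
    apply LinearMap.ext
    intro w
    apply Subtype.ext
    simp

/-- The quotient of a representation by a stable submodule. -/
def quoRep {H W : Type} [Group H] [AddCommGroup W] [Module O W] (σ : Representation O H W)
    (T : Submodule O W) (hT : ∀ k, ∀ w ∈ T, σ k w ∈ T) : Representation O H (W ⧸ T) where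
  toFun k := T.mapQ T (σ k) (hT k)
  map_one' := by
    apply LinearMap.ext
    intro w
    obtain ⟨w, rfl⟩ := Submodule.Quotient.mk_surjective T w
    simp [Submodule.mapQ_apply]
  map_mul' a b := by
    apply LinearMap.ext
    intro w
    obtain ⟨w, rfl⟩ := Submodule.Quotient.mk_surjective T w
    simp [Submodule.mapQ_apply]

/-- The localisation of the cohomology at `m` is zero. -/
def Dead (L : Level p S) {W : Type} [AddCommGroup W] [Module O W]
    (σ : Representation O (L.K p) W) (i : ℕ) (m : Ideal (HeckeAlg S O)) : Prop :=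
  ∀ z : groupCohomology (coeff L σ) i, ∃ t : HeckeAlg S O, t ∉ m ∧ act L σ i t z = 0

theorem not_inSupport_of_dead {L : Level p S} {W : Type} [AddCommGroup W] [Module O W]
    {σ : Representation O (L.K p) W} {i : ℕ} {m : Ideal (HeckeAlg S O)} (h : Dead L σ i m) :
    ¬ InSupport L σ i m := by
  rintro ⟨z, hz⟩
  obtain ⟨t, ht, h0⟩ := h z
  exact hz t ht h0

/-- The action of `K_p` on `W` is trivial on an open subgroup. -/
def Smooth (L : Level p S) {W : Type} [AddCommGroup W] [Module O W]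
    (σ : Representation O (L.K p) W) : Prop :=
  ∃ U : Set (GQ p), IsOpen U ∧ 1 ∈ U ∧ ∀ k : L.K p, k.1 ∈ U → σ k = 1

/-- Devissage. -/
theorem dead_ext (L : Level p S) {W' W W'' : Type} [AddCommGroup W] [Module O W]
    [AddCommGroup W'] [Module O W'] [AddCommGroup W''] [Module O W'']
    (σ' : Representation O (L.K p) W') (σ : Representation O (L.K p) W)
    (σ'' : Representation O (L.K p) W'')
    (ι : W' →ₗ[O] W) (hι : ∀ k w, ι (σ' k w) = σ k (ι w)) (hinj : Function.Injective ι)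
    (π : W →ₗ[O] W'') (hπ : ∀ k w, π (σ k w) = σ'' k (π w)) (hsurj : Function.Surjective π)
    (hex : LinearMap.range ι = LinearMap.ker π) (i : ℕ) (m : Ideal (HeckeAlg S O)) [m.IsPrime]
    (h' : Dead L σ' i m) (h'' : Dead L σ'' i m) : Dead L σ i m := by
  intro z
  obtain ⟨t, ht, ht0⟩ := h'' (cohMap L σ σ'' π hπ i z)
  rw [← cohMap_hecke] at ht0
  obtain ⟨z', hz'⟩ := cohMap_exact L σ' σ σ'' ι hι hinj π hπ hsurj hex i _ ht0
  obtain ⟨t', ht', ht'0⟩ := h' z'
  refine ⟨t' * t, fun hmem => ?_, ?_⟩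
  · rcases (Ideal.IsPrime.mem_or_mem ‹_› hmem) with h | h
    · exact ht' h
    · exact ht h
  · rw [map_mul, Module.End.mul_apply, ← hz', ← cohMap_hecke, ht'0, map_zero]

theorem homologyMap_smul' {C : CochainComplex (ModuleCat O) ℕ} (c : O) (i : ℕ) :
    HomologicalComplex.homologyMap (c • 𝟙 C) i = c • 𝟙 (C.homology i) := by
  have h3 : (HomologicalComplex.shortComplexFunctor (ModuleCat O) (ComplexShape.up ℕ) i).map
        (c • 𝟙 C) = c • 𝟙 _ := by
    ext <;> rfl
  unfold HomologicalComplex.homologyMap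
  rw [h3, ShortComplex.homologyMap_smul, ShortComplex.homologyMap_id]
  rfl

theorem functor_smul {H : Type} [Group H] {A : Rep O H} (f : A ⟶ A) (c : O)
    (hf : ∀ a : A, f.hom a = c • a) (i : ℕ) :
    (groupCohomology.functor O H i).map f = c • 𝟙 (groupCohomology A i) := by
  have h1 : groupCohomology.cochainsMap (MonoidHom.id H) f
      = c • 𝟙 (groupCohomology.inhomogeneousCochains A) := by
    ext n g
    exact hf _
  have h2 := homologyMap_smul' (C := groupCohomology.inhomogeneousCochains A) c i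
  rw [← h1] at h2
  exact h2

theorem cohMap_smul (L : Level p S) {W : Type} [AddCommGroup W] [Module O W]
    (σ : Representation O (L.K p) W) (c : O)
    (hφ : ∀ k w, (c • (LinearMap.id : W →ₗ[O] W)) (σ k w)
      = σ k ((c • (LinearMap.id : W →ₗ[O] W)) w)) (i : ℕ)
    (z : groupCohomology (coeff L σ) i) :
    cohMap L σ σ (c • LinearMap.id) hφ i z = c • z := by
  unfold cohMap
  rw [functor_smul (formsMap L σ σ (c • LinearMap.id) hφ) c (fun a => rfl) i]
  rfl

/-- The condition on `m` opposite to the conclusion. -/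
def Bad (p : P) (m : Ideal (HeckeAlg S O)) : Prop :=
  ∀ N : ℕ, 0 < N → (p : ℕ) ∣ N → ∃ t : Idx S, (t.1.1 : ℕ) ≡ 1 [MOD N] ∧
    (MvPolynomial.X t - (degN t.2 : HeckeAlg S O)) ∉ m

theorem dead_killed (L : Level p S) (hK : ∀ ℓ, L.K ℓ ≤ GZ ℓ) {W : Type} [AddCommGroup W]
    [Module O W] (σ : Representation O (L.K p) W) (hp : ∀ v : W, (p : ℕ) • v = 0)
    (hsm : Smooth L σ) (i : ℕ) (hi : i ≤ 1) (m : Ideal (HeckeAlg S O)) (hbad : Bad p m) :
    Dead L σ i m := by
  obtain ⟨U, hU, h1, htriv⟩ := hsm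
  obtain ⟨N, hN, hpN, hT⟩ := lemmaB L hK σ hp U hU h1 htriv
  obtain ⟨t, htN, htm⟩ := hbad N hN hpN
  intro z
  refine ⟨_, htm, ?_⟩
  rw [map_sub, act_X, map_natCast, LinearMap.sub_apply, hT t htN i hi z]
  simp [Nat.cast_smul_eq_nsmul]

theorem dead_tors [IsDomain O] (L : Level p S) (hK : ∀ ℓ, L.K ℓ ≤ GZ ℓ) (ϖ : O)
    (hpϖ : ϖ ∣ ((p : ℕ) : O)) (i : ℕ) (hi : i ≤ 1)
    (m : Ideal (HeckeAlg S O)) [m.IsPrime] (hbad : Bad p m) (n : ℕ) :
    ∀ (W : Type) [AddCommGroup W] [Module O W] (σ : Representation O (L.K p) W),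
      (∀ v : W, ϖ ^ n • v = 0) → Smooth L σ → Dead L σ i m := by
  have hkill : ∀ (W : Type) [AddCommGroup W] [Module O W], (∀ v : W, ϖ • v = 0) →
      ∀ v : W, (p : ℕ) • v = 0 := by
    intro W _ _ h v
    obtain ⟨c, hc⟩ := hpϖ
    have : ((p : ℕ) : O) • v = 0 := by
      rw [hc, mul_comm, mul_smul, h, smul_zero]
    rw [Nat.cast_smul_eq_nsmul] at this
    exact this
  induction n with
  | zero =>
    intro W _ _ σ h hsm
    refine dead_killed L hK σ (hkill W fun v => ?_) hsm i hi m hbad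
    have := h v
    rw [pow_zero, one_smul] at this
    rw [this, smul_zero]
  | succ n ih =>
    intro W _ _ σ h hsm
    let T : Submodule O W := LinearMap.range (ϖ • (LinearMap.id : W →ₗ[O] W))
    have hT : ∀ k, ∀ w ∈ T, σ k w ∈ T := by
      rintro k _ ⟨w, rfl⟩
      exact ⟨σ k w, by simp⟩
    obtain ⟨U, hU, h1, htriv⟩ := hsm
    refine dead_ext L (subRep σ T hT) σ (quoRep σ T hT) T.subtype (fun k w => rfl)
      T.injective_subtype T.mkQ (fun k w => rfl) T.mkQ_surjective (by simp) i m ?_ ?_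
    · refine ih _ _ ?_ ⟨U, hU, h1, fun k hk => ?_⟩
      · rintro ⟨_, w, rfl⟩
        apply Subtype.ext
        have := h w
        rw [pow_succ, mul_smul] at this
        simpa using this
      · apply LinearMap.ext
        intro w
        apply Subtype.ext
        change σ k w.1 = w.1
        rw [htriv k hk]
        rfl
    · refine dead_killed L hK _ (hkill _ fun v => ?_) ⟨U, hU, h1, fun k hk => ?_⟩ i hi m hbad
      · obtain ⟨w, rfl⟩ := Submodule.Quotient.mk_surjective T v
        rw [← Submodule.Quotient.mk_smul, Submodule.Quotient.mk_eq_zero]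
        exact ⟨w, by simp⟩
      · apply LinearMap.ext
        intro w
        obtain ⟨w, rfl⟩ := Submodule.Quotient.mk_surjective T w
        change Submodule.Quotient.mk (σ k w) = _
        rw [htriv k hk]
        rfl

/-- The case of coefficients on which a generator `ϖ` of the maximal ideal is injective. -/
theorem dead_free [IsDomain O] [IsDiscreteValuationRing O] (L : Level p S)
    (hK : ∀ ℓ, L.K ℓ ≤ GZ ℓ) (ϖ : O) (hϖ : ϖ ∈ IsLocalRing.maximalIdeal O)
    (hpϖ : ϖ ∣ ((p : ℕ) : O)) (i : ℕ) (hi : i ≤ 1)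
    (m : Ideal (HeckeAlg S O)) [m.IsMaximal] (hbad : Bad p m)
    {W : Type} [AddCommGroup W] [Module O W] [Module.Finite O W]
    (σ : Representation O (L.K p) W) (hinj : ∀ w : W, ϖ • w = 0 → w = 0)
    (hsm : ∃ U : Set (GQ p), IsOpen U ∧ 1 ∈ U ∧ ∀ k : L.K p, k.1 ∈ U →
      ∀ w, ∃ w', σ k w - w = ϖ • w') :
    Dead L σ i m := by
  have := finite_coh L hK σ i hi
  let φ : W →ₗ[O] W := ϖ • (LinearMap.id : W →ₗ[O] W)
  have hφ : ∀ k w, φ (σ k w) = σ k (φ w) := fun k w => by simp [φ]
  let T : Submodule O W := LinearMap.range φ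
  have hT : ∀ k, ∀ w ∈ T, σ k w ∈ T := by
    rintro k _ ⟨w, rfl⟩
    exact ⟨σ k w, by simp [φ]⟩
  have hφinj : Function.Injective φ := by
    rw [injective_iff_map_eq_zero]
    intro w hw
    exact hinj w hw
  have hdead : Dead L (quoRep σ T hT) i m := by
    refine dead_tors L hK ϖ hpϖ i hi m hbad 1 _ _ (fun v => ?_) ?_
    · obtain ⟨w, rfl⟩ := Submodule.Quotient.mk_surjective T v
      rw [← Submodule.Quotient.mk_smul, Submodule.Quotient.mk_eq_zero]
      exact ⟨w, by simp [φ]⟩
    · obtain ⟨U, hU, h1, hk⟩ := hsm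
      refine ⟨U, hU, h1, fun k hkU => ?_⟩
      apply LinearMap.ext
      intro w
      obtain ⟨w, rfl⟩ := Submodule.Quotient.mk_surjective T w
      obtain ⟨w', hw'⟩ := hk k hkU w
      change Submodule.Quotient.mk (σ k w) = Submodule.Quotient.mk w
      rw [Submodule.Quotient.eq, hw']
      exact ⟨w', by simp [φ]⟩
  obtain ⟨t, ht, ht0⟩ := nakayama_loc (act L σ i) ϖ hϖ m (by
    intro z
    obtain ⟨t, ht, ht0⟩ := hdead (cohMap L σ (quoRep σ T hT) T.mkQ (fun k w => rfl) i z)
    have ht1 := (cohMap_hecke L σ (quoRep σ T hT) T.mkQ (fun k w => rfl) i t z).trans ht0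
    obtain ⟨z', hz'⟩ := cohMap_exact L σ σ (quoRep σ T hT) φ hφ hφinj T.mkQ (fun k w => rfl)
      T.mkQ_surjective (by simp [T]) i _ ht1
    refine ⟨t, ht, z', ?_⟩
    rw [← hz']
    exact cohMap_smul L σ ϖ hφ i z')
  exact fun z => ⟨t, ht, ht0 z⟩

/-- The localisation at `m` of the cohomology in degrees `0`, `1` is zero if `m` is bad. -/
theorem dead_all [IsDomain O] [IsDiscreteValuationRing O]
    (hpO : ((p : ℕ) : O) ∈ IsLocalRing.maximalIdeal O)
    (L : Level p S) (hK : ∀ ℓ, L.K ℓ ≤ GZ ℓ)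
    {W : Type} [AddCommGroup W] [Module O W] [Module.Finite O W]
    (σ : Representation O (L.K p) W) (hσ : IsContinuousRep L σ) (i : ℕ) (hi : i ≤ 1)
    (m : Ideal (HeckeAlg S O)) [m.IsMaximal] (hbad : Bad p m) : Dead L σ i m := by
  obtain ⟨ϖ, hϖ⟩ := IsDiscreteValuationRing.exists_irreducible O
  have hmax : IsLocalRing.maximalIdeal O = Ideal.span {ϖ} := hϖ.maximalIdeal_eq
  have hϖm : ϖ ∈ IsLocalRing.maximalIdeal O := by
    rw [hmax]; exact Ideal.mem_span_singleton_self ϖ
  have hpϖ : ϖ ∣ ((p : ℕ) : O) := by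
    rw [hmax, Ideal.mem_span_singleton] at hpO
    exact hpO
  -- elements of `𝔪ⁿ W`
  have hpow : ∀ (n : ℕ) (w : W), w ∈ (IsLocalRing.maximalIdeal O ^ n • ⊤ : Submodule O W) →
      ∃ w', w = ϖ ^ n • w' := by
    intro n w hw
    rw [hmax, Ideal.span_singleton_pow, Submodule.ideal_span_singleton_smul] at hw
    obtain ⟨w', _, hw'⟩ := hw
    exact ⟨w', hw'.symm⟩
  -- the torsion submodule
  let T : Submodule O W :=
    { carrier := {w | ∃ n : ℕ, ϖ ^ n • w = 0}
      add_mem' := by
        rintro a b ⟨n, hn⟩ ⟨n', hn'⟩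
        refine ⟨n + n', ?_⟩
        have h1 : ϖ ^ (n + n') • a = 0 := by
          rw [add_comm, pow_add, mul_smul, hn, smul_zero]
        have h2 : ϖ ^ (n + n') • b = 0 := by
          rw [pow_add, mul_smul, hn', smul_zero]
        rw [smul_add, h1, h2, add_zero]
      zero_mem' := ⟨0, by simp⟩
      smul_mem' := by
        rintro c a ⟨n, hn⟩
        refine ⟨n, ?_⟩
        rw [← mul_smul, mul_comm, mul_smul, hn, smul_zero] }
  have hT : ∀ k, ∀ w ∈ T, σ k w ∈ T := by
    rintro k w ⟨n, hn⟩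
    exact ⟨n, by rw [← map_smul, hn, map_zero]⟩
  have hTdiv : ∀ (n : ℕ) (w : W), ϖ ^ n • w ∈ T → w ∈ T := by
    rintro n w ⟨n', hn'⟩
    exact ⟨n' + n, by rw [pow_add, mul_smul, hn']⟩
  -- a common exponent
  have hN : ∃ N : ℕ, ∀ w ∈ T, ϖ ^ N • w = 0 := by
    have hnoeth : IsNoetherian O W := isNoetherian_of_isNoetherianRing_of_finite O W
    let f : ℕ →o Submodule O W :=
      { toFun := fun n => LinearMap.ker (ϖ ^ n • (LinearMap.id : W →ₗ[O] W))
        monotone' := by
          intro a b hab w hw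
          obtain ⟨c, rfl⟩ := Nat.exists_eq_add_of_le hab
          simp only [LinearMap.mem_ker, LinearMap.smul_apply, LinearMap.id_coe, id_eq] at hw ⊢
          rw [add_comm, pow_add, mul_smul, hw, smul_zero] }
    obtain ⟨N, hN⟩ := monotone_stabilizes_iff_noetherian.2 hnoeth f
    refine ⟨N, ?_⟩
    rintro w ⟨n, hn⟩
    have h1 : w ∈ f (max N n) := f.monotone (le_max_right N n) (by
      change w ∈ LinearMap.ker _
      simpa using hn)
    rw [← hN _ (le_max_left N n)] at h1
    have h2 : w ∈ LinearMap.ker (ϖ ^ N • (LinearMap.id : W →ₗ[O] W)) := h1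
    simpa using h2
  obtain ⟨N, hN⟩ := hN
  refine dead_ext L (subRep σ T hT) σ (quoRep σ T hT) T.subtype (fun k w => rfl)
      T.injective_subtype T.mkQ (fun k w => rfl) T.mkQ_surjective (by simp) i m ?_ ?_
  · refine dead_tors L hK ϖ hpϖ i hi m hbad N _ _ ?_ ?_
    · rintro ⟨w, hw⟩
      apply Subtype.ext
      exact hN w hw
    · obtain ⟨U, hU, h1, hk⟩ := hσ N
      refine ⟨U, hU, h1, fun k hkU => ?_⟩
      apply LinearMap.ext
      rintro ⟨w, hw⟩
      apply Subtype.ext
      change σ k w = w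
      obtain ⟨w', hw'⟩ := hpow N _ (hk k hkU w)
      have h2 : ϖ ^ N • w' ∈ T := by
        rw [← hw']
        exact T.sub_mem (hT k w hw) hw
      have h3 := hN w' (hTdiv N w' h2)
      rw [h3, sub_eq_zero] at hw'
      exact hw'
  · refine dead_free L hK ϖ hϖm hpϖ i hi m hbad _ ?_ ?_
    · intro v hv
      obtain ⟨w, rfl⟩ := Submodule.Quotient.mk_surjective T v
      rw [← Submodule.Quotient.mk_smul, Submodule.Quotient.mk_eq_zero] at hv
      rw [Submodule.Quotient.mk_eq_zero]
      exact hTdiv 1 w (by rwa [pow_one])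
    · obtain ⟨U, hU, h1, hk⟩ := hσ 1
      refine ⟨U, hU, h1, fun k hkU v => ?_⟩
      obtain ⟨w, rfl⟩ := Submodule.Quotient.mk_surjective T v
      obtain ⟨w', hw'⟩ := hpow 1 _ (hk k hkU w)
      refine ⟨Submodule.Quotient.mk w', ?_⟩
      change Submodule.Quotient.mk (σ k w) - Submodule.Quotient.mk w = _
      rw [← Submodule.Quotient.mk_sub, hw', pow_one, Submodule.Quotient.mk_smul]

theorem lower [IsDomain O] [IsDiscreteValuationRing O]
    (hpO : ((p : ℕ) : O) ∈ IsLocalRing.maximalIdeal O)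
    (L : Level p S) (hK : ∀ ℓ, L.K ℓ ≤ GZ ℓ)
    {W : Type} [AddCommGroup W] [Module O W] [Module.Finite O W]
    (σ : Representation O (L.K p) W) (hσ : IsContinuousRep L σ) (i : ℕ) (hi : i ≤ 1)
    (m : Ideal (HeckeAlg S O)) [m.IsMaximal] (hm : InSupport L σ i m) :
    ((p : ℕ) : HeckeAlg S O) ∈ m ∧ ∃ N : ℕ, 0 < N ∧ (p : ℕ) ∣ N ∧
      ∀ t : Idx S, (t.1.1 : ℕ) ≡ 1 [MOD N] →
        (MvPolynomial.X t - (degN t.2 : HeckeAlg S O)) ∈ m := by
  constructor
  · by_contra hpm
    have := finite_coh L hK σ i hi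
    obtain ⟨t, ht, ht0⟩ := mem_of_support (act L σ i) ((p : ℕ) : O) hpO m (by
      rwa [map_natCast])
    exact not_inSupport_of_dead (fun z => ⟨t, ht, ht0 z⟩) hm
  · by_contra hbad
    push Not at hbad
    refine not_inSupport_of_dead (dead_all hpO L hK σ hσ i hi m ?_) hm
    intro N hN hpN
    exact hbad N hN hpN

end Pool.Agent.CG3
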