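import Pool.Agent.CG3.Statement

/-!
# Transport of structure: every level is conjugate to a level contained in `GL₃(Ẑ)`
-/

noncomputable section

namespace Pool.Agent.CG3

open Matrix CategoryTheory

variable {p : P} {S : Finset P}
variable {O : Type} [CommRing O]

namespace Transport

/-- A compact subgroup of `GL₃(ℚ_ℓ)` has bounded entries. -/
theorem exists_bound (ℓ : P) (K : Set (GQ ℓ)) (hK : IsCompact K) :
    ∃ n : ℕ, ∀ k ∈ K, ∀ i j, ‖(k : Matrix (Fin 3) (Fin 3) ℚ_[(ℓ : ℕ)]) i j‖ ≤ ((ℓ : ℕ) : ℝ) ^ n := by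
  have h1 : ∀ i j : Fin 3, ∃ C : ℝ, ∀ k ∈ K,
      ‖(k : Matrix (Fin 3) (Fin 3) ℚ_[(ℓ : ℕ)]) i j‖ ≤ C := by
    intro i j
    exact hK.exists_bound_of_continuousOn (Units.continuous_val.matrix_elem i j).continuousOn
  choose C hC using h1
  have hℓ : (1 : ℝ) < ((ℓ : ℕ) : ℝ) := by exact_mod_cast ℓ.2.one_lt
  obtain ⟨n, hn⟩ := pow_unbounded_of_one_lt (∑ i, ∑ j, |C i j|) hℓ
  refine ⟨n, fun k hk i j => ((hC i j k hk).trans (le_abs_self _)).trans (le_trans ?_ hn.le)⟩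
  calc |C i j| ≤ ∑ j, |C i j| :=
        Finset.single_le_sum (f := fun j => |C i j|) (fun _ _ => abs_nonneg _) (Finset.mem_univ j)
    _ ≤ ∑ i, ∑ j, |C i j| :=
        Finset.single_le_sum (f := fun i => ∑ j, |C i j|)
          (fun _ _ => Finset.sum_nonneg fun _ _ => abs_nonneg _) (Finset.mem_univ i)

/-- The lattice `∑_{k ∈ K} k ℤ_ℓ³`. -/
def lat (ℓ : P) (K : Subgroup (GQ ℓ)) : Submodule ℤ_[(ℓ : ℕ)] (Fin 3 → ℚ_[(ℓ : ℕ)]) :=
  Submodule.span _ {v | ∃ k ∈ K, ∃ j, v = fun i => (k : Matrix (Fin 3) (Fin 3) ℚ_[(ℓ : ℕ)]) i j}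

theorem lat_mul (ℓ : P) (K : Subgroup (GQ ℓ)) (k : GQ ℓ) (hk : k ∈ K)
    (v : Fin 3 → ℚ_[(ℓ : ℕ)]) (hv : v ∈ lat ℓ K) :
    (k : Matrix (Fin 3) (Fin 3) ℚ_[(ℓ : ℕ)]).mulVec v ∈ lat ℓ K := by
  induction hv using Submodule.span_induction with
  | mem v hv =>
    obtain ⟨k', hk', j, rfl⟩ := hv
    apply Submodule.subset_span
    refine ⟨k * k', K.mul_mem hk hk', j, ?_⟩
    funext i
    rw [Units.val_mul, Matrix.mul_apply]
    rfl
  | zero => rw [Matrix.mulVec_zero]; exact Submodule.zero_mem _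
  | add x y _ _ hx hy => rw [Matrix.mulVec_add]; exact Submodule.add_mem _ hx hy
  | smul a x _ hx => rw [Matrix.mulVec_smul]; exact Submodule.smul_mem _ a hx

theorem lat_isLattice (ℓ : P) (K : Subgroup (GQ ℓ)) (hK : IsCompact (K : Set (GQ ℓ))) :
    Submodule.IsLattice ℚ_[(ℓ : ℕ)] (lat ℓ K) := by
  obtain ⟨n, hn⟩ := exists_bound ℓ K hK
  constructor
  · have hfg : (Submodule.span ℤ_[(ℓ : ℕ)] (Set.range fun j : Fin 3 =>
        (Pi.single j ((((ℓ : ℕ) : ℚ_[(ℓ : ℕ)]) ^ n)⁻¹) : Fin 3 → ℚ_[(ℓ : ℕ)]))).FG :=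
      Submodule.fg_span (Set.finite_range _)
    refine Submodule.FG.of_le hfg ?_
    rw [lat, Submodule.span_le]
    rintro v ⟨k, hk, j, rfl⟩
    have hc : ∀ i, ‖(((ℓ : ℕ) : ℚ_[(ℓ : ℕ)]) ^ n) *
        (k : Matrix (Fin 3) (Fin 3) ℚ_[(ℓ : ℕ)]) i j‖ ≤ 1 := by
      intro i
      rw [norm_mul, norm_pow, Padic.norm_p]
      have h1 := hn k hk i j
      have h2 : (0 : ℝ) < ((ℓ : ℕ) : ℝ) := by exact_mod_cast ℓ.2.pos
      rw [inv_pow, inv_mul_le_iff₀ (pow_pos h2 n), mul_one]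
      exact h1
    let c : Fin 3 → ℤ_[(ℓ : ℕ)] := fun i => ⟨_, hc i⟩
    have h3 : (fun i => (k : Matrix (Fin 3) (Fin 3) ℚ_[(ℓ : ℕ)]) i j) =
        ∑ i, c i •
          (Pi.single i ((((ℓ : ℕ) : ℚ_[(ℓ : ℕ)]) ^ n)⁻¹) : Fin 3 → ℚ_[(ℓ : ℕ)]) := by
      funext i
      rw [Finset.sum_apply, Finset.sum_eq_single i]
      · rw [Pi.smul_apply, Pi.single_eq_same, Algebra.smul_def]
        have h4 : (((ℓ : ℕ) : ℚ_[(ℓ : ℕ)]) ^ n) ≠ 0 := by
          apply pow_ne_zero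
          exact_mod_cast ℓ.2.ne_zero
        change _ = ((((ℓ : ℕ) : ℚ_[(ℓ : ℕ)]) ^ n) *
          (k : Matrix (Fin 3) (Fin 3) ℚ_[(ℓ : ℕ)]) i j) * _
        field_simp
      · intro b _ hb
        rw [Pi.smul_apply, Pi.single_eq_of_ne hb.symm, smul_zero]
      · intro h; exact absurd (Finset.mem_univ i) h
    rw [SetLike.mem_coe, h3]
    refine Submodule.sum_mem _ fun i _ => Submodule.smul_mem _ _ (Submodule.subset_span ?_)
    exact ⟨i, rfl⟩
  · rw [eq_top_iff]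
    intro v _
    have h1 : v = ∑ j, v j • (Pi.single j 1 : Fin 3 → ℚ_[(ℓ : ℕ)]) := by
      funext i
      simp [Finset.sum_apply, Pi.single_apply]
    rw [h1]
    refine Submodule.sum_mem _ fun j _ => Submodule.smul_mem _ _ (Submodule.subset_span ?_)
    apply Submodule.subset_span
    refine ⟨1, K.one_mem, j, ?_⟩
    funext i
    simp [Matrix.one_apply, Pi.single_apply]

/-- Every compact subgroup of `GL₃(ℚ_ℓ)` is conjugate to a subgroup of `GL₃(ℤ_ℓ)`. -/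
theorem exists_conj (ℓ : P) (K : Subgroup (GQ ℓ)) (hK : IsCompact (K : Set (GQ ℓ))) :
    ∃ h : GQ ℓ, ∀ k ∈ K, h⁻¹ * k * h ∈ GZ ℓ := by
  have hlat := lat_isLattice ℓ K hK
  have hrank : Module.finrank ℤ_[(ℓ : ℕ)] (lat ℓ K) = 3 := by
    have := Submodule.IsLattice.finrank_of_pi (lat ℓ K) (K := ℚ_[(ℓ : ℕ)])
    simpa using this
  have hfree : Module.Free ℤ_[(ℓ : ℕ)] (lat ℓ K) :=
    Submodule.IsLattice.free ℚ_[(ℓ : ℕ)] (lat ℓ K)
  have hfin : Module.Finite ℤ_[(ℓ : ℕ)] (lat ℓ K) :=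
    Submodule.IsLattice.finite ℚ_[(ℓ : ℕ)] (lat ℓ K)
  let b : Module.Basis (Fin 3) ℤ_[(ℓ : ℕ)] (lat ℓ K) := Module.finBasisOfFinrankEq _ _ hrank
  let b' : Module.Basis (Fin 3) ℚ_[(ℓ : ℕ)] (Fin 3 → ℚ_[(ℓ : ℕ)]) := b.extendOfIsLattice ℚ_[(ℓ : ℕ)]
  let H : Matrix (Fin 3) (Fin 3) ℚ_[(ℓ : ℕ)] := Matrix.of fun i j => (b j).val i
  have hcols : ∀ j, (fun i => H i j) = b' j := by
    intro j
    funext i
    simp [H, b']
  have hH : IsUnit H := by
    rw [← Matrix.linearIndependent_cols_iff_isUnit]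
    have : H.col = b' := by
      funext j
      exact hcols j
    rw [this]
    exact b'.linearIndependent
  obtain ⟨h, hh⟩ := hH
  have key : ∀ k ∈ K, ∃ C : Matrix (Fin 3) (Fin 3) ℤ_[(ℓ : ℕ)],
      (k : Matrix (Fin 3) (Fin 3) ℚ_[(ℓ : ℕ)]) * H = H * C.map (algebraMap ℤ_[(ℓ : ℕ)] ℚ_[(ℓ : ℕ)]) := by
    intro k hk
    have h1 : ∀ j, (k : Matrix (Fin 3) (Fin 3) ℚ_[(ℓ : ℕ)]).mulVec (b j).val ∈ lat ℓ K :=
      fun j => lat_mul ℓ K k hk _ (b j).2
    refine ⟨Matrix.of fun i j => b.repr ⟨_, h1 j⟩ i, ?_⟩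
    ext i j
    have h2 := congrArg (fun v : lat ℓ K => v.val i) (b.sum_repr ⟨_, h1 j⟩)
    simp only [AddSubmonoidClass.coe_finsetSum, Submodule.coe_smul, Finset.sum_apply,
      Pi.smul_apply] at h2
    rw [Matrix.mul_apply, Matrix.mul_apply]
    have h3 : ((k : Matrix (Fin 3) (Fin 3) ℚ_[(ℓ : ℕ)]).mulVec (b j).val) i =
        ∑ x, (k : Matrix (Fin 3) (Fin 3) ℚ_[(ℓ : ℕ)]) i x * H x j := rfl
    rw [← h3, ← h2]
    refine Finset.sum_congr rfl fun x _ => ?_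
    rw [Algebra.smul_def, mul_comm]
    rfl
  have key2 : ∀ k ∈ K, ∀ i j,
      ‖((h⁻¹ * k * h : GQ ℓ) : Matrix (Fin 3) (Fin 3) ℚ_[(ℓ : ℕ)]) i j‖ ≤ 1 := by
    intro k hk i j
    obtain ⟨C, hC⟩ := key k hk
    have h1 : ((h⁻¹ * k * h : GQ ℓ) : Matrix (Fin 3) (Fin 3) ℚ_[(ℓ : ℕ)]) =
        C.map (algebraMap ℤ_[(ℓ : ℕ)] ℚ_[(ℓ : ℕ)]) := by
      rw [Units.val_mul, Units.val_mul, hh, mul_assoc, hC, ← mul_assoc, ← hh, ← Units.val_mul,
        inv_mul_cancel, Units.val_one, one_mul]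
    rw [h1]
    exact (C i j).2
  refine ⟨h, fun k hk => ?_⟩
  rw [mem_GZ_iff]
  refine ⟨key2 k hk, ?_⟩
  have h2 : (h⁻¹ * k * h)⁻¹ = h⁻¹ * k⁻¹ * h := by group
  rw [h2]
  exact key2 _ (K.inv_mem hk)


/-- Conjugation `k ↦ h k h⁻¹`. -/
def cj {ℓ : P} (h : GQ ℓ) : GQ ℓ →* GQ ℓ := (MulAut.conj h).toMonoidHom

theorem cj_apply {ℓ : P} (h k : GQ ℓ) : cj h k = h * k * h⁻¹ := rfl

theorem continuous_cj {ℓ : P} (h : GQ ℓ) : Continuous (cj h) := by
  have : (cj h : GQ ℓ → GQ ℓ) = fun k => h * k * h⁻¹ := rfl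
  rw [this]
  fun_prop

/-- The conjugated level. -/
def lev (L : Level p S) (h : GA) (hS : ∀ ℓ, ℓ ∉ S → h.1 ℓ = 1) : Level p S where
  K ℓ := (L.K ℓ).comap (cj (h.1 ℓ))
  isOpen ℓ := (L.isOpen ℓ).preimage (continuous_cj _)
  isCompact ℓ := by
    have h1 : (((L.K ℓ).comap (cj (h.1 ℓ)) : Subgroup (GQ ℓ)) : Set (GQ ℓ)) =
        (cj (h.1 ℓ)⁻¹) '' (L.K ℓ : Set (GQ ℓ)) := by
      ext k
      simp only [Subgroup.coe_comap, Set.mem_preimage, SetLike.mem_coe, Set.mem_image, cj_apply]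
      constructor
      · intro hk
        exact ⟨_, hk, by group⟩
      · rintro ⟨x, hx, rfl⟩
        have : h.1 ℓ * ((h.1 ℓ)⁻¹ * x * (h.1 ℓ)⁻¹⁻¹) * (h.1 ℓ)⁻¹ = x := by group
        rw [this]
        exact hx
    rw [h1]
    exact (L.isCompact ℓ).image (continuous_cj _)
  off ℓ hℓ := by
    rw [← L.off ℓ hℓ]
    ext k
    rw [Subgroup.mem_comap, cj_apply, hS ℓ hℓ]
    simp
  mem := L.mem

variable {W : Type} [AddCommGroup W] [Module O W]

theorem mem_lev (L : Level p S) (h : GA) (hS : ∀ ℓ, ℓ ∉ S → h.1 ℓ = 1) (ℓ : P) (k : GQ ℓ) :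
    k ∈ (lev L h hS).K ℓ ↔ h.1 ℓ * k * (h.1 ℓ)⁻¹ ∈ L.K ℓ := Iff.rfl

theorem mem_lev_Kf (L : Level p S) (h : GA) (hS : ∀ ℓ, ℓ ∉ S → h.1 ℓ = 1) (k : GA) :
    k ∈ (lev L h hS).Kf ↔ h * k * h⁻¹ ∈ L.Kf := Iff.rfl

/-- The homomorphism of the conjugated local group at `p` to the original one. -/
def homK (L : Level p S) (h : GA) (hS : ∀ ℓ, ℓ ∉ S → h.1 ℓ = 1) :
    (lev L h hS).K p →* L.K p :=
  ((cj (h.1 p)).comp ((lev L h hS).K p).subtype).codRestrict (L.K p) (fun k => k.2)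

theorem homK_val (L : Level p S) (h : GA) (hS : ∀ ℓ, ℓ ∉ S → h.1 ℓ = 1)
    (k : (lev L h hS).K p) : (homK L h hS k : GQ p) = h.1 p * k.1 * (h.1 p)⁻¹ := rfl

/-- The conjugated representation. -/
def rep (L : Level p S) (h : GA) (hS : ∀ ℓ, ℓ ∉ S → h.1 ℓ = 1)
    (σ : Representation O (L.K p) W) : Representation O ((lev L h hS).K p) W :=
  MonoidHom.comp σ (homK L h hS)

theorem rep_apply (L : Level p S) (h : GA) (hS : ∀ ℓ, ℓ ∉ S → h.1 ℓ = 1)
    (σ : Representation O (L.K p) W) (k : (lev L h hS).K p) :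
    rep L h hS σ k = σ (homK L h hS k) := rfl

/-- Right translation by `h⁻¹`. -/
theorem tr_mem (L : Level p S) (h : GA) (hS : ∀ ℓ, ℓ ∉ S → h.1 ℓ = 1)
    (σ : Representation O (L.K p) W) (f : Forms L σ) :
    (fun y : ℤˣ × GA => f.1 (y.1, y.2 * h⁻¹)) ∈ Forms (lev L h hS) (rep L h hS σ) := by
  intro x g k
  have hk : h * k.1 * h⁻¹ ∈ L.Kf := k.2
  have h1 := f.2 x (g * h⁻¹) ⟨_, hk⟩
  have h2 : g * k.1 * h⁻¹ = g * h⁻¹ * (h * k.1 * h⁻¹) := by group
  simp only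
  rw [h2]
  refine h1.trans ?_
  have h3 : homK L h hS (⟨k.1.1 p, k.2 p⟩⁻¹) = (⟨(h * k.1 * h⁻¹ : GA).1 p, hk p⟩ : L.K p)⁻¹ := by
    rw [map_inv]
    rfl
  exact (congrArg (fun a => σ a (f.1 (x, g * h⁻¹))) h3).symm

theorem tr_mem' (L : Level p S) (h : GA) (hS : ∀ ℓ, ℓ ∉ S → h.1 ℓ = 1)
    (σ : Representation O (L.K p) W) (f : Forms (lev L h hS) (rep L h hS σ)) :
    (fun y : ℤˣ × GA => f.1 (y.1, y.2 * h)) ∈ Forms L σ := by
  intro x g k
  have hk : h⁻¹ * k.1 * h ∈ (lev L h hS).Kf := by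
    rw [mem_lev_Kf]
    have : h * (h⁻¹ * k.1 * h) * h⁻¹ = k.1 := by group
    rw [this]
    exact k.2
  have h1 := f.2 x (g * h) ⟨_, hk⟩
  have h2 : g * k.1 * h = g * h * (h⁻¹ * k.1 * h) := by group
  simp only
  rw [h2]
  refine h1.trans ?_
  have h3 : homK L h hS ⟨(h⁻¹ * k.1 * h : GA).1 p, hk p⟩ = ⟨k.1.1 p, k.2 p⟩ := by
    apply Subtype.ext
    rw [homK_val]
    change h.1 p * ((h.1 p)⁻¹ * k.1.1 p * h.1 p) * (h.1 p)⁻¹ = k.1.1 p
    group
  have h4 : homK L h hS (⟨(h⁻¹ * k.1 * h : GA).1 p, hk p⟩⁻¹) = (⟨k.1.1 p, k.2 p⟩ : L.K p)⁻¹ := by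
    rw [map_inv, h3]
  exact congrArg (fun a => σ a (f.1 (x, g * h))) h4

/-- The isomorphism of the modules `Forms`. -/
def trEquiv (L : Level p S) (h : GA) (hS : ∀ ℓ, ℓ ∉ S → h.1 ℓ = 1)
    (σ : Representation O (L.K p) W) :
    Forms L σ ≃ₗ[O] Forms (lev L h hS) (rep L h hS σ) where
  toFun f := ⟨_, tr_mem L h hS σ f⟩
  invFun f := ⟨_, tr_mem' L h hS σ f⟩
  left_inv f := by
    apply Subtype.ext
    funext y
    simp
  right_inv f := by
    apply Subtype.ext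
    funext y
    simp
  map_add' _ _ := rfl
  map_smul' _ _ := rfl

@[simp] theorem trEquiv_apply (L : Level p S) (h : GA) (hS : ∀ ℓ, ℓ ∉ S → h.1 ℓ = 1)
    (σ : Representation O (L.K p) W) (f : Forms L σ) (y : ℤˣ × GA) :
    (trEquiv L h hS σ f).1 y = f.1 (y.1, y.2 * h⁻¹) := rfl

theorem trEquiv_formsRep (L : Level p S) (h : GA) (hS : ∀ ℓ, ℓ ∉ S → h.1 ℓ = 1)
    (σ : Representation O (L.K p) W) (γ : G) (f : Forms L σ) :
    trEquiv L h hS σ (formsRep L σ γ f) =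
      formsRep (lev L h hS) (rep L h hS σ) γ (trEquiv L h hS σ f) := by
  apply Subtype.ext
  funext y
  simp [mul_assoc]

theorem trEquiv_hecke (L : Level p S) (h : GA) (hS : ∀ ℓ, ℓ ∉ S → h.1 ℓ = 1)
    (σ : Representation O (L.K p) W) (t : Idx S) (f : Forms L σ) :
    trEquiv L h hS σ (heckeLin L σ t f) =
      heckeLin (lev L h hS) (rep L h hS σ) t (trEquiv L h hS σ f) := by
  apply Subtype.ext
  funext y
  have hc : ∀ a : GQ t.1.1, h⁻¹ * single t.1.1 a = single t.1.1 a * h⁻¹ := by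
    intro a
    apply Subtype.ext
    funext q
    simp only [Subgroup.coe_mul, Subgroup.coe_inv, Pi.inv_apply, single_apply, Pi.mul_apply]
    by_cases hq : q = t.1.1
    · subst hq
      rw [hS _ t.1.2, inv_one, mul_one, one_mul]
    · rw [Pi.mulSingle_eq_of_ne (M := fun ℓ => GQ ℓ) hq a, mul_one, one_mul]
  simp only [trEquiv_apply, heckeLin, LinearMap.coe_mk, AddHom.coe_mk, heckeSum]
  refine Finset.sum_congr rfl fun c _ => ?_
  rw [mul_assoc, hc, ← mul_assoc]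

/-- The isomorphism of representations. -/
def trHom (L : Level p S) (h : GA) (hS : ∀ ℓ, ℓ ∉ S → h.1 ℓ = 1)
    (σ : Representation O (L.K p) W) :
    coeff L σ ⟶ coeff (lev L h hS) (rep L h hS σ) :=
  Rep.ofHom
    { toLinearMap := (trEquiv L h hS σ).toLinearMap
      isIntertwining' := by
        intro γ
        apply LinearMap.ext
        intro f
        exact trEquiv_formsRep L h hS σ γ f }

def trHom' (L : Level p S) (h : GA) (hS : ∀ ℓ, ℓ ∉ S → h.1 ℓ = 1)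
    (σ : Representation O (L.K p) W) :
    coeff (lev L h hS) (rep L h hS σ) ⟶ coeff L σ :=
  Rep.ofHom
    { toLinearMap := (trEquiv L h hS σ).symm.toLinearMap
      isIntertwining' := by
        intro γ
        apply LinearMap.ext
        intro f
        apply (trEquiv L h hS σ).injective
        have h1 := trEquiv_formsRep L h hS σ γ ((trEquiv L h hS σ).symm f)
        rw [LinearEquiv.apply_symm_apply] at h1
        refine Eq.trans ?_ h1.symm
        exact (trEquiv L h hS σ).apply_symm_apply _ }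

theorem trHom_trHom' (L : Level p S) (h : GA) (hS : ∀ ℓ, ℓ ∉ S → h.1 ℓ = 1)
    (σ : Representation O (L.K p) W) : trHom L h hS σ ≫ trHom' L h hS σ = 𝟙 _ := by
  apply Rep.hom_ext
  apply Representation.IntertwiningMap.ext
  apply LinearMap.ext
  intro f
  exact (trEquiv L h hS σ).symm_apply_apply f

theorem trHom_hecke (L : Level p S) (h : GA) (hS : ∀ ℓ, ℓ ∉ S → h.1 ℓ = 1)
    (σ : Representation O (L.K p) W) (t : Idx S) :
    heckeHom L σ t ≫ trHom L h hS σ =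
      trHom L h hS σ ≫ heckeHom (lev L h hS) (rep L h hS σ) t := by
  apply Rep.hom_ext
  apply Representation.IntertwiningMap.ext
  apply LinearMap.ext
  intro f
  exact trEquiv_hecke L h hS σ t f

/-- The map on cohomology. -/
def trCoh (L : Level p S) (h : GA) (hS : ∀ ℓ, ℓ ∉ S → h.1 ℓ = 1)
    (σ : Representation O (L.K p) W) (i : ℕ) :
    groupCohomology (coeff L σ) i →ₗ[O] groupCohomology (coeff (lev L h hS) (rep L h hS σ)) i :=
  ((groupCohomology.functor O G i).map (trHom L h hS σ)).hom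

theorem trCoh_injective (L : Level p S) (h : GA) (hS : ∀ ℓ, ℓ ∉ S → h.1 ℓ = 1)
    (σ : Representation O (L.K p) W) (i : ℕ) : Function.Injective (trCoh L h hS σ i) := by
  have h1 := congrArg (fun a => ((groupCohomology.functor O G i).map a).hom)
    (trHom_trHom' L h hS σ)
  simp only [CategoryTheory.Functor.map_comp, CategoryTheory.Functor.map_id,
    ModuleCat.hom_comp, ModuleCat.hom_id] at h1
  intro a b hab
  have h2 := LinearMap.congr_fun h1 a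
  have h3 := LinearMap.congr_fun h1 b
  refine h2.symm.trans (Eq.trans ?_ h3)
  exact congrArg ((groupCohomology.functor O G i).map (trHom' L h hS σ)).hom hab

theorem trCoh_hecke (L : Level p S) (h : GA) (hS : ∀ ℓ, ℓ ∉ S → h.1 ℓ = 1)
    (σ : Representation O (L.K p) W) (i : ℕ) (t : Idx S) (z : groupCohomology (coeff L σ) i) :
    trCoh L h hS σ i (heckeCoh L σ i t z) =
      heckeCoh (lev L h hS) (rep L h hS σ) i t (trCoh L h hS σ i z) := by
  have h1 := congrArg (fun a => ((groupCohomology.functor O G i).map a).hom)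
    (trHom_hecke L h hS σ t)
  simp only [CategoryTheory.Functor.map_comp, ModuleCat.hom_comp] at h1
  exact LinearMap.congr_fun h1 z

theorem trCoh_act (L : Level p S) (h : GA) (hS : ∀ ℓ, ℓ ∉ S → h.1 ℓ = 1)
    (σ : Representation O (L.K p) W) (i : ℕ) (t : HeckeAlg S O)
    (z : groupCohomology (coeff L σ) i) :
    trCoh L h hS σ i (act L σ i t z) =
      act (lev L h hS) (rep L h hS σ) i t (trCoh L h hS σ i z) := by
  induction t using MvPolynomial.induction_on generalizing z with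
  | C a =>
    have h1 : (MvPolynomial.C a : HeckeAlg S O) = algebraMap O _ a := rfl
    rw [h1, AlgHom.commutes, AlgHom.commutes, Module.algebraMap_end_apply,
      Module.algebraMap_end_apply, map_smul]
  | add q r hq hr =>
    rw [map_add, map_add, LinearMap.add_apply, LinearMap.add_apply, map_add, hq, hr]
  | mul_X q t hq =>
    rw [map_mul, map_mul, Module.End.mul_apply, Module.End.mul_apply, hq, act_X, act_X,
      trCoh_hecke]

end Transport

open Transport in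
/-- **F**: conjugation of a general level into `GL₃(Ẑ)`. -/
theorem transport [IsLocalRing O] (L : Level p S) {W : Type} [AddCommGroup W] [Module O W]
    (σ : Representation O (L.K p) W) :
    ∃ (L' : Level p S) (σ' : Representation O (L'.K p) W),
      (∀ ℓ, L'.K ℓ ≤ GZ ℓ) ∧ (L.TorsionFree → L'.TorsionFree) ∧
      (IsContinuousRep L σ → IsContinuousRep L' σ') ∧
      ∀ (i : ℕ) (m : Ideal (HeckeAlg S O)), InSupport L σ i m → InSupport L' σ' i m := by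
  classical
  choose h0 hh0 using fun ℓ : P => exists_conj ℓ (L.K ℓ) (L.isCompact ℓ)
  let h : GA := ⟨fun ℓ => if ℓ ∈ S then h0 ℓ else 1, by
    refine S.finite_toSet.subset ?_
    intro ℓ hℓ
    by_contra hn
    apply hℓ
    have : ℓ ∉ S := hn
    simp only [this, if_false]
    exact (GZ ℓ).one_mem⟩
  have hS : ∀ ℓ, ℓ ∉ S → h.1 ℓ = 1 := by
    intro ℓ hℓ
    change (if ℓ ∈ S then h0 ℓ else 1) = 1
    rw [if_neg hℓ]
  refine ⟨lev L h hS, rep L h hS σ, ?_, ?_, ?_, ?_⟩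
  · intro ℓ
    by_cases hℓ : ℓ ∈ S
    · intro k hk
      have h1 : h.1 ℓ = h0 ℓ := by
        change (if ℓ ∈ S then h0 ℓ else 1) = _
        rw [if_pos hℓ]
      rw [mem_lev, h1] at hk
      have h2 := hh0 ℓ _ hk
      have h3 : (h0 ℓ)⁻¹ * (h0 ℓ * k * (h0 ℓ)⁻¹) * h0 ℓ = k := by group
      rwa [h3] at h2
    · rw [(lev L h hS).off ℓ hℓ]
  · intro hTF g γ n hn hg hγ
    apply hTF (g * h⁻¹) γ n hn ?_ hγ
    rw [mem_lev_Kf] at hg
    have : (g * h⁻¹)⁻¹ * diag γ * (g * h⁻¹) = h * (g⁻¹ * diag γ * g) * h⁻¹ := by group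
    rw [this]
    exact hg
  · intro hc n
    obtain ⟨U, hU, h1, hUk⟩ := hc n
    refine ⟨cj (h.1 p) ⁻¹' U, hU.preimage (continuous_cj _), ?_, ?_⟩
    · rw [Set.mem_preimage, map_one]
      exact h1
    · intro k hk w
      exact hUk (homK L h hS k) hk w
  · rintro i m ⟨z, hz⟩
    refine ⟨trCoh L h hS σ i z, fun t ht h0 => hz t ht ?_⟩
    apply trCoh_injective L h hS σ i
    rw [trCoh_act, h0, map_zero]

end Pool.Agent.CG3
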