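import Pool.Agent.CG3.Upper
import Pool.Agent.CG3.Lower
import Pool.Agent.CG3.Galois
import Pool.Agent.CG3.Transport

/-!
# The Calegari-Geraghty vanishing conjecture for `GL₃` over `ℚ` : assembly
-/

noncomputable section

namespace Pool.Agent.CG3

open Matrix CategoryTheory

/-- The vanishing conjecture for `GL₃` over `ℚ`. -/
theorem main (p : P) (S : Finset P) (L : Level p S) (hTF : L.TorsionFree)
    (O : Type) [CommRing O] [IsDomain O] [IsDiscreteValuationRing O]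
    (hpO : ((p : ℕ) : O) ∈ IsLocalRing.maximalIdeal O)
    (W : Type) [AddCommGroup W] [Module O W] [Module.Finite O W]
    (σ : Representation O (L.K p) W) (hσ : IsContinuousRep L σ)
    (m : Ideal (HeckeAlg S O)) [m.IsMaximal]
    (k : Type) [Field k] [Algebra (HeckeAlg S O ⧸ m) k]
    (ρ : GalQ →* GL (Fin 3) k) (hatt : Attached m k ρ) (hne : NonEisenstein ρ)
    (i : ℕ) (hm : InSupport L σ i m) : 2 ≤ i ∧ i ≤ 3 := by
  obtain ⟨L', σ', hK, hTF', hcont, hsupp⟩ := transport L σ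
  have hm' := hsupp i m hm
  have h3 : i ≤ 3 := by
    by_contra hlt
    obtain ⟨h, hh⟩ := hm'
    have := upper L' hK (hTF' hTF) σ' i (by omega)
    exact hh 1 (fun h1 => (Ideal.IsMaximal.ne_top ‹_›) ((Ideal.eq_top_iff_one m).2 h1))
      (Subsingleton.elim _ _)
  refine ⟨?_, h3⟩
  by_contra hlt
  obtain ⟨hpm, N, hN, hpN, hX⟩ := lower hpO L' hK σ' (hcont hσ) i (by omega) m hm'
  obtain ⟨hopen, a, e, hF⟩ := hatt
  have hpk : ((p : ℕ) : k) = 0 := by
    have h1 : Ideal.Quotient.mk m ((p : ℕ) : HeckeAlg S O) = 0 :=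
      Ideal.Quotient.eq_zero_iff_mem.2 hpm
    have h2 := congrArg (algebraMap (HeckeAlg S O ⧸ m) k) h1
    simpa using h2
  have hchar : CharP k (p : ℕ) := by
    have h1 := CharP.exists k
    obtain ⟨q, hq⟩ := h1
    have h2 : q ∣ (p : ℕ) := (CharP.cast_eq_zero_iff k q (p : ℕ)).1 hpk
    rcases (Nat.dvd_prime p.2).1 h2 with h3 | h3
    · subst h3
      have h4 : ((1 : ℕ) : k) = 0 := CharP.cast_eq_zero k 1
      rw [Nat.cast_one] at h4
      exact absurd h4 one_ne_zero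
    · exact h3 ▸ hq
  refine galois_side (S := S) ρ hopen N hN e ?_ hne
  intro ℓ hℓ hℓN Q hQ hℓQ s hs
  rw [(hF ℓ hℓ Q hQ hℓQ).2 s hs]
  have hℓk : ((ℓ : ℕ) : k) = 1 := by
    have h1 : (ℓ : ℕ) ≡ 1 [MOD (p : ℕ)] := hℓN.of_dvd hpN
    have h2 : (((ℓ : ℕ) : ZMod (p : ℕ)) : ZMod (p : ℕ)) = ((1 : ℕ) : ZMod (p : ℕ)) :=
      (ZMod.natCast_eq_natCast_iff _ _ _).2 h1
    have h3 := congrArg (ZMod.castHom (dvd_refl (p : ℕ)) k) h2
    simpa using h3
  have heig : ∀ j : Fin 4, eig m k (⟨ℓ, hℓ⟩, j) = (degN j : k) := by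
    intro j
    have h1 := hX (⟨ℓ, hℓ⟩, j) hℓN
    have h2 : Ideal.Quotient.mk m (MvPolynomial.X (⟨ℓ, hℓ⟩, j)) =
        Ideal.Quotient.mk m ((degN j : ℕ) : HeckeAlg S O) := Ideal.Quotient.eq.2 h1
    rw [eig, h2]
    simp
  rw [heig, heig, heig, hℓk]
  simp only [_root_.one_zpow, one_mul, degN]
  simp only [Matrix.cons_val_zero, Matrix.cons_val_one, Matrix.cons_val]
  have h3 : ∀ n : ℕ, (Polynomial.C ((n : ℕ) : k)) = ((n : ℕ) : Polynomial k) := by
    intro n; simp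
  rw [h3, h3]
  push_cast
  ring

end Pool.Agent.CG3
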