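import Pool.Agent.CG3.Defs2

/-!
# Surjectivity of `SL₃(ℤ) → SL₃(ℤ/N)`
-/

noncomputable section

namespace Pool.Agent.CG3

open Matrix

namespace SLsurj

/-- Stable range one for `ℤ/N`. -/
theorem sr1 {N : ℕ} (hN : 0 < N) (a b x y : ZMod N) (h : x * a + y * b = 1) :
    ∃ t : ZMod N, IsUnit (a + t * b) := by
  have : NeZero N := ⟨hN.ne'⟩
  obtain ⟨a', rfl⟩ := ZMod.intCast_surjective a
  obtain ⟨b', rfl⟩ := ZMod.intCast_surjective b
  obtain ⟨x', rfl⟩ := ZMod.intCast_surjective x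
  obtain ⟨y', rfl⟩ := ZMod.intCast_surjective y
  let F : Finset ℕ := N.primeFactors.filter (fun q => ¬ (q : ℤ) ∣ a')
  let t : ℤ := ∏ q ∈ F, (q : ℤ)
  refine ⟨(t : ZMod N), ?_⟩
  have hcop : Nat.Coprime (a' + t * b').natAbs N := by
    rw [Nat.coprime_iff_gcd_eq_one]
    by_contra hne
    obtain ⟨q, hq, hqd⟩ := Nat.exists_prime_and_dvd hne
    have hqN : q ∣ N := hqd.trans (Nat.gcd_dvd_right _ _)
    have hqa : (q : ℤ) ∣ a' + t * b' := by
      have h1 : q ∣ (a' + t * b').natAbs := hqd.trans (Nat.gcd_dvd_left _ _)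
      exact Int.natCast_dvd.2 h1
    have hqp : Prime (q : ℤ) := Nat.prime_iff_prime_int.1 hq
    by_cases hqa' : (q : ℤ) ∣ a'
    · have h1 : (q : ℤ) ∣ t * b' := (Int.dvd_add_right hqa').1 hqa
      rcases hqp.dvd_or_dvd h1 with h2 | h2
      · obtain ⟨r, hr, hqr⟩ := (Prime.dvd_finsetProd_iff hqp _).mp h2
        have hr' := (Finset.mem_filter.1 hr)
        have hrp : r.Prime := (Nat.mem_primeFactors.1 hr'.1).1
        have : q = r := (Nat.prime_dvd_prime_iff_eq hq hrp).mp (by exact_mod_cast hqr)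
        exact hr'.2 (this ▸ hqa')
      · have h3 : ((x' * a' + y' * b' - 1 : ℤ) : ZMod N) = 0 := by
          push_cast
          rw [h]; ring
        have h4 : (N : ℤ) ∣ x' * a' + y' * b' - 1 := (ZMod.intCast_zmod_eq_zero_iff_dvd _ _).1 h3
        have h5 : (q : ℤ) ∣ x' * a' + y' * b' - 1 := (Int.natCast_dvd_natCast.2 hqN).trans h4
        have h6 : (q : ℤ) ∣ x' * a' + y' * b' :=
          dvd_add (Dvd.dvd.mul_left hqa' _) (Dvd.dvd.mul_left h2 _)
        have h7 : (q : ℤ) ∣ 1 := by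
          have := dvd_sub h6 h5
          simpa using this
        exact hqp.not_isUnit (isUnit_of_dvd_one h7)
    · have h1 : (q : ℤ) ∣ t := by
        apply Finset.dvd_prod_of_mem (fun q : ℕ => (q : ℤ))
        rw [Finset.mem_filter]
        exact ⟨Nat.mem_primeFactors.2 ⟨hq, hqN, hN.ne'⟩, hqa'⟩
      exact hqa' ((Int.dvd_add_left (Dvd.dvd.mul_right h1 _)).1 hqa)
  have h1 : IsUnit ((a' + t * b' : ℤ) : ZMod N) := by
    rw [ZMod.coe_int_isUnit_iff_isCoprime]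
    rw [Int.isCoprime_iff_gcd_eq_one, Int.gcd]
    rw [Nat.gcd_comm]
    exact hcop
  have h2 : ((a' + t * b' : ℤ) : ZMod N) = (a' : ZMod N) + (t : ZMod N) * (b' : ZMod N) := by
    push_cast; ring
  rwa [h2] at h1

variable {N : ℕ}

/-- The image of `SL₃(ℤ)`. -/
def H (N : ℕ) : Subgroup (SpecialLinearGroup (Fin 3) (ZMod N)) :=
  (SpecialLinearGroup.map (n := Fin 3) (Int.castRingHom (ZMod N))).range

/-- Elementary matrix. -/
abbrev T {R : Type} [CommRing R] (i j : Fin 3) (h : i ≠ j) (t : R) :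
    SpecialLinearGroup (Fin 3) R := SpecialLinearGroup.transvection h t

theorem T_mem (i j : Fin 3) (h : i ≠ j) (t : ZMod N) : T i j h t ∈ H N := by
  obtain ⟨t', rfl⟩ := ZMod.intCast_surjective t
  refine ⟨T i j h t', ?_⟩
  apply Subtype.ext
  ext a b
  change ((Matrix.transvection i j t' : Matrix (Fin 3) (Fin 3) ℤ) a b : ZMod N)
    = (Matrix.transvection i j (t' : ZMod N) : Matrix (Fin 3) (Fin 3) (ZMod N)) a b
  rw [Matrix.transvection, Matrix.transvection, Matrix.add_apply, Matrix.add_apply, Int.cast_add,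
    Matrix.single_apply, Matrix.single_apply, Matrix.one_apply, Matrix.one_apply]
  congr 1
  · split_ifs <;> simp
  · split_ifs <;> simp

theorem T_same (i j : Fin 3) (h : i ≠ j) (t : ZMod N) (B : SpecialLinearGroup (Fin 3) (ZMod N))
    (b : Fin 3) : (T i j h t * B) i b = B i b + t * B j b := by
  change (Matrix.transvection i j t * (B : Matrix (Fin 3) (Fin 3) (ZMod N))) i b = _
  rw [Matrix.transvection_mul_apply_same]

theorem T_ne (i j : Fin 3) (h : i ≠ j) (t : ZMod N) (B : SpecialLinearGroup (Fin 3) (ZMod N))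
    (a b : Fin 3) (ha : a ≠ i) : (T i j h t * B) a b = B a b := by
  change (Matrix.transvection i j t * (B : Matrix (Fin 3) (Fin 3) (ZMod N))) a b = _
  rw [Matrix.transvection_mul_apply_of_ne _ _ _ _ ha]

theorem of_T {B : SpecialLinearGroup (Fin 3) (ZMod N)} (i j : Fin 3) (h : i ≠ j) (t : ZMod N)
    (hB : T i j h t * B ∈ H N) : B ∈ H N :=
  ((H N).mul_mem_cancel_left (T_mem i j h t)).1 hB

theorem det_eq (B : SpecialLinearGroup (Fin 3) (ZMod N)) :
    B 0 0 * B 1 1 * B 2 2 - B 0 0 * B 1 2 * B 2 1 - B 0 1 * B 1 0 * B 2 2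
      + B 0 1 * B 1 2 * B 2 0 + B 0 2 * B 1 0 * B 2 1 - B 0 2 * B 1 1 * B 2 0 = 1 := by
  have := B.2
  rw [Matrix.det_fin_three] at this
  exact this

theorem L0 (B : SpecialLinearGroup (Fin 3) (ZMod N)) (h00 : B 0 0 = 1) (h10 : B 1 0 = 0)
    (h20 : B 2 0 = 0) (h11 : B 1 1 = 1) (h21 : B 2 1 = 0) : B ∈ H N := by
  have hd := det_eq B
  rw [h00, h10, h20, h11, h21] at hd
  have h22 : B 2 2 = 1 := by linear_combination hd
  have hB : B = T 1 2 (by decide) (B 1 2) * (T 0 2 (by decide) (B 0 2) *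
      T 0 1 (by decide) (B 0 1)) := by
    apply Subtype.ext
    ext a b
    have e1 : ∀ a b, (T (R := ZMod N) 0 1 (by decide) (B 0 1)) a b
        = Matrix.transvection 0 1 (B 0 1) a b := fun _ _ => rfl
    fin_cases a <;> fin_cases b
    · change B 0 0 = (T 1 2 (by decide) (B 1 2) * (T 0 2 (by decide) (B 0 2) *
        T 0 1 (by decide) (B 0 1))) 0 0
      rw [T_ne _ _ _ _ _ _ _ (by decide), T_same, e1, e1, h00]
      simp [Matrix.transvection]
    · change B 0 1 = (T 1 2 (by decide) (B 1 2) * (T 0 2 (by decide) (B 0 2) *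
        T 0 1 (by decide) (B 0 1))) 0 1
      rw [T_ne _ _ _ _ _ _ _ (by decide), T_same, e1, e1]
      simp [Matrix.transvection]
    · change B 0 2 = (T 1 2 (by decide) (B 1 2) * (T 0 2 (by decide) (B 0 2) *
        T 0 1 (by decide) (B 0 1))) 0 2
      rw [T_ne _ _ _ _ _ _ _ (by decide), T_same, e1, e1]
      simp [Matrix.transvection]
    · change B 1 0 = (T 1 2 (by decide) (B 1 2) * (T 0 2 (by decide) (B 0 2) *
        T 0 1 (by decide) (B 0 1))) 1 0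
      rw [T_same, T_ne _ _ _ _ _ _ _ (by decide), T_ne _ _ _ _ _ _ _ (by decide), e1, e1, h10]
      simp [Matrix.transvection]
    · change B 1 1 = (T 1 2 (by decide) (B 1 2) * (T 0 2 (by decide) (B 0 2) *
        T 0 1 (by decide) (B 0 1))) 1 1
      rw [T_same, T_ne _ _ _ _ _ _ _ (by decide), T_ne _ _ _ _ _ _ _ (by decide), e1, e1, h11]
      simp [Matrix.transvection]
    · change B 1 2 = (T 1 2 (by decide) (B 1 2) * (T 0 2 (by decide) (B 0 2) *
        T 0 1 (by decide) (B 0 1))) 1 2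
      rw [T_same, T_ne _ _ _ _ _ _ _ (by decide), T_ne _ _ _ _ _ _ _ (by decide), e1, e1]
      simp [Matrix.transvection]
    · change B 2 0 = (T 1 2 (by decide) (B 1 2) * (T 0 2 (by decide) (B 0 2) *
        T 0 1 (by decide) (B 0 1))) 2 0
      rw [T_ne _ _ _ _ _ _ _ (by decide), T_ne _ _ _ _ _ _ _ (by decide), e1, h20]
      simp [Matrix.transvection]
    · change B 2 1 = (T 1 2 (by decide) (B 1 2) * (T 0 2 (by decide) (B 0 2) *
        T 0 1 (by decide) (B 0 1))) 2 1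
      rw [T_ne _ _ _ _ _ _ _ (by decide), T_ne _ _ _ _ _ _ _ (by decide), e1, h21]
      simp [Matrix.transvection]
    · change B 2 2 = (T 1 2 (by decide) (B 1 2) * (T 0 2 (by decide) (B 0 2) *
        T 0 1 (by decide) (B 0 1))) 2 2
      rw [T_ne _ _ _ _ _ _ _ (by decide), T_ne _ _ _ _ _ _ _ (by decide), e1, h22]
      simp [Matrix.transvection]
  rw [hB]
  exact (H N).mul_mem (T_mem _ _ _ _) ((H N).mul_mem (T_mem _ _ _ _) (T_mem _ _ _ _))

theorem L1 (B : SpecialLinearGroup (Fin 3) (ZMod N)) (h00 : B 0 0 = 1) (h10 : B 1 0 = 0)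
    (h20 : B 2 0 = 0) (h11 : B 1 1 = 1) : B ∈ H N := by
  refine of_T 2 1 (by decide) (-B 2 1) (L0 _ ?_ ?_ ?_ ?_ ?_)
  · rw [T_ne _ _ _ _ _ _ _ (by decide), h00]
  · rw [T_ne _ _ _ _ _ _ _ (by decide), h10]
  · rw [T_same, h20, h10]; ring
  · rw [T_ne _ _ _ _ _ _ _ (by decide), h11]
  · rw [T_same, h11]; ring

theorem L2 (B : SpecialLinearGroup (Fin 3) (ZMod N)) (h00 : B 0 0 = 1) (h10 : B 1 0 = 0)
    (h20 : B 2 0 = 0) (h21 : B 2 1 = 1) : B ∈ H N := by
  refine of_T 1 2 (by decide) (1 - B 1 1) (L1 _ ?_ ?_ ?_ ?_)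
  · rw [T_ne _ _ _ _ _ _ _ (by decide), h00]
  · rw [T_same, h20, h10]; ring
  · rw [T_ne _ _ _ _ _ _ _ (by decide), h20]
  · rw [T_same, h21]; ring

theorem L3 (B : SpecialLinearGroup (Fin 3) (ZMod N)) (h00 : B 0 0 = 1) (h10 : B 1 0 = 0)
    (h20 : B 2 0 = 0) (h11 : IsUnit (B 1 1)) : B ∈ H N := by
  obtain ⟨v, hv⟩ := h11.exists_left_inv
  refine of_T 2 1 (by decide) ((1 - B 2 1) * v) (L2 _ ?_ ?_ ?_ ?_)
  · rw [T_ne _ _ _ _ _ _ _ (by decide), h00]
  · rw [T_ne _ _ _ _ _ _ _ (by decide), h10]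
  · rw [T_same, h20, h10]; ring
  · rw [T_same]; linear_combination (1 - B 2 1) * hv

theorem L4 (hN : 0 < N) (B : SpecialLinearGroup (Fin 3) (ZMod N)) (h00 : B 0 0 = 1)
    (h10 : B 1 0 = 0) (h20 : B 2 0 = 0) : B ∈ H N := by
  have hd := det_eq B
  rw [h00, h10, h20] at hd
  obtain ⟨t, ht⟩ := sr1 hN (B 1 1) (B 2 1) (B 2 2) (-B 1 2) (by linear_combination hd)
  refine of_T 1 2 (by decide) t (L3 _ ?_ ?_ ?_ ?_)
  · rw [T_ne _ _ _ _ _ _ _ (by decide), h00]
  · rw [T_same, h20, h10]; ring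
  · rw [T_ne _ _ _ _ _ _ _ (by decide), h20]
  · rw [T_same]; exact ht

theorem L5 (hN : 0 < N) (B : SpecialLinearGroup (Fin 3) (ZMod N)) (h00 : B 0 0 = 1) :
    B ∈ H N := by
  refine of_T 1 0 (by decide) (-B 1 0) (of_T 2 0 (by decide) (-B 2 0) (L4 hN _ ?_ ?_ ?_))
  · rw [T_ne _ _ _ _ _ _ _ (by decide), T_ne _ _ _ _ _ _ _ (by decide), h00]
  · rw [T_ne _ _ _ _ _ _ _ (by decide), T_same, h00]; ring
  · rw [T_same, T_ne _ _ _ _ _ _ _ (by decide), T_ne _ _ _ _ _ _ _ (by decide), h00]; ring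

theorem L6 (hN : 0 < N) (B : SpecialLinearGroup (Fin 3) (ZMod N)) (h10 : B 1 0 = 1) :
    B ∈ H N := by
  refine of_T 0 1 (by decide) (1 - B 0 0) (L5 hN _ ?_)
  rw [T_same, h10]; ring

theorem L7 (hN : 0 < N) (B : SpecialLinearGroup (Fin 3) (ZMod N)) (h00 : IsUnit (B 0 0)) :
    B ∈ H N := by
  obtain ⟨v, hv⟩ := h00.exists_left_inv
  refine of_T 1 0 (by decide) ((1 - B 1 0) * v) (L6 hN _ ?_)
  rw [T_same]; linear_combination (1 - B 1 0) * hv

theorem L8 (hN : 0 < N) (B : SpecialLinearGroup (Fin 3) (ZMod N)) : B ∈ H N := by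
  have hd := det_eq B
  obtain ⟨t, ht⟩ := sr1 hN (B 0 0)
    ((B 0 2 * B 2 1 - B 0 1 * B 2 2) * B 1 0 + (B 0 1 * B 1 2 - B 0 2 * B 1 1) * B 2 0)
    (B 1 1 * B 2 2 - B 1 2 * B 2 1) 1 (by linear_combination hd)
  refine of_T 0 1 (by decide) (t * (B 0 2 * B 2 1 - B 0 1 * B 2 2))
    (of_T 0 2 (by decide) (t * (B 0 1 * B 1 2 - B 0 2 * B 1 1)) (L7 hN _ ?_))
  rw [T_same, T_same, T_ne _ _ _ _ _ _ _ (by decide)]
  convert ht using 1
  ring

end SLsurj

/-- **C3** -/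
theorem sl3_surj (N : ℕ) (hN : 0 < N) (B : SpecialLinearGroup (Fin 3) (ZMod N)) :
    ∃ A : SLZ, SpecialLinearGroup.map (n := Fin 3) (Int.castRingHom (ZMod N)) A = B :=
  SLsurj.L8 hN B

end Pool.Agent.CG3
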