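import Mathlib

/-!
Selling reduction, part A: the standard frame of the lattice of integral vectors in dimension
three, its coordinates, the perfect form and the flips.
-/

set_option autoImplicit false

namespace Pool.Agent.CG3.Sel

open Matrix

/-- Rational three by three matrices, on which the linear group acts as on quadratic forms. -/
def V : Type := Matrix (Fin 3) (Fin 3) ℚ

/-- The underlying matrix. -/
def V.mat (M : V) : Matrix (Fin 3) (Fin 3) ℚ := M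

theorem V.ext_mat {M N : V} (h : M.mat = N.mat) : M = N := h

noncomputable instance : DecidableEq V := Classical.decEq _

/-- The general linear group. -/
abbrev GL3Q : Type := GL (Fin 3) ℚ

noncomputable instance : MulAction GL3Q V where
  smul g M := ((g.1 : Matrix (Fin 3) (Fin 3) ℚ) * M.mat * (g.1 : Matrix (Fin 3) (Fin 3) ℚ)ᵀ :)
  one_smul M := by
    show (((1 : GL3Q).1 : Matrix (Fin 3) (Fin 3) ℚ) * M.mat * ((1 : GL3Q).1 : Matrix _ _ ℚ)ᵀ) = M.mat
    simp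
  mul_smul g h M := by
    show (((g * h : GL3Q).1 : Matrix (Fin 3) (Fin 3) ℚ) * M.mat * ((g * h : GL3Q).1 : Matrix _ _ ℚ)ᵀ) =
      g.1 * (h.1 * M.mat * h.1ᵀ) * g.1ᵀ
    simp [Matrix.mul_assoc, Matrix.transpose_mul]

theorem smul_mat (g : GL3Q) (M : V) : (g • M).mat = g.1 * M.mat * (g.1)ᵀ := rfl

/-- The value of the quadratic form. -/
def qv (l : Fin 3 → ℚ) (M : V) : ℚ := l ⬝ᵥ (M.mat *ᵥ l)

/-- Symmetric matrices. -/
def Sy (M : V) : Prop := M.matᵀ = M.mat

theorem Sy.smul {M : V} (h : Sy M) (g : GL3Q) : Sy (g • M) := by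
  unfold Sy at *
  rw [smul_mat, Matrix.transpose_mul, Matrix.transpose_mul, h, Matrix.transpose_transpose,
    Matrix.mul_assoc]

/-- The six vectors of the standard frame. -/
def r : Fin 6 → Fin 3 → ℤ :=
  ![![1, 0, 0], ![0, 1, 0], ![0, 0, 1], ![1, -1, 0], ![1, 0, -1], ![0, 1, -1]]

/-- The ray of an integral vector. -/
def ray (v : Fin 3 → ℤ) : V := Matrix.of fun i j => ((v i * v j : ℤ) : ℚ)

/-- The rays of the standard frame. -/
def E (s : Fin 6) : V := ray (r s)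

/-- The coordinates in the standard frame. -/
def c : Fin 6 → V → ℚ :=
  ![fun M => M.mat 0 0 + M.mat 0 1 + M.mat 0 2,
    fun M => M.mat 0 1 + M.mat 1 1 + M.mat 1 2,
    fun M => M.mat 0 2 + M.mat 1 2 + M.mat 2 2,
    fun M => - M.mat 0 1, fun M => - M.mat 0 2, fun M => - M.mat 1 2]

/-- The perfect form. -/
def p (M : V) : ℚ := ∑ s, c s M

theorem p_eq (M : V) : p M = M.mat 0 0 + M.mat 1 1 + M.mat 2 2 + M.mat 0 1 + M.mat 0 2
    + M.mat 1 2 := by
  simp only [p, c, Fin.sum_univ_succ, Fin.sum_univ_zero]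
  simp
  ring

theorem ray_mat (v : Fin 3 → ℤ) (i j : Fin 3) : (ray v).mat i j = (v i : ℚ) * v j := by
  simp [ray, V.mat]

theorem ray_sy (v : Fin 3 → ℤ) : Sy (ray v) := by
  unfold Sy
  ext i j
  rw [Matrix.transpose_apply, ray_mat, ray_mat, mul_comm]

theorem c_E (s u : Fin 6) : c s (E u) = if s = u then 1 else 0 := by
  fin_cases s <;> fin_cases u <;> simp [c, E, ray_mat, r]

/-- Expansion of a symmetric matrix in the standard frame. -/
theorem expand {M : V} (hM : Sy M) : M.mat = ∑ s, c s M • (E s).mat := by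
  have h1 : M.mat 1 0 = M.mat 0 1 := by
    have := congrFun (congrFun hM 0) 1
    simpa using this
  have h2 : M.mat 2 0 = M.mat 0 2 := by
    have := congrFun (congrFun hM 0) 2
    simpa using this
  have h3 : M.mat 2 1 = M.mat 1 2 := by
    have := congrFun (congrFun hM 1) 2
    simpa using this
  ext i j
  simp only [Matrix.sum_apply, Matrix.smul_apply, Fin.sum_univ_succ, Fin.sum_univ_zero,
    smul_eq_mul, E, ray_mat, c, r]
  fin_cases i <;> fin_cases j <;> simp [h1, h2, h3] <;> ring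

theorem E_injective : Function.Injective E := by
  intro s u h
  have h1 := c_E s u
  rw [← h, c_E] at h1
  by_contra hne
  simp [hne] at h1

theorem E_sy (s : Fin 6) : Sy (E s) := ray_sy _

theorem p_ray (v : Fin 3 → ℤ) : p (ray v) =
    ((v 0 ^ 2 + v 1 ^ 2 + v 2 ^ 2 + v 0 * v 1 + v 0 * v 2 + v 1 * v 2 : ℤ) : ℚ) := by
  rw [p_eq]
  simp only [ray_mat]
  push_cast
  ring

theorem one_le_p {v : Fin 3 → ℤ} (hv : v ≠ 0) : 1 ≤ p (ray v) := by
  rw [p_ray]
  have h : 1 ≤ v 0 ^ 2 + v 1 ^ 2 + v 2 ^ 2 + v 0 * v 1 + v 0 * v 2 + v 1 * v 2 := by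
    by_contra hlt
    push Not at hlt
    apply hv
    have h3 : 2 * (v 0 ^ 2 + v 1 ^ 2 + v 2 ^ 2 + v 0 * v 1 + v 0 * v 2 + v 1 * v 2) =
      v 0 ^ 2 + v 1 ^ 2 + v 2 ^ 2 + (v 0 + v 1 + v 2) ^ 2 := by ring
    have a0 : v 0 ^ 2 = 0 := by
      refine le_antisymm ?_ (sq_nonneg _)
      nlinarith [sq_nonneg (v 0 + v 1 + v 2), sq_nonneg (v 0), sq_nonneg (v 1), sq_nonneg (v 2)]
    have a1 : v 1 ^ 2 = 0 := by
      refine le_antisymm ?_ (sq_nonneg _)
      nlinarith [sq_nonneg (v 0 + v 1 + v 2), sq_nonneg (v 0), sq_nonneg (v 1), sq_nonneg (v 2)]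
    have a2 : v 2 ^ 2 = 0 := by
      refine le_antisymm ?_ (sq_nonneg _)
      nlinarith [sq_nonneg (v 0 + v 1 + v 2), sq_nonneg (v 0), sq_nonneg (v 1), sq_nonneg (v 2)]
    ext i
    fin_cases i
    · simpa using a0
    · simpa using a1
    · simpa using a2
  exact_mod_cast h

/-- The six flips, as integral matrices. -/
def Fm : Fin 6 → Matrix (Fin 3) (Fin 3) ℤ :=
  ![!![-1, 0, 0; 1, 1, 0; 1, 0, 1], !![1, 1, 0; 0, -1, 0; 0, 1, 1], !![1, 0, 1; 0, 1, 1; 0, 0, -1],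
    !![1, 0, 0; 0, -1, 0; 0, 1, 1], !![1, 0, 0; 0, 1, 1; 0, 0, -1], !![1, 0, 1; 0, 1, 0; 0, 0, -1]]

theorem Fm_sq (s : Fin 6) : Fm s * Fm s = 1 := by
  revert s; decide

/-- The six flips. -/
def F (s : Fin 6) : GL (Fin 3) ℤ := ⟨Fm s, Fm s, Fm_sq s, Fm_sq s⟩

/-- The inclusion of the arithmetic group. -/
def io : GL (Fin 3) ℤ →* GL3Q := Matrix.GeneralLinearGroup.map (Int.castRingHom ℚ)

theorem io_apply (g : GL (Fin 3) ℤ) (i j : Fin 3) : (io g).1 i j = ((g.1 i j : ℤ) : ℚ) := rfl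

theorem io_ray (g : GL (Fin 3) ℤ) (v : Fin 3 → ℤ) : io g • ray v = ray (g.1 *ᵥ v) := by
  apply V.ext_mat
  rw [smul_mat]
  ext i j
  rw [ray_mat]
  simp only [Matrix.mul_apply, Matrix.transpose_apply, io_apply, ray_mat, Matrix.mulVec,
    dotProduct, Int.cast_sum, Int.cast_mul, Finset.sum_mul, Finset.mul_sum]
  refine Finset.sum_congr rfl fun a _ => Finset.sum_congr rfl fun b _ => ?_
  ring

/-- The new vector after a flip. -/
def r' : Fin 6 → Fin 3 → ℤ :=
  ![![1, -1, -1], ![-1, 1, -1], ![-1, -1, 1], ![1, 1, -1], ![1, -1, 1], ![-1, 1, 1]]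

/-- The new ray after a flip. -/
def E' (s : Fin 6) : V := ray (r' s)

theorem c_E' (s : Fin 6) : c s (E' s) = -1 := by
  fin_cases s <;> simp [c, E', ray_mat, r']

theorem p_E' (s : Fin 6) : p (E' s) = 2 := by
  rw [E', p_ray]
  fin_cases s <;> simp [r']

theorem ray_congr {v w : Fin 3 → ℤ} (h : v = w ∨ v = -w) : ray v = ray w := by
  rcases h with rfl | rfl
  · rfl
  · apply V.ext_mat
    ext i j
    rw [ray_mat, ray_mat]
    simp

theorem flip_self (s : Fin 6) : io (F s) • E s = E' s := by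
  rw [E, io_ray, E']
  apply ray_congr
  revert s; decide

theorem flip_other (s u : Fin 6) (h : u ≠ s) : ∃ w, w ≠ s ∧ io (F s) • E w = E u := by
  have key : ∀ s u : Fin 6, u ≠ s → ∃ w, w ≠ s ∧
      ((Fm s) *ᵥ (r w) = r u ∨ (Fm s) *ᵥ (r w) = - r u) := by decide
  obtain ⟨w, hw, hw'⟩ := key s u h
  exact ⟨w, hw, by rw [E, io_ray, E]; exact ray_congr hw'⟩

theorem of_p_eq_one {v : Fin 3 → ℤ} (hp : p (ray v) = 1) : ∃ s, ray v = E s := by
  rw [p_ray] at hp
  have hz : v 0 ^ 2 + v 1 ^ 2 + v 2 ^ 2 + v 0 * v 1 + v 0 * v 2 + v 1 * v 2 = 1 := by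
    exact_mod_cast hp
  have b0 : -1 ≤ v 0 ∧ v 0 ≤ 1 := by
    constructor <;> nlinarith [sq_nonneg (v 0 + v 1 + v 2), sq_nonneg (v 0), sq_nonneg (v 1), sq_nonneg (v 2)]
  have b1 : -1 ≤ v 1 ∧ v 1 ≤ 1 := by
    constructor <;> nlinarith [sq_nonneg (v 0 + v 1 + v 2), sq_nonneg (v 0), sq_nonneg (v 1), sq_nonneg (v 2)]
  have b2 : -1 ≤ v 2 ∧ v 2 ≤ 1 := by
    constructor <;> nlinarith [sq_nonneg (v 0 + v 1 + v 2), sq_nonneg (v 0), sq_nonneg (v 1), sq_nonneg (v 2)]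
  have key : ∀ a b c : Fin 3,
      let x : ℤ := (a : ℕ) - 1; let y : ℤ := (b : ℕ) - 1; let z : ℤ := (c : ℕ) - 1;
      x ^ 2 + y ^ 2 + z ^ 2 + x * y + x * z + y * z = 1 →
        ∃ s, ![x, y, z] = r s ∨ ![x, y, z] = - r s := by decide
  have e : v = ![v 0, v 1, v 2] := by
    ext i; fin_cases i <;> rfl
  have f : ∀ x : ℤ, -1 ≤ x ∧ x ≤ 1 → ∃ a : Fin 3, x = ((a : ℕ) : ℤ) - 1 := by
    intro x hx
    refine ⟨⟨(x + 1).toNat, by omega⟩, ?_⟩
    simp only
    omega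
  obtain ⟨a, ha⟩ := f _ b0
  obtain ⟨b, hb⟩ := f _ b1
  obtain ⟨c, hc⟩ := f _ b2
  have k := key a b c
  simp only [← ha, ← hb, ← hc] at k
  obtain ⟨s, hs⟩ := k hz
  exact ⟨s, by rw [E]; exact ray_congr (by rw [e]; exact hs)⟩

theorem p_flip (s : Fin 6) {M : V} (hM : Sy M) : p (io (F s) • M) = p M + c s M := by
  have h1 : M.mat 1 0 = M.mat 0 1 := by
    have := congrFun (congrFun hM 0) 1
    simpa using this
  have h2 : M.mat 2 0 = M.mat 0 2 := by
    have := congrFun (congrFun hM 0) 2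
    simpa using this
  have h3 : M.mat 2 1 = M.mat 1 2 := by
    have := congrFun (congrFun hM 1) 2
    simpa using this
  rw [p_eq, p_eq, smul_mat]
  simp only [Matrix.mul_apply, Matrix.transpose_apply, io_apply, Fin.sum_univ_three, h1, h2, h3]
  fin_cases s <;> simp [F, Fm, c] <;> ring

end Pool.Agent.CG3.Sel
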