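import Pool.Agent.CG3.SelA

/-!
Selling reduction, part B: a generic positive definite form and the energy of a frame.
-/

set_option autoImplicit false

namespace Pool.Agent.CG3.Sel

open Matrix

theorem exists_gen : ∃ t : ℝ, 0 < t ∧ t < 1 / 8 ∧ Transcendental ℚ t := by
  have h : Dense ({x : ℝ | IsAlgebraic ℚ x}ᶜ) := Set.Countable.dense_compl ℝ
    (Algebraic.countable ℚ ℝ)
  obtain ⟨z, hz, h1, h2⟩ := h.exists_between (show (0 : ℝ) < 1 / 8 by norm_num)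
  exact ⟨z, h1, h2, hz⟩

/-- A small transcendental number. -/
noncomputable def te : ℝ := exists_gen.choose

theorem te_pos : 0 < te := exists_gen.choose_spec.1
theorem te_lt : te < 1 / 8 := exists_gen.choose_spec.2.1
theorem te_tr : Transcendental ℚ te := exists_gen.choose_spec.2.2

/-- A basis of the symmetric matrices. -/
def Bm : Fin 6 → Matrix (Fin 3) (Fin 3) ℚ :=
  ![1, !![0, 1, 0; 1, 0, 0; 0, 0, 0], !![0, 0, 1; 0, 0, 0; 1, 0, 0], !![0, 0, 0; 0, 1, 0; 0, 0, 0],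
    !![0, 0, 0; 0, 0, 1; 0, 1, 0], !![0, 0, 0; 0, 0, 0; 0, 0, 1]]

/-- A basis of the symmetric matrices. -/
def B (i : Fin 6) : V := Bm i

theorem B_mat (i : Fin 6) : (B i).mat = Bm i := rfl

theorem B_sy (i : Fin 6) : Sy (B i) := by
  unfold Sy
  rw [B_mat]
  fin_cases i <;> ext a b <;> fin_cases a <;> fin_cases b <;> simp [Bm]

/-- Evaluation of a functional at the generic form. -/
noncomputable def ev (f : V → ℚ) : ℝ := ∑ i : Fin 6, (f (B i) : ℝ) * te ^ (i : ℕ)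

theorem ev_add (f g : V → ℚ) : ev (fun M => f M + g M) = ev f + ev g := by
  simp [ev, add_mul, Finset.sum_add_distrib]

theorem ev_mul (a : ℚ) (f : V → ℚ) : ev (fun M => a * f M) = a * ev f := by
  simp only [ev, Finset.mul_sum, Rat.cast_mul, mul_assoc]

theorem ev_zero : ev (fun _ => 0) = 0 := by simp [ev]

theorem ev_sum {α : Type} (S : Finset α) (f : α → V → ℚ) :
    ev (fun M => ∑ a ∈ S, f a M) = ∑ a ∈ S, ev (f a) := by
  simp only [ev, Rat.cast_sum, Finset.sum_mul]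
  rw [Finset.sum_comm]

theorem ev_congr {f g : V → ℚ} (h : ∀ M, Sy M → f M = g M) : ev f = ev g := by
  unfold ev
  refine Finset.sum_congr rfl fun i _ => ?_
  rw [h _ (B_sy i)]

/-- A functional whose value at the generic form vanishes is zero on the basis. -/
theorem ev_ne {f : V → ℚ} (h : ev f = 0) (i : Fin 6) : f (B i) = 0 := by
  have h1 := te_tr
  rw [transcendental_iff] at h1
  have h2 := h1 (∑ i : Fin 6, Polynomial.C (f (B i)) * Polynomial.X ^ (i : ℕ)) (by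
    rw [map_sum]
    simp only [map_mul, Polynomial.aeval_C, map_pow, Polynomial.aeval_X]
    exact h)
  have h3 := congrArg (fun q => Polynomial.coeff q (i : ℕ)) h2
  simp only [Polynomial.finsetSum_coeff, Polynomial.coeff_C_mul_X_pow, Polynomial.coeff_zero] at h3
  rw [Finset.sum_eq_single i] at h3
  · simpa using h3
  · intro b _ hb
    rw [if_neg]
    intro h4
    exact hb (Fin.ext h4).symm
  · simp

/-- Positivity. -/
theorem ev_qv (l : Fin 3 → ℚ) :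
    (((l 0 : ℝ)) ^ 2 + (l 1 : ℝ) ^ 2 + (l 2 : ℝ) ^ 2) / 2 ≤ ev (qv l) := by
  have h : ev (qv l) = (l 0 : ℝ) ^ 2 + (l 1 : ℝ) ^ 2 + (l 2 : ℝ) ^ 2 + 2 * l 0 * l 1 * te
     + 2 * l 0 * l 2 * te ^ 2 + (l 1 : ℝ) ^ 2 * te ^ 3 + 2 * l 1 * l 2 * te ^ 4 +
      (l 2 : ℝ) ^ 2 * te ^ 5 := by
    unfold ev
    simp only [Fin.sum_univ_succ, Fin.sum_univ_zero, qv, B_mat, Bm, Matrix.mulVec, dotProduct]
    simp
    ring
  rw [h]
  have t0 := te_pos
  have t1 := te_lt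
  generalize te = t at t0 t1
  generalize (l 0 : ℝ) = x
  generalize (l 1 : ℝ) = y
  generalize (l 2 : ℝ) = z
  have e2 : t ^ 2 ≤ 1 / 64 := by nlinarith
  have e4 : t ^ 4 ≤ 1 / 4096 := by nlinarith [sq_nonneg (t ^ 2)]
  have p3 : 0 ≤ y ^ 2 * t ^ 3 := by positivity
  have p5 : 0 ≤ z ^ 2 * t ^ 5 := by positivity
  have a1 : -(t * (x ^ 2 + y ^ 2)) ≤ 2 * x * y * t := by nlinarith [mul_nonneg t0.le (sq_nonneg (x + y))]
  have a2 : -(t ^ 2 * (x ^ 2 + z ^ 2)) ≤ 2 * x * z * t ^ 2 := by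
    nlinarith [mul_nonneg (sq_nonneg t) (sq_nonneg (x + z))]
  have a3 : -(t ^ 4 * (y ^ 2 + z ^ 2)) ≤ 2 * y * z * t ^ 4 := by
    nlinarith [mul_nonneg (show 0 ≤ t ^ 4 by positivity) (sq_nonneg (y + z))]
  have b1 : t * (x ^ 2 + y ^ 2) ≤ 1 / 8 * (x ^ 2 + y ^ 2) := by
    apply mul_le_mul_of_nonneg_right t1.le; positivity
  have b2 : t ^ 2 * (x ^ 2 + z ^ 2) ≤ 1 / 64 * (x ^ 2 + z ^ 2) := by
    apply mul_le_mul_of_nonneg_right e2; positivity
  have b3 : t ^ 4 * (y ^ 2 + z ^ 2) ≤ 1 / 4096 * (y ^ 2 + z ^ 2) := by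
    apply mul_le_mul_of_nonneg_right e4; positivity
  nlinarith [sq_nonneg x, sq_nonneg y, sq_nonneg z]

theorem ev_qv_pos {l : Fin 3 → ℚ} (hl : l ≠ 0) : 0 < ev (qv l) := by
  refine lt_of_lt_of_le ?_ (ev_qv l)
  have h : ∃ i, l i ≠ 0 := by
    by_contra h
    push Not at h
    exact hl (funext h)
  obtain ⟨i, hi⟩ := h
  have hi' : (0 : ℝ) < (l i : ℝ) ^ 2 := by positivity
  have h0 := sq_nonneg ((l 0 : ℚ) : ℝ)
  have h1 := sq_nonneg ((l 1 : ℚ) : ℝ)
  have h2 := sq_nonneg ((l 2 : ℚ) : ℝ)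
  fin_cases i
  · simp only [Fin.zero_eta] at hi'
    linarith
  · simp only [Fin.mk_one] at hi'
    linarith
  · simp only [Fin.reduceFinMk] at hi'
    linarith

end Pool.Agent.CG3.Sel
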