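import Pool.Agent.CG3.SelB

/-!
Selling reduction, part C: frames of the integral lattice, their energy, finiteness, tops.
-/

set_option autoImplicit false

namespace Pool.Agent.CG3.Sel

open Matrix

/-- The frame attached to an integral basis. -/
noncomputable def fr (g : GL (Fin 3) ℤ) : Finset V := Finset.univ.image fun s => io g • E s

/-- The coordinates of a matrix in a frame. -/
noncomputable def cg (g : GL (Fin 3) ℤ) (s : Fin 6) (M : V) : ℚ := c s (io g⁻¹ • M)

/-- The perfect form of a frame. -/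
noncomputable def pg (g : GL (Fin 3) ℤ) (M : V) : ℚ := p (io g⁻¹ • M)

/-- The coordinates of the generic form. -/
noncomputable def co (g : GL (Fin 3) ℤ) (s : Fin 6) : ℝ := ev (cg g s)

/-- The energy of a frame. -/
noncomputable def en (g : GL (Fin 3) ℤ) : ℝ := ev (pg g)

theorem mem_fr {g : GL (Fin 3) ℤ} {M : V} : M ∈ fr g ↔ ∃ s, io g • E s = M := by
  simp [fr]

theorem mem_fr_self (g : GL (Fin 3) ℤ) (s : Fin 6) : io g • E s ∈ fr g := mem_fr.2 ⟨s, rfl⟩

theorem smulE_inj (g : GL (Fin 3) ℤ) {s u : Fin 6} (h : io g • E s = io g • E u) : s = u :=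
  E_injective (MulAction.injective (io g) h)

theorem card_fr (g : GL (Fin 3) ℤ) : (fr g).card = 6 := by
  rw [fr, Finset.card_image_of_injective]
  · simp
  · intro s u h
    exact smulE_inj g h

theorem cg_E (g : GL (Fin 3) ℤ) (s u : Fin 6) : cg g s (io g • E u) = if s = u then 1 else 0 := by
  rw [cg, smul_smul, ← map_mul, inv_mul_cancel, map_one, one_smul, c_E]

/-- Functionals which are linear in the matrix. -/
def LinF (f : V → ℚ) : Prop := ∀ (a : Fin 6 → ℚ) (N : Fin 6 → V) (M : V),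
  M.mat = ∑ s, a s • (N s).mat → f M = ∑ s, a s * f (N s)

theorem LinF.smul {f : V → ℚ} (h : LinF f) (g : GL3Q) : LinF fun M => f (g • M) := by
  intro a N M hM
  apply h a (fun s => g • N s)
  rw [smul_mat, hM]
  simp only [smul_mat, Matrix.mul_sum, Matrix.sum_mul, Matrix.mul_smul, Matrix.smul_mul]

theorem entry_lin {a : Fin 6 → ℚ} {N : Fin 6 → V} {M : V}
    (hM : M.mat = ∑ s, a s • (N s).mat) (i j : Fin 3) :
    M.mat i j = ∑ s, a s * (N s).mat i j := by
  rw [hM]
  simp [Matrix.sum_apply]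

theorem c_lin (s : Fin 6) : LinF (c s) := by
  intro a N M hM
  have h := entry_lin hM
  fin_cases s <;> simp [c, h, Finset.sum_add_distrib, mul_add]

theorem p_lin : LinF p := by
  intro a N M hM
  simp only [p, Finset.mul_sum]
  rw [Finset.sum_comm]
  exact Finset.sum_congr rfl fun s _ => c_lin s a N M hM

theorem qv_eq (l : Fin 3 → ℚ) (M : V) : qv l M = ∑ i, ∑ j, l i * l j * M.mat i j := by
  simp only [qv, dotProduct, Matrix.mulVec, Finset.mul_sum]
  refine Finset.sum_congr rfl fun i _ => Finset.sum_congr rfl fun j _ => by ring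

theorem qv_lin (l : Fin 3 → ℚ) : LinF (qv l) := by
  intro a N M hM
  have h := entry_lin hM
  simp only [qv_eq, h, Finset.mul_sum]
  conv_rhs => rw [Finset.sum_comm]
  refine Finset.sum_congr rfl fun i _ => ?_
  conv_rhs => rw [Finset.sum_comm]
  refine Finset.sum_congr rfl fun j _ => Finset.sum_congr rfl fun i _ => ?_
  ring

theorem expand_g (g : GL (Fin 3) ℤ) {M : V} (hM : Sy M) :
    M.mat = ∑ s, cg g s M • (io g • E s).mat := by
  have h := expand (hM.smul (io g⁻¹))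
  have h2 : M = io g • io g⁻¹ • M := by
    rw [smul_smul, ← map_mul, mul_inv_cancel, map_one, one_smul]
  conv_lhs => rw [h2, smul_mat, h]
  simp only [smul_mat, Matrix.mul_sum, Matrix.sum_mul, Matrix.mul_smul, Matrix.smul_mul, cg]

theorem LinF.expand {f : V → ℚ} (hf : LinF f) (g : GL (Fin 3) ℤ) {M : V} (hM : Sy M) :
    f M = ∑ s, cg g s M * f (io g • E s) :=
  hf _ _ _ (expand_g g hM)

theorem LinF.ev_expand {f : V → ℚ} (hf : LinF f) (g : GL (Fin 3) ℤ) :
    ev f = ∑ s, co g s * f (io g • E s) := by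
  rw [ev_congr (g := fun M => ∑ s, f (io g • E s) * cg g s M)
    (fun M hM => by rw [hf.expand g hM]; exact Finset.sum_congr rfl fun s _ => mul_comm _ _), ev_sum]
  refine Finset.sum_congr rfl fun s _ => ?_
  rw [ev_mul, mul_comm]
  rfl

theorem pg_lin (g : GL (Fin 3) ℤ) : LinF (pg g) := p_lin.smul _

theorem cg_lin (g : GL (Fin 3) ℤ) (s : Fin 6) : LinF (cg g s) := (c_lin s).smul _

theorem pg_eq (g : GL (Fin 3) ℤ) (M : V) : pg g M = ∑ s, cg g s M := rfl

theorem en_eq (g : GL (Fin 3) ℤ) : en g = ∑ s, co g s := by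
  unfold en co
  rw [← ev_sum]
  rfl

theorem B_span {f : V → ℚ} (hf : LinF f) (h : ∀ i, f (B i) = 0) {M : V} (hM : Sy M) : f M = 0 := by
  have e : M.mat = ∑ i, (![M.mat 0 0, M.mat 0 1, M.mat 0 2, M.mat 1 1 - M.mat 0 0, M.mat 1 2,
      M.mat 2 2 - M.mat 0 0] : Fin 6 → ℚ) i • (B i).mat := by
    have h1 : M.mat 1 0 = M.mat 0 1 := by
      have := congrFun (congrFun hM 0) 1
      simpa using this
    have h2 : M.mat 2 0 = M.mat 0 2 := by
      have := congrFun (congrFun hM 0) 2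
      simpa using this
    have h3 : M.mat 2 1 = M.mat 1 2 := by
      have := congrFun (congrFun hM 1) 2
      simpa using this
    ext i j
    simp only [Matrix.sum_apply, Matrix.smul_apply, Fin.sum_univ_succ, Fin.sum_univ_zero,
      smul_eq_mul, B_mat]
    fin_cases i <;> fin_cases j <;> simp [h1, h2, h3, Bm]
  rw [hf _ _ _ e]
  simp [h]

theorem co_ne (g : GL (Fin 3) ℤ) (s : Fin 6) : co g s ≠ 0 := by
  intro h
  have h1 := B_span (cg_lin g s) (ev_ne h) ((E_sy s).smul (io g))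
  rw [cg_E] at h1
  simp at h1

/-! ### Integrality -/

theorem r_ne (s : Fin 6) : r s ≠ 0 := by
  revert s; decide

theorem r'_ne (s : Fin 6) : r' s ≠ 0 := by
  revert s; decide

theorem mulVec_ne (g : GL (Fin 3) ℤ) {v : Fin 3 → ℤ} (hv : v ≠ 0) : g.1 *ᵥ v ≠ 0 := by
  intro h
  apply hv
  have h1 : (g⁻¹).1 *ᵥ (g.1 *ᵥ v) = v := by
    rw [Matrix.mulVec_mulVec, ← Units.val_mul, inv_mul_cancel, Units.val_one, Matrix.one_mulVec]
  rw [← h1, h, Matrix.mulVec_zero]

theorem one_le_pg (g : GL (Fin 3) ℤ) {v : Fin 3 → ℤ} (hv : v ≠ 0) : 1 ≤ pg g (ray v) := by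
  rw [pg, io_ray]
  exact one_le_p (mulVec_ne _ hv)

theorem pg_int (g : GL (Fin 3) ℤ) (v : Fin 3 → ℤ) : ∃ n : ℤ, pg g (ray v) = n := by
  rw [pg, io_ray, p_ray]
  exact ⟨_, rfl⟩

theorem mem_of_pg (g : GL (Fin 3) ℤ) {v : Fin 3 → ℤ} (h : pg g (ray v) = 1) : ray v ∈ fr g := by
  rw [pg, io_ray] at h
  obtain ⟨s, hs⟩ := of_p_eq_one h
  rw [mem_fr]
  refine ⟨s, ?_⟩
  rw [← hs, io_ray, Matrix.mulVec_mulVec, ← Units.val_mul, mul_inv_cancel, Units.val_one,
    Matrix.one_mulVec]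

theorem pg_of_mem (g : GL (Fin 3) ℤ) {M : V} (h : M ∈ fr g) : pg g M = 1 := by
  obtain ⟨s, rfl⟩ := mem_fr.1 h
  rw [pg_eq]
  simp [cg_E]

theorem gE (g : GL (Fin 3) ℤ) (s : Fin 6) : io g • E s = ray (g.1 *ᵥ r s) := by
  rw [E, io_ray]

theorem gE' (g : GL (Fin 3) ℤ) (s : Fin 6) : io g • E' s = ray (g.1 *ᵥ r' s) := by
  rw [E', io_ray]

theorem one_le_pgE (g g' : GL (Fin 3) ℤ) (s : Fin 6) : 1 ≤ pg g' (io g • E s) := by
  rw [gE]
  exact one_le_pg _ (mulVec_ne _ (r_ne s))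

theorem mem_of_pgE (g g' : GL (Fin 3) ℤ) (s : Fin 6) (h : pg g' (io g • E s) = 1) :
    io g • E s ∈ fr g' := by
  rw [gE] at h ⊢
  exact mem_of_pg _ h

theorem fr_eq_of_subset {g g' : GL (Fin 3) ℤ} (h : ∀ s, io g • E s ∈ fr g') : fr g = fr g' := by
  apply Finset.eq_of_subset_of_card_le
  · intro M hM
    obtain ⟨s, rfl⟩ := mem_fr.1 hM
    exact h s
  · rw [card_fr, card_fr]

/-- The fundamental identity for the energies. -/
theorem en_sub (g g' : GL (Fin 3) ℤ) :
    en g' - en g = ∑ s, co g s * ((pg g' (io g • E s) : ℝ) - 1) := by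
  rw [en, (pg_lin g').ev_expand g, en_eq g, ← Finset.sum_sub_distrib]
  exact Finset.sum_congr rfl fun s _ => by ring

theorem en_congr {g g' : GL (Fin 3) ℤ} (h : fr g = fr g') : en g = en g' := by
  have h1 := en_sub g g'
  rw [Finset.sum_eq_zero] at h1
  · linarith
  · intro s _
    rw [pg_of_mem g' (by rw [← h]; exact mem_fr_self g s)]
    simp

/-! ### Flips -/

theorem F_inv (s : Fin 6) : (F s)⁻¹ = F s := by
  rw [inv_eq_iff_mul_eq_one]
  apply Units.ext
  exact Fm_sq s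

theorem en_flip (g : GL (Fin 3) ℤ) (s : Fin 6) : en (g * F s) = en g + co g s := by
  unfold en co
  rw [← ev_add]
  apply ev_congr
  intro M hM
  rw [pg, pg, cg, ← p_flip s (hM.smul _), smul_smul, ← map_mul, _root_.mul_inv_rev, F_inv]

theorem flip_mem (g : GL (Fin 3) ℤ) (s : Fin 6) {u : Fin 6} (h : u ≠ s) :
    io g • E u ∈ fr (g * F s) := by
  obtain ⟨w, -, hw⟩ := flip_other s u h
  rw [mem_fr]
  refine ⟨w, ?_⟩
  rw [map_mul, mul_smul, hw]

theorem flip_mem' (g : GL (Fin 3) ℤ) (s : Fin 6) : io g • E' s ∈ fr (g * F s) := by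
  rw [mem_fr]
  refine ⟨s, ?_⟩
  rw [map_mul, mul_smul, flip_self]

theorem fr_flip (g : GL (Fin 3) ℤ) (s : Fin 6) {M : V} (h : M ∈ fr (g * F s)) :
    M = io g • E' s ∨ ∃ u, u ≠ s ∧ M = io g • E u := by
  obtain ⟨w, rfl⟩ := mem_fr.1 h
  have key : ∀ s w : Fin 6, w ≠ s → ∃ u, u ≠ s ∧
      ((Fm s) *ᵥ (r w) = r u ∨ (Fm s) *ᵥ (r w) = - r u) := by decide
  rw [map_mul, mul_smul]
  by_cases hw : w = s
  · left
    rw [hw, flip_self]
  · right
    obtain ⟨u, hu, hu'⟩ := key s w hw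
    refine ⟨u, hu, ?_⟩
    congr 1
    rw [E, io_ray, E]
    exact ray_congr hu'

theorem pg_E' (g : GL (Fin 3) ℤ) (s : Fin 6) : pg g (io g • E' s) = 2 := by
  rw [pg, smul_smul, ← map_mul, inv_mul_cancel, map_one, one_smul, p_E']

theorem cg_E' (g : GL (Fin 3) ℤ) (s : Fin 6) : cg g s (io g • E' s) = -1 := by
  rw [cg, smul_smul, ← map_mul, inv_mul_cancel, map_one, one_smul, c_E']

/-- The two frames which contain a face of a frame. -/
theorem two_frames (g g' : GL (Fin 3) ℤ) (s : Fin 6) (h : ∀ u, u ≠ s → io g • E u ∈ fr g') :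
    fr g' = fr g ∨ fr g' = fr (g * F s) := by
  have h1 := (pg_lin g').expand g ((ray_sy (r' s)).smul (io g))
  rw [show ray (r' s) = E' s from rfl] at h1
  have h2 : ∑ u, cg g u (io g • E' s) * pg g' (io g • E u) =
      ∑ u, cg g u (io g • E' s) + cg g s (io g • E' s) * (pg g' (io g • E s) - 1) := by
    rw [← Finset.add_sum_erase _ _ (Finset.mem_univ s),
      ← Finset.add_sum_erase Finset.univ (fun u => cg g u (io g • E' s)) (Finset.mem_univ s)]
    rw [Finset.sum_congr rfl (g := fun u => cg g u (io g • E' s))]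
    · ring
    · intro u hu
      rw [pg_of_mem g' (h u (Finset.ne_of_mem_erase hu)), mul_one]
  rw [h2, ← pg_eq, pg_E', cg_E'] at h1
  obtain ⟨n, hn⟩ := pg_int g' (g.1 *ᵥ r s)
  rw [← gE] at hn
  obtain ⟨m, hm⟩ := pg_int g' (g.1 *ᵥ r' s)
  rw [← gE'] at hm
  have h3 := one_le_pgE g g' s
  have h4 : 1 ≤ pg g' (io g • E' s) := by
    rw [gE']
    exact one_le_pg _ (mulVec_ne _ (r'_ne s))
  rw [hn] at h1 h3
  rw [hm] at h1 h4
  have i3 : 1 ≤ n := by exact_mod_cast h3
  have i4 : 1 ≤ m := by exact_mod_cast h4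
  have i1 : m = 2 + -1 * (n - 1) := by exact_mod_cast h1
  rcases (show n = 1 ∨ m = 1 by omega) with h5 | h5
  · left
    symm
    apply fr_eq_of_subset
    intro u
    by_cases hu : u = s
    · subst hu
      apply mem_of_pgE
      rw [hn, h5]; simp
    · exact h u hu
  · right
    symm
    apply fr_eq_of_subset
    intro u
    rcases fr_flip g s (mem_fr_self (g * F s) u) with h6 | ⟨w, hw, h6⟩
    · rw [h6, gE']
      apply mem_of_pg
      rw [← gE', hm, h5]; simp
    · rw [h6]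
      exact h w hw

end Pool.Agent.CG3.Sel
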