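import Pool.Agent.CG3.SelC

/-!
Selling reduction, part D: spanning sets of rays, finiteness, tops, the minimal frame.
-/

set_option autoImplicit false

namespace Pool.Agent.CG3.Sel

open Matrix

/-- A set of rays which spans. -/
def Spn (R : Finset V) : Prop := ∀ l : Fin 3 → ℚ, (∀ M ∈ R, qv l M = 0) → l = 0

theorem Spn.mono {R R' : Finset V} (h : Spn R) (hR : R ⊆ R') : Spn R' :=
  fun l hl => h l fun M hM => hl M (hR hM)

theorem qv_ray (l : Fin 3 → ℚ) (v : Fin 3 → ℤ) : qv l (ray v) = (∑ i, l i * v i) ^ 2 := by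
  rw [qv_eq]
  simp only [ray_mat, Fin.sum_univ_three]
  ring

theorem qv_gE_nonneg (l : Fin 3 → ℚ) (g : GL (Fin 3) ℤ) (s : Fin 6) : 0 ≤ qv l (io g • E s) := by
  rw [gE, qv_ray]
  positivity

/-- The rays of a frame with positive coordinate span. -/
theorem spn_of_neg (g : GL (Fin 3) ℤ) (R : Finset V)
    (hR : ∀ s, io g • E s ∉ R → co g s < 0) : Spn R := by
  intro l hl
  by_contra hne
  have h1 := ev_qv_pos hne
  rw [(qv_lin l).ev_expand g] at h1
  have h2 : ∑ s, co g s * (qv l (io g • E s) : ℝ) ≤ 0 := by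
    apply Finset.sum_nonpos
    intro s _
    by_cases hs : io g • E s ∈ R
    · rw [hl _ hs]; simp
    · have h3 := hR s hs
      have h4 : (0 : ℝ) ≤ (qv l (io g • E s) : ℝ) := by exact_mod_cast qv_gE_nonneg l g s
      exact mul_nonpos_of_nonpos_of_nonneg h3.le h4
  linarith

/-! ### Finiteness -/

theorem finite_of_rows (S : Set (Fin 3 → ℤ)) (hS : S.Finite) :
    {g : GL (Fin 3) ℤ | ∀ i, (g⁻¹).1 i ∈ S}.Finite := by
  have h1 : {f : Fin 3 → Fin 3 → ℤ | ∀ i, f i ∈ S}.Finite := Set.Finite.pi' fun _ => hS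
  refine Set.Finite.of_injOn (f := fun g : GL (Fin 3) ℤ => (g⁻¹).1)
    (t := {f : Fin 3 → Fin 3 → ℤ | ∀ i, f i ∈ S}) ?_ ?_ h1
  · intro g hg
    exact hg
  · intro g _ g' _ h
    exact inv_injective (Units.ext h)

/-- The rows of the inverse matrix, as rational vectors. -/
def row (g : GL (Fin 3) ℤ) (i : Fin 3) : Fin 3 → ℚ := fun j => (((g⁻¹).1 i j : ℤ) : ℚ)

theorem io_inv_smul_diag (g : GL (Fin 3) ℤ) (M : V) (i : Fin 3) :
    (io g⁻¹ • M).mat i i = qv (row g i) M := by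
  rw [smul_mat, qv_eq]
  simp only [Matrix.mul_apply, Matrix.transpose_apply, io_apply, Finset.sum_mul, row]
  rw [Finset.sum_comm]
  refine Finset.sum_congr rfl fun a _ => Finset.sum_congr rfl fun b _ => ?_
  ring

theorem two_pg (g : GL (Fin 3) ℤ) {M : V} (hM : Sy M) :
    2 * pg g M = qv (row g 0) M + qv (row g 1) M + qv (row g 2) M +
      qv (fun j => row g 0 j + row g 1 j + row g 2 j) M := by
  have h1 := hM.smul (io g⁻¹)
  have h : qv (fun j => row g 0 j + row g 1 j + row g 2 j) M = ∑ i, ∑ j, (io g⁻¹ • M).mat i j := by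
    rw [qv_eq]
    simp only [smul_mat, Matrix.mul_apply, Matrix.transpose_apply, io_apply, Fin.sum_univ_three, row]
    ring
  rw [h, ← io_inv_smul_diag, ← io_inv_smul_diag, ← io_inv_smul_diag, pg, p_eq]
  have h2 : (io g⁻¹ • M).mat 1 0 = (io g⁻¹ • M).mat 0 1 := by
    have := congrFun (congrFun h1 0) 1
    simpa using this
  have h3 : (io g⁻¹ • M).mat 2 0 = (io g⁻¹ • M).mat 0 2 := by
    have := congrFun (congrFun h1 0) 2
    simpa using this
  have h4 : (io g⁻¹ • M).mat 2 1 = (io g⁻¹ • M).mat 1 2 := by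
    have := congrFun (congrFun h1 1) 2
    simpa using this
  simp only [Fin.sum_univ_three, h2, h3, h4]
  ring

theorem ev_qv_nonneg (l : Fin 3 → ℚ) : 0 ≤ ev (qv l) := by
  refine le_trans ?_ (ev_qv l)
  positivity

theorem two_en (g : GL (Fin 3) ℤ) : 2 * en g = ev (qv (row g 0)) + ev (qv (row g 1)) +
    ev (qv (row g 2)) + ev (qv fun j => row g 0 j + row g 1 j + row g 2 j) := by
  rw [← ev_add, ← ev_add, ← ev_add]
  have h := ev_mul 2 (pg g)
  push_cast at h
  rw [en, ← h]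
  exact ev_congr fun M hM => two_pg g hM

theorem ev_row_le (g : GL (Fin 3) ℤ) (i : Fin 3) : ev (qv (row g i)) ≤ 2 * en g := by
  have h := two_en g
  have h0 := ev_qv_nonneg (row g 0)
  have h1 := ev_qv_nonneg (row g 1)
  have h2 := ev_qv_nonneg (row g 2)
  have h3 := ev_qv_nonneg (fun j => row g 0 j + row g 1 j + row g 2 j)
  fin_cases i <;> simp <;> linarith

theorem finite_en (C : ℝ) : {g : GL (Fin 3) ℤ | en g ≤ C}.Finite := by
  obtain ⟨N, hN⟩ := exists_nat_ge (4 * C)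
  refine (finite_of_rows (Set.Icc (fun _ => -(N : ℤ)) (fun _ => (N : ℤ))) (Set.finite_Icc _ _)).subset ?_
  intro g hg i
  have h1 := ev_row_le g i
  have h2 := ev_qv (row g i)
  have h3 : en g ≤ C := hg
  have h4 : ∀ j, (((g⁻¹).1 i j : ℤ) : ℝ) ^ 2 ≤ 4 * C := by
    intro j
    have e0 := sq_nonneg ((row g i 0 : ℚ) : ℝ)
    have e1 := sq_nonneg ((row g i 1 : ℚ) : ℝ)
    have e2 := sq_nonneg ((row g i 2 : ℚ) : ℝ)
    have e3 : (((g⁻¹).1 i j : ℤ) : ℝ) = ((row g i j : ℚ) : ℝ) := by simp [row]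
    rw [e3]
    fin_cases j <;> simp <;> linarith
  have h5 : ∀ j, |(g⁻¹).1 i j| ≤ (N : ℤ) := by
    intro j
    by_contra hlt
    push Not at hlt
    have h6 : (N : ℤ) < ((g⁻¹).1 i j) ^ 2 := by
      rw [← sq_abs]
      nlinarith [abs_nonneg ((g⁻¹).1 i j), Int.natCast_nonneg N]
    have h7 : (N : ℝ) < (((g⁻¹).1 i j : ℤ) : ℝ) ^ 2 := by exact_mod_cast h6
    linarith [h4 j]
  rw [Set.mem_Icc]
  exact ⟨fun j => (abs_le.1 (h5 j)).1, fun j => (abs_le.1 (h5 j)).2⟩

theorem r_le : ∀ (s : Fin 6) (i : Fin 3), r s i * r s i ≤ 1 := by decide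

theorem finite_star {R : Finset V} (hR : Spn R) : {g : GL (Fin 3) ℤ | R ⊆ fr g}.Finite := by
  by_cases hne : ∃ g₁ : GL (Fin 3) ℤ, R ⊆ fr g₁
  swap
  · convert Set.finite_empty
    ext g
    simp only [Set.mem_ofPred_eq, Set.mem_empty_iff_false, iff_false]
    exact fun h => hne ⟨g, h⟩
  obtain ⟨g₁, hg₁⟩ := hne
  have hv : ∀ M : R, ∃ v : Fin 3 → ℤ, M.1 = ray v := by
    intro M
    obtain ⟨s, hs⟩ := mem_fr.1 (hg₁ M.2)
    exact ⟨_, by rw [← hs, gE]⟩
  choose v hv using hv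
  refine (finite_of_rows {l : Fin 3 → ℤ | ∀ M : R, |∑ j, l j * v M j| ≤ 1} ?_).subset ?_
  · refine Set.Finite.of_injOn (f := fun l : Fin 3 → ℤ => fun M : R => ∑ j, l j * v M j)
      (t := Set.Icc (fun _ => -1) (fun _ => 1)) ?_ ?_ (Set.finite_Icc _ _)
    · intro l hl
      rw [Set.mem_Icc]
      exact ⟨fun M => (abs_le.1 (hl M)).1, fun M => (abs_le.1 (hl M)).2⟩
    · intro l _ l' _ h
      have h1 : (fun j => ((l j - l' j : ℤ) : ℚ)) = 0 := by
        apply hR
        intro M hM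
        rw [show M = ray (v ⟨M, hM⟩) from hv ⟨M, hM⟩, qv_ray]
        have h2 := congrFun h ⟨M, hM⟩
        have h3 : ∑ i, (((l i - l' i : ℤ) : ℚ)) * ((v ⟨M, hM⟩ i : ℤ) : ℚ) = 0 := by
          have h4 : ∑ i, (l i - l' i) * v ⟨M, hM⟩ i = 0 := by
            simp only [sub_mul, Finset.sum_sub_distrib]
            exact sub_eq_zero.2 h2
          exact_mod_cast h4
        rw [h3]
        simp
      ext j
      have h2 := congrFun h1 j
      simp only [Pi.zero_apply] at h2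
      have h3 : l j - l' j = 0 := by exact_mod_cast h2
      omega
  · intro g hg i M
    have h1 : M.1 ∈ fr g := hg M.2
    obtain ⟨s, hs⟩ := mem_fr.1 h1
    have h2 : (io g⁻¹ • M.1).mat i i = (E s).mat i i := by
      rw [← hs, smul_smul, ← map_mul, inv_mul_cancel, map_one, one_smul]
    rw [io_inv_smul_diag, hv M, qv_ray, E, ray_mat] at h2
    have h3 : (∑ j, (g⁻¹).1 i j * v M j) ^ 2 = r s i * r s i := by
      have : (∑ j, row g i j * ((v M j : ℤ) : ℚ)) = ((∑ j, (g⁻¹).1 i j * v M j : ℤ) : ℚ) := by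
        simp [row]
      rw [this] at h2
      exact_mod_cast h2
    have h4 : r s i * r s i ≤ 1 := r_le s i
    rw [← h3] at h4
    rw [abs_le]
    constructor <;> nlinarith

/-! ### Tops -/

/-- The frame of `g` is the top of the set `R`. -/
def Top (R : Finset V) (g : GL (Fin 3) ℤ) : Prop :=
  R ⊆ fr g ∧ ∀ s, io g • E s ∉ R → co g s < 0

theorem Top.le {R : Finset V} {g g' : GL (Fin 3) ℤ} (h : Top R g) (h' : R ⊆ fr g') :
    en g' ≤ en g ∧ (en g' = en g → fr g' = fr g) := by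
  have h1 := en_sub g g'
  have h2 : ∀ s, co g s * ((pg g' (io g • E s) : ℝ) - 1) ≤ 0 := by
    intro s
    by_cases hs : io g • E s ∈ R
    · rw [pg_of_mem g' (h' hs)]; simp
    · have h3 := h.2 s hs
      have h4 : (1 : ℝ) ≤ (pg g' (io g • E s) : ℝ) := by exact_mod_cast one_le_pgE g g' s
      exact mul_nonpos_of_nonpos_of_nonneg h3.le (by linarith)
  constructor
  · have := Finset.sum_nonpos (s := Finset.univ) fun s _ => h2 s
    linarith
  · intro h3
    rw [h3, sub_self] at h1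
    have h4 := (Finset.sum_eq_zero_iff_of_nonpos (fun s _ => h2 s)).1 h1.symm
    symm
    apply fr_eq_of_subset
    intro s
    apply mem_of_pgE
    have h5 := h4 s (Finset.mem_univ s)
    rcases mul_eq_zero.1 h5 with h6 | h6
    · exact absurd h6 (co_ne g s)
    · have h7 : (pg g' (io g • E s) : ℝ) = 1 := by linarith
      exact_mod_cast h7

theorem Top.unique {R : Finset V} {g g' : GL (Fin 3) ℤ} (h : Top R g) (h' : Top R g') :
    fr g' = fr g :=
  (h.le h'.1).2 (le_antisymm (h.le h'.1).1 (h'.le h.1).1)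

theorem flip_subset {R : Finset V} {g : GL (Fin 3) ℤ} (h : R ⊆ fr g) {s : Fin 6}
    (hs : io g • E s ∉ R) : R ⊆ fr (g * F s) := by
  intro M hM
  obtain ⟨u, rfl⟩ := mem_fr.1 (h hM)
  apply flip_mem
  rintro rfl
  exact hs hM

theorem exists_top {R : Finset V} (hR : Spn R) {g₁ : GL (Fin 3) ℤ} (h₁ : R ⊆ fr g₁) :
    ∃ g, Top R g := by
  obtain ⟨g, hg, hmax⟩ := Set.exists_max_image {g : GL (Fin 3) ℤ | R ⊆ fr g} en (finite_star hR)
    ⟨g₁, h₁⟩
  refine ⟨g, hg, ?_⟩
  intro s hs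
  by_contra hlt
  have h1 : 0 < co g s := lt_of_le_of_ne (not_lt.1 hlt) (co_ne g s).symm
  have h2 := hmax (g * F s) (flip_subset hg hs)
  rw [en_flip] at h2
  linarith

/-- The top of a subset with the same top. -/
theorem Top.of_between {R R' : Finset V} {g : GL (Fin 3) ℤ} (h : Top R g) (h1 : R ⊆ R')
    (h2 : R' ⊆ fr g) : Top R' g :=
  ⟨h2, fun s hs => h.2 s fun h3 => hs (h1 h3)⟩

theorem exists_base : ∃ g₀ : GL (Fin 3) ℤ, (∀ g, en g₀ ≤ en g) ∧ (∀ s, 0 < co g₀ s) := by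
  obtain ⟨g, hg, hmin⟩ := Set.exists_min_image {g : GL (Fin 3) ℤ | en g ≤ en 1} en (finite_en _)
    ⟨1, le_refl (en 1)⟩
  have h1 : ∀ g', en g ≤ en g' := by
    intro g'
    by_cases h : en g' ≤ en 1
    · exact hmin g' h
    · exact le_trans hg (le_of_lt (not_le.1 h))
  refine ⟨g, h1, ?_⟩
  intro s
  by_contra hlt
  have h2 : co g s < 0 := lt_of_le_of_ne (not_lt.1 hlt) (co_ne g s)
  have h3 := h1 (g * F s)
  rw [en_flip] at h3
  linarith

theorem base_unique {g g' : GL (Fin 3) ℤ} (h : ∀ s, 0 < co g s) (h' : en g' ≤ en g) :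
    fr g = fr g' := by
  have h1 := en_sub g g'
  have h2 : ∀ s, 0 ≤ co g s * ((pg g' (io g • E s) : ℝ) - 1) := by
    intro s
    have h4 : (1 : ℝ) ≤ (pg g' (io g • E s) : ℝ) := by exact_mod_cast one_le_pgE g g' s
    exact mul_nonneg (h s).le (by linarith)
  have h3 : ∑ s, co g s * ((pg g' (io g • E s) : ℝ) - 1) = 0 :=
    le_antisymm (by linarith) (Finset.sum_nonneg fun s _ => h2 s)
  have h4 := (Finset.sum_eq_zero_iff_of_nonneg (fun s _ => h2 s)).1 h3
  apply fr_eq_of_subset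
  intro s
  apply mem_of_pgE
  have h5 := h4 s (Finset.mem_univ s)
  rcases mul_eq_zero.1 h5 with h6 | h6
  · exact absurd h6 (co_ne g s)
  · have h7 : (pg g' (io g • E s) : ℝ) = 1 := by linarith
    exact_mod_cast h7

end Pool.Agent.CG3.Sel
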