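import Mathlib

/-!
Alternating functions on the cells of a complex with an acyclic matching.
-/

set_option autoImplicit false

namespace Pool.Agent.CG3.Sel

open Equiv

/-- A family of finite sets (cells) with an acyclic matching. -/
structure Cx (V : Type) [DecidableEq V] where
  /-- the cells -/
  cell : Finset V → Prop
  /-- the top of a cell -/
  top : Finset V → Finset V
  /-- the marked element of a top -/
  s : Finset V → V
  /-- the rank of a top -/
  rk : Finset V → ℕ
  /-- the exceptional cell -/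
  base : Finset V
  between : ∀ R R' R'' : Finset V, cell R → R ⊆ R' → R' ⊆ R'' → cell R'' → cell R'
  fin : ∀ R : Finset V, cell R → {ρ | ρ ∉ R ∧ cell (insert ρ R)}.Finite
  top_base : ∀ R : Finset V, cell R → (top R = base ↔ R = base)
  erase : ∀ R : Finset V, cell R → top R ≠ base → s (top R) ∈ R →
    cell (R.erase (s (top R))) ∧ top (R.erase (s (top R))) = top R
  ins : ∀ R : Finset V, cell R → top R ≠ base → s (top R) ∉ R →
    cell (insert (s (top R)) R) ∧ top (insert (s (top R)) R) = top R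
  lower : ∀ (R : Finset V) (ρ : V), cell R → ρ ∉ R → cell (insert ρ R) →
    top (insert ρ R) = top R ∨ rk (top (insert ρ R)) < rk (top R)

section tuples

variable {V : Type} [DecidableEq V]

/-- The set of the entries of a tuple. -/
def im {m : ℕ} (t : Fin m → V) : Finset V := Finset.univ.image t

theorem mem_im {m : ℕ} {t : Fin m → V} {v : V} : v ∈ im t ↔ ∃ i, t i = v := by
  simp [im]

theorem im_cons {m : ℕ} (ρ : V) (t : Fin m → V) : im (Fin.cons ρ t : Fin (m + 1) → V) =
    insert ρ (im t) := by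
  ext v
  rw [mem_im, Fin.exists_fin_succ, Finset.mem_insert, mem_im]
  simp [eq_comm]

theorem im_perm {m : ℕ} (t : Fin m → V) (π : Perm (Fin m)) : im (t ∘ π) = im t := by
  ext v
  rw [mem_im, mem_im]
  constructor
  · rintro ⟨i, hi⟩
    exact ⟨π i, hi⟩
  · rintro ⟨i, hi⟩
    exact ⟨π.symm i, by simpa using hi⟩

omit [DecidableEq V] in
theorem inj_perm {m : ℕ} {t : Fin m → V} (π : Perm (Fin m)) :
    Function.Injective (t ∘ π) ↔ Function.Injective t :=
  ⟨fun h => by
    have h2 := h.comp π.symm.injective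
    rwa [Function.comp_assoc, Equiv.self_comp_symm, Function.comp_id] at h2,
    fun h => h.comp π.injective⟩

theorem card_im {m : ℕ} {t : Fin m → V} (h : Function.Injective t) : (im t).card = m := by
  rw [im, Finset.card_image_of_injective _ h]
  simp

/-- The permutation of `m + 1` elements which fixes zero. -/
def up {m : ℕ} (π : Perm (Fin m)) : Perm (Fin (m + 1)) := Perm.decomposeFin.symm (0, π)

theorem up_zero {m : ℕ} (π : Perm (Fin m)) : up π 0 = 0 := by
  rw [up, Perm.decomposeFin_symm_apply_zero]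

theorem up_succ {m : ℕ} (π : Perm (Fin m)) (i : Fin m) : up π i.succ = (π i).succ := by
  rw [up, Perm.decomposeFin_symm_apply_succ]
  simp

theorem sign_up {m : ℕ} (π : Perm (Fin m)) : Perm.sign (up π) = Perm.sign π := by
  rw [up, Perm.decomposeFin.symm_sign]
  simp

omit [DecidableEq V] in
theorem cons_perm {m : ℕ} (ρ : V) (t : Fin m → V) (π : Perm (Fin m)) :
    (Fin.cons ρ (t ∘ π) : Fin (m + 1) → V) = (Fin.cons ρ t : Fin (m + 1) → V) ∘ up π := by
  funext i
  refine Fin.cases ?_ (fun i => ?_) i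
  · simp [up_zero]
  · simp [up_succ]

theorem exists_down {m : ℕ} (σ : Perm (Fin (m + 1))) (h : σ 0 = 0) : ∃ π : Perm (Fin m),
    σ = up π := by
  refine ⟨(Perm.decomposeFin σ).2, ?_⟩
  have h1 : (Perm.decomposeFin σ).1 = 0 := by
    rw [← Perm.decomposeFin_symm_apply_zero (Perm.decomposeFin σ).1 (Perm.decomposeFin σ).2]
    simpa using h
  rw [up, ← h1]
  simp

end tuples

section complex

variable {V : Type} [DecidableEq V] (X : Cx V)

/-- Injective tuples whose entries form a cell. -/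
def Cx.ct {m : ℕ} (t : Fin m → V) : Prop := Function.Injective t ∧ X.cell (im t)

theorem Cx.ct_perm {m : ℕ} {t : Fin m → V} (π : Perm (Fin m)) : X.ct (t ∘ π) ↔ X.ct t := by
  rw [Cx.ct, Cx.ct, inj_perm, im_perm]

open Classical in
/-- The cells one larger than a given cell. -/
noncomputable def nb (cell : Finset V → Prop) (R : Finset V) : Finset V :=
  if h : {ρ | ρ ∉ R ∧ cell (insert ρ R)}.Finite then h.toFinset else ∅

theorem Cx.mem_nb {R : Finset V} (hR : X.cell R) {ρ : V} :
    ρ ∈ nb X.cell R ↔ ρ ∉ R ∧ X.cell (insert ρ R) := by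
  rw [nb, dif_pos (X.fin R hR)]
  simp

theorem Cx.ct_cons {m : ℕ} {t : Fin m → V} (h : X.ct t) {ρ : V} :
    X.ct (Fin.cons ρ t : Fin (m + 1) → V) ↔ ρ ∈ nb X.cell (im t) := by
  rw [X.mem_nb h.2, Cx.ct, im_cons, Fin.cons_injective_iff, Set.mem_range]
  simp only [h.1, and_true, mem_im]

variable {W : Type} [AddCommGroup W]

/-- Alternating functions supported on the cells. -/
def Cx.Alt {m : ℕ} (φ : (Fin m → V) → W) : Prop :=
  (∀ t, φ t ≠ 0 → X.ct t) ∧ ∀ (t : Fin m → V) (π : Perm (Fin m)),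
    φ (t ∘ π) = (Perm.sign π : ℤ) • φ t

open Classical in
/-- The differential. -/
noncomputable def Cx.d {m : ℕ} (φ : (Fin (m + 1) → V) → W) (t : Fin m → V) : W :=
  if X.ct t then ∑ ρ ∈ nb X.cell (im t), φ (Fin.cons ρ t) else 0

variable {X}

theorem Cx.Alt.add {m : ℕ} {φ ψ : (Fin m → V) → W} (h : X.Alt φ) (h' : X.Alt ψ) :
    X.Alt (φ + ψ) := by
  refine ⟨fun t ht => ?_, fun t π => ?_⟩
  · by_contra hc
    apply ht
    have h1 : φ t = 0 := by
      by_contra h2; exact hc (h.1 t h2)
    have h3 : ψ t = 0 := by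
      by_contra h2; exact hc (h'.1 t h2)
    simp [h1, h3]
  · simp [h.2, h'.2]

theorem Cx.Alt.neg {m : ℕ} {φ : (Fin m → V) → W} (h : X.Alt φ) : X.Alt (-φ) := by
  refine ⟨fun t ht => h.1 t (by simpa using ht), fun t π => ?_⟩
  simp [h.2]

theorem Cx.Alt.zero {m : ℕ} : X.Alt (0 : (Fin m → V) → W) :=
  ⟨fun t ht => by simp at ht, fun t π => by simp⟩

theorem Cx.d_add {m : ℕ} (φ ψ : (Fin (m + 1) → V) → W) : X.d (φ + ψ) = X.d φ + X.d ψ := by
  funext t
  simp only [Cx.d, Pi.add_apply]
  split_ifs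
  · exact Finset.sum_add_distrib
  · simp

theorem Cx.d_neg {m : ℕ} (φ : (Fin (m + 1) → V) → W) : X.d (-φ) = - X.d φ := by
  funext t
  simp only [Cx.d, Pi.neg_apply]
  split_ifs
  · simp
  · simp

theorem Cx.Alt.d {m : ℕ} {φ : (Fin (m + 1) → V) → W} (h : X.Alt φ) : X.Alt (X.d φ) := by
  classical
  refine ⟨fun t ht => ?_, fun t π => ?_⟩
  · by_contra hc
    apply ht
    simp [Cx.d, hc]
  · simp only [Cx.d, X.ct_perm, im_perm]
    split_ifs
    · rw [Finset.smul_sum]
      refine Finset.sum_congr rfl fun ρ _ => ?_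
      rw [cons_perm, h.2, sign_up]
    · simp

theorem Cx.Alt.swap {m : ℕ} {φ : (Fin (m + 2) → V) → W} (h : X.Alt φ) (ρ ρ' : V)
    (t : Fin m → V) : φ (Fin.cons ρ' (Fin.cons ρ t : Fin (m + 1) → V)) =
      - φ (Fin.cons ρ (Fin.cons ρ' t : Fin (m + 1) → V)) := by
  have h1 := h.2 (Fin.cons ρ (Fin.cons ρ' t : Fin (m + 1) → V)) (Equiv.swap 0 1)
  rw [Perm.sign_swap (by simp)] at h1
  simp only [Units.val_neg, Units.val_one, neg_smul, one_smul] at h1
  rw [← h1]
  congr 1
  funext i
  refine Fin.cases ?_ (fun i => ?_) i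
  · simp [Function.comp]
  · refine Fin.cases ?_ (fun i => ?_) i
    · have : (Fin.succ (0 : Fin (m + 1)) : Fin (m + 2)) = 1 := rfl
      simp [Function.comp, this]
    · have h2 : Equiv.swap (0 : Fin (m + 2)) 1 i.succ.succ = i.succ.succ := by
        apply Equiv.swap_apply_of_ne_of_ne
        · exact Fin.succ_ne_zero _
        · intro h3
          have := congrArg Fin.val h3
          simp at this
      simp [Function.comp, h2]

theorem Cx.d_d {m : ℕ} {φ : (Fin (m + 2) → V) → W} (h : X.Alt φ) : X.d (X.d φ) = 0 := by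
  classical
  funext t
  simp only [Pi.zero_apply]
  by_cases ht : X.ct t
  swap
  · simp [Cx.d, ht]
  rw [Cx.d, if_pos ht]
  have h1 : ∀ ρ ∈ nb X.cell (im t), X.d φ (Fin.cons ρ t : Fin (m + 1) → V) =
      ∑ ρ' ∈ nb X.cell (insert ρ (im t)), φ (Fin.cons ρ' (Fin.cons ρ t : Fin (m + 1) → V)) := by
    intro ρ hρ
    rw [Cx.d, if_pos ((X.ct_cons ht).2 hρ), im_cons]
  rw [Finset.sum_congr rfl h1, Finset.sum_sigma']
  refine Finset.sum_involution (fun a _ => ⟨a.2, a.1⟩) ?_ ?_ ?_ ?_
  · rintro ⟨ρ, ρ'⟩ _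
    simp only
    rw [h.swap ρ ρ' t, neg_add_cancel]
  · rintro ⟨ρ, ρ'⟩ ha _ h3
    simp only [Finset.mem_sigma] at ha
    simp only [Sigma.mk.injEq] at h3
    have h4 := (X.mem_nb ht.2).1 ha.1
    have h5 := (X.mem_nb h4.2).1 ha.2
    exact h5.1 (by rw [h3.1]; exact Finset.mem_insert_self _ _)
  · rintro ⟨ρ, ρ'⟩ ha
    simp only [Finset.mem_sigma] at ha ⊢
    have h4 := (X.mem_nb ht.2).1 ha.1
    have h5 := (X.mem_nb h4.2).1 ha.2
    have h6 : X.cell (insert ρ' (im t)) := by
      refine X.between _ _ _ ht.2 (Finset.subset_insert _ _) ?_ h5.2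
      intro x hx
      simp only [Finset.mem_insert] at hx ⊢
      tauto
    have h7 : ρ' ∉ im t := fun h8 => h5.1 (Finset.mem_insert_of_mem h8)
    refine ⟨(X.mem_nb ht.2).2 ⟨h7, h6⟩, (X.mem_nb h6).2 ⟨?_, ?_⟩⟩
    · intro h8
      rw [Finset.mem_insert] at h8
      rcases h8 with h8 | h8
      · exact h5.1 (by rw [h8]; exact Finset.mem_insert_self _ _)
      · exact h4.1 h8
    · rw [Finset.insert_comm]
      exact h5.2
  · rintro ⟨ρ, ρ'⟩ _
    rfl

/-- The normalised functions. -/
def Cx.Norm (X : Cx V) {m : ℕ} (ψ : (Fin m → V) → W) : Prop :=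
  ∀ t, ψ t ≠ 0 → X.top (im t) ≠ X.base ∧ X.s (X.top (im t)) ∈ im t

omit [DecidableEq V] in
theorem swap_split {m : ℕ} (t : Fin (m + 1) → V) (i : Fin (m + 1)) :
    t ∘ Equiv.swap 0 i = (Fin.cons (t i) (Fin.tail (t ∘ Equiv.swap 0 i)) : Fin (m + 1) → V) := by
  conv_lhs => rw [← Fin.cons_self_tail (t ∘ Equiv.swap 0 i)]
  simp [Function.comp]

theorem im_tail {m : ℕ} {t : Fin (m + 1) → V} (ht : Function.Injective t) (i : Fin (m + 1)) :
    im (Fin.tail (t ∘ Equiv.swap 0 i)) = (im t).erase (t i) := by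
  have h1 : im t = insert (t i) (im (Fin.tail (t ∘ Equiv.swap 0 i))) := by
    rw [← im_cons, ← swap_split, im_perm]
  have h2 : Function.Injective (t ∘ Equiv.swap 0 i) := (inj_perm _).2 ht
  have h3 : t i ∉ im (Fin.tail (t ∘ Equiv.swap 0 i)) := by
    rw [swap_split, Fin.cons_injective_iff] at h2
    intro h4
    rw [mem_im] at h4
    obtain ⟨j, hj⟩ := h4
    exact h2.1 ⟨j, hj⟩
  rw [h1, Finset.erase_insert h3]

/-- Uniqueness. -/
theorem Cx.uniq {m : ℕ} {θ : (Fin (m + 1) → V) → W} (hθ : X.Alt θ)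
    (h0 : ∀ t, im t = X.base → θ t = 0)
    (h1 : ∀ t, X.ct t → X.top (im t) ≠ X.base → X.s (X.top (im t)) ∉ im t → θ t = 0)
    (h2 : ∀ t, X.ct t → X.top (im t) ≠ X.base → X.s (X.top (im t)) ∉ im t → X.d θ t = 0) :
    θ = 0 := by
  classical
  have key : ∀ n : ℕ, ∀ t, X.rk (X.top (im t)) = n → θ t = 0 := by
    intro n
    induction n using Nat.strong_induction_on with
    | _ n IH =>
      intro t hn
      by_contra hne
      have hct := hθ.1 t hne
      have hb : X.top (im t) ≠ X.base := fun h => hne (h0 t ((X.top_base _ hct.2).1 h))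
      have hs : X.s (X.top (im t)) ∈ im t := by
        by_contra hs
        exact hne (h1 t hct hb hs)
      obtain ⟨i, hi⟩ := mem_im.1 hs
      have e1 := im_tail hct.1 i
      rw [hi] at e1
      obtain ⟨e2, e3⟩ := X.erase _ hct.2 hb hs
      set t' := Fin.tail (t ∘ Equiv.swap 0 i) with ht'
      have hct' : X.ct t' := by
        refine ⟨?_, by rw [e1]; exact e2⟩
        have h3 : Function.Injective (t ∘ Equiv.swap 0 i) := (inj_perm _).2 hct.1
        rw [swap_split, Fin.cons_injective_iff] at h3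
        exact h3.2
      have htop : X.top (im t') = X.top (im t) := by rw [e1, e3]
      have hs' : X.s (X.top (im t')) ∉ im t' := by
        rw [htop, e1]
        exact Finset.notMem_erase _ _
      have h3 := h2 t' hct' (by rw [htop]; exact hb) hs'
      rw [Cx.d, if_pos hct'] at h3
      have h4 : X.s (X.top (im t)) ∈ nb X.cell (im t') := by
        rw [← X.ct_cons hct']
        have : (Fin.cons (X.s (X.top (im t))) t' : Fin (m + 1) → V) = t ∘ Equiv.swap 0 i := by
          rw [swap_split, hi]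
        rw [this, X.ct_perm]
        exact hct
      rw [Finset.sum_eq_single (X.s (X.top (im t)))] at h3
      · rw [← hi, ht', ← swap_split, hθ.2] at h3
        rcases Int.units_eq_one_or (Perm.sign (Equiv.swap 0 i)) with h5 | h5
        · rw [h5] at h3; simp at h3; exact hne h3
        · rw [h5] at h3; simp at h3; exact hne h3
      · intro ρ hρ hne'
        have h5 := (X.ct_cons hct').2 hρ
        have h6 := (X.mem_nb hct'.2).1 hρ
        rcases X.lower _ ρ hct'.2 h6.1 h6.2 with h7 | h7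
        · apply h1 _ h5
          · rw [im_cons, h7, htop]; exact hb
          · rw [im_cons, h7, htop, Finset.mem_insert]
            rintro (h8 | h8)
            · exact hne' h8.symm
            · rw [htop] at hs'; exact hs' h8
        · apply IH _ _ _ rfl
          rw [im_cons, ← hn, ← htop]
          exact h7
      · intro h5
        exact absurd h4 h5
  funext t
  exact key _ t rfl

end complex

end Pool.Agent.CG3.Sel
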