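import Pool.Agent.CG3.SelE

/-!
Exactness of the complex of alternating functions.
-/

set_option autoImplicit false

namespace Pool.Agent.CG3.Sel

open Equiv

variable {V : Type} [DecidableEq V] {X : Cx V} {W : Type} [AddCommGroup W]

open Classical in
/-- Extension of a function on smaller tuples by the marked element, on the tops of rank `n`. -/
noncomputable def Cx.ext (X : Cx V) (n : ℕ) {m : ℕ} (g : (Fin m → V) → W) (t : Fin (m + 1) → V) :
    W :=
  if X.ct t ∧ X.top (im t) ≠ X.base ∧ X.rk (X.top (im t)) = n then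
    ∑ i : Fin (m + 1), if t i = X.s (X.top (im t)) then
      (Perm.sign (Equiv.swap 0 i) : ℤ) • g (Fin.tail (t ∘ Equiv.swap 0 i)) else 0 else 0

theorem Cx.ext_ne {n m : ℕ} {g : (Fin m → V) → W} {t : Fin (m + 1) → V} (h : X.ext n g t ≠ 0) :
    X.ct t ∧ X.top (im t) ≠ X.base ∧ X.rk (X.top (im t)) = n ∧ X.s (X.top (im t)) ∈ im t := by
  by_cases h1 : X.ct t ∧ X.top (im t) ≠ X.base ∧ X.rk (X.top (im t)) = n
  · refine ⟨h1.1, h1.2.1, h1.2.2, ?_⟩
    by_contra h2
    apply h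
    rw [Cx.ext, if_pos h1]
    apply Finset.sum_eq_zero
    intro i _
    rw [if_neg]
    intro h3
    exact h2 (mem_im.2 ⟨i, h3⟩)
  · exact absurd (by rw [Cx.ext, if_neg h1]) h

theorem Cx.ext_eq {n m : ℕ} (g : (Fin m → V) → W) {t : Fin (m + 1) → V} (h : X.ct t)
    (hb : X.top (im t) ≠ X.base) (hn : X.rk (X.top (im t)) = n) (i : Fin (m + 1))
    (hi : t i = X.s (X.top (im t))) :
    X.ext n g t = (Perm.sign (Equiv.swap 0 i) : ℤ) • g (Fin.tail (t ∘ Equiv.swap 0 i)) := by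
  rw [Cx.ext, if_pos ⟨h, hb, hn⟩, Finset.sum_eq_single i]
  · rw [if_pos hi]
  · intro j _ hj
    rw [if_neg]
    intro h2
    exact hj (h.1 (h2.trans hi.symm))
  · intro h2
    exact absurd (Finset.mem_univ i) h2

theorem Cx.Alt.ext (X : Cx V) (n : ℕ) {m : ℕ} {g : (Fin m → V) → W} (hg : X.Alt g) :
    X.Alt (X.ext n g) := by
  refine ⟨fun t ht => (Cx.ext_ne ht).1, fun t κ => ?_⟩
  by_cases h : X.ct t ∧ X.top (im t) ≠ X.base ∧ X.rk (X.top (im t)) = n ∧
      X.s (X.top (im t)) ∈ im t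
  swap
  · have h1 : X.ext n g t = 0 := by
      by_contra h2
      exact h (Cx.ext_ne h2)
    have h3 : X.ext n g (t ∘ κ) = 0 := by
      by_contra h2
      have := Cx.ext_ne h2
      rw [X.ct_perm, im_perm] at this
      exact h this
    rw [h1, h3, smul_zero]
  obtain ⟨hct, hb, hn, hs⟩ := h
  obtain ⟨i, hi⟩ := mem_im.1 hs
  rw [Cx.ext_eq g hct hb hn i hi,
    Cx.ext_eq (t := t ∘ κ) g ((X.ct_perm κ).2 hct) (by rwa [im_perm]) (by rwa [im_perm])
      (κ.symm i) (by rw [im_perm]; simpa using hi)]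
  set σ : Perm (Fin (m + 1)) := Equiv.swap 0 i * κ * Equiv.swap 0 (κ.symm i) with hσ
  have h0 : σ 0 = 0 := by
    simp [hσ]
  obtain ⟨π, hπ⟩ := exists_down σ h0
  have h1 : (t ∘ κ) ∘ Equiv.swap 0 (κ.symm i) = (t ∘ Equiv.swap 0 i) ∘ σ := by
    funext j
    simp [hσ]
  have h2 : Fin.tail ((t ∘ κ) ∘ Equiv.swap 0 (κ.symm i)) = Fin.tail (t ∘ Equiv.swap 0 i) ∘ π := by
    rw [h1, hπ]
    funext j
    simp only [Fin.tail, Function.comp]
    rw [up_succ]
  rw [h2, hg.2, ← sign_up π, ← hπ, hσ]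
  simp only [map_mul, Units.val_mul, smul_smul]
  congr 1
  have h3 : ((Perm.sign (Equiv.swap 0 (κ.symm i)) : ℤˣ) : ℤ) *
      ((Perm.sign (Equiv.swap 0 (κ.symm i)) : ℤˣ) : ℤ) = 1 := by
    rw [← Units.val_mul, Int.units_mul_self, Units.val_one]
  linear_combination (((Perm.sign (Equiv.swap 0 i) : ℤˣ) : ℤ) * ((Perm.sign κ : ℤˣ) : ℤ)) * h3

/-- The successive approximations. -/
noncomputable def Cx.S (X : Cx V) {m : ℕ} (φ : (Fin m → V) → W) : ℕ → (Fin (m + 1) → V) → W
  | 0 => 0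
  | n + 1 => X.S φ n + X.ext n (φ + - X.d (X.S φ n))

theorem Cx.S_alt {m : ℕ} {φ : (Fin m → V) → W} (h : X.Alt φ) (n : ℕ) : X.Alt (X.S φ n) := by
  induction n with
  | zero => exact Cx.Alt.zero
  | succ n ih => exact ih.add (Cx.Alt.ext X n (h.add ih.d.neg))

theorem Cx.S_stable {m : ℕ} (φ : (Fin m → V) → W) (t : Fin (m + 1) → V) (k : ℕ)
    (hk : X.rk (X.top (im t)) + 1 ≤ k) : X.S φ k t = X.S φ (X.rk (X.top (im t)) + 1) t := by
  induction k, hk using Nat.le_induction with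
  | base => rfl
  | succ k hk ih =>
    rw [Cx.S, Pi.add_apply, ih, add_eq_left]
    by_contra h
    have := (Cx.ext_ne h).2.2.1
    omega

theorem Cx.S_ne {m : ℕ} (φ : (Fin m → V) → W) (t : Fin (m + 1) → V) (n : ℕ)
    (h : X.S φ n t ≠ 0) : X.top (im t) ≠ X.base ∧ X.s (X.top (im t)) ∈ im t := by
  induction n with
  | zero => simp [Cx.S] at h
  | succ n ih =>
    by_cases h1 : X.S φ n t = 0
    · rw [Cx.S, Pi.add_apply, h1, zero_add] at h
      have := Cx.ext_ne h
      exact ⟨this.2.1, this.2.2.2⟩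
    · exact ih h1

/-- Existence of the normalised solution. -/
theorem Cx.exist {m : ℕ} {φ : (Fin m → V) → W} (hφ : X.Alt φ) :
    ∃ ψ : (Fin (m + 1) → V) → W, X.Alt ψ ∧ X.Norm ψ ∧
      ∀ t, X.ct t → X.top (im t) ≠ X.base → X.s (X.top (im t)) ∉ im t → X.d ψ t = φ t := by
  classical
  refine ⟨fun t => X.S φ (X.rk (X.top (im t)) + 1) t, ⟨?_, ?_⟩, ?_, ?_⟩
  · intro t ht
    exact (Cx.S_alt hφ _).1 t ht
  · intro t π
    simp only [im_perm]
    exact (Cx.S_alt hφ _).2 t π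
  · intro t ht
    exact Cx.S_ne φ t _ ht
  · intro t ht hb hs
    set n := X.rk (X.top (im t)) with hn
    have h1 : X.d (fun t => X.S φ (X.rk (X.top (im t)) + 1) t) t = X.d (X.S φ (n + 1)) t := by
      rw [Cx.d, if_pos ht, Cx.d, if_pos ht]
      refine Finset.sum_congr rfl fun ρ hρ => ?_
      symm
      apply Cx.S_stable
      have h6 := (X.mem_nb ht.2).1 hρ
      rw [im_cons]
      rcases X.lower _ ρ ht.2 h6.1 h6.2 with h7 | h7
      · rw [h7]
      · omega
    rw [h1, Cx.S, Cx.d_add, Pi.add_apply]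
    have h2 : X.d (X.ext n (φ + - X.d (X.S φ n))) t = (φ + - X.d (X.S φ n)) t := by
      have h4 := X.ins _ ht.2 hb hs
      have h5 : X.s (X.top (im t)) ∈ nb X.cell (im t) := (X.mem_nb ht.2).2 ⟨hs, h4.1⟩
      rw [Cx.d, if_pos ht, Finset.sum_eq_single (X.s (X.top (im t)))]
      · rw [Cx.ext_eq _ ((X.ct_cons ht).2 h5) (by rw [im_cons, h4.2]; exact hb)
          (by rw [im_cons, h4.2]) 0 (by rw [im_cons, h4.2]; rfl)]
        simp
      · intro ρ hρ hne
        have h6 := (X.mem_nb ht.2).1 hρ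
        by_contra h7
        have h8 := Cx.ext_ne h7
        rw [im_cons] at h8
        rcases X.lower _ ρ ht.2 h6.1 h6.2 with h9 | h9
        · rw [h9, Finset.mem_insert] at h8
          rcases h8.2.2.2 with h10 | h10
          · exact hne h10.symm
          · exact hs h10
        · omega
      · intro h6
        exact absurd h5 h6
    rw [h2]
    simp

/-- Exactness with a normalised solution. -/
theorem Cx.exact {m : ℕ} {φ : (Fin (m + 1) → V) → W} (hφ : X.Alt φ) (hd : X.d φ = 0)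
    (hbase : X.base.card ≠ m + 1) :
    ∃ ψ : (Fin (m + 1 + 1) → V) → W, X.Alt ψ ∧ X.Norm ψ ∧ X.d ψ = φ := by
  obtain ⟨ψ, h1, h2, h3⟩ := Cx.exist hφ
  refine ⟨ψ, h1, h2, ?_⟩
  have h4 : X.d ψ + -φ = 0 := by
    apply Cx.uniq (h1.d.add hφ.neg)
    · intro t ht
      by_contra hne
      have h5 := (h1.d.add hφ.neg).1 t hne
      have h6 := card_im h5.1
      rw [ht] at h6
      exact hbase h6
    · intro t ht hb hs
      rw [Pi.add_apply, h3 t ht hb hs, Pi.neg_apply, add_neg_cancel]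
    · intro t _ _ _
      rw [Cx.d_add, Cx.d_neg, Cx.d_d h1, hd]
      simp
  rw [← sub_eq_add_neg, sub_eq_zero] at h4
  exact h4

/-- The normalised solution is unique. -/
theorem Cx.norm_uniq {m : ℕ} {ψ ψ' : (Fin (m + 1) → V) → W} (h : X.Alt ψ) (h' : X.Alt ψ')
    (hn : X.Norm ψ) (hn' : X.Norm ψ') (hd : X.d ψ = X.d ψ') : ψ = ψ' := by
  have h4 : ψ + -ψ' = 0 := by
    apply Cx.uniq (h.add h'.neg)
    · intro t ht
      have key : ∀ {χ : (Fin (m + 1) → V) → W}, X.Alt χ → X.Norm χ → χ t = 0 := by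
        intro χ h1 h2
        by_contra hne
        exact (h2 t hne).1 ((X.top_base _ (h1.1 t hne).2).2 ht)
      simp [key h hn, key h' hn']
    · intro t ht hb hs
      have e1 : ψ t = 0 := by
        by_contra hne
        exact hs (hn t hne).2
      have e2 : ψ' t = 0 := by
        by_contra hne
        exact hs (hn' t hne).2
      simp [e1, e2]
    · intro t _ _ _
      rw [Cx.d_add, Cx.d_neg, hd, add_neg_cancel]
      rfl
  rw [← sub_eq_add_neg, sub_eq_zero] at h4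
  exact h4

end Pool.Agent.CG3.Sel
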