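import Pool.Agent.CG3.SelD
import Pool.Agent.CG3.SelF

/-!
Selling reduction, part G: the complex of the spanning subsets of the frames.
-/

set_option autoImplicit false

namespace Pool.Agent.CG3.Sel

open Matrix

/-- The cells of the standard lattice. -/
def cell0 (R : Finset V) : Prop := (∃ g, R ⊆ fr g) ∧ Spn R

theorem cell0.exists_top {R : Finset V} (h : cell0 R) : ∃ g, Top R g := by
  obtain ⟨⟨g, hg⟩, hs⟩ := h
  exact Sel.exists_top hs hg

theorem Top.cell0 {R : Finset V} {g : GL (Fin 3) ℤ} (h : Top R g) : cell0 R :=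
  ⟨⟨g, h.1⟩, spn_of_neg g R h.2⟩

theorem co_congr {g g' : GL (Fin 3) ℤ} (h : fr g = fr g') {s s' : Fin 6}
    (hs : io g • E s = io g' • E s') : co g s = co g' s' := by
  have h1 := (cg_lin g' s').ev_expand g
  rw [Finset.sum_eq_single s] at h1
  · rw [hs, cg_E] at h1
    simp at h1
    exact h1.symm
  · intro u _ hu
    obtain ⟨u', hu'⟩ := mem_fr.1 (h ▸ mem_fr_self g u)
    rw [← hu', cg_E, if_neg]
    · simp
    · rintro rfl
      exact hu (smulE_inj g (hu'.symm.trans hs.symm))
  · intro h2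
    exact absurd (Finset.mem_univ s) h2

theorem Top.congr {R : Finset V} {g g' : GL (Fin 3) ℤ} (h : Top R g) (hf : fr g = fr g') :
    Top R g' := by
  refine ⟨hf ▸ h.1, ?_⟩
  intro s' hs'
  obtain ⟨s, hs⟩ := mem_fr.1 (hf.symm ▸ mem_fr_self g' s')
  rw [← co_congr hf hs]
  exact h.2 s (by rw [hs]; exact hs')

open Classical in
/-- The top of a cell. -/
noncomputable def tp (R : Finset V) : Finset V := if h : ∃ g, Top R g then fr h.choose else ∅

theorem tp_eq {R : Finset V} {g : GL (Fin 3) ℤ} (h : Top R g) : tp R = fr g := by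
  have h1 : ∃ g, Top R g := ⟨g, h⟩
  rw [tp, dif_pos h1]
  exact h.unique h1.choose_spec

open Classical in
/-- The marked ray of a frame. -/
noncomputable def mk (τ : Finset V) : V :=
  if h : ∃ a : GL (Fin 3) ℤ × Fin 6, fr a.1 = τ ∧ co a.1 a.2 < 0 then
    io h.choose.1 • E h.choose.2 else B 0

open Classical in
/-- The rank of a frame. -/
noncomputable def rnk (τ : Finset V) : ℕ :=
  if h : ∃ g, fr g = τ then {g | en g ≤ en h.choose}.ncard else 0

theorem rnk_eq (g : GL (Fin 3) ℤ) : rnk (fr g) = {g' | en g' ≤ en g}.ncard := by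
  have h : ∃ g', fr g' = fr g := ⟨g, rfl⟩
  rw [rnk, dif_pos h, en_congr h.choose_spec]

theorem rnk_lt {g g' : GL (Fin 3) ℤ} (h : en g' < en g) : rnk (fr g') < rnk (fr g) := by
  rw [rnk_eq, rnk_eq]
  apply Set.ncard_lt_ncard
  · refine ⟨fun x (hx : en x ≤ en g') => (hx.trans h.le : en x ≤ en g), fun h2 => ?_⟩
    have h3 : en g ≤ en g' := h2 (show en g ≤ en g from le_refl _)
    linarith
  · exact finite_en _

/-- The minimal frame. -/
noncomputable def g0 : GL (Fin 3) ℤ := exists_base.choose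

theorem g0_min (g : GL (Fin 3) ℤ) : en g0 ≤ en g := exists_base.choose_spec.1 g

theorem g0_pos (s : Fin 6) : 0 < co g0 s := exists_base.choose_spec.2 s

theorem mk_spec {g : GL (Fin 3) ℤ} (h : fr g ≠ fr g0) :
    ∃ (g' : GL (Fin 3) ℤ) (s : Fin 6), fr g' = fr g ∧ co g' s < 0 ∧ mk (fr g) = io g' • E s := by
  have h1 : ∃ a : GL (Fin 3) ℤ × Fin 6, fr a.1 = fr g ∧ co a.1 a.2 < 0 := by
    by_contra h2
    push Not at h2
    apply h
    refine base_unique (fun s => ?_) (g0_min g)
    exact lt_of_le_of_ne (h2 (g, s) rfl) (co_ne g s).symm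
  refine ⟨h1.choose.1, h1.choose.2, h1.choose_spec.1, h1.choose_spec.2, ?_⟩
  rw [mk, dif_pos h1]

/-- The complex of the standard lattice. -/
noncomputable def std : Cx V where
  cell := cell0
  top := tp
  s := mk
  rk := rnk
  base := fr g0
  between := by
    rintro R R' R'' ⟨-, h1⟩ h2 h3 ⟨⟨g, h4⟩, -⟩
    exact ⟨⟨g, h3.trans h4⟩, h1.mono h2⟩
  fin := by
    intro R hR
    refine ((finite_star hR.2).biUnion fun g _ => (fr g).finite_toSet).subset ?_
    rintro ρ ⟨-, ⟨g, hg⟩, -⟩
    rw [Set.mem_iUnion₂]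
    exact ⟨g, (Finset.subset_insert _ _).trans hg, hg (Finset.mem_insert_self _ _)⟩
  top_base := by
    intro R hR
    constructor
    · intro h
      obtain ⟨g, hg⟩ := hR.exists_top
      rw [tp_eq hg] at h
      have h1 := hg.congr h
      apply Finset.Subset.antisymm h1.1
      intro M hM
      obtain ⟨s, rfl⟩ := mem_fr.1 hM
      by_contra h2
      exact absurd (h1.2 s h2) (not_lt.2 (g0_pos s).le)
    · rintro rfl
      exact tp_eq ⟨Finset.Subset.refl _, fun s hs => absurd (mem_fr_self g0 s) hs⟩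
  erase := by
    intro R hR hb hs
    obtain ⟨g, hg⟩ := hR.exists_top
    rw [tp_eq hg] at hb hs ⊢
    obtain ⟨g', s, h1, h2, h3⟩ := mk_spec hb
    have h4 := hg.congr h1.symm
    have h5 : Top (R.erase (mk (fr g))) g' := by
      refine ⟨(Finset.erase_subset _ _).trans h4.1, ?_⟩
      intro u hu
      by_cases hus : u = s
      · rw [hus]; exact h2
      · apply h4.2
        intro h6
        apply hu
        rw [Finset.mem_erase]
        refine ⟨?_, h6⟩
        rw [h3]
        intro h7
        exact hus (smulE_inj g' h7)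
    exact ⟨h5.cell0, (tp_eq h5).trans h1⟩
  ins := by
    intro R hR hb hs
    obtain ⟨g, hg⟩ := hR.exists_top
    rw [tp_eq hg] at hb hs ⊢
    obtain ⟨g', s, h1, h2, h3⟩ := mk_spec hb
    have h5 : Top (insert (mk (fr g)) R) g := by
      refine hg.of_between (Finset.subset_insert _ _) ?_
      intro x hx
      rw [Finset.mem_insert] at hx
      rcases hx with hx | hx
      · rw [hx, h3, ← h1]
        exact mem_fr_self g' s
      · exact hg.1 hx
    exact ⟨h5.cell0, tp_eq h5⟩
  lower := by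
    intro R ρ hR _ hρ
    obtain ⟨g, hg⟩ := hR.exists_top
    obtain ⟨g', hg'⟩ := hρ.exists_top
    rw [tp_eq hg, tp_eq hg']
    have h1 := hg.le ((Finset.subset_insert _ _).trans hg'.1)
    rcases h1.1.lt_or_eq with h2 | h2
    · right; exact rnk_lt h2
    · left; exact h1.2 h2

end Pool.Agent.CG3.Sel
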