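import Pool.Agent.CG3.SelF

/-!
Transport of a complex along a bijection.
-/

set_option autoImplicit false

namespace Pool.Agent.CG3.Sel

variable {V : Type} [DecidableEq V]

/-- The image of a finite set under a bijection. -/
def mp (e : V ≃ V) (R : Finset V) : Finset V := R.map e.toEmbedding

omit [DecidableEq V] in
theorem mem_mp {e : V ≃ V} {R : Finset V} {x : V} : x ∈ mp e R ↔ e.symm x ∈ R := by
  simp only [mp, Finset.mem_map_equiv]

omit [DecidableEq V] in
theorem mp_symm_mp (e : V ≃ V) (R : Finset V) : mp e.symm (mp e R) = R := by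
  ext x; simp [mem_mp]

omit [DecidableEq V] in
theorem mp_mp_symm (e : V ≃ V) (R : Finset V) : mp e (mp e.symm R) = R := by
  ext x; simp [mem_mp]

theorem mp_insert (e : V ≃ V) (R : Finset V) (x : V) :
    mp e (insert x R) = insert (e x) (mp e R) := by
  ext y; simp [mem_mp, Equiv.symm_apply_eq]

theorem mp_erase (e : V ≃ V) (R : Finset V) (x : V) :
    mp e (R.erase x) = (mp e R).erase (e x) := by
  ext y; simp [mem_mp, Equiv.symm_apply_eq]

omit [DecidableEq V] in
theorem mp_subset {e : V ≃ V} {R R' : Finset V} (h : R ⊆ R') : mp e R ⊆ mp e R' := by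
  intro x hx
  rw [mem_mp] at hx ⊢
  exact h hx

omit [DecidableEq V] in
theorem mp_inj {e : V ≃ V} {R R' : Finset V} : mp e R = mp e R' ↔ R = R' := by
  constructor
  · intro h
    rw [← mp_symm_mp e R, h, mp_symm_mp]
  · rintro rfl; rfl

omit [DecidableEq V] in
theorem card_mp (e : V ≃ V) (R : Finset V) : (mp e R).card = R.card := Finset.card_map _

/-- Transport of a complex. -/
def Cx.tr (X : Cx V) (e : V ≃ V) : Cx V where
  cell R := X.cell (mp e.symm R)
  top R := mp e (X.top (mp e.symm R))
  s τ := e (X.s (mp e.symm τ))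
  rk τ := X.rk (mp e.symm τ)
  base := mp e X.base
  between R R' R'' h h1 h2 h3 := X.between _ _ _ h (mp_subset h1) (mp_subset h2) h3
  fin R hR := by
    refine ((X.fin _ hR).image e).subset ?_
    rintro ρ ⟨h1, h2⟩
    refine ⟨e.symm ρ, ⟨?_, ?_⟩, by simp⟩
    · rw [mem_mp]; simpa using h1
    · rw [← mp_insert]; exact h2
  top_base R hR := by
    rw [mp_inj, X.top_base _ hR]
    constructor
    · intro h
      rw [← mp_mp_symm e R, h]
    · rintro rfl
      exact mp_symm_mp e _
  erase R hR hb hs := by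
    rw [mp_symm_mp] at hs ⊢
    rw [mp_erase, Equiv.symm_apply_apply]
    have h1 : X.top (mp e.symm R) ≠ X.base := fun h => hb (by rw [h])
    have h2 := X.erase _ hR h1 (by rw [mem_mp]; simpa using hs)
    exact ⟨h2.1, by rw [h2.2]⟩
  ins R hR hb hs := by
    rw [mp_symm_mp] at hs ⊢
    rw [mp_insert, Equiv.symm_apply_apply]
    have h1 : X.top (mp e.symm R) ≠ X.base := fun h => hb (by rw [h])
    have h2 := X.ins _ hR h1 (by rw [mem_mp]; simpa using hs)
    exact ⟨h2.1, by rw [h2.2]⟩
  lower R ρ hR hρ hc := by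
    rw [mp_insert] at hc ⊢
    rw [mp_symm_mp, mp_symm_mp, mp_inj]
    exact X.lower _ _ hR (by rw [mem_mp]; simpa using hρ) hc

end Pool.Agent.CG3.Sel
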