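import Pool.Agent.CG3.SelG
import Pool.Agent.CG3.SelI

/-!
Selling reduction, part O: the invariant orientation of the frames.
-/

set_option autoImplicit false

namespace Pool.Agent.CG3.Sel

open Matrix

/-- The entries of a symmetric matrix. -/
def ent : V → Fin 6 → ℚ := fun M => ![M.mat 0 0, M.mat 1 1, M.mat 2 2, M.mat 0 1, M.mat 0 2,
  M.mat 1 2]

/-- The basis of the symmetric matrices dual to the entries. -/
def Fe : Fin 6 → Matrix (Fin 3) (Fin 3) ℚ :=
  ![!![1, 0, 0; 0, 0, 0; 0, 0, 0], !![0, 0, 0; 0, 1, 0; 0, 0, 0], !![0, 0, 0; 0, 0, 0; 0, 0, 1],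
    !![0, 1, 0; 1, 0, 0; 0, 0, 0], !![0, 0, 1; 0, 0, 0; 1, 0, 0], !![0, 0, 0; 0, 0, 1; 0, 1, 0]]

/-- The basis of the symmetric matrices dual to the entries. -/
def Fv (s : Fin 6) : V := Fe s

theorem Fv_mat (s : Fin 6) : (Fv s).mat = Fe s := rfl

theorem Fv_sy (i : Fin 6) : Sy (Fv i) := by
  unfold Sy
  rw [Fv_mat]
  fin_cases i <;> ext a b <;> fin_cases a <;> fin_cases b <;> simp [Fe]

theorem ent_lin (j : Fin 6) : LinF fun M => ent M j := by
  intro a N M hM
  have h := entry_lin hM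
  fin_cases j <;> simp [ent, h]

theorem ent_expand {M : V} (hM : Sy M) : M.mat = ∑ s, ent M s • (Fv s).mat := by
  have h1 : M.mat 1 0 = M.mat 0 1 := by
    have := congrFun (congrFun hM 0) 1
    simpa using this
  have h2 : M.mat 2 0 = M.mat 0 2 := by
    have := congrFun (congrFun hM 0) 2
    simpa using this
  have h3 : M.mat 2 1 = M.mat 1 2 := by
    have := congrFun (congrFun hM 1) 2
    simpa using this
  ext i j
  simp only [Matrix.sum_apply, Matrix.smul_apply, Fin.sum_univ_succ, Fin.sum_univ_zero,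
    smul_eq_mul, Fv_mat, Fe, ent]
  fin_cases i <;> fin_cases j <;> simp [h1, h2, h3]

theorem ent_Fv (s j : Fin 6) : ent (Fv s) j = if s = j then 1 else 0 := by
  fin_cases s <;> fin_cases j <;> simp [ent, Fv_mat, Fe]

/-- The matrix of the action on symmetric matrices. -/
noncomputable def Ch (h : GL3Q) : Matrix (Fin 6) (Fin 6) ℚ := Matrix.of fun s j => ent (h • Fv s) j

theorem ent_smul (h : GL3Q) {M : V} (hM : Sy M) (j : Fin 6) :
    ent (h • M) j = ∑ s, ent M s * Ch h s j :=
  ((ent_lin j).smul h) _ _ _ (ent_expand hM)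

theorem Ch_one : Ch 1 = 1 := by
  ext s j
  rw [Ch, Matrix.of_apply, one_smul, ent_Fv, Matrix.one_apply]

theorem Ch_mul (h h' : GL3Q) : Ch (h * h') = Ch h' * Ch h := by
  ext s j
  rw [Matrix.mul_apply]
  conv_lhs => rw [Ch, Matrix.of_apply, mul_smul, ent_smul h ((Fv_sy s).smul h')]
  rfl

theorem det_Ch_mul (h h' : GL3Q) : (Ch (h * h')).det = (Ch h).det * (Ch h').det := by
  rw [Ch_mul, Matrix.det_mul, mul_comm]

theorem det_Ch_ne (h : GL3Q) : (Ch h).det ≠ 0 := by
  intro h0
  have h1 := det_Ch_mul h h⁻¹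
  rw [mul_inv_cancel, Ch_one, Matrix.det_one, h0, zero_mul] at h1
  exact one_ne_zero h1

theorem det_Ch_pos (h : GL3Q) : 0 < (Ch h).det := by
  have key : ∀ A : Matrix (Fin 3) (Fin 3) ℚ, A.det ≠ 0 → ∀ h : GL3Q, h.1 = A → 0 < (Ch h).det := by
    intro A hA
    refine Matrix.diagonal_transvection_induction_of_det_ne_zero
      (fun A => ∀ h : GL3Q, h.1 = A → 0 < (Ch h).det) A hA ?_ ?_ ?_
    · intro D hD h hh
      have e : ∀ s a b, (h • Fv s).mat a b = D a * Fe s a b * D b := by
        intro s a b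
        rw [smul_mat, hh, Fv_mat, Matrix.diagonal_transpose, Matrix.mul_diagonal,
          Matrix.diagonal_mul]
      have h1 : Ch h = Matrix.diagonal ![D 0 ^ 2, D 1 ^ 2, D 2 ^ 2, D 0 * D 1, D 0 * D 2,
          D 1 * D 2] := by
        ext s j
        rw [Ch, Matrix.of_apply]
        fin_cases s <;> fin_cases j <;> simp [ent, e, Fe, sq]
      rw [h1, Matrix.det_diagonal]
      rw [Matrix.det_diagonal, Fin.prod_univ_three] at hD
      simp only [Fin.prod_univ_succ, Fin.prod_univ_zero]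
      simp
      have h2 : D 0 ≠ 0 := by rintro h0; simp [h0] at hD
      have h3 : D 1 ≠ 0 := by rintro h0; simp [h0] at hD
      have h4 : D 2 ≠ 0 := by rintro h0; simp [h0] at hD
      have h5 : D 0 ^ 2 * (D 1 ^ 2 * (D 2 ^ 2 * (D 0 * D 1 * (D 0 * D 2 * (D 1 * D 2))))) =
        ((D 0) ^ 2 * (D 1) ^ 2 * (D 2) ^ 2) ^ 2 := by ring
      rw [h5]
      positivity
    · intro t h hh
      have h1 : (Matrix.transvection t.i t.j (t.c / 2)).det = 1 :=
        Matrix.det_transvection_of_ne _ _ t.hij _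
      set u : GL3Q := Matrix.GeneralLinearGroup.mkOfDetNeZero
        (Matrix.transvection t.i t.j (t.c / 2)) (by rw [h1]; exact one_ne_zero) with hu
      have h2 : h = u * u := by
        apply Units.ext
        rw [Units.val_mul, hh]
        change t.toMatrix = Matrix.transvection t.i t.j (t.c / 2) *
          Matrix.transvection t.i t.j (t.c / 2)
        rw [Matrix.transvection_mul_transvection_same _ _ t.hij, add_halves]
        rfl
      rw [h2, det_Ch_mul]
      exact mul_self_pos.2 (det_Ch_ne u)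
    · intro A B hA hB iA iB h hh
      have h1 : h = Matrix.GeneralLinearGroup.mkOfDetNeZero A hA *
          Matrix.GeneralLinearGroup.mkOfDetNeZero B hB := by
        apply Units.ext
        rw [Units.val_mul, hh]
        rfl
      rw [h1, det_Ch_mul]
      exact mul_pos (iA _ rfl) (iB _ rfl)
  refine key h.1 ?_ h rfl
  have := (h.isUnit.map (Matrix.detMonoidHom (R := ℚ) (n := Fin 3)))
  exact this.ne_zero

/-- The orientation form. -/
noncomputable def Dt (t : Fin 6 → V) : ℚ := Matrix.det (Matrix.of fun i => ent (t i))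

theorem Dt_perm (t : Fin 6 → V) (π : Equiv.Perm (Fin 6)) :
    Dt (t ∘ π) = ((Equiv.Perm.sign π : ℤ) : ℚ) * Dt t := by
  rw [Dt, Dt, ← Matrix.det_permute]
  rfl

theorem Dt_smul (h : GL3Q) {t : Fin 6 → V} (ht : ∀ i, Sy (t i)) :
    Dt (h • t) = (Ch h).det * Dt t := by
  rw [Dt, Dt, mul_comm, ← Matrix.det_mul]
  congr 1
  ext i j
  rw [Matrix.mul_apply]
  exact ent_smul h (ht i) j

/-- The base change from the entries to the coordinates. -/
def Pm : Matrix (Fin 6) (Fin 6) ℚ := !![1, 0, 0, 0, 0, 0; 0, 1, 0, 0, 0, 0;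
      0, 0, 1, 0, 0, 0; 1, 1, 0, -1, 0, 0; 1, 0, 1, 0, -1, 0; 0, 1, 1, 0, 0, -1]

theorem ent_Pm (M : V) (j : Fin 6) : ∑ k, ent M k * Pm k j = c j M := by
  simp only [Fin.sum_univ_succ, Fin.sum_univ_zero, ent, c, Pm]
  fin_cases j <;> simp <;> ring

theorem Dt_E : Dt E ≠ 0 := by
  have h1 : (Matrix.of fun i => ent (E i)) * Pm = 1 := by
    ext i j
    rw [Matrix.mul_apply]
    simp only [Matrix.of_apply]
    rw [ent_Pm, c_E, Matrix.one_apply]
    simp [eq_comm]
  intro h0
  have h2 := congrArg Matrix.det h1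
  rw [Matrix.det_mul, Matrix.det_one] at h2
  rw [Dt] at h0
  rw [h0, zero_mul] at h2
  exact zero_ne_one h2

/-- The value of the form after a flip. -/
theorem Dt_cons (g : GL (Fin 3) ℤ) (s : Fin 6) {t : Fin 5 → V}
    (ht : ∀ u, u ≠ s → io g • E u ∈ im t) {M : V} (hM : Sy M) :
    Dt (Fin.cons M t) = cg g s M * Dt (Fin.cons (io g • E s) t) := by
  set f := (Matrix.detRowAlternating (n := Fin 6) (R := ℚ)) with hf
  have h1 : ∀ N : V, Dt (Fin.cons N t) = f.curryLeft (ent N) (fun i => ent (t i)) := by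
    intro N
    rw [Dt, AlternatingMap.curryLeft_apply_apply]
    change _ = Matrix.det _
    congr 1
    ext i
    refine Fin.cases ?_ (fun i => ?_) i
    · rfl
    · rfl
  have h2 : ent M = ∑ u, cg g u M • ent (io g • E u) := by
    funext j
    rw [Finset.sum_apply]
    exact (ent_lin j).expand g hM
  let Φ : (Fin 6 → ℚ) →ₗ[ℚ] ℚ :=
    { toFun := fun x => f.curryLeft x fun i => ent (t i)
      map_add' := fun a b => by rw [map_add]; rfl
      map_smul' := fun a b => by rw [map_smul]; rfl }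
  have h3 : ∀ N : V, Dt (Fin.cons N t) = Φ (ent N) := h1
  rw [h3, h3, h2, map_sum, Finset.sum_eq_single s]
  · rw [map_smul, smul_eq_mul]
  · intro u _ hu
    obtain ⟨i, hi⟩ := mem_im.1 (ht u hu)
    rw [map_smul]
    have h4 : Φ (ent (io g • E u)) = 0 := by
      change f.curryLeft (ent (io g • E u)) (fun i => ent (t i)) = 0
      rw [AlternatingMap.curryLeft_apply_apply]
      apply AlternatingMap.map_eq_zero_of_eq f _ (i := 0) (j := i.succ)
      · simp [Matrix.vecCons, hi]
      · exact (Fin.succ_ne_zero i).symm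
    rw [h4, smul_zero]
  · intro h
    exact absurd (Finset.mem_univ s) h

end Pool.Agent.CG3.Sel
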