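import Pool.Agent.CG3.SelO

/-!
Alternating functions for a family of cells, transport, and exactness for the lattices.
-/

set_option autoImplicit false

namespace Pool.Agent.CG3.Sel

open Equiv

section general

variable {V : Type} [DecidableEq V] {W : Type} [AddCommGroup W]

/-- Injective tuples whose entries form a cell. -/
def ctc (cell : Finset V → Prop) {m : ℕ} (t : Fin m → V) : Prop :=
  Function.Injective t ∧ cell (im t)

/-- Alternating functions supported on the cells. -/
def Altc (cell : Finset V → Prop) {m : ℕ} (φ : (Fin m → V) → W) : Prop :=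
  (∀ t, φ t ≠ 0 → ctc cell t) ∧ ∀ (t : Fin m → V) (π : Perm (Fin m)),
    φ (t ∘ π) = (Perm.sign π : ℤ) • φ t

open Classical in
/-- The differential. -/
noncomputable def dc (cell : Finset V → Prop) {m : ℕ} (φ : (Fin (m + 1) → V) → W)
    (t : Fin m → V) : W :=
  if ctc cell t then ∑ ρ ∈ nb cell (im t), φ (Fin.cons ρ t) else 0

theorem Cx.alt_iff (X : Cx V) {m : ℕ} (φ : (Fin m → V) → W) : X.Alt φ ↔ Altc X.cell φ := Iff.rfl

theorem Cx.d_eq (X : Cx V) {m : ℕ} (φ : (Fin (m + 1) → V) → W) : X.d φ = dc X.cell φ := rfl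

omit [DecidableEq V] in
theorem comp_inj (e : V ≃ V) {m : ℕ} {t : Fin m → V} :
    Function.Injective (e ∘ t) ↔ Function.Injective t :=
  ⟨fun h => h.of_comp, fun h => e.injective.comp h⟩

theorem im_comp (e : V ≃ V) {m : ℕ} (t : Fin m → V) : im (e ∘ t) = mp e (im t) := by
  ext x
  rw [mem_im, mem_mp, mem_im]
  simp [Equiv.eq_symm_apply]

theorem ctc_comp (cell : Finset V → Prop) (e : V ≃ V) {m : ℕ} {t : Fin m → V} :
    ctc (fun R => cell (mp e.symm R)) (e ∘ t) ↔ ctc cell t := by
  rw [ctc, ctc, comp_inj, im_comp, mp_symm_mp]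

theorem nb_mp (cell : Finset V → Prop) (e : V ≃ V) (R : Finset V) :
    nb (fun R => cell (mp e.symm R)) (mp e R) = mp e (nb cell R) := by
  have h : {ρ | ρ ∉ mp e R ∧ cell (mp e.symm (insert ρ (mp e R)))} =
      e '' {ρ | ρ ∉ R ∧ cell (insert ρ R)} := by
    ext ρ
    simp only [Set.mem_ofPred_eq, Set.mem_image, mem_mp, mp_insert, mp_symm_mp]
    constructor
    · intro h
      exact ⟨e.symm ρ, h, by simp⟩
    · rintro ⟨a, ha, rfl⟩
      simpa using ha
  unfold nb
  by_cases hf : {ρ | ρ ∉ R ∧ cell (insert ρ R)}.Finite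
  · have hf' : {ρ | ρ ∉ mp e R ∧ cell (mp e.symm (insert ρ (mp e R)))}.Finite := by
      rw [h]; exact hf.image e
    rw [dif_pos hf, dif_pos hf']
    ext x
    rw [Set.Finite.mem_toFinset, h, mem_mp, Set.Finite.mem_toFinset]
    simp only [Set.mem_image]
    constructor
    · rintro ⟨a, ha, rfl⟩
      simpa using ha
    · intro hx
      exact ⟨e.symm x, hx, by simp⟩
  · have hf' : ¬ {ρ | ρ ∉ mp e R ∧ cell (mp e.symm (insert ρ (mp e R)))}.Finite := by
      rw [h]
      intro h2
      exact hf (h2.of_finite_image e.injective.injOn)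
    rw [dif_neg hf, dif_neg hf']
    rfl

theorem dc_comp (cell : Finset V → Prop) (e : V ≃ V) {m : ℕ} (φ : (Fin (m + 1) → V) → W)
    (t : Fin m → V) : dc (fun R => cell (mp e.symm R)) φ (e ∘ t) =
      dc cell (fun t' => φ (e ∘ t')) t := by
  classical
  unfold dc
  simp only [ctc_comp]
  split_ifs
  · rw [im_comp, nb_mp, mp, Finset.sum_map]
    refine Finset.sum_congr rfl fun ρ _ => ?_
    congr 1
    funext i
    refine Fin.cases ?_ (fun i => ?_) i
    · rfl
    · rfl
  · rfl

theorem altc_comp (cell : Finset V → Prop) (e : V ≃ V) {m : ℕ} {φ : (Fin m → V) → W}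
    (h : Altc (fun R => cell (mp e.symm R)) φ) : Altc cell fun t => φ (e ∘ t) := by
  refine ⟨fun t ht => ?_, fun t π => ?_⟩
  · exact (ctc_comp cell e).1 (h.1 _ ht)
  · exact h.2 (e ∘ t) π

theorem altc_comp' (cell : Finset V → Prop) (e : V ≃ V) {m : ℕ} {φ : (Fin m → V) → W}
    (h : Altc cell φ) : Altc (fun R => cell (mp e.symm R)) fun t => φ (e.symm ∘ t) := by
  refine ⟨fun t ht => ?_, fun t π => ?_⟩
  · have h1 := h.1 _ ht
    rw [← ctc_comp cell e] at h1
    have h2 : e ∘ e.symm ∘ t = t := by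
      funext i; simp
    rwa [h2] at h1
  · exact h.2 (e.symm ∘ t) π

theorem Altc.add {cell : Finset V → Prop} {m : ℕ} {φ ψ : (Fin m → V) → W} (h : Altc cell φ)
    (h' : Altc cell ψ) : Altc cell (φ + ψ) := by
  refine ⟨fun t ht => ?_, fun t π => ?_⟩
  · by_contra hc
    apply ht
    have h1 : φ t = 0 := by
      by_contra h2; exact hc (h.1 t h2)
    have h3 : ψ t = 0 := by
      by_contra h2; exact hc (h'.1 t h2)
    simp [h1, h3]
  · simp [h.2, h'.2]

theorem Altc.zero {cell : Finset V → Prop} {m : ℕ} : Altc cell (0 : (Fin m → V) → W) :=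
  ⟨fun t ht => by simp at ht, fun t π => by simp⟩

theorem Altc.map {cell : Finset V → Prop} {m : ℕ} {φ : (Fin m → V) → W} (h : Altc cell φ)
    {W' : Type} [AddCommGroup W'] (f : W →+ W') : Altc cell fun t => f (φ t) := by
  refine ⟨fun t ht => ?_, fun t π => ?_⟩
  · apply h.1
    intro h1
    apply ht
    simp [h1]
  · simp only [h.2, map_zsmul]

theorem dc_map (cell : Finset V → Prop) {m : ℕ} (φ : (Fin (m + 1) → V) → W)
    {W' : Type} [AddCommGroup W'] (f : W →+ W') (t : Fin m → V) :
    dc cell (fun t => f (φ t)) t = f (dc cell φ t) := by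
  classical
  unfold dc
  split_ifs
  · rw [map_sum]
  · simp

end general

/-! ### Orientation signs -/

/-- The sign of a tuple. -/
noncomputable def sg (t : Fin 6 → V) : ℤ := (SignType.sign (Dt t) : ℤ)

theorem sg_perm (t : Fin 6 → V) (π : Perm (Fin 6)) : sg (t ∘ π) = (Perm.sign π : ℤ) * sg t := by
  rw [sg, sg, Dt_perm, sign_mul]
  rcases Int.units_eq_one_or (Perm.sign π) with h | h <;> simp [h]

theorem sg_smul (h : GL3Q) {t : Fin 6 → V} (ht : ∀ i, Sy (t i)) : sg (h • t) = sg t := by
  rw [sg, sg, Dt_smul h ht, sign_mul, sign_pos (det_Ch_pos h), one_mul]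

theorem sg_sq {t : Fin 6 → V} (h : Dt t ≠ 0) : sg t * sg t = 1 := by
  rcases lt_or_gt_of_ne h with h | h
  · simp [sg, sign_neg h]
  · simp [sg, sign_pos h]

theorem sy_of_mem {g : GL (Fin 3) ℤ} {M : V} (h : M ∈ fr g) : Sy M := by
  obtain ⟨s, rfl⟩ := mem_fr.1 h
  exact (E_sy s).smul _

theorem Dt_frame {g : GL (Fin 3) ℤ} {t : Fin 6 → V} (hinj : Function.Injective t)
    (him : im t ⊆ fr g) : Dt t ≠ 0 := by
  have h1 : ∀ i, ∃ s, io g • E s = t i := fun i => mem_fr.1 (him (mem_im.2 ⟨i, rfl⟩))
  choose a ha using h1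
  have hainj : Function.Injective a := by
    intro i j hij
    apply hinj
    rw [← ha, ← ha, hij]
  have hab : Function.Bijective a := hainj.bijective_of_finite
  have h2 : t = (io g • E) ∘ Equiv.ofBijective a hab := by
    funext i
    exact (ha i).symm
  rw [h2, Dt_perm, Dt_smul _ E_sy]
  have h3 := (det_Ch_pos (io g)).ne'
  have h4 := Dt_E
  rcases Int.units_eq_one_or (Perm.sign (Equiv.ofBijective a hab)) with h | h <;>
    simp [h, h3, h4]

/-- The sum of the signs of the frames around a face vanishes. -/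
theorem sum_sg {t : Fin 5 → V} (ht : std.ct t) :
    ∑ ρ ∈ nb cell0 (im t), sg (Fin.cons ρ t) = 0 := by
  obtain ⟨hinj, ⟨g, hg⟩, hsp⟩ := ht
  have hcard := card_im hinj
  have hs : ∃ s, io g • E s ∉ im t := by
    by_contra h
    push Not at h
    have : fr g ⊆ im t := by
      intro M hM
      obtain ⟨s, rfl⟩ := mem_fr.1 hM
      exact h s
    have := Finset.card_le_card this
    rw [card_fr] at this
    omega
  obtain ⟨s, hs⟩ := hs
  have hR : im t = (fr g).erase (io g • E s) := by
    apply Finset.eq_of_subset_of_card_le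
    · intro M hM
      rw [Finset.mem_erase]
      exact ⟨fun h => hs (h ▸ hM), hg hM⟩
    · rw [Finset.card_erase_of_mem (mem_fr_self g s), card_fr, hcard]
  have hu : ∀ u, u ≠ s → io g • E u ∈ im t := by
    intro u hu
    rw [hR, Finset.mem_erase]
    exact ⟨fun h => hu (smulE_inj g h), mem_fr_self g u⟩
  have hcell : cell0 (im t) := ⟨⟨g, hg⟩, hsp⟩
  have hE' : io g • E' s ∉ im t := by
    intro h
    have h1 := pg_of_mem g (hg h)
    rw [pg_E'] at h1
    norm_num at h1
  have hne : io g • E s ≠ io g • E' s := by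
    intro h
    have h1 := pg_E' g s
    rw [← h, pg_of_mem g (mem_fr_self g s)] at h1
    norm_num at h1
  have hnb : nb cell0 (im t) = {io g • E s, io g • E' s} := by
    ext ρ
    have h0 : ρ ∈ nb cell0 (im t) ↔ ρ ∉ im t ∧ cell0 (insert ρ (im t)) :=
      std.mem_nb (R := im t) hcell
    rw [h0, Finset.mem_insert, Finset.mem_singleton]
    constructor
    · rintro ⟨h1, ⟨g', h2⟩, -⟩
      have h3 : ∀ u, u ≠ s → io g • E u ∈ fr g' :=
        fun u h => h2 (Finset.mem_insert_of_mem (hu u h))
      have h4 : ρ ∈ fr g' := h2 (Finset.mem_insert_self _ _)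
      rcases two_frames g g' s h3 with h5 | h5
      · rw [h5] at h4
        left
        by_contra h6
        apply h1
        rw [hR, Finset.mem_erase]
        exact ⟨h6, h4⟩
      · rw [h5] at h4
        right
        rcases fr_flip g s h4 with h6 | ⟨u, hu', h6⟩
        · exact h6
        · exact absurd (h6 ▸ hu u hu') h1
    · rintro (rfl | rfl)
      · refine ⟨hs, ⟨g, ?_⟩, hsp.mono (Finset.subset_insert _ _)⟩
        intro x hx
        rw [Finset.mem_insert] at hx
        rcases hx with rfl | hx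
        · exact mem_fr_self g s
        · exact hg hx
      · refine ⟨hE', ⟨g * F s, ?_⟩, hsp.mono (Finset.subset_insert _ _)⟩
        intro x hx
        rw [Finset.mem_insert] at hx
        rcases hx with rfl | hx
        · exact flip_mem' g s
        · exact flip_subset hg hs hx
  rw [hnb, Finset.sum_pair hne]
  have h7 : Dt (Fin.cons (io g • E' s) t) = - Dt (Fin.cons (io g • E s) t) := by
    have h8 : Sy (io g • E' s) := (ray_sy (r' s)).smul (io g)
    rw [Dt_cons g s hu h8, cg_E']
    ring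
  rw [sg, sg, h7, Left.sign_neg]
  simp

end Pool.Agent.CG3.Sel
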