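import Pool.Agent.CG3.SelP
import Pool.Agent.CG3.SelH
import Pool.Agent.CG3.ClassOne
import Pool.Agent.CG3.IntPoints

/-!
The cells attached to the points of the adelic group, and freeness of the action.
-/

set_option autoImplicit false

noncomputable section

namespace Pool.Agent.CG3.Sel

open Matrix

theorem exists_io (γ : G) (h : diag γ ∈ KZ) : ∃ g : GL (Fin 3) ℤ, io g = γ := by
  have hent : ∀ δ : G, diag δ ∈ KZ → ∀ i j, ∃ n : ℤ, (n : ℚ) =
      (δ : Matrix (Fin 3) (Fin 3) ℚ) i j := by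
    intro δ hδ i j
    refine IntPoints.exists_int _ fun q => ?_
    have := val_le_one_of_mem_GZ (hδ q) i j
    rwa [diag_apply, loc_apply] at this
  have hinv : diag γ⁻¹ ∈ KZ := by
    rw [map_inv]
    exact KZ.inv_mem h
  choose a ha using hent γ h
  choose b hb using hent γ⁻¹ hinv
  set A : Matrix (Fin 3) (Fin 3) ℤ := Matrix.of a with hA
  set B : Matrix (Fin 3) (Fin 3) ℤ := Matrix.of b with hB
  have hAm : A.map (Int.castRingHom ℚ) = (γ : Matrix (Fin 3) (Fin 3) ℚ) := by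
    ext i j; exact ha i j
  have hBm : B.map (Int.castRingHom ℚ) = ((γ⁻¹ : G) : Matrix (Fin 3) (Fin 3) ℚ) := by
    ext i j; exact hb i j
  have hinj : ∀ M N : Matrix (Fin 3) (Fin 3) ℤ, M.map (Int.castRingHom ℚ) =
      N.map (Int.castRingHom ℚ) → M = N := by
    intro M N hMN
    ext i j
    have := congrFun (congrFun hMN i) j
    exact Int.cast_injective this
  have hAB : A * B = 1 := by
    apply hinj
    rw [Matrix.map_mul, hAm, hBm, Matrix.map_one _ (map_zero _) (map_one _)]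
    exact congrArg Units.val (mul_inv_cancel γ)
  have hBA : B * A = 1 := by
    apply hinj
    rw [Matrix.map_mul, hAm, hBm, Matrix.map_one _ (map_zero _) (map_one _)]
    exact congrArg Units.val (inv_mul_cancel γ)
  refine ⟨⟨A, B, hAB, hBA⟩, ?_⟩
  apply Units.ext
  exact hAm

/-- The points of the adelic space. -/
def Pt : Type := ℤˣ × GA

instance : MulAction G Pt where
  smul γ y := (sgn γ * y.1, diag γ * y.2)
  one_smul y := by
    change (sgn 1 * y.1, diag 1 * y.2) = y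
    rw [map_one, map_one, one_mul, one_mul]
    rfl
  mul_smul γ δ y := by
    change (sgn (γ * δ) * y.1, diag (γ * δ) * y.2) = (sgn γ * (sgn δ * y.1), diag γ * (diag δ * y.2))
    rw [map_mul, map_mul, mul_assoc, mul_assoc]

theorem smul_pt (γ : G) (y : Pt) : γ • y = ((sgn γ * y.1, diag γ * y.2) : ℤˣ × GA) := rfl

/-- The action on rays, as a bijection. -/
def ac (h : G) : V ≃ V := MulAction.toPerm h

theorem ac_apply (h : G) (M : V) : ac h M = h • M := rfl

theorem ac_symm (h : G) : (ac h).symm = ac h⁻¹ := rfl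

theorem mp_ac_mul (h h' : G) (R : Finset V) : mp (ac (h * h')) R = mp (ac h) (mp (ac h') R) := by
  ext x
  rw [mem_mp, mem_mp, mem_mp, ac_symm, ac_symm, ac_symm, ac_apply, ac_apply, ac_apply,
    _root_.mul_inv_rev, mul_smul]

theorem mp_ac_one (R : Finset V) : mp (ac 1) R = R := by
  ext x
  rw [mem_mp, ac_symm, inv_one, ac_apply, one_smul]

theorem im_smul (h : G) {m : ℕ} (t : Fin m → V) : im (h • t) = mp (ac h) (im t) :=
  im_comp (ac h) t

/-- The bases of the lattice of a point. -/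
def lat (y : Pt) (h : G) : Prop := (diag h)⁻¹ * y.2 ∈ KZ

theorem lat_smul (γ : G) (y : Pt) (h : G) : lat (γ • y) (γ * h) ↔ lat y h := by
  have : (diag (γ * h))⁻¹ * (γ • y).2 = (diag h)⁻¹ * y.2 := by
    rw [smul_pt, map_mul, _root_.mul_inv_rev]
    simp [mul_assoc]
  rw [lat, this, lat]

theorem exists_lat (y : Pt) : ∃ h, lat y h := by
  obtain ⟨γ, u, hu, -, hg⟩ := class_one 1 y.2
  refine ⟨γ, ?_⟩
  rw [lat, hg, inv_mul_cancel_left]
  exact hu

theorem lat_unique {y : Pt} {h h' : G} (hh : lat y h) (hh' : lat y h') :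
    ∃ g : GL (Fin 3) ℤ, h' = h * io g := by
  have h1 : diag (h⁻¹ * h') ∈ KZ := by
    have h2 := KZ.mul_mem hh (KZ.inv_mem hh')
    rw [map_mul, map_inv]
    convert h2 using 1
    group
  obtain ⟨g, hg⟩ := exists_io _ h1
  exact ⟨g, by rw [hg, mul_inv_cancel_left]⟩

theorem qv_smul (l : Fin 3 → ℚ) (h : G) (M : V) : qv l (h • M) = qv ((h.1)ᵀ *ᵥ l) M := by
  rw [qv, qv, smul_mat, ← Matrix.mulVec_mulVec, ← Matrix.mulVec_mulVec, Matrix.dotProduct_mulVec,
    Matrix.mulVec_transpose]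

theorem Spn.smul {R : Finset V} (hR : Spn R) (h : G) : Spn (mp (ac h) R) := by
  intro l hl
  have h1 : (h.1)ᵀ *ᵥ l = 0 := by
    apply hR
    intro M hM
    rw [← qv_smul]
    apply hl
    rw [mem_mp, ac_symm, ac_apply, inv_smul_smul]
    exact hM
  have h2 : ((h⁻¹ : G).1)ᵀ *ᵥ ((h.1)ᵀ *ᵥ l) = l := by
    rw [Matrix.mulVec_mulVec, ← Matrix.transpose_mul, ← Units.val_mul, mul_inv_cancel,
      Units.val_one, Matrix.transpose_one, Matrix.one_mulVec]
  rw [← h2, h1, Matrix.mulVec_zero]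

theorem cell0_io {R : Finset V} (hR : cell0 R) (g : GL (Fin 3) ℤ) : cell0 (mp (ac (io g)) R) := by
  obtain ⟨⟨g', hg'⟩, hs⟩ := hR
  refine ⟨⟨g * g', ?_⟩, hs.smul _⟩
  intro M hM
  rw [mem_mp, ac_symm, ac_apply] at hM
  obtain ⟨s, hs⟩ := mem_fr.1 (hg' hM)
  rw [mem_fr]
  refine ⟨s, ?_⟩
  rw [map_mul, mul_smul, hs, smul_inv_smul]

/-- The cells of a point. -/
def cx (y : Pt) (R : Finset V) : Prop := ∃ h, lat y h ∧ cell0 (mp (ac h).symm R)

theorem cx_iff {y : Pt} {h : G} (hh : lat y h) (R : Finset V) :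
    cx y R ↔ cell0 (mp (ac h).symm R) := by
  constructor
  · rintro ⟨h', hh', hc⟩
    obtain ⟨g, hg⟩ := lat_unique hh hh'
    have h1 := cell0_io hc g
    rw [hg, ac_symm, _root_.mul_inv_rev, mp_ac_mul, ← mp_ac_mul, mul_inv_cancel, mp_ac_one] at h1
    exact h1
  · intro hc
    exact ⟨h, hh, hc⟩

/-- The complex of a point. -/
def Xy (y : Pt) : Cx V := std.tr (ac (Classical.epsilon (lat y)))

theorem Xy_cell (y : Pt) : (Xy y).cell = cx y := by
  funext R
  apply propext
  rw [cx_iff (Classical.epsilon_spec (exists_lat y))]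
  rfl

theorem cx_smul (γ : G) (y : Pt) : cx (γ • y) = fun R => cx y (mp (ac γ).symm R) := by
  funext R
  apply propext
  obtain ⟨h, hh⟩ := exists_lat y
  rw [cx_iff hh, cx_iff ((lat_smul γ y h).2 hh), ac_symm, ac_symm, ac_symm, ← mp_ac_mul,
    _root_.mul_inv_rev]

theorem Xy_base_card (y : Pt) : (Xy y).base.card = 6 := by
  change (mp _ (fr g0)).card = 6
  rw [card_mp, card_fr]

end Pool.Agent.CG3.Sel
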