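import Pool.Agent.CG3.SelR

/-!
The modules of alternating functions on the cells with values in the coefficients.
-/

set_option autoImplicit false

noncomputable section

namespace Pool.Agent.CG3.Sel

open CategoryTheory

variable {p : P} {S : Finset P} {O : Type} [CommRing O] {W : Type} [AddCommGroup W] [Module O W]

/-- The component at `p`. -/
def kp (L : Level p S) (k : L.Kf) : L.K p := ⟨k.1.1 p, k.2 p⟩

/-- Right translation of a point. -/
def rt (L : Level p S) (y : Pt) (k : L.Kf) : Pt := (y.1, y.2 * k.1)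

theorem rt_smul (L : Level p S) (γ : G) (y : Pt) (k : L.Kf) : γ • rt L y k = rt L (γ • y) k := by
  rw [smul_pt, smul_pt, rt, rt, mul_assoc]

theorem lat_rt (L : Level p S) (hK : ∀ ℓ, L.K ℓ ≤ GZ ℓ) (y : Pt) (k : L.Kf) :
    lat (rt L y k) = lat y := by
  have hk : k.1 ∈ KZ := fun q => hK q (k.2 q)
  funext h
  apply propext
  rw [lat, lat, rt, ← mul_assoc]
  exact KZ.mul_mem_cancel_right hk

theorem cx_rt (L : Level p S) (hK : ∀ ℓ, L.K ℓ ≤ GZ ℓ) (y : Pt) (k : L.Kf) :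
    cx (rt L y k) = cx y := by
  funext R
  rw [cx, cx, lat_rt L hK]

theorem Xy_rt (L : Level p S) (hK : ∀ ℓ, L.K ℓ ≤ GZ ℓ) (y : Pt) (k : L.Kf) :
    Xy (rt L y k) = Xy y := by
  rw [Xy, Xy, lat_rt L hK]

theorem qt_rt (L : Level p S) (y : Pt) (k : L.Kf) (R : Finset V) : qt L (rt L y k) R = qt L y R := by
  have h : ((y.2 * k.1 : GA) : GA ⧸ L.Kf) = (y.2 : GA ⧸ L.Kf) := by
    apply QuotientGroup.eq.2
    rw [mul_inv_rev, mul_assoc, inv_mul_cancel, mul_one]
    exact L.Kf.inv_mem k.2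
  change (y.1, ((y.2 * k.1 : GA) : GA ⧸ L.Kf), R) = (y.1, (y.2 : GA ⧸ L.Kf), R)
  rw [h]

/-- Alternating functions on the cells. -/
def En (L : Level p S) (σ : Representation O (L.K p) W) (m : ℕ) :
    Submodule O (Pt × (Fin m → V) → W) where
  carrier := {φ | (∀ y, Altc (cx y) fun t => φ (y, t)) ∧
    ∀ (y : Pt) (k : L.Kf) (t : Fin m → V), φ (rt L y k, t) = σ (kp L k)⁻¹ (φ (y, t))}
  add_mem' := by
    rintro a b ⟨ha, ha'⟩ ⟨hb, hb'⟩
    refine ⟨fun y => (ha y).add (hb y), fun y k t => ?_⟩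
    simp only [Pi.add_apply, ha', hb', map_add]
  zero_mem' := ⟨fun y => Altc.zero, fun y k t => by simp⟩
  smul_mem' := by
    rintro c a ⟨ha, ha'⟩
    refine ⟨fun y => (ha y).map (DistribSMul.toAddMonoidHom W c), fun y k t => ?_⟩
    simp only [Pi.smul_apply, ha', map_smul]

theorem en_stable (L : Level p S) (σ : Representation O (L.K p) W) (m : ℕ) (γ : G) :
    ∀ φ ∈ En L σ m, (fun y : Pt × (Fin m → V) => φ (γ⁻¹ • y)) ∈ En L σ m := by
  rintro φ ⟨h1, h2⟩
  refine ⟨fun y => ?_, fun y k t => ?_⟩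
  · have h3 := altc_comp' (cx (γ⁻¹ • y)) (ac γ) (h1 (γ⁻¹ • y))
    rw [← cx_smul, smul_inv_smul] at h3
    exact h3
  · change φ (γ⁻¹ • rt L y k, γ⁻¹ • t) = σ (kp L k)⁻¹ (φ (γ⁻¹ • y, γ⁻¹ • t))
    rw [rt_smul, h2]

/-- The functions with vanishing differential. -/
def Zn (L : Level p S) (σ : Representation O (L.K p) W) (m : ℕ) :
    Submodule O (Pt × (Fin (m + 1) → V) → W) where
  carrier := {φ | φ ∈ En L σ (m + 1) ∧ ∀ (y : Pt) (t : Fin m → V),
    dc (cx y) (fun t => φ (y, t)) t = 0}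
  add_mem' := by
    rintro a b ⟨ha, ha'⟩ ⟨hb, hb'⟩
    refine ⟨(En L σ (m + 1)).add_mem ha hb, fun y t => ?_⟩
    have h1 : (fun t => (a + b) (y, t)) = (fun t => a (y, t)) + fun t => b (y, t) := rfl
    have h2 := congrFun (Cx.d_add (X := Xy y) (fun t => a (y, t)) fun t => b (y, t)) t
    rw [Cx.d_eq, Cx.d_eq, Cx.d_eq, Pi.add_apply, Xy_cell, ha', hb', add_zero] at h2
    rw [h1]
    exact h2
  zero_mem' := by
    refine ⟨(En L σ (m + 1)).zero_mem, fun y t => ?_⟩
    have := dc_map (cx y) (fun t : Fin (m + 1) → V => (0 : W)) (0 : W →+ W) t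
    simpa using this
  smul_mem' := by
    rintro c a ⟨ha, ha'⟩
    refine ⟨(En L σ (m + 1)).smul_mem c ha, fun y t => ?_⟩
    have := dc_map (cx y) (fun t => a (y, t)) (DistribSMul.toAddMonoidHom W c) t
    rw [ha', map_zero] at this
    exact this

theorem dc_smul (γ : G) (y : Pt) {m : ℕ} (φ : Pt × (Fin (m + 1) → V) → W) (t : Fin m → V) :
    dc (cx y) (fun t => φ (γ⁻¹ • (y, t))) t = dc (cx (γ⁻¹ • y)) (fun t => φ (γ⁻¹ • y, t)) (γ⁻¹ • t) := by
  have h1 : cx y = fun R => cx (γ⁻¹ • y) (mp (ac γ).symm R) := by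
    rw [← cx_smul, smul_inv_smul]
  have h2 : t = (ac γ) ∘ (γ⁻¹ • t) := by
    change t = γ • γ⁻¹ • t
    rw [smul_inv_smul]
  conv_lhs => rw [h1, h2]
  rw [dc_comp]
  congr 1
  funext t'
  change φ (γ⁻¹ • y, γ⁻¹ • γ • t') = φ (γ⁻¹ • y, t')
  rw [inv_smul_smul]

theorem zn_stable (L : Level p S) (σ : Representation O (L.K p) W) (m : ℕ) (γ : G) :
    ∀ φ ∈ Zn L σ m, (fun y : Pt × (Fin (m + 1) → V) => φ (γ⁻¹ • y)) ∈ Zn L σ m := by
  rintro φ ⟨h1, h2⟩
  refine ⟨en_stable L σ (m + 1) γ φ h1, fun y t => ?_⟩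
  rw [dc_smul, h2]

/-- The differential. -/
def Dn (L : Level p S) (hK : ∀ ℓ, L.K ℓ ≤ GZ ℓ) (σ : Representation O (L.K p) W) (m : ℕ) :
    En L σ (m + 2) →ₗ[O] Zn L σ m where
  toFun φ := ⟨fun y => dc (cx y.1) (fun t => φ.1 (y.1, t)) y.2, by
    have ha : ∀ y, (Xy y).Alt fun t => φ.1 (y, t) := by
      intro y
      rw [Cx.alt_iff, Xy_cell]
      exact φ.2.1 y
    refine ⟨⟨fun y => ?_, fun y k t => ?_⟩, fun y t => ?_⟩
    · have h1 := (ha y).d
      rw [Cx.alt_iff, Xy_cell] at h1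
      have h2 : (Xy y).d (fun t => φ.1 (y, t)) = fun t => dc (cx y) (fun t => φ.1 (y, t)) t := by
        rw [Cx.d_eq, Xy_cell]
      rw [h2] at h1
      exact h1
    · change dc (cx (rt L y k)) (fun t => φ.1 (rt L y k, t)) t =
        σ (kp L k)⁻¹ (dc (cx y) (fun t => φ.1 (y, t)) t)
      rw [cx_rt L hK]
      have h1 : (fun t => φ.1 (rt L y k, t)) =
          fun t => (σ (kp L k)⁻¹ : W →ₗ[O] W).toAddMonoidHom (φ.1 (y, t)) := by
        funext t
        exact φ.2.2 y k t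
      rw [h1, dc_map]
      rfl
    · have h1 := Cx.d_d (ha y)
      have h2 := congrFun h1 t
      rw [Cx.d_eq, Cx.d_eq, Xy_cell] at h2
      exact h2⟩
  map_add' a b := by
    apply Subtype.ext
    funext y
    have h2 := congrFun (Cx.d_add (X := Xy y.1) (fun t => a.1 (y.1, t)) fun t => b.1 (y.1, t)) y.2
    rw [Cx.d_eq, Cx.d_eq, Cx.d_eq, Pi.add_apply, Xy_cell] at h2
    exact h2
  map_smul' c a := by
    apply Subtype.ext
    funext y
    exact dc_map (cx y.1) (fun t => a.1 (y.1, t)) (DistribSMul.toAddMonoidHom W c) y.2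

theorem Dn_apply (L : Level p S) (hK : ∀ ℓ, L.K ℓ ≤ GZ ℓ) (σ : Representation O (L.K p) W) (m : ℕ)
    (φ : En L σ (m + 2)) (y : Pt × (Fin (m + 1) → V)) :
    (Dn L hK σ m φ).1 y = dc (cx y.1) (fun t => φ.1 (y.1, t)) y.2 := rfl

/-- Exactness. -/
theorem Dn_surj (L : Level p S) (hK : ∀ ℓ, L.K ℓ ≤ GZ ℓ) (σ : Representation O (L.K p) W) (m : ℕ)
    (hm : 6 ≠ m + 1) : Function.Surjective (Dn L hK σ m) := by
  intro φ
  have ha : ∀ y, (Xy y).Alt fun t => φ.1 (y, t) := by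
    intro y
    rw [Cx.alt_iff, Xy_cell]
    exact φ.2.1.1 y
  have hd : ∀ y, (Xy y).d (fun t => φ.1 (y, t)) = 0 := by
    intro y
    funext t
    rw [Cx.d_eq, Xy_cell]
    exact φ.2.2 y t
  choose ψ h1 h2 h3 using fun y => Cx.exact (ha y) (hd y) (by rw [Xy_base_card]; exact hm)
  have hmem : (fun y : Pt × (Fin (m + 2) → V) => ψ y.1 y.2) ∈ En L σ (m + 2) := by
    refine ⟨fun y => ?_, fun y k t => ?_⟩
    · have := h1 y
      rw [Cx.alt_iff, Xy_cell] at this
      exact this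
    · change ψ (rt L y k) t = σ (kp L k)⁻¹ (ψ y t)
      have e1 := h1 (rt L y k)
      have e2 := h2 (rt L y k)
      have e3 := h3 (rt L y k)
      rw [Xy_rt L hK] at e1 e2 e3
      set f : W →+ W := (σ (kp L k)⁻¹ : W →ₗ[O] W).toAddMonoidHom with hf
      have e4 : (Xy y).Alt fun t => f (ψ y t) := Altc.map (h1 y) f
      have e5 : (Xy y).Norm fun t => f (ψ y t) := by
        intro t ht
        apply h2 y t
        intro h0
        apply ht
        change f (ψ y t) = 0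
        rw [h0, map_zero]
      have e6 : (Xy y).d (ψ (rt L y k)) = (Xy y).d fun t => f (ψ y t) := by
        rw [e3]
        funext t
        rw [Cx.d_eq, dc_map, ← Cx.d_eq, h3 y]
        exact φ.2.1.2 y k t
      exact congrFun (Cx.norm_uniq e1 e4 e2 e5 e6) t
  refine ⟨⟨_, hmem⟩, ?_⟩
  apply Subtype.ext
  funext y
  rw [Dn_apply]
  have := congrFun (h3 y.1) y.2
  rw [Cx.d_eq, Xy_cell] at this
  exact this

/-- The representations. -/
abbrev RE (L : Level p S) (σ : Representation O (L.K p) W) (m : ℕ) : Rep O G :=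
  Rep.of (fRep (En L σ m) (fun γ φ hφ => en_stable L σ m γ φ hφ))

/-- The representations. -/
abbrev RZ (L : Level p S) (σ : Representation O (L.K p) W) (m : ℕ) : Rep O G :=
  Rep.of (fRep (Zn L σ m) (fun γ φ hφ => zn_stable L σ m γ φ hφ))

/-- The differential as a morphism. -/
def DnR (L : Level p S) (hK : ∀ ℓ, L.K ℓ ≤ GZ ℓ) (σ : Representation O (L.K p) W) (m : ℕ) :
    RE L σ (m + 2) ⟶ RZ L σ m :=
  Rep.ofHom
    { toLinearMap := Dn L hK σ m
      isIntertwining' := by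
        intro γ
        apply LinearMap.ext
        intro φ
        apply Subtype.ext
        funext y
        exact dc_smul γ y.1 φ.1 y.2 }

/-- The inclusion as a morphism. -/
def inR (L : Level p S) (σ : Representation O (L.K p) W) (m : ℕ) :
    RZ L σ m ⟶ RE L σ (m + 1) :=
  Rep.ofHom
    { toLinearMap :=
        { toFun := fun φ => ⟨φ.1, φ.2.1⟩
          map_add' := fun _ _ => rfl
          map_smul' := fun _ _ => rfl }
      isIntertwining' := by
        intro γ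
        apply LinearMap.ext
        intro φ
        apply Subtype.ext
        rfl }

/-- Acyclicity. -/
theorem RE_acyc (L : Level p S) (hTF : L.TorsionFree)
    (σ : Representation O (L.K p) W) (m n : ℕ) :
    Subsingleton (groupCohomology (RE L σ m) (n + 1)) := by
  obtain ⟨s, hs⟩ := exists_section hTF
  refine acyc (En L σ m) _ {y | ctc (cx y.1) y.2} ?_ (fun y => s (qt L y.1 (im y.2))) ?_ ?_ n
  · intro φ hφ y hy
    by_contra h
    exact hy ((hφ.1 y.1).1 y.2 h)
  · intro γ y hy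
    have := hs γ y.1 (im y.2) hy.2
    rw [← im_smul] at this
    exact this
  · intro F hF
    refine ⟨fun y => ⟨fun t ht => ?_, fun t π => ?_⟩, fun y k t => ?_⟩
    · exact ((hF _).1 y).1 t ht
    · simp only [im_perm]
      exact ((hF _).1 y).2 t π
    · change F (s (qt L (rt L y k) (im t))) (rt L y k, t) = _
      rw [qt_rt]
      exact (hF _).2 y k t

theorem no_small_cell0 {t : Fin 2 → V} : ¬ cell0 (im t) := by
  rintro ⟨⟨g, hg⟩, hs⟩
  have h1 : ∀ i, ∃ v : Fin 3 → ℤ, t i = ray v := by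
    intro i
    obtain ⟨s, hs⟩ := mem_fr.1 (hg (mem_im.2 ⟨i, rfl⟩))
    exact ⟨_, by rw [← hs, gE]⟩
  choose v hv using h1
  set A : Matrix (Fin 3) (Fin 3) ℚ := Matrix.of ![fun j => (v 0 j : ℚ), fun j => (v 1 j : ℚ),
    fun j => (v 1 j : ℚ)] with hA
  have hdet : A.det = 0 := Matrix.det_zero_of_row_eq (i := 1) (j := 2) (by decide) rfl
  obtain ⟨l, hl, hl'⟩ := Matrix.exists_mulVec_eq_zero_iff.2 hdet
  apply hl
  apply hs
  intro M hM
  obtain ⟨i, rfl⟩ := mem_im.1 hM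
  rw [hv i, qv_ray]
  have h2 : ∑ j, l j * (v i j : ℚ) = 0 := by
    have h3 : ∀ k, ∑ j, A k j * l j = 0 := fun k => congrFun hl' k
    fin_cases i
    · have := h3 0
      simpa [hA, mul_comm] using this
    · have := h3 1
      simpa [hA, mul_comm] using this
  rw [h2]
  simp

theorem no_small_cell (y : Pt) {t : Fin 2 → V} : ¬ ctc (cx y) t := by
  rintro ⟨hinj, h, -, hc⟩
  rw [ac_symm, ← im_smul] at hc
  exact no_small_cell0 hc

theorem RZ_two (L : Level p S) (hTF : L.TorsionFree)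
    (σ : Representation O (L.K p) W) (n : ℕ) :
    Subsingleton (groupCohomology (RZ L σ 2) (n + 1)) := by
  obtain ⟨s, hs⟩ := exists_section hTF
  refine acyc (Zn L σ 2) _ {y | ctc (cx y.1) y.2} ?_ (fun y => s (qt L y.1 (im y.2))) ?_ ?_ n
  · intro φ hφ y hy
    by_contra h
    exact hy ((hφ.1.1 y.1).1 y.2 h)
  · intro γ y hy
    have := hs γ y.1 (im y.2) hy.2
    rw [← im_smul] at this
    exact this
  · intro F hF
    refine ⟨⟨fun y => ⟨fun t ht => ?_, fun t π => ?_⟩, fun y k t => ?_⟩, fun y t => ?_⟩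
    · exact ((hF _).1.1 y).1 t ht
    · simp only [im_perm]
      exact ((hF _).1.1 y).2 t π
    · change F (s (qt L (rt L y k) (im t))) (rt L y k, t) = _
      rw [qt_rt]
      exact (hF _).1.2 y k t
    · rw [dc, if_neg (no_small_cell y)]

theorem RZ_step (L : Level p S) (hK : ∀ ℓ, L.K ℓ ≤ GZ ℓ) (hTF : L.TorsionFree)
    (σ : Representation O (L.K p) W) (m n : ℕ) (hm : 6 ≠ m + 1)
    (h : Subsingleton (groupCohomology (RZ L σ m) n)) :
    Subsingleton (groupCohomology (RZ L σ (m + 1)) (n + 1)) := by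
  refine shift (inR L σ (m + 1)) (DnR L hK σ m) ?_ ?_ ?_ ?_ n (RE_acyc L hTF σ _ n) h
  · intro φ ψ hφ
    apply Subtype.ext
    exact congrArg (fun a : En L σ (m + 2) => a.1) hφ
  · exact Dn_surj L hK σ m hm
  · intro φ
    apply Subtype.ext
    funext y
    exact (φ : Zn L σ (m + 1)).2.2 y.1 y.2
  · intro φ hφ
    refine ⟨(⟨(φ : En L σ (m + 2)).1, (φ : En L σ (m + 2)).2, fun y t => ?_⟩ : Zn L σ (m + 1)), ?_⟩
    · exact congrArg (fun a : Zn L σ m => a.1 (y, t)) hφ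
    · rfl

end Pool.Agent.CG3.Sel
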