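import Pool.Agent.CG3.SelS

/-!
# B: the cohomology vanishes in degrees at least four
-/

set_option autoImplicit false

noncomputable section

namespace Pool.Agent.CG3.Sel

open CategoryTheory

variable {p : P} {S : Finset P} {O : Type} [CommRing O] {W : Type} [AddCommGroup W] [Module O W]

theorem sy_of_ctc {y : Pt} {m : ℕ} {t : Fin m → V} (h : ctc (cx y) t) (i : Fin m) : Sy (t i) := by
  obtain ⟨-, h, -, ⟨g, hg⟩, -⟩ := h
  have h1 : (h⁻¹ : G) • t i ∈ fr g := by
    apply hg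
    rw [mem_mp, ac_symm, ac_symm, inv_inv, ac_apply, smul_inv_smul]
    exact mem_im.2 ⟨i, rfl⟩
  have h2 := (sy_of_mem h1).smul h
  rwa [smul_inv_smul] at h2

theorem card_le_of_cx {y : Pt} {R : Finset V} (h : cx y R) : R.card ≤ 6 := by
  obtain ⟨h, -, ⟨g, hg⟩, -⟩ := h
  have h1 := Finset.card_le_card hg
  rwa [card_mp, card_fr] at h1

theorem Dt_of_ctc {y : Pt} {t : Fin 6 → V} (h : ctc (cx y) t) : Dt t ≠ 0 := by
  have hsy := sy_of_ctc h
  obtain ⟨hinj, h, -, ⟨g, hg⟩, -⟩ := h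
  have h1 : t = h • ((h⁻¹ : G) • t) := by rw [smul_inv_smul]
  have h2 : Dt ((h⁻¹ : G) • t) ≠ 0 := by
    apply Dt_frame (g := g)
    · exact (comp_inj (ac h⁻¹)).2 hinj
    · rw [im_smul]
      exact hg
  rw [h1, Dt_smul]
  · exact mul_ne_zero (det_Ch_pos h).ne' h2
  · intro i
    exact (hsy i).smul h⁻¹

theorem ctc_smul (γ : G) (y : Pt) {m : ℕ} (t : Fin m → V) :
    ctc (cx (γ⁻¹ • y)) (γ⁻¹ • t) ↔ ctc (cx y) t := by
  have h1 : cx y = fun R => cx (γ⁻¹ • y) (mp (ac γ).symm R) := by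
    rw [← cx_smul, smul_inv_smul]
  have h2 : t = (ac γ) ∘ (γ⁻¹ • t) := by
    change t = γ • γ⁻¹ • t
    rw [smul_inv_smul]
  conv_rhs => rw [h1, h2]
  rw [ctc_comp]

open Classical in
/-- The oriented constant functions. -/
def au (y : Pt) (w : W) (t : Fin 6 → V) : W := if ctc (cx y) t then sg t • w else 0

theorem au_altc (y : Pt) (w : W) : Altc (cx y) (au y w) := by
  refine ⟨fun t ht => ?_, fun t π => ?_⟩
  · by_contra h
    exact ht (by rw [au, if_neg h])
  · have h1 : ctc (cx y) (t ∘ π) ↔ ctc (cx y) t := by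
      rw [ctc, ctc, inj_perm, im_perm]
    by_cases h : ctc (cx y) t
    · rw [au, au, if_pos h, if_pos (h1.2 h), sg_perm, mul_smul]
    · rw [au, au, if_neg h, if_neg fun h2 => h (h1.1 h2), smul_zero]

theorem au_map {W' : Type} [AddCommGroup W'] (f : W →+ W') (y : Pt) (w : W) (t : Fin 6 → V) :
    au y (f w) t = f (au y w t) := by
  rw [au, au]
  split_ifs
  · rw [map_zsmul]
  · rw [map_zero]

theorem au_smul (γ : G) (y : Pt) (w : W) (t : Fin 6 → V) :
    au (γ⁻¹ • y) w (γ⁻¹ • t) = au y w t := by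
  by_cases h : ctc (cx y) t
  · rw [au, au, if_pos h, if_pos ((ctc_smul γ y t).2 h), sg_smul _ (sy_of_ctc h)]
  · rw [au, au, if_neg h, if_neg fun h2 => h ((ctc_smul γ y t).1 h2)]

theorem dc_au (y : Pt) (w : W) (t : Fin 5 → V) : dc (cx y) (au y w) t = 0 := by
  by_cases ht : ctc (cx y) t
  swap
  · rw [dc, if_neg ht]
  obtain ⟨h, hh⟩ := exists_lat y
  have h1 : cx y = fun R => cell0 (mp (ac h).symm R) := by
    funext R
    exact propext (cx_iff hh R)
  have h2 : t = (ac h) ∘ (h⁻¹ • t) := by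
    change t = h • h⁻¹ • t
    rw [smul_inv_smul]
  have h3 : dc (cx y) (au y w) t = dc cell0 (fun t' => au y w (ac h ∘ t')) (h⁻¹ • t) := by
    conv_lhs => rw [h1, h2]
    rw [dc_comp]
  have ht' : std.ct (h⁻¹ • t) := by
    rw [h2, h1, ctc_comp] at ht
    exact ht
  have ht'' : ctc cell0 (h⁻¹ • t) := ht'
  rw [h3, dc, if_pos ht'']
  have h4 : ∀ ρ ∈ nb cell0 (im (h⁻¹ • t)), au y w (ac h ∘ (Fin.cons ρ (h⁻¹ • t) : Fin 6 → V)) =
      sg (Fin.cons ρ (h⁻¹ • t) : Fin 6 → V) • w := by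
    intro ρ hρ
    have h5 : std.ct (Fin.cons ρ (h⁻¹ • t) : Fin 6 → V) := (std.ct_cons ht').2 hρ
    have h6 : ctc (cx y) (ac h ∘ (Fin.cons ρ (h⁻¹ • t) : Fin 6 → V)) := by
      rw [h1, ctc_comp]
      exact h5
    rw [au, if_pos h6]
    have h7 : sg (ac h ∘ (Fin.cons ρ (h⁻¹ • t) : Fin 6 → V)) =
        sg (Fin.cons ρ (h⁻¹ • t) : Fin 6 → V) := by
      apply sg_smul
      obtain ⟨-, ⟨g, hg⟩, -⟩ := h5
      intro i
      exact sy_of_mem (hg (mem_im.2 ⟨i, rfl⟩))
    rw [h7]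
  rw [Finset.sum_congr rfl h4, ← Finset.sum_smul, sum_sg ht', zero_smul]

/-- The augmentation. -/
def Au (L : Level p S) (hK : ∀ ℓ, L.K ℓ ≤ GZ ℓ) (σ : Representation O (L.K p) W) :
    Forms L σ →ₗ[O] En L σ 6 where
  toFun f := ⟨fun y => au y.1 (f.1 y.1) y.2, by
    refine ⟨fun y => au_altc y (f.1 y), fun y k t => ?_⟩
    change au (rt L y k) (f.1 (rt L y k)) t = σ (kp L k)⁻¹ (au y (f.1 y) t)
    have h1 : f.1 (rt L y k) = (σ (kp L k)⁻¹ : W →ₗ[O] W).toAddMonoidHom (f.1 y) :=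
      f.2 y.1 y.2 k
    rw [h1, au_map]
    have h2 : au (rt L y k) (f.1 y) t = au y (f.1 y) t := by
      rw [au, au, cx_rt L hK]
    rw [h2]
    rfl⟩
  map_add' a b := by
    apply Subtype.ext
    funext y
    change au y.1 (a.1 y.1 + b.1 y.1) y.2 = au y.1 (a.1 y.1) y.2 + au y.1 (b.1 y.1) y.2
    rw [au, au, au]
    split_ifs
    · rw [smul_add]
    · rw [add_zero]
  map_smul' c a := by
    apply Subtype.ext
    funext y
    exact au_map (DistribSMul.toAddMonoidHom W c) y.1 (a.1 y.1) y.2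

theorem Au_apply (L : Level p S) (hK : ∀ ℓ, L.K ℓ ≤ GZ ℓ) (σ : Representation O (L.K p) W)
    (f : Forms L σ) (y : Pt × (Fin 6 → V)) : (Au L hK σ f).1 y = au y.1 (f.1 y.1) y.2 := rfl

/-- The augmentation as a morphism. -/
def AuR (L : Level p S) (hK : ∀ ℓ, L.K ℓ ≤ GZ ℓ) (σ : Representation O (L.K p) W) :
    coeff L σ ⟶ RE L σ 6 :=
  Rep.ofHom
    { toLinearMap := Au L hK σ
      isIntertwining' := by
        intro γ
        apply LinearMap.ext
        intro f
        apply Subtype.ext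
        funext y
        change au y.1 (f.1 ((sgn γ)⁻¹ * y.1.1, (diag γ)⁻¹ * y.1.2)) y.2 =
          au (γ⁻¹ • y.1) (f.1 (γ⁻¹ • y.1)) (γ⁻¹ • y.2)
        rw [au_smul, smul_pt, map_inv, map_inv] }

/-- The base tuple of a point. -/
def tb (y : Pt) : Fin 6 → V := fun i => ac (Classical.epsilon (lat y)) (io g0 • E i)

theorem tb_inj (y : Pt) : Function.Injective (tb y) := by
  intro i j hij
  exact smulE_inj g0 ((ac _).injective hij)

theorem im_tb (y : Pt) : im (tb y) = (Xy y).base := by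
  change im ((ac (Classical.epsilon (lat y))) ∘ fun i => io g0 • E i) = mp _ (fr g0)
  rw [im_comp]
  rfl

theorem tb_ctc (y : Pt) : ctc (cx y) (tb y) := by
  refine ⟨tb_inj y, ?_⟩
  rw [im_tb, cx_iff (Classical.epsilon_spec (exists_lat y))]
  change cell0 (mp _ (mp _ (fr g0)))
  rw [mp_symm_mp]
  exact (show Top (fr g0) g0 from
    ⟨Finset.Subset.refl _, fun s hs => absurd (mem_fr_self g0 s) hs⟩).cell0

theorem tb_rt (L : Level p S) (hK : ∀ ℓ, L.K ℓ ≤ GZ ℓ) (y : Pt) (k : L.Kf) :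
    tb (rt L y k) = tb y := by
  funext i
  change ac (Classical.epsilon (lat (rt L y k))) (io g0 • E i) =
    ac (Classical.epsilon (lat y)) (io g0 • E i)
  rw [lat_rt L hK]

theorem exists_perm {m : ℕ} {t t' : Fin m → V} (h : Function.Injective t) (him : im t = im t') : ∃ π : Equiv.Perm (Fin m), t = t' ∘ π := by
  have h1 : ∀ i, ∃ j, t' j = t i := fun i => mem_im.1 (him ▸ mem_im.2 ⟨i, rfl⟩)
  choose a ha using h1
  have hainj : Function.Injective a := by
    intro i j hij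
    apply h
    rw [← ha, ← ha, hij]
  refine ⟨Equiv.ofBijective a hainj.bijective_of_finite, ?_⟩
  funext i
  exact (ha i).symm

theorem eq_au {y : Pt} {φ : (Fin 6 → V) → W} (hφ : Altc (cx y) φ) (hd : ∀ t, dc (cx y) φ t = 0) :
    φ = au y (sg (tb y) • φ (tb y)) := by
  set w := sg (tb y) • φ (tb y) with hw
  have ha : (Xy y).Alt φ := by rw [Cx.alt_iff, Xy_cell]; exact hφ
  have hb : (Xy y).Alt (au y w) := by rw [Cx.alt_iff, Xy_cell]; exact au_altc y w
  have h4 : φ + -(au y w) = 0 := by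
    apply Cx.uniq (ha.add hb.neg)
    · intro t ht
      by_contra hne
      have h5 := (ha.add hb.neg).1 t hne
      obtain ⟨π, hπ⟩ := exists_perm (t' := tb y) h5.1 (by rw [ht, im_tb])
      apply hne
      rw [Pi.add_apply, Pi.neg_apply, hπ, hφ.2, (au_altc y w).2, au, if_pos (tb_ctc y), hw,
        smul_smul (sg (tb y)) (sg (tb y)), sg_sq (Dt_of_ctc (tb_ctc y)), one_smul, add_neg_cancel]
    · intro t ht hbs hs
      exfalso
      have h5 := (Xy y).ins _ ht.2 hbs hs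
      rw [Xy_cell] at h5
      have h6 := card_le_of_cx h5.1
      rw [Finset.card_insert_of_notMem hs, card_im ht.1] at h6
      omega
    · intro t _ _ _
      rw [Cx.d_add, Cx.d_neg, Cx.d_eq, Cx.d_eq, Xy_cell, Pi.add_apply, Pi.neg_apply, hd, dc_au,
        neg_zero, add_zero]
  rw [← sub_eq_add_neg, sub_eq_zero] at h4
  exact h4

end Pool.Agent.CG3.Sel

namespace Pool.Agent.CG3

open CategoryTheory Sel

variable {p : P} {S : Finset P} {O : Type} [CommRing O]

/-- **B** -/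
theorem upper (L : Level p S) (hK : ∀ ℓ, L.K ℓ ≤ GZ ℓ) (hTF : L.TorsionFree)
    {W : Type} [AddCommGroup W] [Module O W] (σ : Representation O (L.K p) W) (i : ℕ)
    (hi : 4 ≤ i) : Subsingleton (groupCohomology (coeff L σ) i) := by
  obtain ⟨j, rfl⟩ := Nat.exists_eq_add_of_le' hi
  have h1 := RZ_two L hTF σ j
  have h2 := RZ_step L hK hTF σ 2 (j + 1) (by norm_num) h1
  have h3 := RZ_step L hK hTF σ 3 (j + 2) (by norm_num) h2
  refine shift (AuR L hK σ) (DnR L hK σ 4) ?_ ?_ ?_ ?_ (j + 3) (RE_acyc L hTF σ 6 (j + 3)) h3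
  · intro f f' hff
    apply Subtype.ext
    funext y
    have h4 := congrArg (fun a : En L σ 6 => a.1 (y, tb y)) hff
    have h5 : au y ((f : Forms L σ).1 y) (tb y) = au y ((f' : Forms L σ).1 y) (tb y) := h4
    rw [au, au, if_pos (tb_ctc y), if_pos (tb_ctc y)] at h5
    have h6 := congrArg (fun w => sg (tb y) • w) h5
    simp only [← mul_smul] at h6
    rw [sg_sq (Dt_of_ctc (tb_ctc y)), one_smul, one_smul] at h6
    exact h6
  · exact Dn_surj L hK σ 4 (by norm_num)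
  · intro f
    apply Subtype.ext
    funext y
    exact dc_au (W := W) y.1 ((f : Forms L σ).1 y.1) y.2
  · intro φ hφ
    have hd : ∀ y t, dc (cx y) (fun t => (φ : En L σ 6).1 (y, t)) t = 0 := by
      intro y t
      exact congrArg (fun a : Zn L σ 4 => a.1 (y, t)) hφ
    have h5 : ∀ y, (fun t => (φ : En L σ 6).1 (y, t)) =
        au y (sg (tb y) • (φ : En L σ 6).1 (y, tb y)) :=
      fun y => eq_au ((φ : En L σ 6).2.1 y) (hd y)
    refine ⟨(⟨fun y => sg (tb y) • (φ : En L σ 6).1 (y, tb y), ?_⟩ : Forms L σ), ?_⟩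
    · intro x g k
      change sg (tb (rt L (x, g) k)) • (φ : En L σ 6).1 (rt L (x, g) k, tb (rt L (x, g) k)) = _
      rw [tb_rt L hK, (φ : En L σ 6).2.2, map_zsmul]
      rfl
    · apply Subtype.ext
      funext y
      exact (congrFun (h5 y.1) y.2).symm

end Pool.Agent.CG3
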